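import Mathlib

/-!
# A linear programming bound for binary linear codes by a covering argument

Navon and Samorodnitsky. `C` is a linear code in `F_2 ^ n` all whose nonzero words have weight at
least `n / 3`.
-/

set_option autoImplicit false

open Module

namespace Pool.Agent.Helper81.SBA

section cv

variable {n : ℕ}

/-- The weight. -/
def wt (x : Fin n → ZMod 2) : ℕ := (Finset.univ.filter fun t => x t ≠ 0).card

/-- The unit vectors. -/
def ue (i : Fin n) : Fin n → ZMod 2 := fun t => if t = i then 1 else 0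

/-- The sum over the neighbours. -/
def nb (f : (Fin n → ZMod 2) → ℝ) (x : Fin n → ZMod 2) : ℝ := ∑ i, f (x + ue i)

/-- The character `(-1) ^ (x · y)`. -/
def chr (x y : Fin n → ZMod 2) : ℝ := if ∑ i, x i * y i = 0 then 1 else -1

/-- The Fourier transform. -/
noncomputable def ft (f : (Fin n → ZMod 2) → ℝ) (y : Fin n → ZMod 2) : ℝ := ∑ x, f x * chr x y

/-- PROOF. `chr (x + x') y = chr x y * chr x' y`, as `ZMod 2` has two elements. -/
theorem chr_add (x x' y : Fin n → ZMod 2) : chr (x + x') y = chr x y * chr x' y := by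
  have h1 : ∑ i, (x + x') i * y i = ∑ i, x i * y i + ∑ i, x' i * y i := by
    rw [← Finset.sum_add_distrib]
    exact Finset.sum_congr rfl fun i _ => by rw [Pi.add_apply, add_mul]
  unfold chr
  rw [h1]
  generalize ∑ i, x i * y i = a
  generalize ∑ i, x' i * y i = b
  have h2 : ∀ c : ZMod 2, c = 0 ∨ c = 1 := by decide
  have h3 : (1 : ZMod 2) ≠ 0 := by decide
  have h4 : (1 : ZMod 2) + 1 = 0 := by decide
  rcases h2 a with rfl | rfl <;> rcases h2 b with rfl | rfl
  · simp
  · simp [h3]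
  · simp [h3]
  · rw [h4, if_pos rfl, if_neg h3]
    norm_num

private theorem CV1_comm (x y : Fin n → ZMod 2) : chr x y = chr y x := by
  unfold chr
  rw [Finset.sum_congr rfl fun i _ => mul_comm (x i) (y i)]

private theorem CV1_add' (x y y' : Fin n → ZMod 2) : chr x (y + y') = chr x y * chr x y' := by
  rw [CV1_comm, chr_add, CV1_comm y, CV1_comm y']

private theorem CV1_ue (x : Fin n → ZMod 2) (i : Fin n) :
    chr (ue i) x = if x i = 0 then 1 else -1 := by
  unfold chr ue
  have h1 : ∑ t, (if t = i then (1 : ZMod 2) else 0) * x t = x i := by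
    rw [Finset.sum_eq_single i]
    · rw [if_pos rfl, one_mul]
    · intro t _ ht
      rw [if_neg ht, zero_mul]
    · intro h
      exact absurd (Finset.mem_univ i) h
  rw [h1]

private theorem CV1_two (x : Fin n → ZMod 2) : x + x = 0 := by
  funext t
  have h2 : ∀ c : ZMod 2, c + c = 0 := by decide
  exact h2 (x t)

private theorem CV1_shift (F : (Fin n → ZMod 2) → ℝ) (z : Fin n → ZMod 2) :
    ∑ y, F (y + z) = ∑ y, F y :=
  Equiv.sum_comp (Equiv.addRight z) F

/-- Orthogonality. PROOF. For `x ≠ 0` choose `i` with `x i ≠ 0` and substitute `y ↦ y + ue i`. -/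
theorem chr_sum (x : Fin n → ZMod 2) :
    ∑ y, chr x y = if x = 0 then (2 : ℝ) ^ n else 0 := by
  by_cases hx : x = 0
  · rw [if_pos hx, hx]
    have h1 : ∀ y : Fin n → ZMod 2, chr 0 y = 1 := by
      intro y
      unfold chr
      simp
    rw [Finset.sum_congr rfl fun y _ => h1 y, Finset.sum_const, nsmul_eq_mul, mul_one,
      Finset.card_univ, Fintype.card_fun, ZMod.card, Fintype.card_fin]
    push_cast
    rfl
  · rw [if_neg hx]
    obtain ⟨i, hi⟩ : ∃ i, x i ≠ 0 := by
      by_contra h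
      push Not at h
      exact hx (funext h)
    have h1 := CV1_shift (fun y => chr x y) (ue i)
    have h2 : ∀ y : Fin n → ZMod 2, chr x (y + ue i) = - chr x y := by
      intro y
      rw [CV1_add', CV1_comm x (ue i), CV1_ue, if_neg hi]
      ring
    simp only [h2, Finset.sum_neg_distrib] at h1
    linarith

/-- Parseval. PROOF. Expand, exchange the sums, `chr_add`, `chr_sum`. -/
theorem parseval (f g : (Fin n → ZMod 2) → ℝ) :
    ∑ y, ft f y * ft g y = (2 : ℝ) ^ n * ∑ x, f x * g x := by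
  have h1 : ∀ y, ft f y * ft g y = ∑ x, ∑ x', f x * g x' * chr (x + x') y := by
    intro y
    unfold ft
    rw [Finset.sum_mul_sum]
    refine Finset.sum_congr rfl fun x _ => Finset.sum_congr rfl fun x' _ => ?_
    rw [chr_add]
    ring
  rw [Finset.sum_congr rfl fun y _ => h1 y, Finset.sum_comm, Finset.mul_sum]
  refine Finset.sum_congr rfl fun x _ => ?_
  rw [Finset.sum_comm]
  have h2 : ∀ x' : Fin n → ZMod 2, ∑ y, f x * g x' * chr (x + x') y =
      if x' = x then (2 : ℝ) ^ n * (f x * g x) else 0 := by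
    intro x'
    rw [← Finset.mul_sum, chr_sum]
    by_cases h : x' = x
    · rw [if_pos h, h, CV1_two, if_pos rfl]
      ring
    · rw [if_neg h, if_neg, mul_zero]
      intro h3
      apply h
      have h4 : x' = x + (x + x') := by rw [← add_assoc, CV1_two, zero_add]
      rw [h4, h3, add_zero]
  rw [Finset.sum_congr rfl fun x' _ => h2 x', Finset.sum_ite_eq' Finset.univ x]
  rw [if_pos (Finset.mem_univ x)]

/-- PROOF. Substitution `x ↦ x + ue i`; `chr (ue i) y = (-1) ^ (y i)`, and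
`∑ i, chr (ue i) y = n - 2 wt y`. -/
theorem ft_nb (f : (Fin n → ZMod 2) → ℝ) (y : Fin n → ZMod 2) :
    ft (nb f) y = ((n : ℝ) - 2 * wt y) * ft f y := by
  have h1 : ft (nb f) y = ∑ i, ∑ x, f (x + ue i) * chr x y := by
    unfold ft nb
    rw [Finset.sum_comm]
    exact Finset.sum_congr rfl fun x _ => by rw [Finset.sum_mul]
  have h2 : ∀ i : Fin n, ∑ x, f (x + ue i) * chr x y = chr (ue i) y * ft f y := by
    intro i
    have h3 := CV1_shift (fun x => f x * chr (x + ue i) y) (ue i)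
    simp only [add_assoc, CV1_two, add_zero] at h3
    rw [h3]
    unfold ft
    rw [Finset.mul_sum]
    refine Finset.sum_congr rfl fun x _ => ?_
    rw [chr_add]
    ring
  rw [h1, Finset.sum_congr rfl fun i _ => h2 i, ← Finset.sum_mul]
  congr 1
  have h4 : ∀ i : Fin n, chr (ue i) y = 1 - 2 * (if y i ≠ 0 then 1 else 0) := by
    intro i
    rw [CV1_ue]
    by_cases h : y i = 0
    · rw [if_pos h, if_neg (not_not.2 h)]
      norm_num
    · rw [if_neg h, if_pos h]
      norm_num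
  rw [Finset.sum_congr rfl fun i _ => h4 i, Finset.sum_sub_distrib, Finset.sum_const,
    ← Finset.mul_sum, Finset.sum_boole, nsmul_eq_mul, mul_one, Finset.card_univ,
    Fintype.card_fin]
  rfl

/-- The dual code. -/
def dual (C : Submodule (ZMod 2) (Fin n → ZMod 2)) : Submodule (ZMod 2) (Fin n → ZMod 2) where
  carrier := {z | ∀ x ∈ C, ∑ i, z i * x i = 0}
  add_mem' := by
    intro x y hx hy z hz
    simp only [Pi.add_apply, add_mul, Finset.sum_add_distrib, hx z hz, hy z hz, add_zero]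
  zero_mem' := by
    intro z _
    simp
  smul_mem' := by
    intro c x hx z hz
    simp only [Pi.smul_apply, smul_eq_mul, mul_assoc, ← Finset.mul_sum, hx z hz, mul_zero]

/-- PROOF. The dot product is a nondegenerate symmetric bilinear form (`dotProduct`,
`LinearMap.BilinForm`); `finrank_orthogonal` or `Subspace.finrank_dualAnnihilator...`. -/
theorem finrank_dual (C : Submodule (ZMod 2) (Fin n → ZMod 2)) :
    finrank (ZMod 2) (dual C) + finrank (ZMod 2) C = n := by
  set B : LinearMap.BilinForm (ZMod 2) (Fin n → ZMod 2) :=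
    dotProductBilin (ZMod 2) (ZMod 2) with hB
  have h1 := LinearMap.BilinForm.finrank_add_finrank_orthogonal' (B := B) C
  have hBa : ∀ x y : Fin n → ZMod 2, B x y = ∑ i, x i * y i := fun x y => rfl
  have h2 : LinearMap.BilinForm.orthogonal B C = dual C := by
    ext z
    rw [LinearMap.BilinForm.mem_orthogonal_iff]
    constructor
    · intro h x hx
      have h3 : B x z = 0 := h x hx
      rw [hBa] at h3
      rw [← h3]
      exact Finset.sum_congr rfl fun i _ => mul_comm _ _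
    · intro h x hx
      change B x z = 0
      rw [hBa, ← h x hx]
      exact Finset.sum_congr rfl fun i _ => mul_comm _ _
  have h3 : LinearMap.ker B = ⊥ := by
    rw [eq_bot_iff]
    intro x hx
    rw [LinearMap.mem_ker] at hx
    rw [Submodule.mem_bot]
    funext i
    have h4 : B x (ue i) = 0 := by rw [hx]; rfl
    rw [hBa] at h4
    rw [Pi.zero_apply, ← h4]
    unfold ue
    rw [Finset.sum_eq_single i]
    · rw [if_pos rfl, mul_one]
    · intro t _ ht
      rw [if_neg ht, mul_zero]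
    · intro h
      exact absurd (Finset.mem_univ i) h
  rw [h2, h3, inf_bot_eq, finrank_bot, add_zero, Module.finrank_fintype_fun_eq_card,
    Fintype.card_fin] at h1
  omega

/-- PROOF. `C ≤ dual (dual C)` and the dimensions are equal. -/
theorem dual_dual (C : Submodule (ZMod 2) (Fin n → ZMod 2)) : dual (dual C) = C := by
  have h1 := finrank_dual C
  have h2 := finrank_dual (dual C)
  symm
  refine Submodule.eq_of_le_of_finrank_eq ?_ (by omega)
  intro x hx z hz
  rw [← hz x hx]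
  exact Finset.sum_congr rfl fun i _ => mul_comm _ _

/-- The sum over the translates by the dual code. -/
noncomputable def avg (C : Submodule (ZMod 2) (Fin n → ZMod 2)) (f : (Fin n → ZMod 2) → ℝ)
    (x : Fin n → ZMod 2) : ℝ := by
  classical
  exact ∑ z : Fin n → ZMod 2, if z ∈ dual C then f (x + z) else 0

/-- PROOF. For `y ∉ C = dual (dual C)` there is `z ∈ dual C` with `z · y ≠ 0`; `avg C f` is invariant
under `z`, so its Fourier coefficient is equal to its negative. -/
theorem ft_avg (C : Submodule (ZMod 2) (Fin n → ZMod 2)) (f : (Fin n → ZMod 2) → ℝ)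
    (y : Fin n → ZMod 2) (hy : y ∉ C) : ft (avg C f) y = 0 := by
  classical
  obtain ⟨z, hz, hzy⟩ : ∃ z ∈ dual C, ∑ i, y i * z i ≠ 0 := by
    by_contra h
    push Not at h
    apply hy
    rw [← dual_dual C]
    exact h
  have hav : ∀ x, avg C f x = ∑ w : Fin n → ZMod 2, if w ∈ dual C then f (x + w) else 0 := by
    intro x
    unfold avg
    refine Finset.sum_congr rfl fun w _ => ?_
    by_cases hw : w ∈ dual C
    · simp only [hw, if_true]
    · simp only [hw, if_false]
  have h1 : ∀ x, avg C f (x + z) = avg C f x := by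
    intro x
    rw [hav, hav, ← CV1_shift (fun w => if w ∈ dual C then f (x + w) else 0) z]
    refine Finset.sum_congr rfl fun w _ => ?_
    have h2 : (w + z ∈ dual C) ↔ w ∈ dual C :=
      ⟨fun h => by
        have h3 := (dual C).sub_mem h hz
        rwa [add_sub_cancel_right] at h3, fun h => (dual C).add_mem h hz⟩
    simp only [h2]
    rw [add_assoc, add_comm z w]
  have h2 : chr z y = -1 := by
    unfold chr
    rw [if_neg]
    intro h
    apply hzy
    rw [← h]
    exact Finset.sum_congr rfl fun i _ => mul_comm _ _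
  have h3 := CV1_shift (fun x => avg C f x * chr x y) z
  simp only [h1, chr_add, h2] at h3
  unfold ft
  have h4 : ∑ x, avg C f x * (chr x y * -1) = - ∑ x, avg C f x * chr x y := by
    rw [← Finset.sum_neg_distrib]
    exact Finset.sum_congr rfl fun x _ => by ring
  rw [h4] at h3
  linarith

private theorem CV2_avg (C : Submodule (ZMod 2) (Fin n → ZMod 2)) (f : (Fin n → ZMod 2) → ℝ)
    [DecidablePred (· ∈ dual C)] (x : Fin n → ZMod 2) :
    avg C f x = ∑ z : Fin n → ZMod 2, if z ∈ dual C then f (x + z) else 0 := by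
  unfold avg
  refine Finset.sum_congr rfl fun z _ => ?_
  by_cases hz : z ∈ dual C
  · rw [if_pos hz, if_pos hz]
  · rw [if_neg hz, if_neg hz]

private theorem CV2_card (C : Submodule (ZMod 2) (Fin n → ZMod 2))
    [DecidablePred (· ∈ dual C)] :
    (2 : ℝ) ^ finrank (ZMod 2) C * ((Finset.univ.filter fun z => z ∈ dual C).card : ℝ) =
      2 ^ n := by
  have h1 : (Finset.univ.filter fun z => z ∈ dual C).card =
      2 ^ finrank (ZMod 2) (dual C) := by
    have h2 := Module.card_eq_pow_finrank (K := ZMod 2) (V := dual C)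
    rw [ZMod.card] at h2
    rw [← h2, Fintype.card_subtype]
  rw [h1]
  have h3 := finrank_dual C
  push_cast
  rw [← pow_add]
  congr 1
  omega

/-- **The covering bound.** `f ≥ 0` vanishes outside the ball `B` of radius `r` and satisfies
`nb f ≥ lam f`; all nonzero words of `C` have weight at least `n / 3`.
PROOF. `F = avg C f`, `D = dual C`. `F ≥ 0`, `nb F = avg C (nb f) ≥ lam F`. By `parseval`, `ft_nb`,
`ft_avg`: `2^n lam ∑ F² ≤ 2^n ∑ F nb F = ∑_{y ∈ C} (n - 2 wt y) (ft F y)²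
≤ n (ft F 0)² + (n/3) ∑_{y ≠ 0} (ft F y)² = (2n/3) (∑ F)² + (n/3) 2^n ∑ F²`. So
`(lam - n/3) 2^n ∑ F² ≤ (2n/3) (∑ F)²`. `∑ F = |D| ∑ f`. `∑ F² = ∑_x F(x) ∑_{z ∈ D} f(x+z)
= |D| ∑ F f ≥ |D| ∑ f²` (invariance of `F`, `F ≥ f ≥ 0`). `(∑ f)² ≤ |B| ∑ f²` (Cauchy-Schwarz).
With `∑ f² > 0`: `(lam - n/3) 2^n ≤ (2n/3) |D| |B|`, and `|D| 2^(dim C) = 2^n`. -/
theorem cover_bound (C : Submodule (ZMod 2) (Fin n → ZMod 2))
    (hC : ∀ x ∈ C, x ≠ 0 → n ≤ 3 * wt x) (r : ℕ) (f : (Fin n → ZMod 2) → ℝ) (lam : ℝ)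
    (h0 : ∀ x, 0 ≤ f x) (hr : ∀ x, r < wt x → f x = 0) (hf : ∀ x, lam * f x ≤ nb f x)
    (hne : ∃ x, f x ≠ 0) (hlam : (n : ℝ) / 3 + 1 ≤ lam) :
    (2 : ℝ) ^ finrank (ZMod 2) C ≤
      n * (Finset.univ.filter fun x : Fin n → ZMod 2 => wt x ≤ r).card := by
  classical
  set D := dual C with hD
  set F := avg C f with hF
  have hFx : ∀ x, F x = ∑ z : Fin n → ZMod 2, if z ∈ D then f (x + z) else 0 :=
    fun x => CV2_avg C f x
  set cD : ℝ := ((Finset.univ.filter fun z => z ∈ D).card : ℝ) with hcD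
  have hcard : (2 : ℝ) ^ finrank (ZMod 2) C * cD = 2 ^ n := CV2_card C
  have hsumD : ∀ t : ℝ, (∑ z : Fin n → ZMod 2, if z ∈ D then t else 0) = cD * t := by
    intro t
    rw [← Finset.sum_filter, Finset.sum_const, nsmul_eq_mul]
  have hF0 : ∀ x, 0 ≤ F x := by
    intro x
    rw [hFx]
    refine Finset.sum_nonneg fun z _ => ?_
    split_ifs
    · exact h0 _
    · exact le_refl _
  have hFf : ∀ x, f x ≤ F x := by
    intro x
    rw [hFx]
    have h1 := Finset.single_le_sum (f := fun z : Fin n → ZMod 2 =>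
      if z ∈ D then f (x + z) else 0) (s := Finset.univ) (fun z _ => by
        split_ifs
        · exact h0 _
        · exact le_refl _) (Finset.mem_univ (0 : Fin n → ZMod 2))
    simp only [if_pos D.zero_mem, add_zero] at h1
    exact h1
  have hinv : ∀ d ∈ D, ∀ x, F (x + d) = F x := by
    intro d hd x
    rw [hFx, hFx]
    refine Fintype.sum_equiv (Equiv.addLeft d) _ _ fun z => ?_
    rw [Equiv.coe_addLeft]
    by_cases hz : z ∈ D
    · rw [if_pos hz, if_pos (D.add_mem hd hz), add_assoc]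
    · rw [if_neg hz, if_neg fun h => hz ((D.add_mem_iff_right hd).1 h)]
  have hnb : ∀ x, lam * F x ≤ nb F x := by
    intro x
    have h1 : nb F x = ∑ z : Fin n → ZMod 2, if z ∈ D then nb f (x + z) else 0 := by
      unfold nb
      simp only [hFx]
      rw [Finset.sum_comm]
      refine Finset.sum_congr rfl fun z _ => ?_
      by_cases hz : z ∈ D
      · simp only [if_pos hz]
        refine Finset.sum_congr rfl fun i _ => ?_
        congr 1
        abel
      · simp only [if_neg hz, Finset.sum_const_zero]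
    rw [h1, hFx, Finset.mul_sum]
    refine Finset.sum_le_sum fun z _ => ?_
    split_ifs
    · exact hf _
    · rw [mul_zero]
  -- Fourier analysis
  have hft0 : ft F 0 = ∑ x, F x := by
    unfold ft chr
    refine Finset.sum_congr rfl fun x _ => ?_
    simp
  have hpar1 : ∑ y, (((n : ℝ) - 2 * wt y) * (ft F y * ft F y)) =
      (2 : ℝ) ^ n * ∑ x, F x * nb F x := by
    rw [← parseval]
    refine Finset.sum_congr rfl fun y _ => ?_
    rw [ft_nb]
    ring
  have hpar2 : ∑ y, ft F y * ft F y = (2 : ℝ) ^ n * ∑ x, F x * F x := parseval F F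
  have hn0 : (0 : ℝ) ≤ n := Nat.cast_nonneg n
  have hpt : ∀ y : Fin n → ZMod 2, ((n : ℝ) - 2 * wt y) * (ft F y * ft F y) ≤
      (n : ℝ) / 3 * (ft F y * ft F y) +
        if y = 0 then 2 * (n : ℝ) / 3 * (ft F 0 * ft F 0) else 0 := by
    intro y
    have hsq : 0 ≤ ft F y * ft F y := mul_self_nonneg _
    by_cases hy0 : y = 0
    · subst hy0
      rw [if_pos rfl]
      have h1 : (0 : ℝ) ≤ wt (0 : Fin n → ZMod 2) := Nat.cast_nonneg _
      nlinarith [mul_nonneg h1 hsq]
    · rw [if_neg hy0, add_zero]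
      by_cases hyC : y ∈ C
      · refine mul_le_mul_of_nonneg_right ?_ hsq
        have h1 : (n : ℝ) ≤ 3 * wt y := by exact_mod_cast hC y hyC hy0
        linarith
      · rw [ft_avg C f y hyC]
        simp
  have hsum : (2 : ℝ) ^ n * ∑ x, F x * nb F x ≤
      (n : ℝ) / 3 * ((2 : ℝ) ^ n * ∑ x, F x * F x) +
        2 * (n : ℝ) / 3 * ((∑ x, F x) * ∑ x, F x) := by
    rw [← hpar1, ← hpar2, ← hft0]
    refine (Finset.sum_le_sum fun y _ => hpt y).trans (le_of_eq ?_)
    rw [Finset.sum_add_distrib, ← Finset.mul_sum, Finset.sum_ite_eq' Finset.univ (0 : Fin n → ZMod 2),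
      if_pos (Finset.mem_univ _)]
  have h2n : (0 : ℝ) < 2 ^ n := by positivity
  set S1 := ∑ x, F x with hS1
  set S2 := ∑ x, F x * F x with hS2
  have hS20 : 0 ≤ S2 := Finset.sum_nonneg fun x _ => mul_self_nonneg _
  have hlamS : lam * S2 ≤ ∑ x, F x * nb F x := by
    rw [hS2, Finset.mul_sum]
    refine Finset.sum_le_sum fun x _ => ?_
    have h1 := mul_le_mul_of_nonneg_left (hnb x) (hF0 x)
    calc lam * (F x * F x) = F x * (lam * F x) := by ring
      _ ≤ F x * nb F x := h1
  have hmain : (2 : ℝ) ^ n * S2 ≤ n * (S1 * S1) := by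
    have h1 : (2 : ℝ) ^ n * (lam * S2) ≤
        (n : ℝ) / 3 * ((2 : ℝ) ^ n * S2) + 2 * (n : ℝ) / 3 * (S1 * S1) :=
      (mul_le_mul_of_nonneg_left hlamS h2n.le).trans hsum
    have h2 : ((n : ℝ) / 3 + 1) * ((2 : ℝ) ^ n * S2) ≤ lam * ((2 : ℝ) ^ n * S2) :=
      mul_le_mul_of_nonneg_right hlam (mul_nonneg h2n.le hS20)
    have h3 : 0 ≤ (n : ℝ) * (S1 * S1) := mul_nonneg hn0 (mul_self_nonneg _)
    nlinarith
  -- the sums of `F`
  have hshift : ∀ (g : (Fin n → ZMod 2) → ℝ) (z : Fin n → ZMod 2),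
      ∑ x, g (x + z) = ∑ x, g x := fun g z =>
    Fintype.sum_equiv (Equiv.addRight z) _ _ fun x => rfl
  have hS1' : S1 = cD * ∑ x, f x := by
    rw [hS1, ← hsumD]
    simp only [hFx]
    rw [Finset.sum_comm]
    refine Finset.sum_congr rfl fun z _ => ?_
    by_cases hz : z ∈ D
    · simp only [if_pos hz]
      exact hshift f z
    · simp only [if_neg hz, Finset.sum_const_zero]
  have hS2' : S2 = cD * ∑ x, F x * f x := by
    rw [hS2, ← hsumD]
    have h1 : ∀ x, F x * F x = ∑ z : Fin n → ZMod 2, if z ∈ D then F x * f (x + z) else 0 := by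
      intro x
      conv_lhs => rw [hFx x, ← hFx x]
      nth_rewrite 2 [hFx x]
      rw [Finset.mul_sum]
      refine Finset.sum_congr rfl fun z _ => ?_
      split_ifs
      · rfl
      · rw [mul_zero]
    rw [Finset.sum_congr rfl fun x _ => h1 x, Finset.sum_comm]
    refine Finset.sum_congr rfl fun z _ => ?_
    by_cases hz : z ∈ D
    · simp only [if_pos hz]
      rw [← hshift (fun x => F x * f x) z]
      refine Finset.sum_congr rfl fun x _ => ?_
      rw [hinv z hz x]
    · simp only [if_neg hz, Finset.sum_const_zero]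
  have hcD0 : 0 < cD := by
    by_contra h
    have h1 : cD = 0 := le_antisymm (not_lt.1 h) (Nat.cast_nonneg _)
    rw [h1, mul_zero] at hcard
    exact h2n.ne hcard
  set T2 := ∑ x, f x * f x with hT2
  have hT20 : 0 < T2 := by
    obtain ⟨x, hx⟩ := hne
    refine Finset.sum_pos' (fun y _ => mul_self_nonneg _) ⟨x, Finset.mem_univ x, ?_⟩
    exact mul_self_pos.2 hx
  have hFfT : T2 ≤ ∑ x, F x * f x :=
    Finset.sum_le_sum fun x _ => mul_le_mul_of_nonneg_right (hFf x) (h0 x)
  have hCS : (∑ x, f x) ^ 2 ≤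
      ((Finset.univ.filter fun x : Fin n → ZMod 2 => wt x ≤ r).card : ℝ) * T2 := by
    have h1 : ∑ x ∈ Finset.univ.filter (fun x : Fin n → ZMod 2 => wt x ≤ r), f x =
        ∑ x, f x := by
      refine Finset.sum_filter_of_ne fun x _ hx => ?_
      by_contra hlt
      exact hx (hr x (not_le.1 hlt))
    have h2 : ∑ x ∈ Finset.univ.filter (fun x : Fin n → ZMod 2 => wt x ≤ r), f x ^ 2 = T2 := by
      rw [hT2, Finset.sum_congr rfl fun x _ => (sq (f x)).symm]
      refine Finset.sum_filter_of_ne fun x _ hx => ?_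
      by_contra hlt
      apply hx
      rw [hr x (not_le.1 hlt)]
      norm_num
    rw [← h1, ← h2]
    exact sq_sum_le_card_mul_sum_sq
  set cB : ℝ := ((Finset.univ.filter fun x : Fin n → ZMod 2 => wt x ≤ r).card : ℝ) with hcB
  have hfin : (2 : ℝ) ^ n * (cD * T2) ≤ n * (cD ^ 2 * (cB * T2)) := by
    calc (2 : ℝ) ^ n * (cD * T2) ≤ 2 ^ n * (cD * ∑ x, F x * f x) :=
          mul_le_mul_of_nonneg_left (mul_le_mul_of_nonneg_left hFfT hcD0.le) h2n.le
      _ = 2 ^ n * S2 := by rw [hS2']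
      _ ≤ n * (S1 * S1) := hmain
      _ = n * (cD ^ 2 * (∑ x, f x) ^ 2) := by rw [hS1']; ring
      _ ≤ n * (cD ^ 2 * (cB * T2)) :=
          mul_le_mul_of_nonneg_left (mul_le_mul_of_nonneg_left hCS (sq_nonneg _)) hn0
  rw [← hcard] at hfin
  have h1 : (2 : ℝ) ^ finrank (ZMod 2) C * (cD ^ 2 * T2) ≤ n * cB * (cD ^ 2 * T2) := by
    calc (2 : ℝ) ^ finrank (ZMod 2) C * (cD ^ 2 * T2) =
          2 ^ finrank (ZMod 2) C * cD * (cD * T2) := by ring
      _ ≤ n * (cD ^ 2 * (cB * T2)) := hfin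
      _ = n * cB * (cD ^ 2 * T2) := by ring
  exact le_of_mul_le_mul_right h1 (by positivity)

/-! ### The test function -/

/-- The profile: `5 ^ (-j) * (j - a) * (a + 17 - j)` for `a < j < a + 17`, else `0`. -/
noncomputable def prf (a j : ℕ) : ℝ :=
  if a < j ∧ j < a + 17 then (1 / 5 : ℝ) ^ j * ((j : ℝ) - a) * (a + 17 - j) else 0

private theorem nb_wt_add_ue (x : Fin n → ZMod 2) (i : Fin n) :
    wt (x + ue i) = if x i = 0 then wt x + 1 else wt x - 1 := by
  classical
  have h2 : ∀ z : ZMod 2, z ≠ 0 → z + 1 = 0 := by decide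
  split_ifs with h
  · have e : (Finset.univ.filter fun t => (x + ue i) t ≠ 0) =
        insert i (Finset.univ.filter fun t => x t ≠ 0) := by
      ext t
      simp only [Finset.mem_filter, Finset.mem_univ, true_and, Finset.mem_insert, Pi.add_apply, ue]
      by_cases ht : t = i
      · subst ht
        simp [h]
      · simp [ht]
    unfold wt
    rw [e, Finset.card_insert_of_notMem]
    simp [h]
  · have e : (Finset.univ.filter fun t => (x + ue i) t ≠ 0) =
        (Finset.univ.filter fun t => x t ≠ 0).erase i := by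
      ext t
      simp only [Finset.mem_filter, Finset.mem_univ, true_and, Finset.mem_erase, Pi.add_apply, ue]
      by_cases ht : t = i
      · subst ht
        simp [h2 _ h]
      · simp [ht]
    unfold wt
    rw [e, Finset.card_erase_of_mem]
    simp [h]

private theorem nb_wt_le (x : Fin n → ZMod 2) : wt x ≤ n := by
  unfold wt
  calc _ ≤ (Finset.univ : Finset (Fin n)).card := Finset.card_filter_le _ _
    _ = n := by simp

/-- PROOF. Flipping one of the `wt x` ones decreases the weight, flipping a zero increases it. -/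
theorem nb_wt (g : ℕ → ℝ) (x : Fin n → ZMod 2) :
    nb (fun y => g (wt y)) x = wt x * g (wt x - 1) + ((n : ℝ) - wt x) * g (wt x + 1) := by
  classical
  unfold nb
  have e : ∀ i, g (wt (x + ue i)) = if x i = 0 then g (wt x + 1) else g (wt x - 1) := by
    intro i
    rw [nb_wt_add_ue]
    split_ifs <;> rfl
  simp only [e]
  rw [Finset.sum_ite, Finset.sum_const, Finset.sum_const, nsmul_eq_mul, nsmul_eq_mul]
  have h1 : (Finset.univ.filter fun i => ¬ x i = 0).card = wt x := rfl
  have h2 : (Finset.univ.filter fun i => x i = 0).card + (Finset.univ.filter fun i => ¬ x i = 0).card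
      = n := by
    rw [Finset.card_filter_add_card_filter_not]
    simp
  rw [h1] at h2 ⊢
  have h3 : (((Finset.univ.filter fun i => x i = 0).card : ℕ) : ℝ) = (n : ℝ) - wt x := by
    rw [eq_sub_iff_add_eq]
    exact_mod_cast h2
  rw [h3]
  ring

private theorem prf_ineq_nonneg (a j : ℕ) : 0 ≤ prf a j := by
  unfold prf
  split_ifs with h
  · have h1 : (a : ℝ) < j := by exact_mod_cast h.1
    have h2 : (j : ℝ) < a + 17 := by exact_mod_cast h.2
    have : (0 : ℝ) < (1 / 5 : ℝ) ^ j := by positivity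
    have h3 : (0 : ℝ) ≤ (j : ℝ) - a := by linarith
    have h4 : (0 : ℝ) ≤ (a : ℝ) + 17 - j := by linarith
    exact mul_nonneg (mul_nonneg this.le h3) h4
  · exact le_rfl

private theorem prf_ineq_val (a i : ℕ) (hi : i ≤ 17) :
    prf a (a + i) = (1 / 5 : ℝ) ^ (a + i) * i * (17 - i) := by
  unfold prf
  split_ifs with h
  · push_cast
    ring
  · rcases Nat.eq_zero_or_pos i with h0 | h0
    · subst h0; simp
    · have : i = 17 := by omega
      subst this; simp

/-- PROOF. `r = n / 26`, `a = r - 16` (so that the support is `a < j ≤ r`). Outside the support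
both sides: left `0`, right `≥ 0`. For `j = wt x` in the support, `h (j) = (j - a)(a + 17 - j) ≥ 16`
and `h (j-1) + h (j+1) = 2 h (j) - 2 ≥ 2 h (j) (15/16)`; with `5 j ≥ 5 (n/26 - 1 - 16)` (real
`n / 26`) and `(n - j)/5 ≥ (n - n/26)/5 = 5 n/26`, the right side is at least
`5^(-j) (5 n/26 - 85) (h (j-1) + h (j+1)) ≥ 5^(-j) h (j) (5 n/26 - 85)(15/8)`, and
`(5 n/26 - 85)(15/8) ≥ n/3 + 1` for `n ≥ 6000`. (For `j = a + 1`, `g (j - 1) = 0 = h (a)`, correct;
for `j = a + 16`, `g (j + 1) = 0 = h (a + 17)`.) -/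
theorem prf_ineq (hn : 6000 ≤ n) (x : Fin n → ZMod 2) :
    ((n : ℝ) / 3 + 1) * prf (n / 26 - 16) (wt x) ≤
      nb (fun y => prf (n / 26 - 16) (wt y)) x := by
  rw [nb_wt]
  set r := n / 26 with hr
  obtain ⟨a, ha⟩ : ∃ a, a = r - 16 := ⟨_, rfl⟩
  rw [← ha]
  have hr1 : 26 * r ≤ n := by omega
  have hr2 : n ≤ 26 * r + 25 := by omega
  have har : a + 16 = r := by omega
  have hw := nb_wt_le x
  have hwR : (wt x : ℝ) ≤ n := by exact_mod_cast hw
  by_cases hj : a < wt x ∧ wt x < a + 17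
  · obtain ⟨i, hi⟩ : ∃ i, wt x = a + (i + 1) := ⟨wt x - a - 1, by omega⟩
    have hi16 : i ≤ 15 := by omega
    rw [hi]
    have e1 : a + (i + 1) - 1 = a + i := by omega
    have e2 : a + (i + 1) + 1 = a + (i + 2) := by omega
    rw [e1, e2, prf_ineq_val a _ (by omega), prf_ineq_val a _ (by omega),
      prf_ineq_val a _ (by omega)]
    have hq : (1 / 5 : ℝ) ^ (a + (i + 1)) = (1 / 5) * (1 / 5 : ℝ) ^ (a + i) := by
      rw [← add_assoc, pow_succ]; ring
    have hq2 : (1 / 5 : ℝ) ^ (a + (i + 2)) = (1 / 25) * (1 / 5 : ℝ) ^ (a + i) := by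
      rw [← add_assoc, pow_add]; ring
    rw [hq, hq2]
    have hP : (0 : ℝ) < (1 / 5 : ℝ) ^ (a + i) := by positivity
    set P := (1 / 5 : ℝ) ^ (a + i) with hPdef
    push_cast
    have key : ((n : ℝ) / 3 + 1) * (((i : ℝ) + 1) * (16 - i)) ≤
        5 * ((a : ℝ) + (i + 1)) * (i * (17 - i)) +
          ((n : ℝ) - (a + (i + 1))) / 5 * ((i + 2) * (15 - i)) := by
      have hnR : (6000 : ℝ) ≤ n := by exact_mod_cast hn
      have h1 : (n : ℝ) ≤ 26 * ((a : ℝ) + 16) + 25 := by
        have : n ≤ 26 * (a + 16) + 25 := by omega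
        exact_mod_cast this
      have h2 : 26 * ((a : ℝ) + 16) ≤ n := by
        have : 26 * (a + 16) ≤ n := by omega
        exact_mod_cast this
      have hi15 : (i : ℝ) ≤ 15 := by exact_mod_cast hi16
      have hi0 : (0 : ℝ) ≤ i := by positivity
      have hA : 5 * (n : ℝ) / 26 - 80 ≤ 5 * ((a : ℝ) + (i + 1)) := by linarith
      have hB : 5 * (n : ℝ) / 26 - 80 ≤ ((n : ℝ) - (a + (i + 1))) / 5 := by linarith
      have hh1 : (0 : ℝ) ≤ (i : ℝ) * (17 - i) := by nlinarith
      have hh2 : (0 : ℝ) ≤ ((i : ℝ) + 2) * (15 - i) := by nlinarith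
      have hh3 : (16 : ℝ) ≤ ((i : ℝ) + 1) * (16 - i) := by nlinarith
      have step1 : (5 * (n : ℝ) / 26 - 80) * (i * (17 - i)) ≤
          5 * ((a : ℝ) + (i + 1)) * (i * (17 - i)) := mul_le_mul_of_nonneg_right hA hh1
      have step2 : (5 * (n : ℝ) / 26 - 80) * ((i + 2) * (15 - i)) ≤
          ((n : ℝ) - (a + (i + 1))) / 5 * ((i + 2) * (15 - i)) :=
        mul_le_mul_of_nonneg_right hB hh2
      have e : (i : ℝ) * (17 - i) + ((i : ℝ) + 2) * (15 - i) =
          2 * (((i : ℝ) + 1) * (16 - i)) - 2 := by ring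
      have hc : 0 ≤ 5 * (n : ℝ) / 26 - 80 := by linarith
      have step3 : (5 * (n : ℝ) / 26 - 80) * (15 / 8 * (((i : ℝ) + 1) * (16 - i))) ≤
          (5 * (n : ℝ) / 26 - 80) * ((i : ℝ) * (17 - i) + ((i : ℝ) + 2) * (15 - i)) := by
        apply mul_le_mul_of_nonneg_left _ hc
        rw [e]; linarith
      have step4 : ((n : ℝ) / 3 + 1) * (((i : ℝ) + 1) * (16 - i)) ≤
          (5 * (n : ℝ) / 26 - 80) * (15 / 8 * (((i : ℝ) + 1) * (16 - i))) := by
        have : ((n : ℝ) / 3 + 1) ≤ (5 * (n : ℝ) / 26 - 80) * (15 / 8) := by linarith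
        calc _ ≤ (5 * (n : ℝ) / 26 - 80) * (15 / 8) * (((i : ℝ) + 1) * (16 - i)) :=
              mul_le_mul_of_nonneg_right this (by linarith)
          _ = _ := by ring
      calc _ ≤ _ := step4
        _ ≤ _ := step3
        _ = (5 * (n : ℝ) / 26 - 80) * (i * (17 - i)) +
            (5 * (n : ℝ) / 26 - 80) * ((i + 2) * (15 - i)) := by ring
        _ ≤ _ := add_le_add step1 step2
    have h3 := mul_le_mul_of_nonneg_left key (show 0 ≤ P / 5 by positivity)
    calc _ = P / 5 * (((n : ℝ) / 3 + 1) * (((i : ℝ) + 1) * (16 - i))) := by ring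
      _ ≤ _ := h3
      _ = _ := by ring
  · have h0 : prf a (wt x) = 0 := by
      unfold prf
      rw [if_neg hj]
    rw [h0, mul_zero]
    exact add_nonneg (mul_nonneg (by positivity) (prf_ineq_nonneg _ _))
      (mul_nonneg (by linarith) (prf_ineq_nonneg _ _))

private theorem ball_card_sum (c : ℝ) : ∑ x : Fin n → ZMod 2, c ^ wt x = (1 + c) ^ n := by
  classical
  have h1 : ∀ x : Fin n → ZMod 2, c ^ wt x = ∏ i, (if x i ≠ 0 then c else 1) := by
    intro x
    rw [Finset.prod_ite, Finset.prod_const, Finset.prod_const_one, mul_one]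
    rfl
  simp only [h1]
  have h2 := Finset.prod_univ_sum (fun _ : Fin n => (Finset.univ : Finset (ZMod 2)))
    (fun _ v => (if v ≠ 0 then c else 1 : ℝ))
  rw [Fintype.piFinset_univ] at h2
  rw [← h2]
  have h3 : ∑ v : ZMod 2, (if v ≠ 0 then c else 1 : ℝ) = 1 + c := by
    have : (Finset.univ : Finset (ZMod 2)) = {0, 1} := by decide
    rw [this, Finset.sum_pair (by decide)]
    simp
  rw [Finset.prod_congr rfl (fun _ _ => h3), Finset.prod_const]
  simp

/-- PROOF. `wt x = j` for `C (n, j)` words, `∑_{j ≤ r} C (n, j) ≤ 25^r (1 + 1/25)^n` (binomial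
theorem, `25^(r - j) ≥ 1`). With `26 r ≤ n`. -/
theorem ball_card (r : ℕ) (hr : r ≤ n) :
    ((Finset.univ.filter fun x : Fin n → ZMod 2 => wt x ≤ r).card : ℝ) ≤
      25 ^ r * (26 / 25 : ℝ) ^ n := by
  have h1 : ((Finset.univ.filter fun x : Fin n → ZMod 2 => wt x ≤ r).card : ℝ) =
      ∑ x ∈ (Finset.univ.filter fun x : Fin n → ZMod 2 => wt x ≤ r), (1 : ℝ) := by
    simp
  rw [h1]
  calc _ ≤ ∑ x ∈ (Finset.univ.filter fun x : Fin n → ZMod 2 => wt x ≤ r),
        (25 : ℝ) ^ r * (1 / 25) ^ wt x := by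
        apply Finset.sum_le_sum
        intro x hx
        have hx' : wt x ≤ r := (Finset.mem_filter.mp hx).2
        obtain ⟨k, hk⟩ := Nat.exists_eq_add_of_le hx'
        rw [hk, pow_add, one_div, inv_pow]
        have : (25 : ℝ) ^ wt x ≠ 0 := by positivity
        field_simp
        exact one_le_pow₀ (by norm_num)
    _ ≤ ∑ x : Fin n → ZMod 2, (25 : ℝ) ^ r * (1 / 25) ^ wt x := by
        apply Finset.sum_le_sum_of_subset_of_nonneg (Finset.filter_subset _ _)
        intro x _ _
        positivity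
    _ = 25 ^ r * (26 / 25 : ℝ) ^ n := by
        rw [← Finset.mul_sum, ball_card_sum]
        norm_num

/-- PROOF. `26 ^ 26 ≤ 2 ^ (31/5) * 25 ^ 25`, i.e. `(26 ^ 26) ^ 5 ≤ 2 ^ 31 * (25 ^ 25) ^ 5`
(`norm_num`); so for `r = n / 26`: `(25^r (26/25)^n)^130 ≤ 2^(31 n)`, as
`(25 ^ r) ^ 26 ≤ 25 ^ n`. -/
theorem ball_pow : (25 ^ (n / 26) * (26 / 25 : ℝ) ^ n) ^ 130 ≤ (2 : ℝ) ^ (31 * n) := by
  have h1 : ((25 : ℝ) ^ (n / 26)) ^ 130 ≤ 25 ^ (5 * n) := by
    rw [← pow_mul]
    apply pow_le_pow_right₀ (by norm_num)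
    have := Nat.div_mul_le_self n 26
    omega
  rw [mul_pow]
  calc _ ≤ 25 ^ (5 * n) * ((26 / 25 : ℝ) ^ n) ^ 130 :=
        mul_le_mul_of_nonneg_right h1 (by positivity)
    _ = ((25 : ℝ) ^ 5 * (26 / 25) ^ 130) ^ n := by
        rw [mul_pow, ← pow_mul, ← pow_mul, ← pow_mul, mul_comm n 130]
    _ ≤ ((2 : ℝ) ^ 31) ^ n := by
        apply pow_le_pow_left₀ (by positivity)
        norm_num
    _ = _ := by rw [← pow_mul]

private theorem code_bound_num (hn : 6000 ≤ n) : n ^ 2600 ≤ 2 ^ (17 * n) := by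
  have h1 : ∀ q : ℕ, 37 ≤ q → 160 * (q + 1) ≤ 2 ^ q := by
    intro q hq
    induction q, hq using Nat.le_induction with
    | base => norm_num
    | succ q hq ih =>
      rw [pow_succ]
      omega
  have h2 : n ≤ 2 ^ (n / 160) := by
    have := h1 (n / 160) (by omega)
    omega
  calc n ^ 2600 ≤ (2 ^ (n / 160)) ^ 2600 := Nat.pow_le_pow_left h2 _
    _ = 2 ^ ((n / 160) * 2600) := by rw [← pow_mul]
    _ ≤ 2 ^ (17 * n) := by
        apply Nat.pow_le_pow_right (by norm_num)
        have := Nat.div_mul_le_self n 160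
        omega

/-- **The bound for codes.** PROOF. `cover_bound` with `prf_ineq`, `ball_card`, `ball_pow`:
`2^(130 dim C) ≤ n^130 2^(31 n)`; and `n ^ 130 ≤ 2 ^ (17/20 n)`... we want
`130 * 1000 dim C ≤ 130 * 245 n = 31850 n`, that is `n ^ 130 ≤ 2 ^ (0.85 n)` is enough
(`31 + 0.85 = 31.85 = 130 * 0.245`): `n ^ 2600 ≤ 2 ^ (17 n)`, true for `n ≥ 6000`
(`n ≤ 2 ^ (17 n / 2600)`; at `n = 6000`: `2 ^ 39`; e.g. `n < 2 ^ (n / 160)` for `n ≥ 6000` by
induction in steps of 160, `1/160 = .00625 < 17/2600 = .00653`). -/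
theorem code_bound (hn : 6000 ≤ n) (C : Submodule (ZMod 2) (Fin n → ZMod 2))
    (hC : ∀ x ∈ C, x ≠ 0 → n ≤ 3 * wt x) : 1000 * finrank (ZMod 2) C ≤ 245 * n := by
  classical
  have hne : ∃ x : Fin n → ZMod 2, prf (n / 26 - 16) (wt x) ≠ 0 := by
    obtain ⟨s, -, hs⟩ := Finset.exists_subset_card_eq
      (s := (Finset.univ : Finset (Fin n))) (n := n / 26 - 16 + 1) (by simp; omega)
    refine ⟨fun t => if t ∈ s then 1 else 0, ?_⟩
    have hw : wt (fun t : Fin n => if t ∈ s then (1 : ZMod 2) else 0) = n / 26 - 16 + 1 := by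
      unfold wt
      rw [← hs]
      congr 1
      ext t
      simp
    rw [hw, prf_ineq_val _ 1 (by norm_num)]
    have : (0 : ℝ) < (1 / 5 : ℝ) ^ (n / 26 - 16 + 1) := by positivity
    have h2 : (0 : ℝ) < (1 / 5 : ℝ) ^ (n / 26 - 16 + 1) * ((1 : ℕ) : ℝ) * (17 - ((1 : ℕ) : ℝ)) := by
      norm_num
    exact h2.ne'
  have hcb := cover_bound C hC (n / 26) (fun x => prf (n / 26 - 16) (wt x)) ((n : ℝ) / 3 + 1)
    (fun x => prf_ineq_nonneg _ _)
    (fun x hx => by
      show prf _ _ = 0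
      unfold prf
      rw [if_neg]
      omega)
    (fun x => prf_ineq hn x) hne le_rfl
  have hbc := ball_card (n := n) (n / 26) (Nat.div_le_self _ _)
  have hbp := ball_pow (n := n)
  set k := finrank (ZMod 2) C with hk
  set B : ℝ := 25 ^ (n / 26) * (26 / 25 : ℝ) ^ n with hB
  have h1 : (2 : ℝ) ^ k ≤ n * B :=
    hcb.trans (mul_le_mul_of_nonneg_left hbc (by positivity))
  have h2 : ((2 : ℝ) ^ k) ^ 130 ≤ (n : ℝ) ^ 130 * 2 ^ (31 * n) := by
    calc _ ≤ ((n : ℝ) * B) ^ 130 := pow_le_pow_left₀ (by positivity) h1 _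
      _ = (n : ℝ) ^ 130 * B ^ 130 := mul_pow _ _ _
      _ ≤ _ := mul_le_mul_of_nonneg_left hbp (by positivity)
  have h3 : (((2 : ℝ) ^ k) ^ 130) ^ 20 ≤ ((n : ℝ) ^ 130 * 2 ^ (31 * n)) ^ 20 :=
    pow_le_pow_left₀ (by positivity) h2 _
  have h4 : (2 : ℝ) ^ (k * 2600) ≤ (n : ℝ) ^ 2600 * 2 ^ (620 * n) := by
    have e1 : (((2 : ℝ) ^ k) ^ 130) ^ 20 = (2 : ℝ) ^ (k * 2600) := by
      rw [← pow_mul, ← pow_mul]
    have e2 : ((n : ℝ) ^ 130 * 2 ^ (31 * n)) ^ 20 = (n : ℝ) ^ 2600 * 2 ^ (620 * n) := by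
      rw [mul_pow, ← pow_mul, ← pow_mul]
      congr 2
      ring
    rw [e1, e2] at h3
    exact h3
  have h5 : (n : ℝ) ^ 2600 ≤ 2 ^ (17 * n) := by
    exact_mod_cast code_bound_num hn
  have h6 : (2 : ℝ) ^ (k * 2600) ≤ 2 ^ (17 * n + 620 * n) := by
    rw [pow_add]
    exact h4.trans (mul_le_mul_of_nonneg_right h5 (by positivity))
  have h7 : k * 2600 ≤ 17 * n + 620 * n :=
    (pow_le_pow_iff_right₀ (by norm_num)).mp h6
  omega

end cv

end Pool.Agent.Helper81.SBA
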