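import Mathlib

/-!
# Symplectic line arrangements as factorisations of the full twist: definitions

`BraidGroup m` is Artin's braid group on `m + 1` strands, generators `sigma 0, ..., sigma (m - 1)`.
-/

set_option autoImplicit false

namespace Pool.Agent.Helper81.SBA

/-- The Artin relations for the braid group on `m + 1` strands. -/
def artinRels (m : ℕ) : Set (FreeGroup (Fin m)) :=
  {r | ∃ i j : Fin m,
      (i.val + 1 = j.val ∧
        r = FreeGroup.of i * FreeGroup.of j * FreeGroup.of i *
          (FreeGroup.of j * FreeGroup.of i * FreeGroup.of j)⁻¹) ∨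
      (i.val + 2 ≤ j.val ∧
        r = FreeGroup.of i * FreeGroup.of j * (FreeGroup.of j * FreeGroup.of i)⁻¹)}

/-- The braid group on `m + 1` strands. -/
abbrev BraidGroup (m : ℕ) : Type := PresentedGroup (artinRels m)

/-- The Artin generator number `i` (half twist of the adjacent strands `i` and `i + 1`). -/
def sigma {m : ℕ} (i : Fin m) : BraidGroup m := PresentedGroup.of i

theorem artin_braid {m : ℕ} (i j : Fin m) (h : i.val + 1 = j.val) :
    sigma i * sigma j * sigma i = sigma j * sigma i * sigma j := by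
  have : (PresentedGroup.mk (artinRels m)) (FreeGroup.of i * FreeGroup.of j * FreeGroup.of i *
          (FreeGroup.of j * FreeGroup.of i * FreeGroup.of j)⁻¹) = 1 :=
    PresentedGroup.one_of_mem ⟨i, j, Or.inl ⟨h, rfl⟩⟩
  rw [map_mul, map_inv, mul_inv_eq_one] at this
  simpa [sigma, PresentedGroup.of] using this

theorem artin_comm {m : ℕ} (i j : Fin m) (h : i.val + 2 ≤ j.val) :
    sigma i * sigma j = sigma j * sigma i := by
  have : (PresentedGroup.mk (artinRels m)) (FreeGroup.of i * FreeGroup.of j *
          (FreeGroup.of j * FreeGroup.of i)⁻¹) = 1 :=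
    PresentedGroup.one_of_mem ⟨i, j, Or.inr ⟨h, rfl⟩⟩
  rw [map_mul, map_inv, mul_inv_eq_one] at this
  simpa [sigma, PresentedGroup.of] using this

/-- A homomorphism from the braid group, given by elements that satisfy the Artin relations. -/
def braidLift {m : ℕ} {G : Type*} [Group G] (f : Fin m → G)
    (h1 : ∀ i j : Fin m, i.val + 1 = j.val → f i * f j * f i = f j * f i * f j)
    (h2 : ∀ i j : Fin m, i.val + 2 ≤ j.val → f i * f j = f j * f i) : BraidGroup m →* G :=
  PresentedGroup.toGroup (f := f) (by
    rintro r ⟨i, j, ⟨h, rfl⟩ | ⟨h, rfl⟩⟩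
    · simp only [map_mul, map_inv, FreeGroup.lift_apply_of]
      rw [mul_inv_eq_one]
      exact h1 _ _ h
    · simp only [map_mul, map_inv, FreeGroup.lift_apply_of]
      rw [mul_inv_eq_one]
      exact h2 _ _ h)

theorem braidLift_sigma {m : ℕ} {G : Type*} [Group G] (f : Fin m → G)
    (h1 : ∀ i j : Fin m, i.val + 1 = j.val → f i * f j * f i = f j * f i * f j)
    (h2 : ∀ i j : Fin m, i.val + 2 ≤ j.val → f i * f j = f j * f i) (i : Fin m) :
    braidLift f h1 h2 (sigma i) = f i := PresentedGroup.toGroup.of _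

/-- The braid group is generated by the `sigma i`. PROOF. `PresentedGroup.induction_on` and
`FreeGroup.induction_on`, or `PresentedGroup.closure_range_of`. -/
theorem braid_induction {m : ℕ} {P : BraidGroup m → Prop} (h1 : P 1)
    (hm : ∀ g i, P g → P (g * sigma i)) (hi : ∀ g i, P g → P (g * (sigma i)⁻¹))
    (g : BraidGroup m) : P g := by
  have hg : g ∈ Subgroup.closure (Set.range (sigma (m := m))) := by
    have h := PresentedGroup.closure_range_of (artinRels m)
    change Subgroup.closure (Set.range (sigma (m := m))) = ⊤ at h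
    rw [h]
    exact Subgroup.mem_top g
  induction hg using Subgroup.closure_induction_right with
  | one => exact h1
  | mul_right x _ y hy ih =>
    obtain ⟨i, rfl⟩ := hy
    exact hm x i ih
  | mul_inv_cancel x _ y hy ih =>
    obtain ⟨i, rfl⟩ := hy
    exact hi x i ih

/-- Generators with natural number index; `1` outside the range. -/
def sg (m i : ℕ) : BraidGroup m := if h : i < m then sigma ⟨i, h⟩ else 1

/-- `run m a n = σ_a σ_{a+1} ⋯ σ_{a+n-1}`. -/
def run (m a : ℕ) : ℕ → BraidGroup m
  | 0 => 1
  | n + 1 => run m a n * sg m (a + n)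

/-- The full twist of the `k` adjacent strands `a, ..., a + k - 1`. -/
def twist (m a k : ℕ) : BraidGroup m := run m a (k - 1) ^ k

/-- A multiple point of an arrangement of `m + 1` lines: `k` lines, which are adjacent strands
`a, ..., a + k - 1` after the braid `g`. -/
structure Pt (m : ℕ) where
  g : BraidGroup m
  a : ℕ
  k : ℕ

/-- The local braid monodromy of a point. -/
def Pt.braid {m : ℕ} (P : Pt m) : BraidGroup m := P.g * twist m P.a P.k * P.g⁻¹

/-- A symplectic line arrangement of `m + 1` lines, given by its braid monodromy factorisation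
`Δ² = ∏ g_j T_{k_j} g_j⁻¹`. -/
def IsArr (m : ℕ) (l : List (Pt m)) : Prop :=
  (∀ P ∈ l, 2 ≤ P.k ∧ P.a + P.k ≤ m + 1) ∧ (l.map Pt.braid).prod = twist m 0 (m + 1)

/-- The number of points of multiplicity `k`. -/
def tk {m : ℕ} (l : List (Pt m)) (k : ℕ) : ℕ := l.countP fun P => P.k = k

/-- `c_2 (X_n) / n ^ (d - 3)` for the Hirzebruch cover `X_n` of an arrangement of `d` lines with
`t2` double points, `f0` multiple points and `f1` incidences. -/
def cTwo (n d t2 f0 f1 : ℤ) : ℤ :=
  n ^ 2 * (3 - 2 * d + f1 - f0) + 2 * n * (d - f1 + f0) + f1 - t2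

/-- `c_1 ^ 2 (X_n) / n ^ (d - 3)`. -/
def cOneSq (n d t2 f0 f1 : ℤ) : ℤ :=
  n ^ 2 * (-5 * d + 9 + 3 * f1 - 4 * f0) + 4 * n * (d - f1 + f0) + f1 - f0 + d + t2

end Pool.Agent.Helper81.SBA
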