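import Pool.Agent.Helper81.SBA.Fi

/-!
# Arrangements whose multiple points have mostly even multiplicity

`d` lines, multiplicities at most `K`, `d ≥ 30 K ^ 3`: `c_1² ≤ 3 c_2` for the Hirzebruch covers with
`n ≥ 5`.
-/

set_option autoImplicit false

open Module

namespace Pool.Agent.Helper81.SBA

/-! ### The local word of a point of even multiplicity -/

section loc

/-- PROOF. Induction on `w`: the identity of `ℝ` times the map of the induction hypothesis
(`LinearEquiv.prodCongr`). -/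
theorem obj_map {V V' : Type} [AddCommGroup V] [Module ℝ V] [AddCommGroup V'] [Module ℝ V']
    {ω : V →ₗ[ℝ] V →ₗ[ℝ] ℝ} {ω' : V' →ₗ[ℝ] V' →ₗ[ℝ] ℝ} [Alt ω] [Alt ω'] (J : V' →ₗ[ℝ] V)
    (hJ : ∀ x y, ω (J x) (J y) = ω' x y) (w : List V') :
    ∃ f : (obj (ω := ω') w).E ≃ₗ[ℝ] (obj (ω := ω) (w.map J)).E,
      (∀ x y, (obj (ω := ω) (w.map J)).L (f x) (f y) = (obj (ω := ω') w).L x y) ∧
      ∀ x, (obj (ω := ω) (w.map J)).p (f x) = J ((obj (ω := ω') w).p x) := by
  induction w with
  | nil =>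
    refine ⟨LinearEquiv.refl ℝ PUnit, fun x y => rfl, fun x => ?_⟩
    exact (map_zero J).symm
  | cons v w ih =>
    obtain ⟨f, h1, h2⟩ := ih
    have k1 : ∀ (s t : ℝ) (x y : (obj (ω := ω') w).E),
        s * t + (obj (ω := ω) (w.map J)).L (f x) (f y) -
          ω (s • J v) ((obj (ω := ω) (w.map J)).p (f y)) =
        s * t + (obj (ω := ω') w).L x y - ω' (s • v) ((obj (ω := ω') w).p y) := by
      intro s t x y
      rw [h1, h2, ← map_smul, hJ]
    have k2 : ∀ (s : ℝ) (x : (obj (ω := ω') w).E),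
        s • J v + (obj (ω := ω) (w.map J)).p (f x) = J (s • v + (obj (ω := ω') w).p x) := by
      intro s x
      rw [h2, map_add, map_smul]
    exact ⟨(LinearEquiv.refl ℝ ℝ).prodCongr f, fun x y => k1 x.1 y.1 x.2 y.2,
      fun x => k2 x.1 x.2⟩

/-- PROOF. As `std_psd`: image of `W` of `qf_pos` under the map of `model_std`. -/
theorem std_pos {m e : ℕ} (hm : m + 1 = 2 * e) :
    ∃ W : Submodule ℝ (obj (ω := om ℝ m) (stdW m)).E, 3 * e * e - e ≤ finrank ℝ W ∧
      ∀ x ∈ W, x ≠ 0 → 0 < (obj (ω := om ℝ m) (stdW m)).L x x := by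
  obtain ⟨f, hf⟩ := model_std m
  obtain ⟨W, h1, h2⟩ := qf_pos hm
  refine ⟨LinearMap.range (f ∘ₗ W.subtype), ?_, ?_⟩
  · rw [LinearMap.finrank_range_of_inj]
    · exact h1
    · rw [injective_iff_map_eq_zero]
      intro x hx
      have hx' : f x.1 = 0 := hx
      by_contra hne
      have hne' : x.1 ≠ 0 := fun h0 => hne (Subtype.ext h0)
      have h3 := h2 x.1 x.2 hne'
      rw [← hf, hx', map_zero] at h3
      exact lt_irrefl _ h3
  · rintro _ ⟨x, rfl⟩ hne
    change 0 < (obj (ω := om ℝ m) (stdW m)).L (f x.1) (f x.1)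
    rw [hf]
    apply h2 x.1 x.2
    intro h0
    apply hne
    change f x.1 = 0
    rw [h0, map_zero]

private theorem EV2_expand {m : ℕ} (b : Fin m → ℝ) : b = ∑ i : Fin m, b i • vb ℝ m i := by
  funext j
  rw [Finset.sum_apply, Finset.sum_eq_single j]
  · simp [vb]
  · intro i _ hij
    have : ¬ j.val = i.val := fun h => hij (Fin.ext h.symm)
    simp [vb, this]
  · intro h
    exact absurd (Finset.mem_univ j) h

private def EV2_beta {m : ℕ} (b : Fin m → ℝ) (j : ℕ) : ℝ := if h : j < m then b ⟨j, h⟩ else 0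

private theorem EV2_om {m : ℕ} (b : Fin m → ℝ) {i : ℕ} (hi : i < m) :
    om ℝ m b (vb ℝ m i) = (if 0 < i then EV2_beta b (i - 1) else 0) - EV2_beta b (i + 1) := by
  have h1 : om ℝ m b (vb ℝ m i) =
      ∑ j : Fin m, ((if j.val + 1 = i then b j else 0) - if i + 1 = j.val then b j else 0) := by
    conv_lhs => rw [EV2_expand b]
    rw [map_sum, LinearMap.sum_apply]
    refine Finset.sum_congr rfl fun j _ => ?_
    rw [map_smul, LinearMap.smul_apply, smul_eq_mul, om_vb j.2 hi]
    split_ifs with h2 h3 h3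
    · omega
    · ring
    · ring
    · ring
  rw [h1, Finset.sum_sub_distrib]
  congr 1
  · by_cases h0 : 0 < i
    · rw [if_pos h0, Finset.sum_eq_single (⟨i - 1, by omega⟩ : Fin m)]
      · rw [if_pos (by change i - 1 + 1 = i; omega)]
        unfold EV2_beta
        rw [dif_pos (show i - 1 < m by omega)]
      · intro j _ hj
        rw [if_neg]
        intro h2
        apply hj
        apply Fin.ext
        change j.val = i - 1
        omega
      · intro h
        exact absurd (Finset.mem_univ _) h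
    · rw [if_neg h0]
      refine Finset.sum_eq_zero fun j _ => ?_
      rw [if_neg (by omega)]
  · by_cases h0 : i + 1 < m
    · rw [Finset.sum_eq_single (⟨i + 1, h0⟩ : Fin m)]
      · rw [if_pos rfl]
        unfold EV2_beta
        rw [dif_pos h0]
      · intro j _ hj
        rw [if_neg]
        intro h2
        apply hj
        apply Fin.ext
        exact h2.symm
      · intro h
        exact absurd (Finset.mem_univ _) h
    · unfold EV2_beta
      rw [dif_neg h0]
      refine Finset.sum_eq_zero fun j _ => ?_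
      rw [if_neg]
      have := j.2
      omega

/-- The radical of the form has dimension at most 1.
PROOF. `om v_i b = b_{i+1} - b_{i-1} = 0` for all `i`: `b_1 = 0`, `b_{i+1} = b_{i-1}`, so `b` is
determined by `b_0`. -/
theorem rad_finrank (m : ℕ) :
    finrank ℝ (LinearMap.ker (om ℝ m)) ≤ 1 := by
  rcases Nat.eq_zero_or_pos m with rfl | hm
  · have h1 := Submodule.finrank_le (LinearMap.ker (om ℝ 0))
    rw [Module.finrank_fin_fun] at h1
    omega
  · let g : LinearMap.ker (om ℝ m) →ₗ[ℝ] ℝ :=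
      (LinearMap.proj (⟨0, hm⟩ : Fin m)).comp (LinearMap.ker (om ℝ m)).subtype
    have hg : Function.Injective g := by
      rw [← LinearMap.ker_eq_bot, LinearMap.ker_eq_bot']
      intro b hb
      have hb0 : b.1 ⟨0, hm⟩ = 0 := hb
      have hk : om ℝ m b.1 = 0 := LinearMap.mem_ker.1 b.2
      have key : ∀ j, EV2_beta b.1 j = 0 := by
        intro j
        induction j using Nat.strong_induction_on with
        | _ j ih =>
          by_cases hj : j < m
          · rcases Nat.eq_zero_or_pos j with rfl | hj0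
            · unfold EV2_beta
              rw [dif_pos hj]
              exact hb0
            · obtain ⟨i, rfl⟩ : ∃ i, j = i + 1 := ⟨j - 1, by omega⟩
              have h1 := EV2_om b.1 (show i < m by omega)
              rw [hk, LinearMap.zero_apply] at h1
              by_cases h0 : 0 < i
              · rw [if_pos h0, ih (i - 1) (by omega)] at h1
                linarith
              · rw [if_neg h0] at h1
                linarith
          · unfold EV2_beta
            rw [dif_neg hj]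
      apply Subtype.ext
      funext j
      have h1 := key j.val
      unfold EV2_beta at h1
      rw [dif_pos j.2] at h1
      exact h1
    have h2 := LinearMap.finrank_le_finrank_of_injective hg
    rwa [Module.finrank_self] at h2

/-- PROOF. `m` odd: `b = (1, 0, 1, 0, ..., 1)` is in the radical, so the rank is at most `m - 1`. -/
theorem range_finrank {m : ℕ} (hm : Odd m) :
    finrank ℝ (LinearMap.range (om ℝ m)) + 1 ≤ m := by
  have h1 := LinearMap.finrank_range_add_finrank_ker (om ℝ m)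
  rw [Module.finrank_fin_fun] at h1
  have hm0 : 0 < m := hm.pos
  have hb : (fun j : Fin m => if j.val % 2 = 0 then (1 : ℝ) else 0) ∈
      LinearMap.ker (om ℝ m) := by
    rw [LinearMap.mem_ker]
    apply LinearMap.ext
    intro x
    rw [LinearMap.zero_apply]
    conv_lhs => rw [EV2_expand x]
    rw [map_sum]
    refine Finset.sum_eq_zero fun i _ => ?_
    rw [map_smul, smul_eq_mul, EV2_om _ i.2]
    obtain ⟨k, hk⟩ := hm
    have hi := i.2
    have h3 : (if 0 < i.val then EV2_beta (fun j : Fin m => if j.val % 2 = 0 then (1 : ℝ) else 0)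
        (i.val - 1) else 0) -
        EV2_beta (fun j : Fin m => if j.val % 2 = 0 then (1 : ℝ) else 0) (i.val + 1) = 0 := by
      unfold EV2_beta
      by_cases h0 : 0 < i.val
      · rw [if_pos h0, dif_pos (show i.val - 1 < m by omega)]
        by_cases h4 : i.val + 1 < m
        · rw [dif_pos h4]
          change (if (i.val - 1) % 2 = 0 then (1 : ℝ) else 0) -
            (if (i.val + 1) % 2 = 0 then (1 : ℝ) else 0) = 0
          by_cases h5 : i.val % 2 = 0
          · rw [if_neg (by omega), if_neg (by omega), sub_zero]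
          · rw [if_pos (by omega), if_pos (by omega), sub_self]
        · rw [dif_neg h4]
          change (if (i.val - 1) % 2 = 0 then (1 : ℝ) else 0) - 0 = 0
          rw [if_neg (by omega), sub_zero]
      · rw [if_neg h0]
        by_cases h4 : i.val + 1 < m
        · rw [dif_pos h4]
          change 0 - (if (i.val + 1) % 2 = 0 then (1 : ℝ) else 0) = 0
          rw [if_neg (by omega), sub_zero]
        · rw [dif_neg h4, sub_zero]
    rw [h3, mul_zero]
  have h2 : 0 < finrank ℝ (LinearMap.ker (om ℝ m)) := by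
    rw [Module.finrank_pos_iff]
    refine ⟨⟨⟨_, hb⟩, 0, fun h3 => ?_⟩⟩
    have h4 := congrFun (congrArg Subtype.val h3) (⟨0, hm0⟩ : Fin m)
    change (if 0 % 2 = 0 then (1 : ℝ) else 0) = 0 at h4
    norm_num at h4
  omega

/-- The standard word as a list of pairs. -/
private def EV2_w (m : ℕ) : List (BraidGroup m × Fin m) :=
  (List.replicate (m + 1) ((List.finRange m).map fun i => ((1 : BraidGroup m), i))).flatten

private theorem EV2_bl {m : ℕ} : (EV2_w m).map bl = stdL m := by
  unfold EV2_w stdL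
  rw [List.map_flatten, List.map_replicate, List.map_map]
  have h1 : (bl ∘ fun i => ((1 : BraidGroup m), i)) = (sigma : Fin m → BraidGroup m) := by
    funext i
    change 1 * sigma i * 1⁻¹ = sigma i
    rw [one_mul, inv_one, mul_one]
  rw [h1]

private theorem EV2_vl {m : ℕ} : (EV2_w m).map vl = stdW m := by
  unfold EV2_w stdW
  rw [List.map_flatten, List.map_replicate, List.map_map]
  have h1 : (do let a ← List.finRange m
                pure (a : ℕ)) = (List.finRange m).map (fun a : Fin m => (a : ℕ)) := by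
    change List.flatMap (fun a => [((a : Fin m) : ℕ)]) (List.finRange m) = _
    exact List.flatMap_pure_eq_map _ _
  have h2 : (vl ∘ fun i => ((1 : BraidGroup m), i)) =
      ((fun i => vb ℝ m i) ∘ fun a : Fin m => (a : ℕ)) := by
    funext i
    change rep ℝ m 1 (vb ℝ m i) = vb ℝ m i
    rw [map_one]
    rfl
  rw [h1, List.map_map, h2]

private theorem EV2_pX {m : ℕ} (hm : Odd m) (b : Fin m → ℝ) :
    (obj (ω := om ℝ m) (stdW m)).p ((obj (ω := om ℝ m) (stdW m)).X b) = 0 := by
  have h1 := obj_pX hm (EV2_w m) (by rw [EV2_bl, stdL_prod]) b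
  rwa [EV2_vl] at h1

private theorem EV2_range {V : Type} [AddCommGroup V] [Module ℝ V] {ω : V →ₗ[ℝ] V →ₗ[ℝ] ℝ} [Alt ω]
    (w : List V) (v : V) (hv : v ∈ w) : ∃ y, (obj (ω := ω) w).p y = v := by
  induction w with
  | nil => simp at hv
  | cons u w ih =>
    rcases List.mem_cons.1 hv with rfl | hv
    · refine ⟨((1 : ℝ), (0 : (obj (ω := ω) w).E)), ?_⟩
      change (1 : ℝ) • v + (obj (ω := ω) w).p 0 = v
      rw [one_smul, map_zero, add_zero]
    · obtain ⟨y, hy⟩ := ih hv
      refine ⟨((0 : ℝ), y), ?_⟩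
      change (0 : ℝ) • u + (obj (ω := ω) w).p y = v
      rw [zero_smul, zero_add, hy]

private theorem EV2_mem {m : ℕ} (i : Fin m) : vb ℝ m i.val ∈ stdW m := by
  rw [← EV2_vl, List.mem_map]
  refine ⟨((1 : BraidGroup m), i), ?_, ?_⟩
  · unfold EV2_w
    rw [List.mem_flatten]
    refine ⟨(List.finRange m).map fun i => ((1 : BraidGroup m), i), ?_, ?_⟩
    · rw [List.mem_replicate]
      exact ⟨Nat.succ_ne_zero m, rfl⟩
    · rw [List.mem_map]
      exact ⟨i, List.mem_finRange i, rfl⟩
  · change rep ℝ m 1 (vb ℝ m i) = vb ℝ m i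
    rw [map_one]
    rfl

private theorem EV2_dim {E M : Type} [AddCommGroup E] [Module ℝ E] [Module.Finite ℝ E]
    [AddCommGroup M] [Module ℝ M] [Module.Finite ℝ M] (W : Submodule ℝ E) (f : E →ₗ[ℝ] M)
    (S : Submodule ℝ M) (h : ∀ x ∈ W, f x ∈ S) :
    finrank ℝ W ≤ finrank ℝ (W ⊓ LinearMap.ker f : Submodule ℝ E) + finrank ℝ S := by
  let g : W →ₗ[ℝ] S := (f.comp W.subtype).codRestrict S fun x => h x.1 x.2
  have h1 := LinearMap.finrank_range_add_finrank_ker g
  have h2 := Submodule.finrank_le (LinearMap.range g)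
  have h3 : finrank ℝ (LinearMap.ker g) ≤ finrank ℝ (W ⊓ LinearMap.ker f : Submodule ℝ E) := by
    let q : LinearMap.ker g →ₗ[ℝ] (W ⊓ LinearMap.ker f : Submodule ℝ E) :=
      { toFun := fun y => ⟨y.1.1, ⟨y.1.2, congrArg Subtype.val (LinearMap.mem_ker.1 y.2)⟩⟩
        map_add' := fun _ _ => rfl
        map_smul' := fun _ _ => rfl }
    refine LinearMap.finrank_le_finrank_of_injective (f := q) ?_
    intro a b hab
    have h4 : a.1.1 = b.1.1 :=
      congrArg (fun z : (W ⊓ LinearMap.ker f : Submodule ℝ E) => z.1) hab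
    exact Subtype.ext (Subtype.ext h4)
  omega

/-- PROOF. `Q = obj (stdW m)`, `X b`: `Q.p (Q.X b) = 0` (`obj_pX` for the standard word, as in
`index_word`; for `e = 1` the word is `[v_0, v_0]` and the computation is direct, `pX2`, or note that
`obj_pX` has no hypothesis on `m` except `Odd m`). `W` from `std_pos`; `δ = om ∘ p : E → V*`, its range
has dimension at most `m - 1` (`range_finrank`). `F'' = (W ⊓ ker δ) ⊔ range X`: on it `L x x ≥ 0`
(`L (x + X b) (x + X b) = L x x`, since `om (p x) = 0` and `p (X b) = 0`), `W ⊓ ker δ` has dimension at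
least `dim W - (m - 1)`, `range X` at least `m - 1` (`X b = 0` implies `om (p y) b = 0` for all `y`,
so `b` is in the radical, as the `v_i` are in the range of `p`; `rad_finrank`), and they meet in `0`
(`L (X b) (X b) = om (p X b) b = 0`, positivity on `W`). So `dim F'' ≥ dim W`, `p` maps `F''` into the
radical, `F = F'' ⊓ ker p` has dimension at least `dim W - 1`. -/
theorem std_loc {m e : ℕ} (hm : m + 1 = 2 * e) :
    (obj (ω := om ℝ m) (stdW m)).Loc (3 * e * e - e - 1) := by
  have hodd : Odd m := ⟨e - 1, by omega⟩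
  obtain ⟨W, hW, hpos⟩ := std_pos hm
  have hZ := EV2_pX hodd
  have hv : ∀ i : Fin m, ∃ y, (obj (ω := om ℝ m) (stdW m)).p y = vb ℝ m i.val :=
    fun i => EV2_range _ _ (EV2_mem i)
  generalize obj (ω := om ℝ m) (stdW m) = Q at *
  let δ : Q.E →ₗ[ℝ] (Fin m → ℝ) →ₗ[ℝ] ℝ := (om ℝ m) ∘ₗ Q.p
  have hK := EV2_dim W δ (LinearMap.range (om ℝ m)) fun x _ => ⟨Q.p x, rfl⟩
  have hr := range_finrank hodd
  set K : Submodule ℝ Q.E := W ⊓ LinearMap.ker δ with hKdef
  set R : Submodule ℝ Q.E := LinearMap.range Q.X with hRdef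
  have hLX : ∀ b, Q.L (Q.X b) (Q.X b) = 0 := by
    intro b
    rw [Q.hX, hZ, map_zero, LinearMap.zero_apply]
  have hR : m ≤ finrank ℝ R + 1 := by
    have h1 := LinearMap.finrank_range_add_finrank_ker Q.X
    rw [Module.finrank_fin_fun, ← hRdef] at h1
    have h2 : LinearMap.ker Q.X ≤ LinearMap.ker (om ℝ m) := by
      intro b hb
      rw [LinearMap.mem_ker] at hb ⊢
      apply LinearMap.ext
      intro x
      rw [LinearMap.zero_apply]
      conv_lhs => rw [EV2_expand x]
      rw [map_sum]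
      refine Finset.sum_eq_zero fun i _ => ?_
      obtain ⟨y, hy⟩ := hv i
      have h3 := Q.hX y b
      rw [hb, map_zero, hy] at h3
      rw [map_smul, om_skew, ← h3, neg_zero, smul_zero]
    have h3 := Submodule.finrank_mono h2
    have h4 := rad_finrank m
    omega
  have hKR : K ⊓ R = ⊥ := by
    rw [eq_bot_iff]
    rintro x ⟨hx, ⟨b, rfl⟩⟩
    rw [Submodule.mem_bot]
    by_contra hne
    have h1 := hpos _ hx.1 hne
    rw [hLX] at h1
    exact lt_irrefl _ h1
  have hsum := Submodule.finrank_sup_add_finrank_inf_eq K R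
  rw [hKR, finrank_bot, add_zero] at hsum
  have hp : ∀ x ∈ K ⊔ R, Q.p x ∈ LinearMap.ker (om ℝ m) := by
    intro x hx
    obtain ⟨k, hk, r, ⟨b, rfl⟩, rfl⟩ := Submodule.mem_sup.1 hx
    rw [map_add, hZ, add_zero]
    exact hk.2
  have hF := EV2_dim (K ⊔ R) Q.p (LinearMap.ker (om ℝ m)) hp
  have hrad := rad_finrank m
  refine ⟨(K ⊔ R) ⊓ LinearMap.ker Q.p, by omega, ?_⟩
  rintro x ⟨hx, hx2⟩
  refine ⟨hx2, ?_⟩
  obtain ⟨k, hk, r, ⟨b, rfl⟩, rfl⟩ := Submodule.mem_sup.1 hx
  have hk1 : om ℝ m (Q.p k) = 0 := hk.2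
  have e1 := Q.hX k b
  rw [hk1, LinearMap.zero_apply] at e1
  have e2 := Q.rel (Q.X b) k
  rw [hZ, map_zero, LinearMap.zero_apply, neg_zero, e1, sub_zero] at e2
  have e3 := hLX b
  simp only [map_add, LinearMap.add_apply]
  rw [e1, e2, e3, add_zero, add_zero, add_zero]
  by_cases h0 : k = 0
  · rw [h0, map_zero]
  · exact (hpos k hk.1 h0).le

/-- The embedding of the vectors of a local word. -/
private noncomputable def EV3_J {m : ℕ} (P : Pt m) (n : ℕ) : (Fin n → ℝ) →ₗ[ℝ] (Fin m → ℝ) where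
  toFun x := ∑ q : Fin n, x q • rep ℝ m P.g (vb ℝ m (P.a + q.val))
  map_add' x y := by
    rw [← Finset.sum_add_distrib]
    refine Finset.sum_congr rfl fun q _ => ?_
    rw [Pi.add_apply, add_smul]
  map_smul' c x := by
    rw [RingHom.id_apply, Finset.smul_sum]
    refine Finset.sum_congr rfl fun q _ => ?_
    rw [Pi.smul_apply, smul_eq_mul, mul_smul]

private theorem EV3_J_apply {m : ℕ} (P : Pt m) (n : ℕ) (x : Fin n → ℝ) :
    EV3_J P n x = ∑ q : Fin n, x q • rep ℝ m P.g (vb ℝ m (P.a + q.val)) := rfl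

private theorem EV3_J_vb {m : ℕ} (P : Pt m) (n : ℕ) (q : Fin n) :
    EV3_J P n (vb ℝ n q.val) = rep ℝ m P.g (vb ℝ m (P.a + q.val)) := by
  rw [EV3_J_apply, Finset.sum_eq_single q]
  · simp [vb]
  · intro r _ hr
    have h1 : ¬ r.val = q.val := fun h => hr (Fin.ext h)
    simp [vb, h1]
  · intro h
    exact absurd (Finset.mem_univ _) h

private theorem EV3_J_om {m : ℕ} (P : Pt m) {n : ℕ} (h : P.a + n ≤ m) (x y : Fin n → ℝ) :
    om ℝ m (EV3_J P n x) (EV3_J P n y) = om ℝ n x y := by
  conv_rhs => rw [EV2_expand x, EV2_expand y]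
  rw [EV3_J_apply, EV3_J_apply]
  simp only [map_sum, map_smul, LinearMap.sum_apply, LinearMap.smul_apply]
  refine Finset.sum_congr rfl fun q _ => ?_
  congr 1
  refine Finset.sum_congr rfl fun r _ => ?_
  congr 1
  have hq := q.2
  have hr := r.2
  rw [rep_om, om_vb (by omega) (by omega), om_vb hr hq]
  split_ifs <;> first | rfl | omega

private theorem EV3_block {m : ℕ} (P : Pt m) {n : ℕ} (h : P.a + n ≤ m) :
    ((List.range n).filterMap fun q =>
      if h : P.a + q < m then some (P.g, (⟨P.a + q, h⟩ : Fin m)) else none).map vl =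
      (List.finRange n).map fun q : Fin n => rep ℝ m P.g (vb ℝ m (P.a + q.val)) := by
  rw [← List.map_coe_finRange_eq_range, List.filterMap_map]
  have h1 : ∀ L : List (Fin n), (L.filterMap ((fun q =>
      if h : P.a + q < m then some (P.g, (⟨P.a + q, h⟩ : Fin m)) else none) ∘
        fun a : Fin n => (a : ℕ))).map vl =
      L.map fun q : Fin n => rep ℝ m P.g (vb ℝ m (P.a + q.val)) := by
    intro L
    induction L with
    | nil => rfl
    | cons q L ih =>
      have hq : P.a + q.val < m := by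
        have := q.2
        omega
      rw [List.filterMap_cons_some (b := (P.g, (⟨P.a + q.val, hq⟩ : Fin m))), List.map_cons,
        List.map_cons, ih]
      · rfl
      · change (if h : P.a + q.val < m then some (P.g, (⟨P.a + q.val, h⟩ : Fin m)) else none) = _
        rw [dif_pos hq]
  exact h1 _

private theorem EV3_word {m : ℕ} (P : Pt m) {n : ℕ} (h : P.a + n ≤ m) (hn : P.k = n + 1) :
    (wd P).map vl = (stdW n).map (EV3_J P n) := by
  rw [← EV2_vl]
  unfold wd EV2_w
  rw [List.map_flatten, List.map_replicate, List.map_flatten, List.map_replicate,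
    List.map_flatten, List.map_replicate, hn, Nat.add_sub_cancel, EV3_block P h, List.map_map,
    List.map_map]
  congr 2
  refine List.map_congr_left fun q _ => ?_
  have h1 : vl ((1 : BraidGroup n), q) = vb ℝ n q.val := by
    change rep ℝ n 1 (vb ℝ n q.val) = vb ℝ n q.val
    rw [map_one]
    rfl
  change _ = EV3_J P n (vl ((1 : BraidGroup n), q))
  rw [h1, EV3_J_vb]

/-- PROOF. `m' = P.k - 1`, `J : (Fin m' → ℝ) → (Fin m → ℝ)`, `J x = ∑ q, x q • rep g v_{a+q}`; it
preserves the forms (`rep_om`, `om_vb`); `(wd P).map vl = (stdW m').map J`. `obj_map`, `std_loc`. -/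
theorem oP_loc_even {m e : ℕ} (P : Pt m) (h : P.a + P.k ≤ m + 1) (hk : P.k = 2 * e) :
    (oP P).Loc (3 * e * e - e - 1) := by
  rcases Nat.eq_zero_or_pos e with rfl | he
  · refine ⟨⊥, by simp, ?_⟩
    intro x hx
    rw [Submodule.mem_bot] at hx
    rw [hx, map_zero, map_zero]
    exact ⟨rfl, le_rfl⟩
  · have hw : (wd P).map vl = (stdW (P.k - 1)).map (EV3_J P (P.k - 1)) :=
      EV3_word P (by omega) (by omega)
    obtain ⟨F, hF, hF2⟩ := std_loc (m := P.k - 1) (e := e) (by omega)
    obtain ⟨f, hL, hp⟩ := obj_map (ω := om ℝ m) (ω' := om ℝ (P.k - 1)) (EV3_J P (P.k - 1))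
      (EV3_J_om P (by omega)) (stdW (P.k - 1))
    unfold oP
    rw [hw]
    refine ⟨F.map f.toLinearMap, ?_, ?_⟩
    · rw [LinearEquiv.finrank_map_eq]
      exact hF
    · rintro _ ⟨x, hx, rfl⟩
      rw [LinearEquiv.coe_coe, hL, hp]
      obtain ⟨h1, h2⟩ := hF2 x hx
      rw [h1, map_zero]
      exact ⟨rfl, h2⟩

end loc

/-! ### The inequality for an even number of lines -/

/-- The weight `3 (k/2)² - k/2 - 1` for even `k`, `0` for odd `k`. -/
def wE (k : ℕ) : ℕ := if k % 2 = 0 then 3 * (k / 2) * (k / 2) - k / 2 - 1 else 0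

private theorem EV4_loc {m : ℕ} (P : Pt m) (h : P.a + P.k ≤ m + 1) : (oP P).Loc (wE P.k) := by
  unfold wE
  by_cases h2 : P.k % 2 = 0
  · rw [if_pos h2]
    exact oP_loc_even P h (by omega)
  · rw [if_neg h2]
    refine ⟨⊥, by simp, ?_⟩
    intro x hx
    rw [Submodule.mem_bot] at hx
    rw [hx, map_zero, map_zero]
    exact ⟨rfl, le_rfl⟩

/-- PROOF. As `even_psd`, with `psd_prod` for the pairs `(oP P, wE P.k)` (`oP_loc_even`; for odd `k`
`Loc 0` with `F = ⊥`) and `n` the sum of the weights (`inv` has dimension at most `m`), `index_word`. -/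
theorem even_sum {m e : ℕ} (hm : m + 1 = 2 * e) (he : 2 ≤ e) {l : List (Pt m)} (hl : IsArr m l) :
    (l.map fun P => wE P.k).sum ≤ 3 * e * e - e := by
  have hprod : (((l.map wd).flatten).map bl).prod = twist m 0 (m + 1) := by
    rw [List.map_flatten, List.prod_flatten, List.map_map, List.map_map, ← hl.2]
    congr 1
    refine List.map_congr_left fun P hP => ?_
    exact wd_prod P (hl.1 P hP).2
  have hiso : Iso (obj (ω := om ℝ m) (((l.map wd).flatten).map vl)) (prodQ (l.map oP)) := by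
    have h1 := obj_flatten (ω := om ℝ m) ((l.map wd).map (List.map vl))
    rw [← List.map_flatten, List.map_map, List.map_map] at h1
    exact h1
  have hA : ∀ b, (prodQ (l.map oP)).p ((prodQ (l.map oP)).X b) = 0 := by
    intro b
    have h1 := obj_pX ⟨e - 1, by omega⟩ _ hprod b
    obtain ⟨f, -, h2, h3⟩ := hiso
    rw [← h3, h2]
    exact h1
  have hf : (l.map fun P => (oP P, wE P.k)).map Prod.fst = l.map oP := by
    rw [List.map_map]
    rfl
  have hs : (l.map fun P => (oP P, wE P.k)).map Prod.snd = l.map fun P => wE P.k := by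
    rw [List.map_map]
    rfl
  have hV : finrank ℝ (Fin m → ℝ) = m := by simp
  have hinv : finrank ℝ (inv (l.map oP)) ≤ m := by
    have h1 := Submodule.finrank_le (inv (l.map oP))
    rwa [hV] at h1
  have hpsd := psd_prod (l.map fun P => (oP P, wE P.k)) (by
    intro q hq
    obtain ⟨P, hP, rfl⟩ := List.mem_map.1 hq
    exact EV4_loc P (hl.1 P hP).2) (by rw [hf]; exact hA)
    (n := (l.map fun P => wE P.k).sum) (by
      rw [hf, hs, hV]
      omega)
  rw [hf] at hpsd
  exact index_word hm he _ hprod (psd_iso hiso.symm hpsd)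

/-- The sum over the points of even multiplicity of `k - 4`, and the sum over the points of odd
multiplicity of `k (k - 1)`. -/
def sE {m : ℕ} (l : List (Pt m)) : ℤ := (l.map fun P => if P.k % 2 = 0 then (P.k : ℤ) - 4 else 0).sum

def sO {m : ℕ} (l : List (Pt m)) : ℤ :=
  (l.map fun P => if P.k % 2 = 0 then 0 else (P.k : ℤ) * (P.k - 1)).sum

private theorem EV4_wE {k : ℕ} (h : k % 2 = 0) (h2 : 2 ≤ k) :
    4 * (wE k : ℤ) = 3 * (k : ℤ) * k - 2 * k - 4 := by
  obtain ⟨j, rfl⟩ : ∃ j, k = 2 * (j + 1) := ⟨k / 2 - 1, by omega⟩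
  unfold wE
  rw [if_pos h]
  have h3 : 2 * (j + 1) / 2 = j + 1 := by omega
  have h4 : 3 * (j + 1) * (j + 1) - (j + 1) - 1 = 3 * j * j + 5 * j + 1 := by
    have : 3 * (j + 1) * (j + 1) = 3 * j * j + 5 * j + 1 + 1 + (j + 1) := by ring
    omega
  rw [h3, h4]
  push_cast
  ring

private theorem EV4_sE {m : ℕ} (l : List (Pt m)) (h : ∀ P ∈ l, 2 ≤ P.k) :
    sE l = 4 * ((l.map fun P => wE P.k).sum : ℕ) - 3 * ((l.map fun P => P.k * (P.k - 1)).sum : ℕ) +
      3 * sO l := by
  induction l with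
  | nil => simp [sE, sO]
  | cons P l ih =>
    have ih' := ih fun Q hQ => h Q (List.mem_cons_of_mem P hQ)
    have h2 := h P List.mem_cons_self
    have e1 : sE (P :: l) = (if P.k % 2 = 0 then (P.k : ℤ) - 4 else 0) + sE l := by
      unfold sE
      rw [List.map_cons, List.sum_cons]
    have e2 : sO (P :: l) = (if P.k % 2 = 0 then 0 else (P.k : ℤ) * (P.k - 1)) + sO l := by
      unfold sO
      rw [List.map_cons, List.sum_cons]
    rw [e1, e2, ih', List.map_cons, List.sum_cons, List.map_cons, List.sum_cons]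
    have h3 : ((P.k * (P.k - 1) : ℕ) : ℤ) = (P.k : ℤ) * (P.k - 1) := by
      rw [Nat.cast_mul, Nat.cast_sub (by omega), Nat.cast_one]
    rw [Nat.cast_add, Nat.cast_add, h3]
    by_cases h5 : P.k % 2 = 0
    · rw [if_pos h5, if_pos h5]
      have h6 := EV4_wE h5 h2
      linear_combination -h6
    · have h6 : wE P.k = 0 := by
        unfold wE
        rw [if_neg h5]
      rw [if_neg h5, if_neg h5, h6, Nat.cast_zero]
      ring

/-- PROOF. `4 wE k = 3 k² - 2 k - 4` for even `k ≥ 2`. `even_sum`: the sum over the even points of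
`3 k² - 2 k - 4` is at most `12 e² - 4 e = 3 d² - 2 d`; `pairs_sum`: the sum over all points of
`3 k (k - 1)` is `3 d (d - 1)`. Subtract. -/
theorem sE_even {m e : ℕ} (hm : m + 1 = 2 * e) (he : 2 ≤ e) {l : List (Pt m)} (hl : IsArr m l) :
    sE l ≤ (m + 1 : ℤ) + 3 * sO l := by
  have h1 := EV4_sE l fun P hP => (hl.1 P hP).1
  have h2 := even_sum hm he hl
  have h3 := pairs_sum hl
  rw [h3] at h1
  have h4 : ((3 * e * e - e : ℕ) : ℤ) = 3 * (e : ℤ) * e - e := by
    have h5 : e ≤ 3 * e * e := by nlinarith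
    rw [Nat.cast_sub h5]
    push_cast
    ring
  have h5 : (((l.map fun P => wE P.k).sum : ℕ) : ℤ) ≤ 3 * (e : ℤ) * e - e := by
    rw [← h4]
    exact_mod_cast h2
  have h6 : (m : ℤ) = 2 * e - 1 := by omega
  rw [h1]
  push_cast
  rw [h6]
  nlinarith

private theorem sE_odd_dropL {m : ℕ} (s : Fin (m + 2)) (P : Pt (m + 1)) (l : List (Pt (m + 1))) :
    dropL s (P :: l) = if 2 ≤ (drop s P).k then drop s P :: dropL s l else dropL s l := by
  unfold dropL
  rw [List.filter_cons]
  by_cases h3 : 2 ≤ (drop s P).k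
  · rw [if_pos (by simpa using h3), if_pos h3, List.map_cons]
  · rw [if_neg (by simpa using h3), if_neg h3]

private theorem sE_odd_E {m : ℕ} (P : Pt m) (l : List (Pt m)) :
    sE (P :: l) = (if P.k % 2 = 0 then (P.k : ℤ) - 4 else 0) + sE l := by
  unfold sE
  rw [List.map_cons, List.sum_cons]

private theorem sE_odd_O {m : ℕ} (P : Pt m) (l : List (Pt m)) :
    sO (P :: l) = (if P.k % 2 = 0 then 0 else (P.k : ℤ) * (P.k - 1)) + sO l := by
  unfold sO
  rw [List.map_cons, List.sum_cons]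

private theorem sE_odd_key {m K : ℕ} (s : Fin (m + 2)) (l : List (Pt (m + 1)))
    (h : ∀ P ∈ l, 2 ≤ P.k ∧ P.k ≤ K) :
    sE l + 3 * sO (dropL s l) ≤ sE (dropL s l) + 3 * sO l +
      (3 * K + 1 : ℤ) * (((l.filter fun P => decide (s ∈ blk P)).map fun P => P.k - 1).sum : ℕ) := by
  induction l with
  | nil => simp [sE, sO, dropL]
  | cons P l ih =>
    have ih' := ih fun Q hQ => h Q (List.mem_cons_of_mem P hQ)
    obtain ⟨h2, hK⟩ := h P (by simp)
    have hK' : (P.k : ℤ) ≤ K := by exact_mod_cast hK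
    have h2' : (2 : ℤ) ≤ P.k := by exact_mod_cast h2
    have hk' : (drop s P).k = if s ∈ blk P then P.k - 1 else P.k := rfl
    have hD := sE_odd_dropL s P l
    rw [sE_odd_E, sE_odd_O, List.filter_cons]
    by_cases hs : s ∈ blk P
    · rw [if_pos hs] at hk'
      rw [if_pos (show decide (s ∈ blk P) = true by simpa using hs), List.map_cons, List.sum_cons]
      have hc : ((P.k - 1 : ℕ) : ℤ) = (P.k : ℤ) - 1 := by omega
      rw [Nat.cast_add, hc, mul_add]
      have hKm : 0 ≤ ((K : ℤ) - P.k) * (P.k - 1) := mul_nonneg (by linarith) (by linarith)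
      by_cases h3 : P.k = 2
      · have h5 : ¬ 2 ≤ (drop s P).k := by omega
        have h6 : P.k % 2 = 0 := by omega
        rw [if_neg h5] at hD
        rw [hD, if_pos h6, if_pos h6, h3]
        have hK0 : (0 : ℤ) ≤ K := by positivity
        push_cast
        push_cast at ih'
        linarith
      · have h5 : 2 ≤ (drop s P).k := by omega
        rw [if_pos h5] at hD
        rw [hD, sE_odd_E, sE_odd_O, hk', hc]
        by_cases h4 : P.k % 2 = 0
        · have h6 : ¬ (P.k - 1) % 2 = 0 := by omega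
          rw [if_pos h4, if_pos h4, if_neg h6, if_neg h6]
          nlinarith
        · have h6 : (P.k - 1) % 2 = 0 := by omega
          rw [if_neg h4, if_neg h4, if_pos h6, if_pos h6]
          have h7 : (3 : ℤ) ≤ P.k := by omega
          nlinarith
    · rw [if_neg hs] at hk'
      have h5 : 2 ≤ (drop s P).k := by omega
      rw [if_pos h5] at hD
      rw [if_neg (show ¬ decide (s ∈ blk P) = true by simpa using hs), hD, sE_odd_E, sE_odd_O, hk']
      linarith

/-- PROOF. `dropL s l` for some line `s`, `sE_even`. A point not on `s` does not change. A point on `s`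
has `k' = k - 1` (dropped if `k = 2`). `sE l - sE l'` is the sum over the points on `s` of `k - 4` (even
`k`; for `k = 2` this is `-2`) and of `-(k - 5)` (odd `k`), each at most `k - 1`; `sO l' - sO l` is at
most the sum over the points on `s` of `(k - 1)(k - 2) ≤ K (k - 1)`. `line_sum`. -/
theorem sE_odd {m e K : ℕ} (hm : m + 1 = 2 * e) (he : 2 ≤ e) {l : List (Pt (m + 1))}
    (hl : IsArr (m + 1) l) (hK : ∀ P ∈ l, P.k ≤ K) :
    sE l ≤ (3 * K + 2 : ℤ) * (m + 1) + 3 * sO l := by
  have h1 := sE_odd_key (K := K) (0 : Fin (m + 2)) l fun P hP => ⟨(hl.1 P hP).1, hK P hP⟩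
  have h2 := line_sum hl (0 : Fin (m + 2))
  have h3 : sE (dropL 0 l) ≤ (m + 1 : ℤ) + 3 * sO (dropL 0 l) := sE_even hm he (drop_arr hl 0)
  rw [h2] at h1
  push_cast at h1
  linarith

/-! ### The theorem -/

/-- The number of points of even multiplicity at least 4. -/
def tE {m : ℕ} (l : List (Pt m)) : ℕ := l.countP fun P => decide (P.k % 2 = 0 ∧ 4 ≤ P.k)

/-- The number of points of odd multiplicity (at least 3). -/
def tO {m : ℕ} (l : List (Pt m)) : ℕ := l.countP fun P => decide (P.k % 2 = 1)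

/-- The difference `3 c_2 - c_1²` as a sum over the points.
PROOF. `cTwo`, `cOneSq` are affine in `t2, f0, f1`; `t2 = ∑ [k = 2]`, `f0 = ∑ 1`, `f1 = ∑ k`:
`3 c_2 - c_1² = n² (f0 - d) + 2 n (d - f1 + f0) + 2 f1 + f0 - d - 4 t2`. -/
theorem bmy_sum {m : ℕ} (n d : ℤ) {l : List (Pt m)} (h : ∀ P ∈ l, 2 ≤ P.k) :
    3 * cTwo n d (tk l 2) l.length ((l.map fun P => P.k).sum : ℕ) -
      cOneSq n d (tk l 2) l.length ((l.map fun P => P.k).sum : ℕ) =
      (l.map fun P => if P.k = 2 then (n - 1) ^ 2 else (n + 1) ^ 2 - 2 * (n - 1) * P.k).sum -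
        (n - 1) ^ 2 * d := by
  have key : n ^ 2 * (l.length : ℤ) + 2 * n * ((l.length : ℤ) - ((l.map fun P => P.k).sum : ℕ)) +
      2 * ((l.map fun P => P.k).sum : ℕ) + (l.length : ℤ) - 4 * (tk l 2 : ℤ) =
      (l.map fun P => if P.k = 2 then (n - 1) ^ 2 else (n + 1) ^ 2 - 2 * (n - 1) * P.k).sum := by
    clear h
    induction l with
    | nil => simp [tk]
    | cons P l ih =>
      have h1 : (tk (P :: l) 2 : ℤ) = tk l 2 + if P.k = 2 then 1 else 0 := by
        unfold tk
        rw [List.countP_cons]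
        by_cases h2 : P.k = 2
        · simp [h2]
        · simp [h2]
      rw [List.map_cons, List.sum_cons, List.map_cons, List.sum_cons, ← ih, h1, List.length_cons]
      by_cases h2 : P.k = 2
      · simp only [h2, if_true]
        push_cast
        ring
      · simp only [h2, if_false]
        push_cast
        ring
  rw [← key]
  unfold cTwo cOneSq
  ring

/-- PROOF. For even `k ≥ 4` and `n ≥ 5`: `2 ((n+1)² - 2 (n-1) k) ≥ (n-1)² (4 - k) + (n-1)²/2`
(at `k = 4`: `2 (n-3)² ≥ (n-1)²/2`; the slope `(n-1)² ≥ 4 (n-1)`); `k = 2`: equality without the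
last term. Odd `k`: `2 ((n+1)² - 2 (n-1) k) ≥ - (n-1)² K`. So
`4 * (sum) ≥ (n-1)² (- 2 sE + tE - 2 K tO)`. -/
theorem sum_lower {m K : ℕ} (n : ℤ) (hn : 5 ≤ n) {l : List (Pt m)}
    (h : ∀ P ∈ l, 2 ≤ P.k ∧ P.k ≤ K) :
    (n - 1) ^ 2 * (-2 * sE l + tE l - 2 * K * tO l) ≤
      4 * (l.map fun P => if P.k = 2 then (n - 1) ^ 2 else (n + 1) ^ 2 - 2 * (n - 1) * P.k).sum := by
  induction l with
  | nil => simp [sE, tE, tO]
  | cons P l ih =>
    have ih' := ih fun R hR => h R (List.mem_cons_of_mem _ hR)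
    obtain ⟨h2, hK⟩ := h P List.mem_cons_self
    have h2' : (2 : ℤ) ≤ P.k := by exact_mod_cast h2
    have hK' : (P.k : ℤ) ≤ K := by exact_mod_cast hK
    have e1 : sE (P :: l) = (if P.k % 2 = 0 then (P.k : ℤ) - 4 else 0) + sE l := by
      unfold sE
      rw [List.map_cons, List.sum_cons]
    have e2 : (tE (P :: l) : ℤ) = tE l + if P.k % 2 = 0 ∧ 4 ≤ P.k then 1 else 0 := by
      unfold tE
      rw [List.countP_cons]
      by_cases h3 : P.k % 2 = 0 ∧ 4 ≤ P.k
      · simp [h3]
      · simp [h3]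
    have e3 : (tO (P :: l) : ℤ) = tO l + if P.k % 2 = 1 then 1 else 0 := by
      unfold tO
      rw [List.countP_cons]
      by_cases h3 : P.k % 2 = 1
      · simp [h3]
      · simp [h3]
    rw [List.map_cons, List.sum_cons, e1, e2, e3]
    suffices hs : (n - 1) ^ 2 * (-2 * (if P.k % 2 = 0 then (P.k : ℤ) - 4 else 0) +
        (if P.k % 2 = 0 ∧ 4 ≤ P.k then 1 else 0) - 2 * K * (if P.k % 2 = 1 then 1 else 0)) ≤
        4 * (if P.k = 2 then (n - 1) ^ 2 else (n + 1) ^ 2 - 2 * (n - 1) * P.k) by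
      nlinarith [ih', hs]
    have hn1 : 0 ≤ n - 5 := by linarith
    by_cases h3 : P.k % 2 = 0
    · have h4 : ¬ P.k % 2 = 1 := by omega
      by_cases h5 : P.k = 2
      · rw [if_pos h3, if_neg (by omega), if_neg h4, if_pos h5, h5]
        push_cast
        ring_nf
        rfl
      · have h6 : 4 ≤ P.k := by omega
        have h6' : (4 : ℤ) ≤ P.k := by exact_mod_cast h6
        rw [if_pos h3, if_pos ⟨h3, h6⟩, if_neg h4, if_neg h5]
        have h7 : 0 ≤ (n - 5) * ((P.k : ℤ) - 4) := mul_nonneg hn1 (by linarith)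
        have h8 : 0 ≤ (n - 5) * ((P.k : ℤ) - 4) * (n - 1) := mul_nonneg h7 (by linarith)
        nlinarith [h8, mul_nonneg hn1 hn1, hn1]
    · have h4 : P.k % 2 = 1 := by omega
      rw [if_neg h3, if_neg (by tauto), if_pos h4, if_neg (by omega)]
      have h7 : 0 ≤ (n - 1) * ((K : ℤ) - P.k) := mul_nonneg (by linarith) (by linarith)
      have h8 : 0 ≤ (n - 5) * (n - 1) * (K : ℤ) :=
        mul_nonneg (mul_nonneg hn1 (by linarith)) (by positivity)
      nlinarith [h7, h8, sq_nonneg (n + 1)]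

/-- PROOF. Double points give `2 (n-1)²`, the others at least `- (n-1)² K`:
`2 * (sum) ≥ (n-1)² (2 t2 - K (tE + tO))`, and `2 t2 ≥ d (d - 1) - K² (tE + tO)` by `pairs_sum`. -/
theorem sum_lower' {m K : ℕ} (n : ℤ) (hn : 5 ≤ n) {l : List (Pt m)} (hl : IsArr m l)
    (h : ∀ P ∈ l, P.k ≤ K) :
    (n - 1) ^ 2 * ((m + 1) * m - (K ^ 2 + K) * (tE l + tO l)) ≤
      2 * (l.map fun P => if P.k = 2 then (n - 1) ^ 2 else (n + 1) ^ 2 - 2 * (n - 1) * P.k).sum := by
  have hp := pairs_sum hl
  have h2 : ∀ P ∈ l, 2 ≤ P.k := fun P hP => (hl.1 P hP).1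
  have hp' : ((m : ℤ) + 1) * m = (l.map fun P => (P.k : ℤ) * ((P.k : ℤ) - 1)).sum := by
    have h3 : (((l.map fun P => P.k * (P.k - 1)).sum : ℕ) : ℤ) =
        (l.map fun P => (P.k : ℤ) * ((P.k : ℤ) - 1)).sum := by
      rw [Nat.cast_list_sum, List.map_map]
      congr 1
      apply List.map_congr_left
      intro P hP
      have := h2 P hP
      rw [Function.comp, Nat.cast_mul, Nat.cast_sub (by omega)]
      push_cast
      ring
    rw [← h3, hp]
    push_cast
    ring
  rw [hp']
  clear hp hp' hl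
  induction l with
  | nil => simp [tE, tO]
  | cons P l ih =>
    have ih' := ih (fun R hR => h R (List.mem_cons_of_mem _ hR))
      fun R hR => h2 R (List.mem_cons_of_mem _ hR)
    have hk2 := h2 P List.mem_cons_self
    have hK := h P List.mem_cons_self
    have hk2' : (2 : ℤ) ≤ P.k := by exact_mod_cast hk2
    have hK' : (P.k : ℤ) ≤ K := by exact_mod_cast hK
    have e2 : (tE (P :: l) : ℤ) = tE l + if P.k % 2 = 0 ∧ 4 ≤ P.k then 1 else 0 := by
      unfold tE
      rw [List.countP_cons]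
      by_cases h3 : P.k % 2 = 0 ∧ 4 ≤ P.k
      · simp [h3]
      · simp [h3]
    have e3 : (tO (P :: l) : ℤ) = tO l + if P.k % 2 = 1 then 1 else 0 := by
      unfold tO
      rw [List.countP_cons]
      by_cases h3 : P.k % 2 = 1
      · simp [h3]
      · simp [h3]
    rw [List.map_cons, List.sum_cons, List.map_cons, List.sum_cons, e2, e3]
    suffices hs : (n - 1) ^ 2 * ((P.k : ℤ) * ((P.k : ℤ) - 1) - (K ^ 2 + K) *
        ((if P.k % 2 = 0 ∧ 4 ≤ P.k then 1 else 0) + (if P.k % 2 = 1 then 1 else 0))) ≤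
        2 * (if P.k = 2 then (n - 1) ^ 2 else (n + 1) ^ 2 - 2 * (n - 1) * P.k) by
      nlinarith [ih', hs]
    have hn1 : 0 ≤ n - 5 := by linarith
    by_cases h5 : P.k = 2
    · rw [if_neg (by omega), if_neg (by omega), if_pos h5, h5]
      push_cast
      ring_nf
      rfl
    · have h6 : ((if P.k % 2 = 0 ∧ 4 ≤ P.k then 1 else 0) + (if P.k % 2 = 1 then 1 else 0) : ℤ) =
          1 := by
        by_cases h3 : P.k % 2 = 1
        · rw [if_neg (by omega), if_pos h3]
          ring
        · rw [if_pos (by omega), if_neg h3]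
          ring
      rw [h6, if_neg h5, mul_one]
      have h7 : (P.k : ℤ) * ((P.k : ℤ) - 1) ≤ (K : ℤ) * (K - 1) := by nlinarith
      have h8 : (n - 1) ^ 2 * ((P.k : ℤ) * ((P.k : ℤ) - 1) - (K ^ 2 + K)) ≤
          (n - 1) ^ 2 * (- (2 * K)) := mul_le_mul_of_nonneg_left (by nlinarith) (sq_nonneg _)
      have h9 : 0 ≤ (n - 1) * ((K : ℤ) - P.k) := mul_nonneg (by linarith) (by linarith)
      have h10 : 0 ≤ (n - 5) * (n - 1) * (K : ℤ) :=
        mul_nonneg (mul_nonneg hn1 (by linarith)) (by positivity)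
      have h11 : 0 ≤ (n - 1) ^ 2 * (K : ℤ) := by positivity
      nlinarith [h8, h9, h10, h11, sq_nonneg (n + 1)]

/-- **Main theorem, even multiplicities.** PROOF. `d = m + 1`. `sO ≤ K² tO`. By `sE_even` or `sE_odd`
`sE ≤ (3 K + 2) d + 3 K² tO`. `bmy_sum`, `sum_lower`: `4 (3 c_2 - c_1²) ≥ (n-1)² (tE -
(6 K + 8) d - (6 K² + 2 K) tO)` and `(6 K² + 2 K) tO ≤ 8 K² tO ≤ tE / 2`. So it is `≥ 0` if
`tE ≥ (12 K + 16) d`. Otherwise `tE + tO ≤ (17 K) d` (`K ≥ 4`) and by `sum_lower'`
`2 (3 c_2 - c_1²) ≥ (n-1)² d (d - 1 - (K² + K) 17 K - 2) ≥ 0` as `17 K³ + 17 K² + 3 ≤ 30 K³`. -/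
theorem main_even {m K : ℕ} (hK : 4 ≤ K) (hd : 30 * K ^ 3 ≤ m + 1) {l : List (Pt m)}
    (hl : IsArr m l) (h : ∀ P ∈ l, P.k ≤ K) (hO : 16 * K ^ 2 * tO l ≤ tE l) (n : ℤ) (hn : 5 ≤ n) :
    cOneSq n (m + 1) (tk l 2) l.length ((l.map fun P => P.k).sum : ℕ) ≤
      3 * cTwo n (m + 1) (tk l 2) l.length ((l.map fun P => P.k).sum : ℕ) := by
  have h2 : ∀ P ∈ l, 2 ≤ P.k := fun P hP => (hl.1 P hP).1
  have hK' : (4 : ℤ) ≤ K := by exact_mod_cast hK
  have hd' : 30 * (K : ℤ) ^ 3 ≤ m + 1 := by exact_mod_cast hd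
  have hO' : 16 * (K : ℤ) ^ 2 * tO l ≤ tE l := by exact_mod_cast hO
  have hT : (0 : ℤ) ≤ tO l := by positivity
  have hsO : sO l ≤ (K : ℤ) ^ 2 * tO l := by
    clear hl hO hd hd' hO' hT
    induction l with
    | nil => simp [sO, tO]
    | cons P l ih =>
      have ih' := ih (fun R hR => h R (List.mem_cons_of_mem _ hR))
        fun R hR => h2 R (List.mem_cons_of_mem _ hR)
      have hk2 : (2 : ℤ) ≤ P.k := by exact_mod_cast h2 P List.mem_cons_self
      have hk : (P.k : ℤ) ≤ K := by exact_mod_cast h P List.mem_cons_self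
      have e1 : sO (P :: l) = (if P.k % 2 = 0 then 0 else (P.k : ℤ) * (P.k - 1)) + sO l := by
        unfold sO
        rw [List.map_cons, List.sum_cons]
      have e3 : (tO (P :: l) : ℤ) = tO l + if P.k % 2 = 1 then 1 else 0 := by
        unfold tO
        rw [List.countP_cons]
        by_cases h3 : P.k % 2 = 1
        · simp [h3]
        · simp [h3]
      rw [e1, e3]
      by_cases h3 : P.k % 2 = 0
      · rw [if_pos h3, if_neg (by omega)]
        linarith
      · rw [if_neg h3, if_pos (by omega)]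
        nlinarith
  have hsE : sE l ≤ (3 * K + 2 : ℤ) * (m + 1) + 3 * sO l := by
    have hm1 : 4 ≤ m + 1 := by
      have : 1 ≤ K ^ 3 := Nat.one_le_pow _ _ (by omega)
      omega
    rcases Nat.even_or_odd' (m + 1) with ⟨e, he | he⟩
    · have h5 := sE_even (m := m) (e := e) he (by omega) hl
      nlinarith
    · obtain ⟨m', rfl⟩ : ∃ m', m = m' + 1 := ⟨m - 1, by omega⟩
      have h5 := sE_odd (m := m') (e := e) (K := K) (by omega) (by omega) hl h
      push_cast
      nlinarith
  have hb := bmy_sum n (m + 1) h2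
  have hs1 := sum_lower (K := K) n hn fun P hP => ⟨h2 P hP, h P hP⟩
  have hs2 := sum_lower' n hn hl h
  set A : ℤ := (l.map fun P => if P.k = 2 then (n - 1) ^ 2 else
    (n + 1) ^ 2 - 2 * (n - 1) * P.k).sum with hA
  suffices hs : (n - 1) ^ 2 * ((m : ℤ) + 1) ≤ A by linarith
  have hdd : (0 : ℤ) ≤ m + 1 := by positivity
  rcases le_or_gt ((12 * K + 16 : ℤ) * (m + 1)) (tE l) with h5 | h5
  · have h6 : (4 : ℤ) * (m + 1) ≤ -2 * sE l + tE l - 2 * K * tO l := by
      have h7 : (2 : ℤ) * K * tO l ≤ 2 * (K : ℤ) ^ 2 * tO l := by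
        have : (K : ℤ) ≤ K ^ 2 := by nlinarith
        nlinarith
      nlinarith
    have h8 := mul_le_mul_of_nonneg_left h6 (sq_nonneg (n - 1))
    linarith
  · have h6 : (tE l : ℤ) + tO l ≤ 17 * K * (m + 1) := by
      have h7 : (256 : ℤ) * tO l ≤ tE l := by
        have : (16 : ℤ) ≤ K ^ 2 := by nlinarith
        nlinarith
      nlinarith
    have h7 : (2 : ℤ) * (m + 1) ≤ (m + 1) * m - (K ^ 2 + K) * (tE l + tO l) := by
      have h8 : ((K : ℤ) ^ 2 + K) * (tE l + tO l) ≤ (K ^ 2 + K) * (17 * K * (m + 1)) :=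
        mul_le_mul_of_nonneg_left h6 (by positivity)
      have h9 : 17 * (K : ℤ) ^ 3 + 17 * K ^ 2 + 3 ≤ 30 * K ^ 3 := by nlinarith [sq_nonneg (K : ℤ)]
      have h10 : 0 ≤ ((m : ℤ) + 1) * (m + 1 - (17 * (K : ℤ) ^ 3 + 17 * K ^ 2 + 3)) :=
        mul_nonneg hdd (by linarith)
      nlinarith
    have h8 := mul_le_mul_of_nonneg_left h7 (sq_nonneg (n - 1))
    linarith

end Pool.Agent.Helper81.SBA
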