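import Pool.Agent.Helper81.SBA.Pr

/-!
# Forgetting a line

The braid group on `m + 2` strands acts on `Fin (m + 2) × BraidGroup m`: a braid `g` moves the strand
`s` to `perm g s`, and `fg g s` is the braid of the other `m + 1` strands.
-/

set_option autoImplicit false

open Module

namespace Pool.Agent.Helper81.SBA

section fgt

variable {m : ℕ}

/-- The braid that is left of the generator `l` when the strand `s` is forgotten. -/
def cf (m l s : ℕ) : BraidGroup m :=
  if s < l then sg m (l - 1) else if s = l ∨ s = l + 1 then 1 else sg m l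

/-- The value of a transposition of neighbours. -/
private theorem fG1_swap_val {n : ℕ} (l : Fin n) (s : Fin (n + 1)) :
    (Equiv.swap l.castSucc l.succ s).val =
      if s.val = l.val then l.val + 1 else if s.val = l.val + 1 then l.val else s.val := by
  rw [Equiv.swap_apply_def]
  by_cases h1 : s.val = l.val
  · have : s = l.castSucc := Fin.ext (by simpa using h1)
    rw [if_pos this, if_pos h1]
    rfl
  · have h1' : s ≠ l.castSucc := fun h => h1 (by rw [h]; rfl)
    rw [if_neg h1', if_neg h1]
    by_cases h2 : s.val = l.val + 1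
    · have : s = l.succ := Fin.ext (by simpa using h2)
      rw [if_pos this, if_pos h2]
      rfl
    · have h2' : s ≠ l.succ := fun h => h2 (by rw [h]; rfl)
      rw [if_neg h2', if_neg h2]

private theorem fG1_sg_braid {i : ℕ} (h : i + 1 < m) :
    sg m i * sg m (i + 1) * sg m i = sg m (i + 1) * sg m i * sg m (i + 1) := by
  unfold sg
  rw [dif_pos h, dif_pos (show i < m by omega)]
  exact artin_braid _ _ rfl

private theorem fG1_sg_comm {i j : ℕ} (h : i + 2 ≤ j) : sg m i * sg m j = sg m j * sg m i := by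
  unfold sg
  by_cases hj : j < m
  · rw [dif_pos hj, dif_pos (show i < m by omega)]
    exact artin_comm _ _ h
  · rw [dif_neg hj, mul_one, one_mul]

theorem cf_swap (l : Fin (m + 1)) (s : Fin (m + 2)) :
    cf m l (Equiv.swap l.castSucc l.succ s).val = cf m l s.val := by
  rw [fG1_swap_val]
  unfold cf
  by_cases h1 : s.val = l.val
  · rw [if_pos h1, if_neg (by omega), if_pos (by omega), if_neg (by omega), if_pos (by omega)]
  · rw [if_neg h1]
    by_cases h2 : s.val = l.val + 1
    · rw [if_pos h2, if_neg (by omega), if_pos (by omega), if_neg (by omega), if_pos (by omega)]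
    · rw [if_neg h2]

/-- The action of a generator. -/
def fAct (l : Fin (m + 1)) : Equiv.Perm (Fin (m + 2) × BraidGroup m) where
  toFun p := (Equiv.swap l.castSucc l.succ p.1, cf m l p.1.val * p.2)
  invFun p := (Equiv.swap l.castSucc l.succ p.1, (cf m l p.1.val)⁻¹ * p.2)
  left_inv p := by
    refine Prod.ext ?_ ?_
    · exact DFunLike.congr_fun (Equiv.swap_swap l.castSucc l.succ) p.1
    · simp only [cf_swap, inv_mul_cancel_left]
  right_inv p := by
    refine Prod.ext ?_ ?_
    · exact DFunLike.congr_fun (Equiv.swap_swap l.castSucc l.succ) p.1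
    · simp only [cf_swap, mul_inv_cancel_left]

private theorem fG1_act (l : Fin (m + 1)) (p : Fin (m + 2) × BraidGroup m) :
    fAct l p = (Equiv.swap l.castSucc l.succ p.1, cf m l p.1.val * p.2) := rfl

private theorem fG1_actInv (l : Fin (m + 1)) (p : Fin (m + 2) × BraidGroup m) :
    (fAct l)⁻¹ p = (Equiv.swap l.castSucc l.succ p.1, (cf m l p.1.val)⁻¹ * p.2) := rfl

private theorem fG1_cf_lt {l s : ℕ} (h : s < l) : cf m l s = sg m (l - 1) := if_pos h

private theorem fG1_cf_mid {l s : ℕ} (h : s = l ∨ s = l + 1) : cf m l s = 1 := by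
  unfold cf
  rw [if_neg (by omega), if_pos h]

private theorem fG1_cf_gt {l s : ℕ} (h : l + 1 < s) : cf m l s = sg m l := by
  unfold cf
  rw [if_neg (by omega), if_neg (by omega)]

/-- PROOF. Cases for the position `s` of the forgotten strand: `s < i`; `s = i, i + 1, i + 2`;
`s > i + 2` (with the Artin relations of `BraidGroup m` for `sg`). For `s = i`: both sides are
`(i + 2, sg m i * h)`; for `s = i + 1`: `(i + 1, sg m i * h)`; for `s = i + 2`: `(i, sg m i * h)`. -/
theorem fAct_braid (i j : Fin (m + 1)) (h : i.val + 1 = j.val) :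
    fAct i * fAct j * fAct i = fAct j * fAct i * fAct j := by
  refine Equiv.ext fun p => ?_
  obtain ⟨s, g⟩ := p
  have hj := j.isLt
  have hs := s.isLt
  have hi : j.val - 1 = i.val := by omega
  simp only [Equiv.Perm.mul_apply, fG1_act]
  refine Prod.ext (Fin.ext ?_) ?_
  · simp only [fG1_swap_val]
    split_ifs <;> omega
  · simp only [fG1_swap_val]
    rcases lt_trichotomy s.val i.val with h1 | h1 | h1
    · have hb := fG1_sg_braid (m := m) (i := i.val - 1) (by omega)
      rw [show i.val - 1 + 1 = i.val by omega] at hb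
      rw [if_neg (show ¬ s.val = i.val by omega), if_neg (show ¬ s.val = i.val + 1 by omega),
        if_neg (show ¬ s.val = j.val by omega), if_neg (show ¬ s.val = j.val + 1 by omega),
        if_neg (show ¬ s.val = i.val by omega), if_neg (show ¬ s.val = i.val + 1 by omega),
        fG1_cf_lt h1, fG1_cf_lt (show s.val < j.val by omega), hi]
      simp only [← mul_assoc]
      rw [hb]
    · rw [h1, if_pos rfl, if_pos h, if_neg (show ¬ i.val = j.val by omega),
        if_neg (show ¬ i.val = j.val + 1 by omega), if_pos rfl,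
        fG1_cf_mid (Or.inl rfl), fG1_cf_mid (Or.inl h),
        fG1_cf_lt (show i.val < j.val by omega), fG1_cf_gt (show i.val + 1 < j.val + 1 by omega),
        hi]
      simp
    · rcases Nat.lt_or_ge (i.val + 2) s.val with h2 | h2
      · have hb := fG1_sg_braid (m := m) (i := i.val) (by omega)
        rw [h] at hb
        rw [if_neg (show ¬ s.val = i.val by omega), if_neg (show ¬ s.val = i.val + 1 by omega),
          if_neg (show ¬ s.val = j.val by omega), if_neg (show ¬ s.val = j.val + 1 by omega),
          if_neg (show ¬ s.val = i.val by omega), if_neg (show ¬ s.val = i.val + 1 by omega),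
          fG1_cf_gt (show i.val + 1 < s.val by omega), fG1_cf_gt (show j.val + 1 < s.val by omega)]
        simp only [← mul_assoc]
        rw [hb]
      · rcases Nat.lt_or_ge (i.val + 1) s.val with h3 | h3
        · have h4 : s.val = j.val + 1 := by omega
          rw [if_neg (show ¬ s.val = i.val by omega), if_neg (show ¬ s.val = i.val + 1 by omega),
            if_neg (show ¬ s.val = j.val by omega), if_pos h4,
            if_neg (show ¬ j.val = i.val by omega), if_pos h.symm,
            fG1_cf_gt (show i.val + 1 < s.val by omega), fG1_cf_mid (Or.inr h4),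
            fG1_cf_mid (Or.inr h.symm), fG1_cf_lt (show i.val < j.val by omega), hi]
          simp
        · have h4 : s.val = i.val + 1 := by omega
          have h5 : s.val = j.val := by omega
          rw [if_neg (show ¬ s.val = i.val by omega), if_pos h4,
            if_neg (show ¬ i.val = j.val by omega), if_neg (show ¬ i.val = j.val + 1 by omega),
            if_pos h5, if_neg (show ¬ j.val + 1 = i.val by omega),
            if_neg (show ¬ j.val + 1 = i.val + 1 by omega),
            fG1_cf_mid (Or.inr h4), fG1_cf_mid (Or.inl h5), fG1_cf_mid (Or.inl rfl),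
            fG1_cf_mid (Or.inr rfl), fG1_cf_lt (show i.val < j.val by omega),
            fG1_cf_gt (show i.val + 1 < j.val + 1 by omega), hi]

theorem fAct_comm (i j : Fin (m + 1)) (h : i.val + 2 ≤ j.val) :
    fAct i * fAct j = fAct j * fAct i := by
  refine Equiv.ext fun p => ?_
  obtain ⟨s, g⟩ := p
  have hj := j.isLt
  have hs := s.isLt
  simp only [Equiv.Perm.mul_apply, fG1_act]
  refine Prod.ext (Fin.ext ?_) ?_
  · simp only [fG1_swap_val]
    split_ifs <;> omega
  · simp only [fG1_swap_val]
    rcases Nat.lt_or_ge s.val i.val with h1 | h1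
    · rw [if_neg (show ¬ s.val = j.val by omega), if_neg (show ¬ s.val = j.val + 1 by omega),
        if_neg (show ¬ s.val = i.val by omega), if_neg (show ¬ s.val = i.val + 1 by omega),
        fG1_cf_lt h1, fG1_cf_lt (show s.val < j.val by omega)]
      simp only [← mul_assoc]
      rw [fG1_sg_comm (show i.val - 1 + 2 ≤ j.val - 1 by omega)]
    · rcases Nat.lt_or_ge (i.val + 1) s.val with h2 | h2
      · rw [if_neg (show ¬ s.val = i.val by omega), if_neg (show ¬ s.val = i.val + 1 by omega)]
        rcases Nat.lt_or_ge s.val j.val with h3 | h3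
        · rw [if_neg (show ¬ s.val = j.val by omega), if_neg (show ¬ s.val = j.val + 1 by omega),
            fG1_cf_gt h2, fG1_cf_lt h3]
          simp only [← mul_assoc]
          rw [fG1_sg_comm (show i.val + 2 ≤ j.val - 1 by omega)]
        · rcases Nat.lt_or_ge (j.val + 1) s.val with h4 | h4
          · rw [if_neg (show ¬ s.val = j.val by omega), if_neg (show ¬ s.val = j.val + 1 by omega),
              fG1_cf_gt h2, fG1_cf_gt h4]
            simp only [← mul_assoc]
            rw [fG1_sg_comm h]
          · have h5 : s.val = j.val ∨ s.val = j.val + 1 := by omega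
            rw [fG1_cf_mid h5, fG1_cf_gt h2, one_mul, one_mul]
            rcases h5 with h5 | h5
            · rw [if_pos h5, fG1_cf_gt (show i.val + 1 < j.val + 1 by omega)]
            · rw [if_neg (show ¬ s.val = j.val by omega), if_pos h5,
                fG1_cf_gt (show i.val + 1 < j.val by omega)]
      · have h5 : s.val = i.val ∨ s.val = i.val + 1 := by omega
        rw [fG1_cf_mid h5, if_neg (show ¬ s.val = j.val by omega),
          if_neg (show ¬ s.val = j.val + 1 by omega), fG1_cf_mid h5,
          fG1_cf_lt (show s.val < j.val by omega), one_mul, one_mul]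
        rcases h5 with h5 | h5
        · rw [if_pos h5, fG1_cf_lt (show i.val + 1 < j.val by omega)]
        · rw [if_neg (show ¬ s.val = i.val by omega), if_pos h5,
            fG1_cf_lt (show i.val < j.val by omega)]

/-- The action. -/
def fHom (m : ℕ) : BraidGroup (m + 1) →* Equiv.Perm (Fin (m + 2) × BraidGroup m) :=
  braidLift fAct fAct_braid fAct_comm

/-- The braid `g` without the strand that starts at `s`. -/
def fg (g : BraidGroup (m + 1)) (s : Fin (m + 2)) : BraidGroup m := (fHom m g (s, 1)).2

/-- PROOF. `braid_induction`. -/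
theorem fHom_apply (g : BraidGroup (m + 1)) (s : Fin (m + 2)) (h : BraidGroup m) :
    fHom m g (s, h) = (perm (m + 1) g s, fg g s * h) := by
  refine braid_induction (P := fun g => ∀ (s : Fin (m + 2)) (h : BraidGroup m),
    fHom m g (s, h) = (perm (m + 1) g s, fg g s * h)) ?_ ?_ ?_ g s h
  · intro s h
    simp [fg]
  · intro g i ih s h
    have e1 : ∀ h, fHom m (g * sigma i) (s, h) =
        (perm (m + 1) g (Equiv.swap i.castSucc i.succ s),
          fg g (Equiv.swap i.castSucc i.succ s) * (cf m i s.val * h)) := by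
      intro h
      rw [map_mul, Equiv.Perm.mul_apply, fHom, braidLift_sigma, fG1_act]
      exact ih _ _
    rw [e1 h, map_mul, Equiv.Perm.mul_apply, perm_sigma]
    refine Prod.ext rfl ?_
    show _ = (fHom m (g * sigma i) (s, 1)).2 * h
    rw [e1 1]
    simp only [mul_one, mul_assoc]
  · intro g i ih s h
    have e1 : ∀ h, fHom m (g * (sigma i)⁻¹) (s, h) =
        (perm (m + 1) g (Equiv.swap i.castSucc i.succ s),
          fg g (Equiv.swap i.castSucc i.succ s) * ((cf m i s.val)⁻¹ * h)) := by
      intro h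
      rw [map_mul, map_inv, Equiv.Perm.mul_apply, fHom, braidLift_sigma, fG1_actInv]
      exact ih _ _
    rw [e1 h, map_mul, map_inv, Equiv.Perm.mul_apply, perm_sigma, Equiv.swap_inv]
    refine Prod.ext rfl ?_
    show _ = (fHom m (g * (sigma i)⁻¹) (s, 1)).2 * h
    rw [e1 1]
    simp only [mul_one, mul_assoc]

theorem fg_mul (g h : BraidGroup (m + 1)) (s : Fin (m + 2)) :
    fg (g * h) s = fg g (perm (m + 1) h s) * fg h s := by
  show (fHom m (g * h) (s, 1)).2 = _
  rw [map_mul, Equiv.Perm.mul_apply, fHom_apply h, fHom_apply g, mul_one]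

theorem fg_one (s : Fin (m + 2)) : fg (1 : BraidGroup (m + 1)) s = 1 := by
  simp [fg]

/-- PROOF. `fg_mul` for `g * g⁻¹ = 1`. -/
theorem fg_inv (g : BraidGroup (m + 1)) (s : Fin (m + 2)) :
    fg g⁻¹ s = (fg g ((perm (m + 1) g)⁻¹ s))⁻¹ := by
  have h := fg_mul g g⁻¹ s
  rw [mul_inv_cancel, fg_one, map_inv] at h
  exact eq_inv_of_mul_eq_one_right h.symm

theorem fg_sigma (l : Fin (m + 1)) (s : Fin (m + 2)) : fg (sigma l) s = cf m l s.val := by
  show (fHom m (sigma l) (s, 1)).2 = _
  rw [fHom, braidLift_sigma, fG1_act]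
  exact mul_one _

private theorem fG1_perm_sg {n i : ℕ} (u : Fin (n + 1)) (h : i < n) :
    (perm n (sg n i) u).val = if u.val = i then i + 1 else if u.val = i + 1 then i else u.val := by
  unfold sg
  rw [dif_pos h, perm_sigma, fG1_swap_val]

private theorem fG1_perm_sg_sq {n i : ℕ} : perm n (sg n i) * perm n (sg n i) = 1 := by
  unfold sg
  split_ifs with h
  · rw [perm_sigma]
    exact Equiv.swap_mul_self _ _
  · simp

private theorem fG1_cf_sq (l s : ℕ) : perm m (cf m l s) * perm m (cf m l s) = 1 := by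
  unfold cf
  split_ifs
  · exact fG1_perm_sg_sq
  · simp
  · exact fG1_perm_sg_sq

private theorem fG1_succAbove_val {n : ℕ} (t : Fin (n + 1)) (u : Fin n) :
    (t.succAbove u).val = if u.val < t.val then u.val else u.val + 1 := by
  unfold Fin.succAbove
  by_cases h : u.val < t.val
  · rw [if_pos (show u.castSucc < t from h), if_pos h]
    rfl
  · rw [if_neg (show ¬ u.castSucc < t from h), if_neg h]
    rfl

private theorem fG1_base (l : Fin (m + 1)) (t : Fin (m + 2)) (u : Fin (m + 1)) :
    Equiv.swap l.castSucc l.succ (t.succAbove u) =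
      (Equiv.swap l.castSucc l.succ t).succAbove (perm m (cf m l t.val) u) := by
  have hl := l.isLt
  have ht := t.isLt
  refine Fin.ext ?_
  rw [fG1_swap_val, fG1_succAbove_val, fG1_succAbove_val, fG1_swap_val]
  rcases Nat.lt_or_ge t.val l.val with h1 | h1
  · rw [fG1_cf_lt h1, fG1_perm_sg u (show l.val - 1 < m by omega)]
    split_ifs <;> omega
  · rcases Nat.lt_or_ge (l.val + 1) t.val with h2 | h2
    · rw [fG1_cf_gt h2, fG1_perm_sg u (show l.val < m by omega)]
      split_ifs <;> omega
    · rw [fG1_cf_mid (show t.val = l.val ∨ t.val = l.val + 1 by omega), map_one,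
        Equiv.Perm.one_apply]
      split_ifs <;> omega

/-- PROOF. `braid_induction` (for `sigma l` a case distinction; for the inverse replace `t`). -/
theorem succAbove_perm (g : BraidGroup (m + 1)) (t : Fin (m + 2)) (u : Fin (m + 1)) :
    perm (m + 1) g (t.succAbove u) =
      (perm (m + 1) g t).succAbove (perm m (fg g t) u) := by
  refine braid_induction (P := fun g => ∀ (t : Fin (m + 2)) (u : Fin (m + 1)),
    perm (m + 1) g (t.succAbove u) =
      (perm (m + 1) g t).succAbove (perm m (fg g t) u)) ?_ ?_ ?_ g t u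
  · intro t u
    rw [fg_one, map_one, map_one]
    rfl
  · intro g i ih t u
    rw [fg_mul, fg_sigma, map_mul, map_mul, Equiv.Perm.mul_apply, Equiv.Perm.mul_apply,
      Equiv.Perm.mul_apply, perm_sigma, fG1_base, ih]
  · intro g i ih t u
    have e1 : fg (sigma i)⁻¹ t = (cf m i t.val)⁻¹ := by
      rw [fg_inv, perm_sigma, Equiv.swap_inv, fg_sigma, cf_swap]
    have e2 : perm m (cf m i t.val)⁻¹ = perm m (cf m i t.val) := by
      rw [map_inv]
      exact inv_eq_of_mul_eq_one_left (fG1_cf_sq _ _)
    rw [fg_mul, e1, map_mul, map_mul, e2, Equiv.Perm.mul_apply, Equiv.Perm.mul_apply,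
      Equiv.Perm.mul_apply, map_inv, perm_sigma, Equiv.swap_inv, fG1_base, ih]

/-! ### The twists -/

private theorem fg_run_sg {i : ℕ} (h : i < m + 1) : sg (m + 1) i = sigma ⟨i, h⟩ := by
  unfold sg
  rw [dif_pos h]

private theorem fg_run_perm_ne {i : ℕ} (h : i < m + 1) (s : Fin (m + 2)) (h1 : s.val ≠ i)
    (h2 : s.val ≠ i + 1) : perm (m + 1) (sg (m + 1) i) s = s := by
  rw [fg_run_sg h, perm_sigma]
  refine Equiv.swap_apply_of_ne_of_ne (fun e => h1 ?_) (fun e => h2 ?_)
  · rw [e]
    rfl
  · rw [e]
    rfl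

private theorem fg_run_perm_left {i : ℕ} (h : i < m + 1) (s : Fin (m + 2)) (h1 : s.val = i) :
    (perm (m + 1) (sg (m + 1) i) s).val = i + 1 := by
  have e : s = (⟨i, h⟩ : Fin (m + 1)).castSucc := Fin.ext h1
  rw [fg_run_sg h, perm_sigma, e, Equiv.swap_apply_left]
  rfl

private theorem fg_run_perm_right {i : ℕ} (h : i < m + 1) (s : Fin (m + 2)) (h1 : s.val = i + 1) :
    (perm (m + 1) (sg (m + 1) i) s).val = i := by
  have e : s = (⟨i, h⟩ : Fin (m + 1)).succ := Fin.ext h1
  rw [fg_run_sg h, perm_sigma, e, Equiv.swap_apply_right]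
  rfl

private theorem fg_run_fg {i : ℕ} (h : i < m + 1) (s : Fin (m + 2)) :
    fg (sg (m + 1) i) s = cf m i s.val := by
  rw [fg_run_sg h, fg_sigma]

private theorem fg_run_succ (a n : ℕ) :
    run (m + 1) a (n + 1) = run (m + 1) a n * sg (m + 1) (a + n) := rfl

/-- PROOF. Induction on `n`. -/
theorem fg_run_lt {a n : ℕ} (h : a + n ≤ m + 1) (s : Fin (m + 2)) (hs : s.val < a) :
    perm (m + 1) (run (m + 1) a n) s = s ∧ fg (run (m + 1) a n) s = run m (a - 1) n := by
  induction n with
  | zero =>
    refine ⟨?_, ?_⟩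
    · change perm (m + 1) 1 s = s
      rw [map_one]
      rfl
    · change fg (1 : BraidGroup (m + 1)) s = 1
      exact fg_one s
  | succ n ih =>
    obtain ⟨i1, i2⟩ := ih (by omega)
    have hl : a + n < m + 1 := by omega
    have e1 : perm (m + 1) (sg (m + 1) (a + n)) s = s :=
      fg_run_perm_ne hl s (by omega) (by omega)
    rw [fg_run_succ]
    refine ⟨?_, ?_⟩
    · rw [map_mul, Equiv.Perm.mul_apply, e1, i1]
    · rw [fg_mul, e1, i2, fg_run_fg hl s]
      have e2 : cf m (a + n) s.val = sg m (a - 1 + n) := by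
        unfold cf
        rw [if_pos (by omega)]
        congr 1
        omega
      rw [e2]
      rfl

theorem fg_run_gt {a n : ℕ} (s : Fin (m + 2)) (hs : a + n < s.val) :
    perm (m + 1) (run (m + 1) a n) s = s ∧ fg (run (m + 1) a n) s = run m a n := by
  induction n with
  | zero =>
    refine ⟨?_, ?_⟩
    · change perm (m + 1) 1 s = s
      rw [map_one]
      rfl
    · change fg (1 : BraidGroup (m + 1)) s = 1
      exact fg_one s
  | succ n ih =>
    obtain ⟨i1, i2⟩ := ih (by omega)
    have hl : a + n < m + 1 := by omega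
    have e1 : perm (m + 1) (sg (m + 1) (a + n)) s = s :=
      fg_run_perm_ne hl s (by omega) (by omega)
    rw [fg_run_succ]
    refine ⟨?_, ?_⟩
    · rw [map_mul, Equiv.Perm.mul_apply, e1, i1]
    · rw [fg_mul, e1, i2, fg_run_fg hl s]
      have e2 : cf m (a + n) s.val = sg m (a + n) := by
        unfold cf
        rw [if_neg (by omega), if_neg (by omega)]
      rw [e2]
      rfl

/-- For `a ≤ s < a + n`: the strand moves to `s + 1` and the rest is `run m a (n - 1)`.
PROOF. Induction on `n` (`run (n + 1) = run n * σ_{a+n}`, the last letter acts first): for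
`s < a + n` the last letter gives `sg m (a + n - 1)` and fixes `s`, `run m a (n - 1) * sg m (a+n-1) =
run m a n`; for `s = a + n` the last letter moves `s` to `a + n + 1` and gives `1`, then `fg_run_gt`. -/
theorem fg_run_mid {a n : ℕ} (h : a + n ≤ m + 1) (s : Fin (m + 2)) (h1 : a ≤ s.val)
    (h2 : s.val < a + n) :
    (perm (m + 1) (run (m + 1) a n) s).val = s.val + 1 ∧
      fg (run (m + 1) a n) s = run m a (n - 1) := by
  induction n with
  | zero => omega
  | succ n ih =>
    have hl : a + n < m + 1 := by omega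
    rw [fg_run_succ, map_mul, Equiv.Perm.mul_apply, fg_mul, fg_run_fg hl s]
    by_cases hc : s.val < a + n
    · obtain ⟨i1, i2⟩ := ih (by omega) hc
      have e1 : perm (m + 1) (sg (m + 1) (a + n)) s = s :=
        fg_run_perm_ne hl s (by omega) (by omega)
      rw [e1]
      refine ⟨i1, ?_⟩
      rw [i2]
      have e2 : cf m (a + n) s.val = sg m (a + (n - 1)) := by
        unfold cf
        rw [if_pos hc]
        congr 1
        omega
      rw [e2]
      have e3 : n + 1 - 1 = n - 1 + 1 := by omega
      rw [e3]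
      rfl
    · have hs : s.val = a + n := by omega
      have e1 := fg_run_perm_left hl s hs
      have e2 : cf m (a + n) s.val = 1 := by
        unfold cf
        rw [if_neg hc, if_pos (Or.inl hs)]
      obtain ⟨i1, i2⟩ := fg_run_gt (a := a) (n := n)
        (perm (m + 1) (sg (m + 1) (a + n)) s) (by omega)
      rw [i1, e1, e2, i2, mul_one]
      exact ⟨by omega, rfl⟩

/-- For `s = a + n`: it moves to `a` and the rest is trivial. PROOF. Induction on `n`. -/
theorem fg_run_last {a n : ℕ} (h : a + n ≤ m + 1) (s : Fin (m + 2)) (hs : s.val = a + n) :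
    (perm (m + 1) (run (m + 1) a n) s).val = a ∧ fg (run (m + 1) a n) s = 1 := by
  induction n generalizing s with
  | zero =>
    refine ⟨?_, ?_⟩
    · change (perm (m + 1) 1 s).val = a
      rw [map_one]
      exact hs
    · change fg (1 : BraidGroup (m + 1)) s = 1
      exact fg_one s
  | succ n ih =>
    have hl : a + n < m + 1 := by omega
    rw [fg_run_succ, map_mul, Equiv.Perm.mul_apply, fg_mul, fg_run_fg hl s]
    obtain ⟨i1, i2⟩ := ih (by omega) _ (fg_run_perm_right hl s hs)
    have e2 : cf m (a + n) s.val = 1 := by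
      unfold cf
      rw [if_neg (by omega), if_pos (show s.val = a + n ∨ s.val = a + n + 1 by omega)]
    rw [e2, i2, mul_one]
    exact ⟨i1, rfl⟩

private theorem fg_run_pow_fix (g : BraidGroup (m + 1)) (x : BraidGroup m) (s : Fin (m + 2))
    (h1 : perm (m + 1) g s = s) (h2 : fg g s = x) (j : ℕ) : fg (g ^ j) s = x ^ j := by
  induction j with
  | zero => rw [pow_zero, pow_zero, fg_one]
  | succ j ih => rw [pow_succ, fg_mul, h1, h2, ih, pow_succ]

/-- The powers move a strand of the block up. -/
private theorem fg_run_pow_mid {a n : ℕ} (h : a + n ≤ m + 1) (j : ℕ) (s : Fin (m + 2))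
    (h1 : a ≤ s.val) (h2 : s.val + j ≤ a + n) :
    (perm (m + 1) (run (m + 1) a n ^ j) s).val = s.val + j ∧
      fg (run (m + 1) a n ^ j) s = run m a (n - 1) ^ j := by
  induction j with
  | zero =>
    rw [pow_zero, pow_zero, map_one]
    exact ⟨rfl, fg_one s⟩
  | succ j ih =>
    obtain ⟨i1, i2⟩ := ih (by omega)
    rw [pow_succ', map_mul, Equiv.Perm.mul_apply, fg_mul, i2]
    obtain ⟨k1, k2⟩ := fg_run_mid h (perm (m + 1) (run (m + 1) a n ^ j) s) (by omega) (by omega)
    rw [k2, pow_succ']
    exact ⟨by omega, rfl⟩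

/-- PROOF. `twist = run ^ k`; powers of `fg_run_lt`. -/
theorem fg_twist_lt {a k : ℕ} (h : a + k ≤ m + 2) (s : Fin (m + 2)) (hs : s.val < a) :
    fg (twist (m + 1) a k) s = twist m (a - 1) k := by
  rcases Nat.eq_zero_or_pos k with hk | hk
  · subst hk
    unfold twist
    rw [pow_zero, pow_zero, fg_one]
  · obtain ⟨i1, i2⟩ := fg_run_lt (a := a) (n := k - 1) (by omega) s hs
    exact fg_run_pow_fix _ _ s i1 i2 k

theorem fg_twist_gt {a k : ℕ} (h : a + k ≤ m + 2) (s : Fin (m + 2)) (hs : a + k ≤ s.val) :
    fg (twist (m + 1) a k) s = twist m a k := by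
  rcases Nat.eq_zero_or_pos k with hk | hk
  · subst hk
    unfold twist
    rw [pow_zero, pow_zero, fg_one]
  · obtain ⟨i1, i2⟩ := fg_run_gt (a := a) (n := k - 1) s (by omega)
    exact fg_run_pow_fix _ _ s i1 i2 k

/-- PROOF. `δ = run (m + 1) a (k - 1)`. By `fg_run_mid`, `fg (δ ^ j) s = (run m a (k-2)) ^ j` and the
strand is at `s + j` for `j ≤ a + k - 1 - s`; then one step `fg_run_last`, then again
`fg_run_mid` from `a`. The total is `(run m a (k - 2)) ^ (k - 1)`. -/
theorem fg_twist_mid {a k : ℕ} (h : a + k ≤ m + 2) (s : Fin (m + 2)) (h1 : a ≤ s.val)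
    (h2 : s.val < a + k) : fg (twist (m + 1) a k) s = twist m a (k - 1) := by
  obtain ⟨n, rfl⟩ : ∃ n, k = n + 1 := ⟨k - 1, by omega⟩
  obtain ⟨j, hj⟩ : ∃ j, s.val = a + j := ⟨s.val - a, by omega⟩
  have hn : a + n ≤ m + 1 := by omega
  have hjn : j ≤ n := by omega
  have e1 : n + 1 - 1 = n := rfl
  unfold twist
  rw [e1]
  obtain ⟨p1, p2⟩ := fg_run_pow_mid hn (n - j) s h1 (by omega)
  obtain ⟨q1, q2⟩ := fg_run_last hn (perm (m + 1) (run (m + 1) a n ^ (n - j)) s) (by omega)
  obtain ⟨r1, r2⟩ := fg_run_pow_mid hn j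
    (perm (m + 1) (run (m + 1) a n) (perm (m + 1) (run (m + 1) a n ^ (n - j)) s))
    (by omega) (by omega)
  have e2 : run (m + 1) a n ^ (n + 1) =
      run (m + 1) a n ^ j * (run (m + 1) a n * run (m + 1) a n ^ (n - j)) := by
    rw [← pow_succ', ← pow_add]
    congr 1
    omega
  rw [e2, fg_mul, fg_mul, map_mul, Equiv.Perm.mul_apply, r2, q2, p2, one_mul, ← pow_add]
  congr 1
  omega

/-! ### Arrangements -/

/-- The point without the line `s`. -/
def drop (s : Fin (m + 2)) (P : Pt (m + 1)) : Pt m where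
  g := fg P.g ((perm (m + 1) P.g)⁻¹ s)
  a := if ((perm (m + 1) P.g)⁻¹ s).val < P.a then P.a - 1 else P.a
  k := if s ∈ blk P then P.k - 1 else P.k

private theorem fg3_mem_blk {n : ℕ} (P : Pt n) (s : Fin (n + 1)) : s ∈ blk P ↔
    P.a ≤ ((perm n P.g)⁻¹ s).val ∧ ((perm n P.g)⁻¹ s).val < P.a + P.k := by
  unfold blk
  rw [Finset.mem_map_equiv, Finset.mem_filter]
  constructor
  · exact fun h => h.2
  · exact fun h => ⟨Finset.mem_univ _, h⟩

private theorem fg3_twist_one {n : ℕ} (a k : ℕ) (hk : k ≤ 1) : twist n a k = 1 := by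
  have h1 : k - 1 = 0 := by omega
  unfold twist
  rw [h1]
  exact one_pow k

/-- PROOF. `t = (perm P.g)⁻¹ s`, `G = fg P.g t`. `perm_twist`, `fg_mul`, `fg_inv`:
`fg (P.braid) s = G * fg (twist) t * G⁻¹`; `fg_twist_*`. `s ∈ blk P` iff `a ≤ t < a + k`. -/
theorem drop_braid (s : Fin (m + 2)) (P : Pt (m + 1)) (h : P.a + P.k ≤ m + 2) :
    (drop s P).braid = fg P.braid s := by
  have h1 : perm (m + 1) P.g⁻¹ s = (perm (m + 1) P.g)⁻¹ s := by rw [map_inv]
  have h2 : perm (m + 1) (twist (m + 1) P.a P.k) = 1 := perm_twist h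
  unfold Pt.braid
  rw [fg_mul, fg_mul, h1, h2, fg_inv, Equiv.Perm.one_apply]
  have h3 : fg (twist (m + 1) P.a P.k) ((perm (m + 1) P.g)⁻¹ s) =
      twist m (drop s P).a (drop s P).k := by
    have h4 := fg3_mem_blk P s
    rcases lt_or_ge ((perm (m + 1) P.g)⁻¹ s).val P.a with h5 | h5
    · have h6 : s ∉ blk P := by
        rw [h4]
        omega
      rw [fg_twist_lt h _ h5]
      simp only [drop, if_pos h5, if_neg h6]
    · have h7 : ¬ ((perm (m + 1) P.g)⁻¹ s).val < P.a := by omega
      rcases lt_or_ge ((perm (m + 1) P.g)⁻¹ s).val (P.a + P.k) with h6 | h6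
      · have h8 : s ∈ blk P := by
          rw [h4]
          exact ⟨h5, h6⟩
        rw [fg_twist_mid h _ h5 h6]
        simp only [drop, if_neg h7, if_pos h8]
      · have h8 : s ∉ blk P := by
          rw [h4]
          omega
        rw [fg_twist_gt h _ h6]
        simp only [drop, if_neg h7, if_neg h8]
  rw [h3]
  rfl

/-- PROOF. `succAbove_perm` for `P.g`, `t`; cases `t < a`, `a ≤ t < a + k`, `a + k ≤ t`. -/
theorem mem_blk_drop (s : Fin (m + 2)) (P : Pt (m + 1)) (h : P.a + P.k ≤ m + 2)
    (u : Fin (m + 1)) : u ∈ blk (drop s P) ↔ s.succAbove u ∈ blk P := by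
  have h4 := fg3_mem_blk P s
  rw [fg3_mem_blk (drop s P) u, fg3_mem_blk P (s.succAbove u)]
  have h1 : (drop s P).g = fg P.g ((perm (m + 1) P.g)⁻¹ s) := rfl
  have h2 : (drop s P).a = if ((perm (m + 1) P.g)⁻¹ s).val < P.a then P.a - 1 else P.a := rfl
  have h3 : (drop s P).k = if s ∈ blk P then P.k - 1 else P.k := rfl
  rw [h1, h2, h3]
  obtain ⟨t, ht⟩ : ∃ t, t = (perm (m + 1) P.g)⁻¹ s := ⟨_, rfl⟩
  rw [← ht] at h4 ⊢
  obtain ⟨v, hv⟩ : ∃ v, v = (perm m (fg P.g t))⁻¹ u := ⟨_, rfl⟩
  have hts : perm (m + 1) P.g t = s := by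
    rw [ht]
    exact (perm (m + 1) P.g).apply_symm_apply s
  have hvu : perm m (fg P.g t) v = u := by
    rw [hv]
    exact (perm m (fg P.g t)).apply_symm_apply u
  have h5 := succAbove_perm P.g t v
  rw [hts, hvu] at h5
  have h6 : (perm (m + 1) P.g)⁻¹ (s.succAbove u) = t.succAbove v := by
    rw [← h5]
    exact (perm (m + 1) P.g).symm_apply_apply (t.succAbove v)
  rw [h6, ← hv]
  have h7 : (t.succAbove v).val = if v.val < t.val then v.val else v.val + 1 := by
    unfold Fin.succAbove
    by_cases h8 : v.castSucc < t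
    · have h9 : v.val < t.val := h8
      rw [if_pos h8, if_pos h9]
      rfl
    · have h9 : ¬ v.val < t.val := h8
      rw [if_neg h8, if_neg h9]
      rfl
  rw [h7]
  by_cases h8 : s ∈ blk P
  · have h9 := h4.1 h8
    rw [if_pos h8]
    split_ifs <;> omega
  · have h9 : ¬ (P.a ≤ t.val ∧ t.val < P.a + P.k) := fun h10 => h8 (h4.2 h10)
    rw [if_neg h8]
    split_ifs <;> omega

private theorem fg3_prod (s : Fin (m + 2)) (l : List (Pt (m + 1)))
    (hl : ∀ P ∈ l, P.a + P.k ≤ m + 2) :
    perm (m + 1) (l.map Pt.braid).prod = 1 ∧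
    (((l.filter fun P => decide (2 ≤ (drop s P).k)).map (drop s)).map Pt.braid).prod =
      fg (l.map Pt.braid).prod s := by
  induction l with
  | nil =>
    simp only [List.map_nil, List.prod_nil, List.filter_nil, map_one, fg_one, and_self]
  | cons P l ih =>
    obtain ⟨ih1, ih2⟩ := ih (fun Q hQ => hl Q (List.mem_cons_of_mem _ hQ))
    have hP := hl P List.mem_cons_self
    have h1 : perm (m + 1) P.braid = 1 := by
      unfold Pt.braid
      rw [map_mul, map_mul, perm_twist hP, mul_one, ← map_mul, mul_inv_cancel, map_one]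
    refine ⟨?_, ?_⟩
    · rw [List.map_cons, List.prod_cons, map_mul, h1, ih1, one_mul]
    · rw [List.map_cons, List.prod_cons, fg_mul, ih1, Equiv.Perm.one_apply, ← ih2,
        ← drop_braid s P hP]
      by_cases h2 : 2 ≤ (drop s P).k
      · rw [List.filter_cons_of_pos (by simpa using h2), List.map_cons, List.map_cons,
          List.prod_cons]
      · rw [List.filter_cons_of_neg (by simpa using h2)]
        have h3 : (drop s P).braid = 1 := by
          unfold Pt.braid
          rw [fg3_twist_one _ _ (by omega), mul_one, mul_inv_cancel]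
        rw [h3, one_mul]

/-- **Forgetting a line.** PROOF. `fg` of the product of the pure braids `P.braid` is the product of
the `fg P.braid s` (`fg_mul`, `perm_twist`), `drop_braid`; points with `k = 1` have trivial braid;
`fg (twist (m + 1) 0 (m + 2)) s = twist m 0 (m + 1)` (`fg_twist_mid`). -/
theorem drop_arr {l : List (Pt (m + 1))} (hl : IsArr (m + 1) l) (s : Fin (m + 2)) :
    IsArr m ((l.filter fun P => decide (2 ≤ (drop s P).k)).map (drop s)) := by
  refine ⟨?_, ?_⟩
  · intro Q hQ
    obtain ⟨P, hP, rfl⟩ := List.mem_map.1 hQ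
    obtain ⟨hP1, hP2⟩ := List.mem_filter.1 hP
    refine ⟨by simpa using hP2, ?_⟩
    have h1 := (hl.1 P hP1).2
    have h2 := (hl.1 P hP1).1
    have h4 := fg3_mem_blk P s
    have h5 : (drop s P).a = if ((perm (m + 1) P.g)⁻¹ s).val < P.a then P.a - 1 else P.a := rfl
    have h6 : (drop s P).k = if s ∈ blk P then P.k - 1 else P.k := rfl
    have h7 := ((perm (m + 1) P.g)⁻¹ s).isLt
    rw [h5, h6]
    by_cases h8 : s ∈ blk P
    · have h9 := h4.1 h8
      rw [if_pos h8]
      split_ifs <;> omega
    · have h9 : ¬ (P.a ≤ ((perm (m + 1) P.g)⁻¹ s).val ∧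
          ((perm (m + 1) P.g)⁻¹ s).val < P.a + P.k) := fun h10 => h8 (h4.2 h10)
      rw [if_neg h8]
      split_ifs <;> omega
  · rw [(fg3_prod s l (fun P hP => (hl.1 P hP).2)).2, hl.2]
    exact fg_twist_mid (by omega) s (Nat.zero_le _) (by have := s.isLt; omega)

end fgt

end Pool.Agent.Helper81.SBA
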