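import Pool.Agent.Helper81.SBA.Fg
import Pool.Agent.Helper81.SBA.Cv

/-!
# The main theorem
-/

set_option autoImplicit false

open Module

namespace Pool.Agent.Helper81.SBA

/-! ### An even number of lines -/

section even

variable {m e : ℕ}

/-- PROOF. The words of the points, `oP P = obj ((wd P).map vl)`. By `obj_flatten`
`prodQ (l.map oP)` is isomorphic to `obj (((l.map wd).flatten).map vl)`, and the product of the
letters is `∏ P.braid` (`wd_prod`) `= Δ²`. So `p X = 0` (`obj_pX`, transported by the isomorphism).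
`psd_prod` for the list of `(oP P, (P.k - 1) ^ 2)` (`oP_loc`), `index_word`, `psd_iso`,
`finrank_inv_le`; `finrank ℝ (Fin m → ℝ) = m`. -/
theorem even_psd (hm : m + 1 = 2 * e) (he : 2 ≤ e) {l : List (Pt m)} (hl : IsArr m l)
    (h4 : ∀ P ∈ l, P.k ≤ 4) :
    (l.map fun P => (P.k - 1) ^ 2).sum + m ≤
      3 * e * e - e + finrank (ZMod 2) (code l) := by
  have hprod : (((l.map wd).flatten).map bl).prod = twist m 0 (m + 1) := by
    rw [List.map_flatten, List.prod_flatten, List.map_map, List.map_map, ← hl.2]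
    congr 1
    refine List.map_congr_left fun P hP => ?_
    exact wd_prod P (hl.1 P hP).2
  have hiso : Iso (obj (ω := om ℝ m) (((l.map wd).flatten).map vl)) (prodQ (l.map oP)) := by
    have h1 := obj_flatten (ω := om ℝ m) ((l.map wd).map (List.map vl))
    rw [← List.map_flatten, List.map_map, List.map_map] at h1
    exact h1
  have hA : ∀ b, (prodQ (l.map oP)).p ((prodQ (l.map oP)).X b) = 0 := by
    intro b
    have h1 := obj_pX ⟨e - 1, by omega⟩ _ hprod b
    obtain ⟨f, -, h2, h3⟩ := hiso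
    rw [← h3, h2]
    exact h1
  have hf : (l.map fun P => (oP P, (P.k - 1) ^ 2)).map Prod.fst = l.map oP := by
    rw [List.map_map]
    rfl
  have hs : (l.map fun P => (oP P, (P.k - 1) ^ 2)).map Prod.snd =
      l.map fun P => (P.k - 1) ^ 2 := by
    rw [List.map_map]
    rfl
  have hV : finrank ℝ (Fin m → ℝ) = m := by simp
  have hinv : finrank ℝ (inv (l.map oP)) ≤ m := by
    have h1 := Submodule.finrank_le (inv (l.map oP))
    rwa [hV] at h1
  have hpsd := psd_prod (l.map fun P => (oP P, (P.k - 1) ^ 2)) (by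
    intro q hq
    obtain ⟨P, hP, rfl⟩ := List.mem_map.1 hq
    exact oP_loc P (hl.1 P hP) (h4 P hP)) (by rw [hf]; exact hA)
    (n := (l.map fun P => (P.k - 1) ^ 2).sum + m - finrank ℝ (inv (l.map oP))) (by
      rw [hf, hs, hV]
      omega)
  rw [hf] at hpsd
  have h5 := index_word hm he _ hprod (psd_iso hiso.symm hpsd)
  have h6 := finrank_inv_le l hl.1 h4
  omega

private theorem fi1_tk_cons (P : Pt m) (l : List (Pt m)) (k : ℕ) :
    tk (P :: l) k = tk l k + if P.k = k then 1 else 0 := by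
  unfold tk
  rw [List.countP_cons]
  simp only [decide_eq_true_eq]

/-- PROOF. By induction on the list (all `2 ≤ k ≤ 4`): the sum of `(k - 1) ^ 2` is
`t2 + 4 t3 + 9 t4`, the sum of `k (k - 1)` is `2 t2 + 6 t3 + 12 t4`. -/
theorem sums_tk {l : List (Pt m)} (h : ∀ P ∈ l, 2 ≤ P.k ∧ P.k ≤ 4) :
    (l.map fun P => (P.k - 1) ^ 2).sum = tk l 2 + 4 * tk l 3 + 9 * tk l 4 ∧
      (l.map fun P => P.k * (P.k - 1)).sum = 2 * tk l 2 + 6 * tk l 3 + 12 * tk l 4 ∧
      (l.map fun P => P.k).sum = 2 * tk l 2 + 3 * tk l 3 + 4 * tk l 4 ∧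
      l.length = tk l 2 + tk l 3 + tk l 4 := by
  induction l with
  | nil => exact ⟨rfl, rfl, rfl, rfl⟩
  | cons P l ih =>
    obtain ⟨i1, i2, i3, i4⟩ := ih fun Q hQ => h Q (List.mem_cons_of_mem P hQ)
    obtain ⟨h2, h4⟩ := h P (by simp)
    simp only [List.map_cons, List.sum_cons, List.length_cons, fi1_tk_cons, i1, i2, i3, i4]
    have hk : P.k = 2 ∨ P.k = 3 ∨ P.k = 4 := by omega
    rcases hk with hk | hk | hk
    · simp only [hk]
      norm_num
      omega
    · simp only [hk]
      norm_num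
      omega
    · simp only [hk]
      norm_num
      omega

/-- PROOF. `even_psd`, `sums_tk`, `pairs_sum` (`= (m + 1) m = 4 e e - 2 e`):
`t2 + 4 t3 + 9 t4 + (2e - 1) ≤ 3 e e - e + κ` and `18 t4 = 6 e e - 3 e - 3 t2 - 9 t3`. -/
theorem even_ineq (hm : m + 1 = 2 * e) (he : 2 ≤ e) {l : List (Pt m)} (hl : IsArr m l)
    (h4 : ∀ P ∈ l, P.k ≤ 4) :
    3 * e ≤ tk l 2 + tk l 3 + 2 + 2 * finrank (ZMod 2) (code l) := by
  have h1 := even_psd hm he hl h4
  obtain ⟨h2, h3, -, -⟩ := sums_tk (l := l) fun P hP => ⟨(hl.1 P hP).1, h4 P hP⟩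
  have h5 := pairs_sum hl
  rw [h2] at h1
  rw [h3] at h5
  obtain ⟨f, rfl⟩ : ∃ f, e = f + 1 := ⟨e - 1, by omega⟩
  have hm' : m = 2 * f + 1 := by omega
  subst hm'
  have h6 : 3 * (f + 1) * (f + 1) - (f + 1) = 3 * (f * f) + 5 * f + 2 := by
    have : 3 * (f + 1) * (f + 1) = 3 * (f * f) + 5 * f + 2 + (f + 1) := by ring
    omega
  have h7 : (2 * f + 1 + 1) * (2 * f + 1) = 4 * (f * f) + 6 * f + 2 := by ring
  rw [h6] at h1
  rw [h7] at h5
  omega

/-- PROOF. `code_bound` and `code_weight`: `1000 κ ≤ 245 * 2 e`. -/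
theorem even_case (hm : m + 1 = 2 * e) (hd : 6000 ≤ m + 1) {l : List (Pt m)} (hl : IsArr m l)
    (h4 : ∀ P ∈ l, P.k ≤ 4) : m + 1 ≤ tk l 2 + tk l 3 := by
  have h1 := even_ineq hm (by omega) hl h4
  have h2 := code_bound hd (code l) (by
    intro x hx h0
    have h3 := code_weight hl h4 x hx h0
    have h5 : wt x = (supp x).card := rfl
    omega)
  omega

end even

/-! ### An odd number of lines -/

section odd

variable {m e : ℕ}

/-- The number of points of multiplicity `k` on the line `s`. -/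
def rk (l : List (Pt m)) (s : Fin (m + 1)) (k : ℕ) : ℕ :=
  l.countP fun P => decide (P.k = k ∧ s ∈ blk P)

private theorem fi2_rk_cons (P : Pt m) (l : List (Pt m)) (s : Fin (m + 1)) (k : ℕ) :
    rk (P :: l) s k = rk l s k + if P.k = k ∧ s ∈ blk P then 1 else 0 := by
  unfold rk
  rw [List.countP_cons]
  simp only [decide_eq_true_eq]

private theorem fi2_tk_cons (P : Pt m) (l : List (Pt m)) (k : ℕ) :
    tk (P :: l) k = tk l k + if P.k = k then 1 else 0 := by
  unfold tk
  rw [List.countP_cons]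
  simp only [decide_eq_true_eq]

private theorem fi2_rk_nil (s : Fin (m + 1)) (k : ℕ) : rk ([] : List (Pt m)) s k = 0 := rfl

private theorem fi2_tk_nil (k : ℕ) : tk ([] : List (Pt m)) k = 0 := rfl

private theorem fi2_sum (l : List (Pt m)) (k : ℕ) (h : ∀ P ∈ l, P.a + P.k ≤ m + 1) :
    ∑ s, rk l s k = k * tk l k := by
  induction l with
  | nil => simp [fi2_rk_nil, fi2_tk_nil]
  | cons P l ih =>
    have h1 : ∑ s : Fin (m + 1), (if P.k = k ∧ s ∈ blk P then 1 else 0) =
        k * if P.k = k then 1 else 0 := by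
      by_cases hk : P.k = k
      · simp only [hk, true_and, if_true, mul_one]
        rw [Finset.sum_ite_mem, Finset.univ_inter, Finset.sum_const, smul_eq_mul, mul_one,
          card_blk P (h P (by simp)), hk]
      · simp [hk]
    simp only [fi2_rk_cons, fi2_tk_cons]
    rw [Finset.sum_add_distrib, ih fun Q hQ => h Q (List.mem_cons_of_mem P hQ), h1, mul_add]

/-- PROOF. Sum over `s`: `∑_s rk l s k = k * tk l k` (`card_blk`). So
`∑_s (rk 2 + rk 3) = 2 t2 + 3 t3 ≤ 3 m < 3 (m + 1)`. -/
theorem exists_line {l : List (Pt m)} (hl : IsArr m l) (h : tk l 2 + tk l 3 ≤ m) :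
    ∃ s, rk l s 2 + rk l s 3 ≤ 2 := by
  by_contra hcon
  have hcon' : ∀ s : Fin (m + 1), 3 ≤ rk l s 2 + rk l s 3 := by
    intro s
    by_contra hs
    exact hcon ⟨s, by omega⟩
  have h1 : ∑ _s : Fin (m + 1), 3 ≤ ∑ s, (rk l s 2 + rk l s 3) :=
    Finset.sum_le_sum fun s _ => hcon' s
  have ha : ∀ P ∈ l, P.a + P.k ≤ m + 1 := fun P hP => (hl.1 P hP).2
  rw [Finset.sum_const, Finset.card_univ, Fintype.card_fin, smul_eq_mul,
    Finset.sum_add_distrib, fi2_sum l 2 ha, fi2_sum l 3 ha] at h1
  omega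

private theorem fi2_line (l : List (Pt m)) (s : Fin (m + 1)) (h : ∀ P ∈ l, 2 ≤ P.k ∧ P.k ≤ 4) :
    ((l.filter fun P => decide (s ∈ blk P)).map fun P => P.k - 1).sum =
      rk l s 2 + 2 * rk l s 3 + 3 * rk l s 4 := by
  induction l with
  | nil => simp [fi2_rk_nil]
  | cons P l ih =>
    have ih' := ih fun Q hQ => h Q (List.mem_cons_of_mem P hQ)
    obtain ⟨h2, h4⟩ := h P (by simp)
    rw [List.filter_cons, fi2_rk_cons, fi2_rk_cons, fi2_rk_cons]
    by_cases hs : s ∈ blk P
    · rw [if_pos (by simpa using hs), List.map_cons, List.sum_cons, ih']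
      simp only [hs, and_true]
      have hk : P.k = 2 ∨ P.k = 3 ∨ P.k = 4 := by omega
      rcases hk with hk | hk | hk <;> simp [hk] <;> omega
    · rw [if_neg (by simpa using hs), ih']
      simp [hs]

/-- PROOF. `line_sum` and `sums_tk` for the filtered list. -/
theorem line_rk {l : List (Pt m)} (hl : IsArr m l) (h4 : ∀ P ∈ l, P.k ≤ 4) (s : Fin (m + 1)) :
    rk l s 2 + 2 * rk l s 3 + 3 * rk l s 4 = m := by
  rw [← fi2_line l s fun P hP => ⟨(hl.1 P hP).1, h4 P hP⟩]
  exact line_sum hl s

/-- The arrangement without the line `s`. -/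
def dropL (s : Fin (m + 2)) (l : List (Pt (m + 1))) : List (Pt m) :=
  (l.filter fun P => decide (2 ≤ (drop s P).k)).map (drop s)

/-- PROOF. `tk (dropL) 2 = t2 - r2 + r3`, `tk (dropL) 3 = t3 - r3 + r4` (induction on `l`). -/
theorem tk_dropL (s : Fin (m + 2)) {l : List (Pt (m + 1))} (hl : IsArr (m + 1) l)
    (h4 : ∀ P ∈ l, P.k ≤ 4) :
    tk (dropL s l) 2 + tk (dropL s l) 3 + rk l s 2 = tk l 2 + tk l 3 + rk l s 4 := by
  have key : ∀ l : List (Pt (m + 1)), (∀ P ∈ l, 2 ≤ P.k ∧ P.k ≤ 4) →
      tk (dropL s l) 2 + tk (dropL s l) 3 + rk l s 2 = tk l 2 + tk l 3 + rk l s 4 := by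
    intro l
    induction l with
    | nil => intro _; rfl
    | cons P l ih =>
      intro h
      have ih' := ih fun Q hQ => h Q (List.mem_cons_of_mem P hQ)
      obtain ⟨h2, h4⟩ := h P (by simp)
      have hd : dropL s (P :: l) =
          if 2 ≤ (drop s P).k then drop s P :: dropL s l else dropL s l := by
        unfold dropL
        rw [List.filter_cons]
        by_cases h3 : 2 ≤ (drop s P).k
        · rw [if_pos (by simpa using h3), if_pos h3, List.map_cons]
        · rw [if_neg (by simpa using h3), if_neg h3]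
      have hk' : (drop s P).k = if s ∈ blk P then P.k - 1 else P.k := rfl
      rw [hd, fi2_rk_cons, fi2_rk_cons, fi2_tk_cons, fi2_tk_cons]
      have hk : P.k = 2 ∨ P.k = 3 ∨ P.k = 4 := by omega
      by_cases hs : s ∈ blk P
      · rw [if_pos hs] at hk'
        simp only [hs, and_true]
        rcases hk with hk | hk | hk
        · rw [if_neg (by omega)]
          simp only [hk]
          norm_num
          omega
        · rw [if_pos (by omega), fi2_tk_cons, fi2_tk_cons, hk']
          simp only [hk]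
          norm_num
          omega
        · rw [if_pos (by omega), fi2_tk_cons, fi2_tk_cons, hk']
          simp only [hk]
          norm_num
          omega
      · rw [if_neg hs] at hk'
        simp only [hs, and_false, if_false, add_zero]
        rw [if_pos (by omega), fi2_tk_cons, fi2_tk_cons, hk']
        rcases hk with hk | hk | hk
        · simp only [hk]
          norm_num
          omega
        · simp only [hk]
          norm_num
          omega
        · simp only [hk]
          norm_num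
          omega
  exact key l fun P hP => ⟨(hl.1 P hP).1, h4 P hP⟩

private theorem FI3_countP {α : Type} (p : α → Prop) [DecidablePred p] (l : List α) :
    l.countP (fun a => decide (p a)) =
      (Finset.univ.filter fun j : Fin l.length => p (l.get j)).card := by
  rw [Finset.card_filter]
  induction l with
  | nil => simp
  | cons a l ih =>
    rw [List.countP_cons, ih]
    have h := Fin.sum_univ_succ (fun j : Fin (l.length + 1) => if p ((a :: l).get j) then 1 else 0)
    simp only [List.length_cons] at h ⊢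
    rw [h]
    simp only [List.get_cons_zero, decide_eq_true_eq]
    rw [add_comm]
    rfl

/-- A word of the code is constant on the points of the line `s`. -/
private theorem FI3_const (s : Fin (m + 2)) {l : List (Pt (m + 1))} (hl : IsArr (m + 1) l)
    (h4 : ∀ P ∈ l, P.k ≤ 4) {x : Fin (m + 1) → ZMod 2} (hx : x ∈ code (dropL s l))
    {P : Pt (m + 1)} (hP : P ∈ l) (hs : s ∈ blk P) {u v : Fin (m + 1)}
    (hu : s.succAbove u ∈ blk P) (hv : s.succAbove v ∈ blk P) : x u = x v := by
  have hk := hl.1 P hP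
  have hk4 := h4 P hP
  have hdk : (drop s P).k = P.k - 1 := if_pos hs
  have hu' := (mem_blk_drop s P hk.2 u).2 hu
  have hv' := (mem_blk_drop s P hk.2 v).2 hv
  by_cases h2 : P.k = 2
  · have hc := card_blk P hk.2
    rw [h2] at hc
    have h3 : s.succAbove u = s.succAbove v := by
      by_contra hne
      have h5 : ({s, s.succAbove u, s.succAbove v} : Finset (Fin (m + 2))) ⊆ blk P := by
        intro t ht
        simp only [Finset.mem_insert, Finset.mem_singleton] at ht
        rcases ht with rfl | rfl | rfl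
        · exact hs
        · exact hu
        · exact hv
      have h6 := Finset.card_le_card h5
      rw [hc, Finset.card_insert_of_notMem, Finset.card_insert_of_notMem,
        Finset.card_singleton] at h6
      · omega
      · simpa using hne
      · simp only [Finset.mem_insert, Finset.mem_singleton, not_or]
        exact ⟨fun h => Fin.succAbove_ne s u h.symm, fun h => Fin.succAbove_ne s v h.symm⟩
    rw [Fin.succAbove_right_inj] at h3
    rw [h3]
  · have hmem : drop s P ∈ dropL s l := by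
      refine List.mem_map_of_mem (List.mem_filter.2 ⟨hP, ?_⟩)
      rw [decide_eq_true_eq, hdk]
      omega
    have hxP := hx (drop s P) hmem
    by_cases h3 : P.k = 3
    · have hsum := hxP.1 (by rw [hdk]; omega)
      have hcard := card_blk (drop s P) (((drop_arr hl s).1 _ hmem).2)
      rw [hdk, h3] at hcard
      by_cases huv : u = v
      · rw [huv]
      · have h5 : blk (drop s P) = {u, v} := by
          symm
          refine Finset.eq_of_subset_of_card_le ?_ ?_
          · intro t ht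
            simp only [Finset.mem_insert, Finset.mem_singleton] at ht
            rcases ht with rfl | rfl
            · exact hu'
            · exact hv'
          · rw [hcard, Finset.card_pair huv]
        rw [h5, Finset.sum_pair huv] at hsum
        have h6 : ∀ a b : ZMod 2, a + b = 0 → a = b := by decide
        exact h6 _ _ hsum
    · exact hxP.2 (by rw [hdk]; omega) u hu' v hv'

/-- The code of the arrangement without the line `s`.
PROOF. Let `Q_1, ..., Q_N`, `N = rk l s 4`, be the points of multiplicity 4 on `s` and `R_1, R_2, ...`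
(at most 2) the other points on `s`. Without `s` the `Q_j` are triple points, so a word `x` of the
code is constant on them; the `R_j` become double points (`x` is constant on the two lines) or single
lines. Every line `u` lies in exactly one of these classes (`pair_unique` for `s`,
`s.succAbove u`; `mem_blk_drop`). Choose a line `q_j` in `Q_j` and `r_j` in `R_j`. The words with
`x (r_j) = 0` form a subspace `C'` of codimension at most 2; the map `x ↦ (x (q_j))_j` is injective
on it, its image `D` in `F_2 ^ N` has all nonzero weights at least `N / 3`, because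
`|supp x| = 3 wt (D-word)` and `m + 3 ≤ 3 |supp x|` (`code_weight` for `dropL`, `drop_arr`) and
`3 N ≤ m + 1` (`line_rk`). `N ≥ 6000` as `3 N ≥ m + 1 - 4`. `code_bound` for `D`. -/
theorem code_dropL (s : Fin (m + 2)) {l : List (Pt (m + 1))} (hl : IsArr (m + 1) l)
    (h4 : ∀ P ∈ l, P.k ≤ 4) (hd : 20000 ≤ m + 2) (hs : rk l s 2 + rk l s 3 ≤ 2) :
    1000 * finrank (ZMod 2) (code (dropL s l)) ≤ 2000 + 245 * rk l s 4 := by
  classical
  have hgm : ∀ j : Fin l.length, l.get j ∈ l := fun j => List.get_mem l j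
  -- representatives
  have hrep : ∀ j : Fin l.length, s ∈ blk (l.get j) → ∃ u, s.succAbove u ∈ blk (l.get j) := by
    intro j hj
    have hk := hl.1 _ (hgm j)
    have hc := card_blk (l.get j) hk.2
    obtain ⟨b, hb, hne⟩ := Finset.exists_mem_ne (s := blk (l.get j)) (by omega) s
    obtain ⟨u, rfl⟩ := Fin.exists_succAbove_eq hne
    exact ⟨u, hb⟩
  have hcls : ∀ u : Fin (m + 1), ∃ j : Fin l.length, s ∈ blk (l.get j) ∧
      s.succAbove u ∈ blk (l.get j) := fun u =>
    (pair_unique hl s (s.succAbove u) (Fin.succAbove_ne s u).symm).exists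
  set J4 : Finset (Fin l.length) :=
    Finset.univ.filter fun j => (l.get j).k = 4 ∧ s ∈ blk (l.get j) with hJ4
  set J2 : Finset (Fin l.length) :=
    Finset.univ.filter fun j => (l.get j).k = 2 ∧ s ∈ blk (l.get j) with hJ2
  set J3 : Finset (Fin l.length) :=
    Finset.univ.filter fun j => (l.get j).k = 3 ∧ s ∈ blk (l.get j) with hJ3
  have c4 : rk l s 4 = J4.card := FI3_countP (fun P : Pt (m + 1) => P.k = 4 ∧ s ∈ blk P) l
  have c2 : rk l s 2 = J2.card := FI3_countP (fun P : Pt (m + 1) => P.k = 2 ∧ s ∈ blk P) l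
  have c3 : rk l s 3 = J3.card := FI3_countP (fun P : Pt (m + 1) => P.k = 3 ∧ s ∈ blk P) l
  have cJ' : (J2 ∪ J3).card ≤ 2 := by
    have := Finset.card_union_le J2 J3
    omega
  have hline := line_rk hl h4 s
  set N := J4.card with hN
  have hrs : ∀ j : Fin l.length, s ∈ blk (l.get j) → j ∈ J4 ∨ j ∈ J2 ∪ J3 := by
    intro j hj
    have hk := hl.1 _ (hgm j)
    have hk4 := h4 _ (hgm j)
    simp only [hJ4, hJ2, hJ3, Finset.mem_union, Finset.mem_filter, Finset.mem_univ, true_and, hj,
      and_true]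
    omega
  have hsJ4 : ∀ j ∈ J4, s ∈ blk (l.get j) := fun j hj => (Finset.mem_filter.1 hj).2.2
  have hsJ' : ∀ j ∈ J2 ∪ J3, s ∈ blk (l.get j) := by
    intro j hj
    rcases Finset.mem_union.1 hj with h | h
    · exact (Finset.mem_filter.1 h).2.2
    · exact (Finset.mem_filter.1 h).2.2
  choose! q hq using hrep
  let C := code (dropL s l)
  let Φ : (Fin (m + 1) → ZMod 2) →ₗ[ZMod 2] ((J2 ∪ J3 : Finset _) → ZMod 2) :=
    LinearMap.funLeft (ZMod 2) (ZMod 2) fun j => q j.1
  let eJ : Fin N ≃ J4 := J4.equivFin.symm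
  let Ψ : (Fin (m + 1) → ZMod 2) →ₗ[ZMod 2] (Fin N → ZMod 2) :=
    LinearMap.funLeft (ZMod 2) (ZMod 2) fun i => q (eJ i).1
  let C0 : Submodule (ZMod 2) (Fin (m + 1) → ZMod 2) := C ⊓ LinearMap.ker Φ
  let D : Submodule (ZMod 2) (Fin N → ZMod 2) := C0.map Ψ
  have hconst : ∀ x ∈ C, ∀ u : Fin (m + 1), ∀ j : Fin l.length, s ∈ blk (l.get j) →
      s.succAbove u ∈ blk (l.get j) → x u = x (q j) := fun x hx u j hj hu =>
    FI3_const s hl h4 hx (hgm j) hj hu (hq j hj)
  -- dimension of C0
  have hdim0 : finrank (ZMod 2) C ≤ finrank (ZMod 2) C0 + 2 := by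
    have h1 := LinearMap.finrank_range_add_finrank_ker (Φ.domRestrict C)
    have h2 : finrank (ZMod 2) (LinearMap.range (Φ.domRestrict C)) ≤ 2 := by
      refine (Submodule.finrank_le _).trans ?_
      rw [Module.finrank_fintype_fun_eq_card, Fintype.card_coe]
      exact cJ'
    have h3 : finrank (ZMod 2) (LinearMap.ker (Φ.domRestrict C)) ≤ finrank (ZMod 2) C0 := by
      let g : LinearMap.ker (Φ.domRestrict C) →ₗ[ZMod 2] C0 :=
        { toFun := fun y => ⟨y.1.1, ⟨y.1.2, by
            exact LinearMap.mem_ker.1 y.2⟩⟩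
          map_add' := fun _ _ => rfl
          map_smul' := fun _ _ => rfl }
      refine LinearMap.finrank_le_finrank_of_injective (f := g) ?_
      intro a b hab
      have : a.1.1 = b.1.1 := congrArg (fun z : C0 => z.1) hab
      exact Subtype.ext (Subtype.ext this)
    omega
  -- injectivity of Ψ on C0
  have hinj : ∀ x ∈ C0, Ψ x = 0 → x = 0 := by
    intro x hx h0
    ext u
    obtain ⟨j, hj, hu⟩ := hcls u
    rw [hconst x hx.1 u j hj hu]
    rcases hrs j hj with h | h
    · have h5 := congrFun h0 (eJ.symm ⟨j, h⟩)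
      simp only [Ψ, LinearMap.funLeft_apply, Equiv.apply_symm_apply] at h5
      exact h5
    · have h5 := congrFun (LinearMap.mem_ker.1 hx.2) ⟨j, h⟩
      simp only [Φ, LinearMap.funLeft_apply] at h5
      exact h5
  have hdimD : finrank (ZMod 2) C0 = finrank (ZMod 2) D := by
    let g : C0 →ₗ[ZMod 2] (Fin N → ZMod 2) := Ψ.domRestrict C0
    have hg : Function.Injective g := by
      rw [← LinearMap.ker_eq_bot, LinearMap.ker_eq_bot']
      intro y hy
      exact Subtype.ext (hinj y.1 y.2 hy)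
    have h1 := LinearMap.finrank_range_of_inj hg
    have h2 : LinearMap.range g = D := by
      ext z
      simp only [g, D, LinearMap.mem_range, Submodule.mem_map, LinearMap.domRestrict_apply]
      constructor
      · rintro ⟨y, rfl⟩
        exact ⟨y.1, y.2, rfl⟩
      · rintro ⟨y, hy, rfl⟩
        exact ⟨⟨y, hy⟩, rfl⟩
    rw [← h1, h2]
  -- weights
  have hwt : ∀ z ∈ D, z ≠ 0 → N ≤ 3 * wt z := by
    rintro z ⟨x, hx, rfl⟩ hz
    have hx0 : x ≠ 0 := by
      rintro rfl
      exact hz (map_zero _)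
    have hw := code_weight (drop_arr hl s) (by
      intro P hP
      obtain ⟨Q, hQ, rfl⟩ := List.mem_map.1 hP
      have h5 := h4 Q (List.mem_filter.1 hQ).1
      change (if s ∈ blk Q then Q.k - 1 else Q.k) ≤ 4
      split_ifs <;> omega) x hx.1 hx0
    have hsub : supp x ⊆ (Finset.univ.filter fun i : Fin N => Ψ x i ≠ 0).biUnion fun i =>
        Finset.univ.filter fun u => s.succAbove u ∈ blk (l.get (eJ i).1) := by
      intro u hu
      have hu0 : x u ≠ 0 := (Finset.mem_filter.1 hu).2
      obtain ⟨j, hj, huj⟩ := hcls u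
      have h5 := hconst x hx.1 u j hj huj
      rcases hrs j hj with h | h
      · rw [Finset.mem_biUnion]
        refine ⟨eJ.symm ⟨j, h⟩, ?_, ?_⟩
        · rw [Finset.mem_filter]
          refine ⟨Finset.mem_univ _, ?_⟩
          simp only [Ψ, LinearMap.funLeft_apply, Equiv.apply_symm_apply]
          rw [← h5]
          exact hu0
        · rw [Finset.mem_filter]
          refine ⟨Finset.mem_univ _, ?_⟩
          rw [Equiv.apply_symm_apply]
          exact huj
      · exfalso
        have h6 := congrFun (LinearMap.mem_ker.1 hx.2) ⟨j, h⟩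
        simp only [Φ, LinearMap.funLeft_apply] at h6
        rw [h5] at hu0
        exact hu0 h6
    have hfib : ∀ i : Fin N, (Finset.univ.filter fun u : Fin (m + 1) =>
        s.succAbove u ∈ blk (l.get (eJ i).1)).card ≤ 3 := by
      intro i
      have hj := (eJ i).2
      have hsj := hsJ4 _ hj
      have hk : (l.get (eJ i).1).k = 4 := (Finset.mem_filter.1 hj).2.1
      have hc := card_blk (l.get (eJ i).1) (hl.1 _ (hgm _)).2
      rw [hk] at hc
      have h7 : ((Finset.univ.filter fun u : Fin (m + 1) =>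
          s.succAbove u ∈ blk (l.get (eJ i).1)).map s.succAboveEmb) ⊆
          (blk (l.get (eJ i).1)).erase s := by
        intro t ht
        obtain ⟨u, hu, rfl⟩ := Finset.mem_map.1 ht
        rw [Finset.mem_erase]
        exact ⟨Fin.succAbove_ne s u, (Finset.mem_filter.1 hu).2⟩
      have h8 := Finset.card_le_card h7
      rw [Finset.card_map, Finset.card_erase_of_mem hsj, hc] at h8
      exact h8
    have h9 := (Finset.card_le_card hsub).trans (Finset.card_biUnion_le_card_mul _ _ 3
      fun i _ => hfib i)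
    have h10 : wt (Ψ x) = (Finset.univ.filter fun i : Fin N => Ψ x i ≠ 0).card := rfl
    omega
  have hcb := code_bound (n := N) (by omega) D hwt
  have : finrank (ZMod 2) (code (dropL s l)) = finrank (ZMod 2) C := rfl
  omega

/-- PROOF. Suppose `tk l 2 + tk l 3 ≤ m + 1`; `s` by `exists_line`. `even_ineq` for `dropL s l`
(`drop_arr`; the multiplicities are still at most 4), `tk_dropL`, `code_dropL`, `line_rk`:
`3 e ≤ (m + 1) + N + 2 + 4 + 0.49 N` with `3 N ≤ m + 1 = 2 e`. Contradiction for `e ≥ 1000`. -/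
theorem odd_case (hm : m + 1 = 2 * e) (hd : 20000 ≤ m + 2) {l : List (Pt (m + 1))}
    (hl : IsArr (m + 1) l) (h4 : ∀ P ∈ l, P.k ≤ 4) : m + 2 ≤ tk l 2 + tk l 3 := by
  by_contra hcon
  obtain ⟨s, hs⟩ := exists_line hl (by omega)
  have hl' : IsArr m (dropL s l) := drop_arr hl s
  have h4' : ∀ P ∈ dropL s l, P.k ≤ 4 := by
    intro P hP
    obtain ⟨Q, hQ, rfl⟩ := List.mem_map.1 hP
    have hQ4 := h4 Q (List.mem_filter.1 hQ).1
    change (if s ∈ blk Q then Q.k - 1 else Q.k) ≤ 4
    split_ifs <;> omega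
  have h1 := even_ineq hm (by omega) hl' h4'
  have h2 := tk_dropL s hl h4
  have h3 := line_rk hl h4 s
  have h5 := code_dropL s hl h4 hd hs
  omega

end odd

/-! ### The inequality of Bogomolov, Miyaoka and Yau -/

/-- PROOF. `3 c_2 - c_1² = (n-1)²(t2 - d) + (n² - 4n + 7) t3 + (n - 3)² t4` (`ring` with
`f0 = t2 + t3 + t4`, `f1 = 2 t2 + 3 t3 + 4 t4`). `n = 2`: `t2 - d + 3 t3 + t4`; `n = 3`:
`4 (t2 + t3 - d)`. `n ≥ 4`: if `2 t3 ≤ t4` then the value is at least
`(n - 3)² t4 - (2n - 6) t3 ≥ (n - 3)(n - 4) t4`; if `t4 ≤ 2 t3` then `d (d - 1)/2 ≤ t2 + 15 t3`,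
`4 (n² - 4n + 7) ≥ 3 (n-1)²`, and `t2 - d + (3/4) t3 ≥ (t2 + 15 t3)/20 - d ≥ d (d-1)/40 - d ≥ 0`. -/
theorem bmy_ineq (n d t2 t3 t4 : ℤ) (hn : 2 ≤ n) (hd : 41 ≤ d) (h2 : 0 ≤ t2) (h3 : 0 ≤ t3)
    (h4 : 0 ≤ t4) (h : d ≤ t2 + t3) (hp : d * (d - 1) = 2 * t2 + 6 * t3 + 12 * t4) :
    cOneSq n d t2 (t2 + t3 + t4) (2 * t2 + 3 * t3 + 4 * t4) ≤
      3 * cTwo n d t2 (t2 + t3 + t4) (2 * t2 + 3 * t3 + 4 * t4) := by
  have key : 0 ≤ (n - 1) ^ 2 * (t2 - d) + (n ^ 2 - 4 * n + 7) * t3 + (n - 3) ^ 2 * t4 := by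
    rcases le_or_gt n 3 with h5 | h5
    · have h6 : n = 2 ∨ n = 3 := by omega
      rcases h6 with rfl | rfl
      · norm_num
        linarith
      · norm_num
        linarith
    · rcases le_or_gt (2 * t3) t4 with h6 | h6
      · have h7 : 0 ≤ (n - 1) ^ 2 * (t2 + t3 - d) := mul_nonneg (sq_nonneg _) (by linarith)
        have h8 : 0 ≤ (n - 3) * (t4 - 2 * t3) := mul_nonneg (by linarith) (by linarith)
        have h9 : 0 ≤ (n - 3) * (n - 4) * t4 :=
          mul_nonneg (mul_nonneg (by linarith) (by linarith)) h4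
        nlinarith [h7, h8, h9]
      · have h7 : 0 ≤ (n - 5) ^ 2 * t3 := mul_nonneg (sq_nonneg _) h3
        have h8 : 20 * (2 * d) ≤ d * (d - 1) := by nlinarith
        have h9 : 0 ≤ 4 * t2 + 3 * t3 - 4 * d := by linarith
        have h10 : 0 ≤ (n - 1) ^ 2 * (4 * t2 + 3 * t3 - 4 * d) := mul_nonneg (sq_nonneg _) h9
        have h11 : 0 ≤ (n - 3) ^ 2 * t4 := mul_nonneg (sq_nonneg _) h4
        nlinarith [h7, h10, h11]
  unfold cOneSq cTwo
  nlinarith [key]

/-- **Main theorem.** -/
theorem main {m : ℕ} (hd : 20000 ≤ m + 1) {l : List (Pt m)} (hl : IsArr m l)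
    (h4 : ∀ P ∈ l, P.k ≤ 4) :
    m + 1 ≤ tk l 2 + tk l 3 ∧ ∀ n : ℤ, 2 ≤ n →
      cOneSq n (m + 1) (tk l 2) l.length ((l.map fun P => P.k).sum : ℕ) ≤
        3 * cTwo n (m + 1) (tk l 2) l.length ((l.map fun P => P.k).sum : ℕ) := by
  have h1 : m + 1 ≤ tk l 2 + tk l 3 := by
    rcases Nat.even_or_odd' (m + 1) with ⟨e, he | he⟩
    · exact even_case he (by omega) hl h4
    · obtain ⟨m', rfl⟩ : ∃ m', m = m' + 1 := ⟨m - 1, by omega⟩
      exact odd_case (e := e) (by omega) (by omega) hl h4
  refine ⟨h1, fun n hn => ?_⟩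
  obtain ⟨-, h2, h3, h5⟩ := sums_tk (l := l) fun P hP => ⟨(hl.1 P hP).1, h4 P hP⟩
  have h6 := pairs_sum hl
  rw [h3, h5]
  push_cast
  refine bmy_ineq n (m + 1) _ _ _ hn (by omega) (by positivity) (by positivity) (by positivity)
    (by exact_mod_cast h1) ?_
  rw [h2] at h6
  have h7 : ((m : ℤ) + 1) * m = 2 * tk l 2 + 6 * tk l 3 + 12 * tk l 4 := by exact_mod_cast h6.symm
  rw [← h7]
  ring

end Pool.Agent.Helper81.SBA
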