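import Pool.Agent.Helper81.SBA.Def

/-!
# Hurwitz words and the braid group

`M` is a monoid, `e x ∈ M` for the conjugates `x` of the Artin generators (the letters), with
`e x * e y = e (x y x⁻¹) * e x`. Two words of letters with the product `Δ²` have the same image in
`M` after multiplication with a power of the image `Z` of the standard word.
-/

set_option autoImplicit false

universe u

namespace Pool.Agent.Helper81.SBA

/-- A letter: a conjugate of a generator. -/
def Lt {m : ℕ} (x : BraidGroup m) : Prop := ∃ g i, x = g * sigma i * g⁻¹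

theorem Lt.sigma {m : ℕ} (i : Fin m) : Lt (sigma i) := ⟨1, i, by simp⟩

theorem Lt.conj {m : ℕ} {x : BraidGroup m} (h : Lt x) (g : BraidGroup m) : Lt (g * x * g⁻¹) := by
  obtain ⟨k, i, rfl⟩ := h
  exact ⟨g * k, i, by group⟩

/-- The standard word of the full twist, `(σ_0, ..., σ_{m-1})` repeated `m + 1` times. -/
def stdL (m : ℕ) : List (BraidGroup m) :=
  (List.replicate (m + 1) ((List.finRange m).map sigma)).flatten

/-! ### The full twist is central -/

/-- PROOF. Induction on `n` or `List.prod`; `List.finRange`, `List.ofFn`. For example prove by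
induction on `n ≤ m`: `((List.finRange m).take n |>.map sigma).prod = run m 0 n`. -/
theorem finRange_prod (m : ℕ) : ((List.finRange m).map (sigma (m := m))).prod = run m 0 m := by
  have key : ∀ n, ((List.range n).map (fun i => sg m i)).prod = run m 0 n := by
    intro n
    induction n with
    | zero => rfl
    | succ n ih =>
      rw [List.range_succ, List.map_append, List.prod_append, ih]
      simp [run]
  rw [← key m, ← List.map_coe_finRange_eq_range, List.map_map]
  congr 1
  refine List.map_congr_left fun i _ => ?_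
  simp [sg]

/-- PROOF. `List.prod_flatten`, `List.map_replicate`, `List.prod_replicate`, `finRange_prod`;
`twist m 0 (m + 1) = run m 0 m ^ (m + 1)` by definition. -/
theorem stdL_prod (m : ℕ) : (stdL m).prod = twist m 0 (m + 1) := by
  rw [stdL, List.prod_flatten, List.map_replicate, List.prod_replicate, finRange_prod]
  rfl

private theorem sg_comm' {m i j : ℕ} (h : i + 2 ≤ j) : sg m i * sg m j = sg m j * sg m i := by
  unfold sg
  by_cases hi : i < m
  · by_cases hj : j < m
    · rw [dif_pos hi, dif_pos hj]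
      exact artin_comm _ _ h
    · rw [dif_neg hj, mul_one, one_mul]
  · rw [dif_neg hi, mul_one, one_mul]

private theorem sg_braid' {m i : ℕ} (h : i + 1 < m) :
    sg m i * sg m (i + 1) * sg m i = sg m (i + 1) * sg m i * sg m (i + 1) := by
  unfold sg
  rw [dif_pos h, dif_pos (show i < m by omega)]
  exact artin_braid _ _ rfl

private theorem run_comm' {m a n j : ℕ} (h : a + n + 1 ≤ j) :
    run m a n * sg m j = sg m j * run m a n := by
  induction n with
  | zero => simp [run]
  | succ n ih =>
    rw [run, mul_assoc, sg_comm' (show a + n + 2 ≤ j by omega), ← mul_assoc, ih (by omega),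
      mul_assoc]

/-- The Coxeter element shifts the generators.
PROOF. Write `run m a n = A σ_i σ_{i+1} B` with `A` commuting with `σ_{i+1}` and `B` commuting with
`σ_i`: `A σ_i σ_{i+1} B σ_i = A σ_i σ_{i+1} σ_i B = A σ_{i+1} σ_i σ_{i+1} B = σ_{i+1} A ...`.
Suggestion: induction on `n` (with `run m a (n + 1) = run m a n * sg m (a + n)`), the case
`i + 1 = a + n` being the braid relation: `run m a (n-1) * σ_i * σ_{i+1} * σ_i`. -/
theorem run_shift {m a n i : ℕ} (ha : a ≤ i) (hi : i + 1 < a + n) (hn : a + n ≤ m) :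
    run m a n * sg m i = sg m (i + 1) * run m a n := by
  induction n with
  | zero => omega
  | succ n ih =>
    rcases Nat.lt_or_ge (i + 1) (a + n) with h | h
    · rw [run, mul_assoc, ← sg_comm' (show i + 2 ≤ a + n by omega), ← mul_assoc,
        ih h (by omega), mul_assoc]
    · obtain ⟨k, rfl⟩ : ∃ k, n = k + 1 := ⟨n - 1, by omega⟩
      obtain rfl : i = a + k := by omega
      rw [run, run, show a + (k + 1) = a + k + 1 by omega, mul_assoc, mul_assoc, ← mul_assoc (sg m _),
        sg_braid' (by omega), ← mul_assoc, ← mul_assoc, run_comm' (by omega)]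
      simp only [mul_assoc]

private theorem run_succ_left' {m a n : ℕ} :
    run m a (n + 1) = sg m a * run m (a + 1) n := by
  induction n with
  | zero => simp [run]
  | succ n ih =>
    rw [run, ih, mul_assoc]
    conv_rhs => rw [run]
    rw [show a + 1 + n = a + (n + 1) by omega]

private theorem run_run' {m a n j : ℕ} (hj : j ≤ n) (hn : a + (n + 1) ≤ m) :
    run m a (n + 1) * run m a j = run m (a + 1) j * run m a (n + 1) := by
  induction j with
  | zero => simp [run]
  | succ j ih =>
    have h := run_shift (m := m) (a := a) (n := n + 1) (i := a + j) (by omega) (by omega) hn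
    have h1 : run m a (j + 1) = run m a j * sg m (a + j) := rfl
    have h2 : run m (a + 1) (j + 1) = run m (a + 1) j * sg m (a + 1 + j) := rfl
    rw [h1, h2, ← mul_assoc, ih (by omega), mul_assoc, h, mul_assoc,
      show a + 1 + j = a + j + 1 by omega]

/-- PROOF. With `δ_n = run m a n` and `i = a + n - 1` the last index (`n ≥ 1`):
`δ_n² σ_i = σ_a δ_n²`. Write `δ_n = σ_a ρ` with `ρ = run m (a + 1) (n - 1)`. For `n = 1` trivial.
`δ_n ρ = ρ' δ_n`... One way: by `run_shift` `δ_n (σ_a ⋯ σ_{i-1}) = (σ_{a+1} ⋯ σ_i) δ_n`. So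
`δ_n² = δ_n (σ_a ⋯ σ_{i-1}) σ_i = ρ δ_n σ_i` and `σ_a δ_n² = σ_a ρ δ_n σ_i = δ_n δ_n σ_i`. -/
theorem run_sq {m a n : ℕ} (hn : a + (n + 1) ≤ m) :
    run m a (n + 1) * run m a (n + 1) * sg m (a + n) =
      sg m a * (run m a (n + 1) * run m a (n + 1)) := by
  have h1 : run m a (n + 1) * run m a n = run m (a + 1) n * run m a (n + 1) :=
    run_run' le_rfl hn
  have h2 : run m a (n + 1) = run m a n * sg m (a + n) := rfl
  have h3 : run m a (n + 1) = sg m a * run m (a + 1) n := run_succ_left'
  have h4 : run m a (n + 1) * run m a (n + 1) =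
      run m (a + 1) n * run m a (n + 1) * sg m (a + n) := by
    nth_rewrite 2 [h2]
    rw [← mul_assoc, h1]
  calc run m a (n + 1) * run m a (n + 1) * sg m (a + n)
      = (sg m a * run m (a + 1) n) * run m a (n + 1) * sg m (a + n) := by rw [← h3]
    _ = sg m a * (run m (a + 1) n * run m a (n + 1) * sg m (a + n)) := by
        simp only [mul_assoc]
    _ = sg m a * (run m a (n + 1) * run m a (n + 1)) := by rw [h4]

private theorem run_pow_shift' {n i k : ℕ} (h : i + k ≤ n) :
    run (n + 1) 0 (n + 1) ^ k * sg (n + 1) i = sg (n + 1) (i + k) * run (n + 1) 0 (n + 1) ^ k := by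
  induction k with
  | zero => simp
  | succ k ih =>
    rw [pow_succ', mul_assoc, ih (by omega), ← mul_assoc,
      run_shift (show 0 ≤ i + k by omega) (by omega) (by omega), mul_assoc, ← add_assoc]

/-- PROOF. Let `δ = run m 0 m`, `m = n + 1`. `δ^(m+1) σ_i`: by `run_shift` `δ^(m-1-i) σ_i =
σ_{m-1} δ^(m-1-i)`, by `run_sq` `δ² σ_{m-1} = σ_0 δ²`, again by `run_shift`
`δ^i σ_0 = σ_i δ^i`. Total exponent `(m - 1 - i) + 2 + i = m + 1`. -/
theorem twist_comm {m : ℕ} (i : Fin m) :
    twist m 0 (m + 1) * sigma i = sigma i * twist m 0 (m + 1) := by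
  obtain ⟨i, hi⟩ := i
  obtain ⟨n, rfl⟩ : ∃ n, m = n + 1 := ⟨m - 1, by omega⟩
  have h0 : sigma (⟨i, hi⟩ : Fin (n + 1)) = sg (n + 1) i := by
    rw [sg, dif_pos hi]
  have h1 : twist (n + 1) 0 (n + 1 + 1) = run (n + 1) 0 (n + 1) ^ (n + 2) := rfl
  have h2 : n + 2 = i + 2 + (n - i) := by omega
  have h3 := run_pow_shift' (n := n) (i := i) (k := n - i) (by omega)
  have h4 := run_sq (m := n + 1) (a := 0) (n := n) (by omega)
  have h5 := run_pow_shift' (n := n) (i := 0) (k := i) (by omega)
  rw [show i + (n - i) = n by omega] at h3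
  rw [zero_add] at h4 h5
  rw [h0, h1, h2, pow_add, pow_add, mul_assoc, h3, ← mul_assoc,
    mul_assoc (run (n + 1) 0 (n + 1) ^ i), pow_two, h4, ← mul_assoc, h5]
  simp only [mul_assoc]

/-- PROOF. `braid_induction`. -/
theorem twist_central {m : ℕ} (g : BraidGroup m) :
    twist m 0 (m + 1) * g = g * twist m 0 (m + 1) := by
  have key : Commute (twist m 0 (m + 1)) g := by
    induction g using braid_induction with
    | h1 => exact Commute.one_right _
    | hm g i ih => exact ih.mul_right (twist_comm i)
    | hi g i ih => exact ih.mul_right (Commute.inv_right (twist_comm i))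
  exact key

/-! ### Words -/

section hur

variable {M : Type u} [Monoid M] {m : ℕ} (e : BraidGroup m → M)

/-- The image of a word. -/
def im (l : List (BraidGroup m)) : M := (l.map e).prod

/-- Conjugate all letters. -/
def cj (g : BraidGroup m) (l : List (BraidGroup m)) : List (BraidGroup m) :=
  l.map fun x => g * x * g⁻¹

private theorem Hur_cons (y : BraidGroup m) (r : List (BraidGroup m)) :
    im e (y :: r) = e y * im e r := by
  unfold im
  rw [List.map_cons, List.prod_cons]

private theorem Hur_append (l r : List (BraidGroup m)) :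
    im e (l ++ r) = im e l * im e r := by
  unfold im
  rw [List.map_append, List.prod_append]

omit [Monoid M] in
private theorem Hur_cj_cons (g y : BraidGroup m) (r : List (BraidGroup m)) :
    cj g (y :: r) = (g * y * g⁻¹) :: cj g r := rfl

private theorem Hur_cj_append (g : BraidGroup m) (l r : List (BraidGroup m)) :
    cj g (l ++ r) = cj g l ++ cj g r := by
  unfold cj
  rw [List.map_append]

private theorem Hur_cj_prod (g : BraidGroup m) (l : List (BraidGroup m)) :
    (cj g l).prod = g * l.prod * g⁻¹ := by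
  induction l with
  | nil =>
    change (1 : BraidGroup m) = g * 1 * g⁻¹
    group
  | cons y r ih =>
    change (g * y * g⁻¹) * (cj g r).prod = g * (y :: r).prod * g⁻¹
    rw [ih, List.prod_cons]
    group

private theorem Hur_cj_cj (g h : BraidGroup m) (l : List (BraidGroup m)) :
    cj g (cj h l) = cj (g * h) l := by
  unfold cj
  rw [List.map_map]
  refine List.map_congr_left fun x _ => ?_
  change g * (h * x * h⁻¹) * g⁻¹ = g * h * x * (g * h)⁻¹
  group

private theorem Hur_cj_one (l : List (BraidGroup m)) : cj 1 l = l := by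
  unfold cj
  conv_rhs => rw [← List.map_id l]
  refine List.map_congr_left fun x _ => ?_
  change 1 * x * 1⁻¹ = x
  group

private theorem Hur_cj_lt {g : BraidGroup m} {l : List (BraidGroup m)} (hl : ∀ y ∈ l, Lt y) :
    ∀ y ∈ cj g l, Lt y := by
  intro y hy
  unfold cj at hy
  rw [List.mem_map] at hy
  obtain ⟨x, hx, rfl⟩ := hy
  exact (hl x hx).conj g

private theorem Hur_mem_std (i : Fin m) : sigma i ∈ stdL m := by
  unfold stdL
  rw [List.mem_flatten]
  refine ⟨(List.finRange m).map sigma, ?_, ?_⟩
  · rw [List.mem_replicate]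
    exact ⟨Nat.succ_ne_zero m, rfl⟩
  · exact List.mem_map.2 ⟨i, List.mem_finRange i, rfl⟩

private theorem Hur_std_lt : ∀ y ∈ stdL m, Lt y := by
  intro y hy
  unfold stdL at hy
  rw [List.mem_flatten] at hy
  obtain ⟨l, hl, hyl⟩ := hy
  rw [List.mem_replicate] at hl
  rw [hl.2, List.mem_map] at hyl
  obtain ⟨i, _, rfl⟩ := hyl
  exact Lt.sigma i

private theorem Hur_cj_central (h : BraidGroup m) (l : List (BraidGroup m))
    (hc : ∀ g, l.prod * g = g * l.prod) :
    ∀ g, (cj h l).prod * g = g * (cj h l).prod := by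
  intro g
  have h1 : (cj h l).prod = l.prod := by
    rw [Hur_cj_prod, ← hc h, mul_inv_cancel_right]
  rw [h1]
  exact hc g

private theorem Hur_std_central (h : BraidGroup m) :
    ∀ g, (cj h (stdL m)).prod * g = g * (cj h (stdL m)).prod := by
  refine Hur_cj_central h _ fun g => ?_
  rw [stdL_prod]
  exact twist_central g

private theorem Hur_prod_swap (a c : List (BraidGroup m))
    (hc : ∀ g, (a ++ c).prod * g = g * (a ++ c).prod) : (c ++ a).prod = (a ++ c).prod := by
  have h1 := hc a.prod
  rw [List.prod_append] at h1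
  rw [List.prod_append, List.prod_append]
  have h2 : a.prod * (c.prod * a.prod) = a.prod * (a.prod * c.prod) := by
    rw [← mul_assoc]
    exact h1
  exact mul_left_cancel h2

variable (he : ∀ x y, Lt x → Lt y → e x * e y = e (x * y * x⁻¹) * e x)

include he

/-- PROOF. Induction on `l`, from the left: `e y * im r * e x = e y * e (π x π⁻¹) * im r`. -/
theorem im_mul_e (l : List (BraidGroup m)) (hl : ∀ x ∈ l, Lt x) (x : BraidGroup m) (hx : Lt x) :
    im e l * e x = e (l.prod * x * l.prod⁻¹) * im e l := by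
  induction l with
  | nil =>
    change 1 * e x = e (1 * x * 1⁻¹) * 1
    rw [one_mul, mul_one, one_mul, inv_one, mul_one]
  | cons y r ih =>
    have ih' := ih (fun z hz => hl z (List.mem_cons_of_mem _ hz))
    have hy : Lt y := hl y List.mem_cons_self
    have hcl : Lt (r.prod * x * r.prod⁻¹) := hx.conj _
    have e1 : y * (r.prod * x * r.prod⁻¹) * y⁻¹ =
        (y :: r).prod * x * (y :: r).prod⁻¹ := by
      rw [List.prod_cons]
      group
    rw [Hur_cons, mul_assoc, ih', ← mul_assoc, he y _ hy hcl, mul_assoc, e1]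

/-- PROOF. Induction on `l`. -/
theorem e_mul_im (l : List (BraidGroup m)) (hl : ∀ x ∈ l, Lt x) (x : BraidGroup m) (hx : Lt x) :
    e x * im e l = im e (cj x l) * e x := by
  induction l with
  | nil =>
    change e x * 1 = 1 * e x
    rw [one_mul, mul_one]
  | cons y r ih =>
    have ih' := ih (fun z hz => hl z (List.mem_cons_of_mem _ hz))
    have hy : Lt y := hl y List.mem_cons_self
    rw [Hur_cons, Hur_cj_cons, Hur_cons, ← mul_assoc, he x y hx hy, mul_assoc (e _) (e x), ih',
      ← mul_assoc]

omit [Monoid M] he in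
private theorem Hur_fix {x : BraidGroup m} {r : List (BraidGroup m)}
    (hc : ∀ g, (x :: r).prod * g = g * (x :: r).prod) : r.prod * x = x * r.prod := by
  have h1 := hc x
  rw [List.prod_cons, mul_assoc] at h1
  exact mul_left_cancel h1

/-- Rotation. PROOF. `im_mul_e` for `r`, `x`: `r.prod * x * r.prod⁻¹ = x`, because `x * r.prod`
is central. -/
theorem im_rot (x : BraidGroup m) (r : List (BraidGroup m)) (hl : ∀ y ∈ x :: r, Lt y)
    (hc : ∀ g, (x :: r).prod * g = g * (x :: r).prod) : im e (x :: r) = im e r * e x := by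
  have hx : Lt x := hl x List.mem_cons_self
  have hr : ∀ y ∈ r, Lt y := fun z hz => hl z (List.mem_cons_of_mem _ hz)
  rw [im_mul_e e he r hr x hx, Hur_fix hc, mul_inv_cancel_right, Hur_cons]

/-- PROOF. `im e (x :: r) = e x * im e r`, by `e_mul_im` it is `im e (cj x r) * e x`. By `im_mul_e`
for `cj x r` (product `x * r.prod * x⁻¹ = (x * r.prod) * x⁻¹`, central times `x⁻¹`, so its
conjugation fixes `x`) it is `e x * im e (cj x r) = im e (cj x (x :: r))`. -/
theorem im_cj_head (x : BraidGroup m) (r : List (BraidGroup m)) (hl : ∀ y ∈ x :: r, Lt y)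
    (hc : ∀ g, (x :: r).prod * g = g * (x :: r).prod) :
    im e (cj x (x :: r)) = im e (x :: r) := by
  have hx : Lt x := hl x List.mem_cons_self
  have hr : ∀ y ∈ r, Lt y := fun z hz => hl z (List.mem_cons_of_mem _ hz)
  have h1 := im_mul_e e he (cj x r) (Hur_cj_lt hr) x hx
  have h2 : (cj x r).prod = r.prod := by
    rw [Hur_cj_prod, ← Hur_fix hc, mul_inv_cancel_right]
  rw [h2, Hur_fix hc, mul_inv_cancel_right] at h1
  rw [Hur_cj_cons, mul_inv_cancel_right, Hur_cons, Hur_cons, ← h1, e_mul_im e he r hr x hx]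

private theorem Hur_rot (a c : List (BraidGroup m)) (hl : ∀ y ∈ a ++ c, Lt y)
    (hc : ∀ g, (a ++ c).prod * g = g * (a ++ c).prod) : im e (a ++ c) = im e (c ++ a) := by
  induction a generalizing c with
  | nil => rw [List.nil_append, List.append_nil]
  | cons y a ih =>
    have h1 : im e (y :: (a ++ c)) = im e (a ++ c) * e y := im_rot e he y (a ++ c) hl hc
    have h2 : im e (a ++ c) * e y = im e (a ++ (c ++ [y])) := by
      rw [← List.append_assoc, Hur_append e (a ++ c) [y], Hur_cons]
      change _ = im e (a ++ c) * (e y * 1)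
      rw [mul_one]
    have h3 : (a ++ (c ++ [y])).prod = (y :: a ++ c).prod := by
      rw [← List.append_assoc]
      exact Hur_prod_swap [y] (a ++ c) hc
    have h4 := ih (c ++ [y]) (by
      intro z hz
      apply hl
      rw [List.mem_append, List.mem_append, List.mem_singleton] at hz
      rw [List.mem_append, List.mem_cons]
      tauto) (by
      rw [h3]
      exact hc)
    change im e (y :: (a ++ c)) = _
    rw [h1, h2, h4, List.append_assoc]
    rfl

/-- PROOF. Write `l = a ++ x :: b` (`List.append_of_mem`). By `im_rot` repeated (induction on `a`)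
`im (a ++ x :: b) = im (x :: b ++ a)`, for conjugated words too; the rotated words have the same
(central) product: `im_rot` for groups. Then `im_cj_head`. -/
theorem im_cj_mem (l : List (BraidGroup m)) (hl : ∀ y ∈ l, Lt y)
    (hc : ∀ g, l.prod * g = g * l.prod) (x : BraidGroup m) (hx : x ∈ l) :
    im e (cj x l) = im e l := by
  obtain ⟨a, b, rfl⟩ := List.append_of_mem hx
  have h1 := Hur_rot e he a (x :: b) hl hc
  have h2 := Hur_rot e he (cj x a) (cj x (x :: b)) (by
    rw [← Hur_cj_append]
    exact Hur_cj_lt hl) (by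
    rw [← Hur_cj_append]
    exact Hur_cj_central x _ hc)
  rw [Hur_cj_append, h2, h1, ← Hur_cj_append]
  refine im_cj_head e he x (b ++ a) ?_ ?_
  · intro y hy
    apply hl
    rw [List.mem_cons, List.mem_append] at hy
    rw [List.mem_append, List.mem_cons]
    tauto
  · have h3 : (x :: (b ++ a)).prod = (a ++ x :: b).prod := Hur_prod_swap a (x :: b) hc
    rw [h3]
    exact hc

/-- The image of the standard word is invariant under conjugation.
PROOF. `braid_induction`. For `g * sigma i`: `cj (g * sigma i) (stdL m) = cj x (cj g (stdL m))`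
with `x = g * sigma i * g⁻¹ ∈ cj g (stdL m)`; `im_cj_mem`. For `g * (sigma i)⁻¹`: put
`l = cj (g * (sigma i)⁻¹) (stdL m)` and `x = g * sigma i * g⁻¹`; `x ∈ l` (it is the conjugate of
`sigma i`), `cj x l = cj g (stdL m)`; `im_cj_mem` for `l`, `x`. The products are central
(`stdL_prod`, `twist_central`). `sigma i ∈ stdL m`. -/
theorem im_cj_std (g : BraidGroup m) : im e (cj g (stdL m)) = im e (stdL m) := by
  induction g using braid_induction with
  | h1 => rw [Hur_cj_one]
  | hm g i ih =>
    have h1 : cj (g * sigma i) (stdL m) = cj (g * sigma i * g⁻¹) (cj g (stdL m)) := by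
      rw [Hur_cj_cj]
      congr 1
      group
    rw [h1, im_cj_mem e he (cj g (stdL m)) (Hur_cj_lt Hur_std_lt) (Hur_std_central g)
      (g * sigma i * g⁻¹) (List.mem_map.2 ⟨sigma i, Hur_mem_std i, rfl⟩), ih]
  | hi g i ih =>
    have h1 : cj (g * sigma i * g⁻¹) (cj (g * (sigma i)⁻¹) (stdL m)) = cj g (stdL m) := by
      rw [Hur_cj_cj]
      congr 1
      group
    have h2 : g * sigma i * g⁻¹ ∈ cj (g * (sigma i)⁻¹) (stdL m) := by
      refine List.mem_map.2 ⟨sigma i, Hur_mem_std i, ?_⟩
      group
    rw [← im_cj_mem e he (cj (g * (sigma i)⁻¹) (stdL m)) (Hur_cj_lt Hur_std_lt)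
      (Hur_std_central _) (g * sigma i * g⁻¹) h2, h1, ih]

/-- PROOF. `x = g σ_i g⁻¹ ∈ cj g (stdL m)`; write this list as `a ++ x :: b`; `r = im (b ++ a)`;
`im_rot`, `im_cj_std`. -/
theorem e_dvd (x : BraidGroup m) (hx : Lt x) :
    ∃ r, e x * r = im e (stdL m) ∧ r * e x = im e (stdL m) := by
  obtain ⟨g, i, rfl⟩ := hx
  have hmem : g * sigma i * g⁻¹ ∈ cj g (stdL m) := List.mem_map.2 ⟨sigma i, Hur_mem_std i, rfl⟩
  obtain ⟨a, b, hab⟩ := List.append_of_mem hmem
  have hl : ∀ y ∈ a ++ (g * sigma i * g⁻¹) :: b, Lt y := by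
    rw [← hab]
    exact Hur_cj_lt Hur_std_lt
  have hc : ∀ h, (a ++ (g * sigma i * g⁻¹) :: b).prod * h =
      h * (a ++ (g * sigma i * g⁻¹) :: b).prod := by
    rw [← hab]
    exact Hur_std_central g
  have h1 := Hur_rot e he a ((g * sigma i * g⁻¹) :: b) hl hc
  rw [← hab, im_cj_std e he g] at h1
  have h2 : im e ((g * sigma i * g⁻¹) :: (b ++ a)) = im e (b ++ a) * e (g * sigma i * g⁻¹) := by
    refine im_rot e he _ (b ++ a) ?_ ?_
    · intro y hy
      apply hl
      rw [List.mem_cons, List.mem_append] at hy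
      rw [List.mem_append, List.mem_cons]
      tauto
    · have h3 : ((g * sigma i * g⁻¹) :: (b ++ a)).prod =
          (a ++ (g * sigma i * g⁻¹) :: b).prod :=
        Hur_prod_swap a ((g * sigma i * g⁻¹) :: b) hc
      rw [h3]
      exact hc
  refine ⟨im e (b ++ a), ?_, ?_⟩
  · rw [← Hur_cons, h1]
    rfl
  · rw [← h2, h1]
    rfl

/-- PROOF. `im_mul_e`, `stdL_prod`, `twist_central`. -/
theorem std_comm (x : BraidGroup m) (hx : Lt x) :
    im e (stdL m) * e x = e x * im e (stdL m) := by
  rw [im_mul_e e he (stdL m) Hur_std_lt x hx, stdL_prod, twist_central, mul_inv_cancel_right]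

/-- The relation that defines the localisation at `Z`: `(n, q)` stands for `Z ^ (-n) * q`. -/
def lrel (Z : M) (a b : ℕ × M) : Prop := ∃ k, Z ^ (k + b.1) * a.2 = Z ^ (k + a.1) * b.2

omit he in
/-- PROOF. `trans`: from `Z ^ (k + b.1) a.2 = Z ^ (k + a.1) b.2` and
`Z ^ (l + c.1) b.2 = Z ^ (l + b.1) c.2`; take `k + l + b.1`. -/
theorem lrel_equiv {M : Type u} [Monoid M] (Z : M) : Equivalence (lrel Z) := by
  refine ⟨fun a => ⟨0, rfl⟩, ?_, ?_⟩
  · rintro a b ⟨k, hk⟩
    exact ⟨k, hk.symm⟩
  · rintro a b c ⟨k, hk⟩ ⟨l, hl⟩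
    refine ⟨k + l + b.1, ?_⟩
    calc Z ^ (k + l + b.1 + c.1) * a.2 = Z ^ (l + c.1) * (Z ^ (k + b.1) * a.2) := by
          rw [← mul_assoc, ← pow_add]
          congr 2
          ring
      _ = Z ^ (k + a.1) * (Z ^ (l + c.1) * b.2) := by
          rw [hk, ← mul_assoc, ← mul_assoc, ← pow_add, ← pow_add]
          congr 2
          ring
      _ = Z ^ (k + l + b.1 + a.1) * c.2 := by
          rw [hl, ← mul_assoc, ← pow_add]
          congr 2
          ring

omit he in
private theorem hurwitz_std_mem {x : BraidGroup m} (h : x ∈ stdL m) : Lt x := by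
  rw [stdL, List.mem_flatten] at h
  obtain ⟨l, hl, hx⟩ := h
  rw [List.eq_of_mem_replicate hl, List.mem_map] at hx
  obtain ⟨i, -, rfl⟩ := hx
  exact Lt.sigma i

/-- a letter acts by a permutation -/
private theorem hurwitz_act (x : BraidGroup m) (hx : Lt x) :
    ∃ p : Equiv.Perm (Quotient (⟨lrel (im e (stdL m)), lrel_equiv _⟩ : Setoid (ℕ × M))),
      ∀ a : ℕ × M, p (Quotient.mk _ a) = Quotient.mk _ (a.1, e x * a.2) := by
  obtain ⟨r, h1, h2⟩ := e_dvd e he x hx
  set Z := im e (stdL m) with hZ
  have hc : Commute Z (e x) := std_comm e he x hx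
  have hr : Commute Z r := by
    change Z * r = r * Z
    calc Z * r = r * e x * r := by rw [h2]
      _ = r * Z := by rw [mul_assoc, h1]
  refine ⟨⟨Quotient.map (fun a : ℕ × M => (a.1, e x * a.2)) ?_,
    Quotient.map (fun a : ℕ × M => (a.1 + 1, r * a.2)) ?_, ?_, ?_⟩, fun a => rfl⟩
  · rintro a b ⟨k, hk⟩
    refine ⟨k, ?_⟩
    change Z ^ (k + b.1) * (e x * a.2) = Z ^ (k + a.1) * (e x * b.2)
    rw [← mul_assoc, (hc.pow_left _).eq, mul_assoc, hk, ← mul_assoc, ← (hc.pow_left _).eq,
      mul_assoc]
  · rintro a b ⟨k, hk⟩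
    refine ⟨k, ?_⟩
    change Z ^ (k + (b.1 + 1)) * (r * a.2) = Z ^ (k + (a.1 + 1)) * (r * b.2)
    have e1 : ∀ n q, Z ^ (k + (n + 1)) * (r * q) = Z * r * (Z ^ (k + n) * q) := by
      intro n q
      rw [← mul_assoc, ← mul_assoc, mul_assoc Z r, ← (hr.pow_left _).eq, ← mul_assoc, ← pow_succ']
      rfl
    rw [e1, e1, hk]
  · intro y
    induction y using Quotient.inductionOn with
    | h a =>
      refine Quotient.sound ⟨0, ?_⟩
      change Z ^ (0 + a.1) * (r * (e x * a.2)) = Z ^ (0 + (a.1 + 1)) * a.2
      rw [← mul_assoc r, h2, ← mul_assoc, ← pow_succ]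
      rfl
  · intro y
    induction y using Quotient.inductionOn with
    | h a =>
      refine Quotient.sound ⟨0, ?_⟩
      change Z ^ (0 + a.1) * (e x * (r * a.2)) = Z ^ (0 + (a.1 + 1)) * a.2
      rw [← mul_assoc (e x), h1, ← mul_assoc, ← pow_succ]
      rfl

/-- **The Hurwitz theorem.** PROOF. `Y = Quot`ient of `ℕ × M` by `lrel Z`. A letter `x` acts on `Y`
by `(n, q) ↦ (n, e x * q)`, this is a permutation with inverse `(n, q) ↦ (n + 1, r * q)`, `r` from
`e_dvd` (`r` commutes with `Z` because `Z = r * e x = e x * r`, so `Z r = r e x r = r Z`). Call it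
`act x`. The hypothesis gives `act x * act y = act (x y x⁻¹) * act x`, hence
`act x * act y * (act x)⁻¹ = act (x y x⁻¹)`. The `act (sigma i)` satisfy the Artin relations:
`act x act y act x = act x act (y x y⁻¹) act y = act (x y x y⁻¹ x⁻¹) act x act y = act y act x act y`
for `x = σ_i`, `y = σ_{i+1}`, and for commuting generators `x y x⁻¹ = y`. So there is
`φ : BraidGroup m →* Perm Y`, `φ (sigma i) = act (sigma i)` (`braidLift`). By `braid_induction` on
`g`: `act (g y g⁻¹) = φ g * act y * (φ g)⁻¹` for all letters `y`. So `act x = φ x` for all letters,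
and for a word `l`: `(l.map act).prod = φ l.prod`. Apply to the class of `(0, 1)`: it is the class of
`(0, im e l)`. So `(0, im e l)` and `(0, im e (stdL m))` are related. -/
theorem hurwitz (l : List (BraidGroup m)) (hl : ∀ x ∈ l, Lt x)
    (h : l.prod = twist m 0 (m + 1)) :
    ∃ k : ℕ, im e (stdL m) ^ k * im e l = im e (stdL m) ^ k * im e (stdL m) := by
  set S : Setoid (ℕ × M) := ⟨lrel (im e (stdL m)), lrel_equiv _⟩ with hS
  choose! act hact using hurwitz_act e he
  have hmul : ∀ x y, Lt x → Lt y → act x * act y = act (x * y * x⁻¹) * act x := by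
    intro x y hx hy
    refine Equiv.ext fun z => ?_
    induction z using Quotient.inductionOn with
    | h a =>
      rw [Equiv.Perm.mul_apply, Equiv.Perm.mul_apply, hact y hy, hact x hx, hact x hx,
        hact _ (hy.conj x)]
      change Quotient.mk S (a.1, e x * (e y * a.2)) =
        Quotient.mk S (a.1, e (x * y * x⁻¹) * (e x * a.2))
      rw [← mul_assoc, ← mul_assoc, he x y hx hy]
  have h1 : ∀ i j : Fin m, i.val + 1 = j.val →
      act (sigma i) * act (sigma j) * act (sigma i) =
        act (sigma j) * act (sigma i) * act (sigma j) := by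
    intro i j hij
    have hb := artin_braid i j hij
    have hx : Lt (sigma i) := Lt.sigma i
    have hy : Lt (sigma j) := Lt.sigma j
    have h3 : sigma i * (sigma j * sigma i * (sigma j)⁻¹) * (sigma i)⁻¹ = sigma j := by
      calc sigma i * (sigma j * sigma i * (sigma j)⁻¹) * (sigma i)⁻¹
          = sigma i * sigma j * sigma i * (sigma j)⁻¹ * (sigma i)⁻¹ := by group
        _ = sigma j := by rw [hb]; group
    calc act (sigma i) * act (sigma j) * act (sigma i)
        = act (sigma i) * act (sigma j * sigma i * (sigma j)⁻¹) * act (sigma j) := by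
          rw [mul_assoc, hmul _ _ hy hx, ← mul_assoc]
      _ = act (sigma j) * act (sigma i) * act (sigma j) := by
          rw [hmul _ _ hx (hx.conj _), h3]
  have h2 : ∀ i j : Fin m, i.val + 2 ≤ j.val →
      act (sigma i) * act (sigma j) = act (sigma j) * act (sigma i) := by
    intro i j hij
    have hb := artin_comm i j hij
    rw [hmul _ _ (Lt.sigma i) (Lt.sigma j), hb, mul_inv_cancel_right]
  set φ := braidLift (fun i => act (sigma i)) h1 h2 with hφ
  have hφs : ∀ i, φ (sigma i) = act (sigma i) := fun i => braidLift_sigma _ h1 h2 i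
  have hconj : ∀ x y, Lt x → Lt y → act (x * y * x⁻¹) = act x * act y * (act x)⁻¹ := by
    intro x y hx hy
    rw [hmul x y hx hy, mul_inv_cancel_right]
  have hg : ∀ g : BraidGroup m, ∀ y, Lt y → act (g * y * g⁻¹) = φ g * act y * (φ g)⁻¹ := by
    intro g
    induction g using braid_induction with
    | h1 => intro y hy; simp
    | hm g i ih =>
      intro y hy
      rw [map_mul, hφs, show g * sigma i * y * (g * sigma i)⁻¹ =
        g * (sigma i * y * (sigma i)⁻¹) * g⁻¹ by group, ih _ (hy.conj _),
        hconj _ _ (Lt.sigma i) hy]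
      group
    | hi g i ih =>
      intro y hy
      have hy' : Lt ((sigma i)⁻¹ * y * sigma i) := by
        have := hy.conj (sigma i)⁻¹
        rwa [inv_inv] at this
      have h3 := hconj _ _ (Lt.sigma i) hy'
      rw [show sigma i * ((sigma i)⁻¹ * y * sigma i) * (sigma i)⁻¹ = y by group] at h3
      rw [map_mul, map_inv, hφs, show g * (sigma i)⁻¹ * y * (g * (sigma i)⁻¹)⁻¹ =
        g * ((sigma i)⁻¹ * y * sigma i) * g⁻¹ by group, ih _ hy', h3]
      group
  have hlet : ∀ x, Lt x → act x = φ x := by
    rintro x ⟨g, i, rfl⟩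
    rw [hg g _ (Lt.sigma i), map_mul, map_mul, map_inv, hφs]
  have hword : ∀ w : List (BraidGroup m), (∀ x ∈ w, Lt x) → ∀ a : ℕ × M,
      φ w.prod (Quotient.mk S a) = Quotient.mk S (a.1, im e w * a.2) := by
    intro w
    induction w with
    | nil =>
      intro _ a
      rw [List.prod_nil, map_one]
      change Quotient.mk S a = Quotient.mk S (a.1, 1 * a.2)
      rw [one_mul]
    | cons x w ih =>
      intro hw a
      rw [List.prod_cons, map_mul, Equiv.Perm.mul_apply,
        ih (fun y hy => hw y (List.mem_cons_of_mem _ hy)), ← hlet x (hw x List.mem_cons_self)]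
      refine (hact x (hw x List.mem_cons_self) _).trans ?_
      change Quotient.mk S (a.1, e x * (im e w * a.2)) = Quotient.mk S (a.1, im e (x :: w) * a.2)
      rw [← mul_assoc]
      rfl
  have e1 := hword l hl (0, 1)
  have e2 := hword (stdL m) (fun x hx => hurwitz_std_mem hx) (0, 1)
  rw [stdL_prod, ← h, e1] at e2
  obtain ⟨k, hk⟩ := Quotient.exact e2
  refine ⟨k, ?_⟩
  have hk' : im e (stdL m) ^ (k + 0) * (im e l * 1) = im e (stdL m) ^ (k + 0) *
    (im e (stdL m) * 1) := hk
  simpa using hk'

end hur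

end Pool.Agent.Helper81.SBA
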