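import Pool.Agent.Helper81.SBA.Rp

/-!
# The index of the standard word

`d = m + 1 = 2 e` strands. The quadratic form of the standard word is `qf` on `ℝ ^ (d × m)`.
-/

set_option autoImplicit false

open Real Module

namespace Pool.Agent.Helper81.SBA

/-- The standard word of vectors. -/
def stdW (m : ℕ) : List (Fin m → ℝ) :=
  (List.replicate (m + 1) ((List.finRange m).map fun i => vb ℝ m i)).flatten

/-- The sign `1` for `j ≤ j'`, `-1` for `j > j'`. -/
def eps {n : ℕ} (j j' : Fin n) : ℝ := if j ≤ j' then 1 else -1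

/-- The bilinear form of the interactions `∑ eps (j, j') x_{j i} y_{j', i+1}`. -/
def itr (m : ℕ) (x y : Fin (m + 1) → Fin m → ℝ) : ℝ :=
  ∑ j, ∑ j', ∑ i : Fin m, ∑ i' : Fin m, if i.val + 1 = i'.val then eps j j' * x j i * y j' i' else 0

/-- The quadratic form. -/
def qf (m : ℕ) (x : Fin (m + 1) → Fin m → ℝ) : ℝ := ∑ j, ∑ i, x j i ^ 2 - itr m x x

/-! ### The model -/

section model

variable {V : Type} [AddCommGroup V] [Module ℝ V] {ω : V →ₗ[ℝ] V →ₗ[ℝ] ℝ} [Alt ω]

/-- pairs of linear maps as a map to the product -/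
private def model_cons {A : Type} [AddCommGroup A] [Module ℝ A] (Q R : QO ω)
    (f : A →ₗ[ℝ] Q.E) (g : A →ₗ[ℝ] R.E) : A →ₗ[ℝ] (Q.mul R).E := f.prod g

private theorem model_cons_L {A : Type} [AddCommGroup A] [Module ℝ A] (Q R : QO ω)
    (f : A →ₗ[ℝ] Q.E) (g : A →ₗ[ℝ] R.E) (x y : A) :
    (Q.mul R).L (model_cons Q R f g x) (model_cons Q R f g y) =
      Q.L (f x) (f y) + R.L (g x) (g y) - ω (Q.p (f x)) (R.p (g y)) := rfl

private theorem model_cons_p {A : Type} [AddCommGroup A] [Module ℝ A] (Q R : QO ω)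
    (f : A →ₗ[ℝ] Q.E) (g : A →ₗ[ℝ] R.E) (x : A) :
    (Q.mul R).p (model_cons Q R f g x) = Q.p (f x) + R.p (g x) := rfl

/-- Coordinates for a word given as a function.
PROOF. Induction on `n`, `List.ofFn_succ`, `Fin.sum_univ_succ`: the map for `n + 1` is
`x ↦ (x 0, f (Fin.tail x))`. -/
theorem model_word (n : ℕ) (w : Fin n → V) :
    ∃ f : (Fin n → ℝ) →ₗ[ℝ] (obj (ω := ω) (List.ofFn w)).E,
      (∀ x y, (obj (List.ofFn w)).L (f x) (f y) =
        ∑ i, x i * y i - ∑ i, ∑ j, if i < j then ω (w i) (w j) * x i * y j else 0) ∧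
      ∀ x, (obj (List.ofFn w)).p (f x) = ∑ i, x i • w i := by
  induction n with
  | zero =>
    refine ⟨0, fun x y => ?_, fun x => ?_⟩
    · simp
    · simp
  | succ n ih =>
    obtain ⟨f, h1, h2⟩ := ih fun i => w i.succ
    rw [List.ofFn_succ]
    let g : (Fin (n + 1) → ℝ) →ₗ[ℝ] (ltr (ω := ω) (w 0)).E := LinearMap.proj (0 : Fin (n + 1))
    have hg : ∀ x y, (ltr (ω := ω) (w 0)).L (g x) (g y) = x 0 * y 0 := fun _ _ => rfl
    have hg2 : ∀ x, (ltr (ω := ω) (w 0)).p (g x) = x 0 • w 0 := fun _ => rfl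
    refine ⟨model_cons (ltr (w 0)) (obj (List.ofFn fun i => w i.succ)) g
      (f ∘ₗ LinearMap.funLeft ℝ ℝ Fin.succ), fun x y => ?_, fun x => ?_⟩
    · refine (model_cons_L _ _ _ _ x y).trans ?_
      rw [hg, hg2, LinearMap.comp_apply, LinearMap.comp_apply, h1, h2,
        Fin.sum_univ_succ (fun i => x i * y i), Fin.sum_univ_succ (fun i => ∑ j, _)]
      simp only [Fin.sum_univ_succ (f := fun j => if _ < j then _ else (0 : ℝ)), lt_irrefl,
        Fin.succ_lt_succ_iff, Fin.succ_pos, Fin.not_lt_zero, if_true, if_false, zero_add,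
        map_sum, map_smul, LinearMap.smul_apply, smul_eq_mul, LinearMap.funLeft_apply]
      have e2 : ∑ j : Fin n, y j.succ * (x 0 * ω (w 0) (w j.succ)) =
          ∑ j : Fin n, ω (w 0) (w j.succ) * x 0 * y j.succ :=
        Finset.sum_congr rfl fun j _ => by ring
      rw [e2]
      ring
    · refine (model_cons_p _ _ _ _ x).trans ?_
      rw [hg2, LinearMap.comp_apply, h2, Fin.sum_univ_succ]
      rfl

/-- Coordinates for a power of an object.
PROOF. Induction on `n`, as for `model_word`. -/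
theorem model_pow (Q : QO ω) (n : ℕ) :
    ∃ f : (Fin n → Q.E) →ₗ[ℝ] (Q.pow n).E,
      (∀ x y, (Q.pow n).L (f x) (f y) =
        ∑ i, Q.L (x i) (y i) - ∑ i, ∑ j, if i < j then ω (Q.p (x i)) (Q.p (y j)) else 0) ∧
      ∀ x, (Q.pow n).p (f x) = ∑ i, Q.p (x i) := by
  induction n with
  | zero =>
    refine ⟨0, fun x y => ?_, fun x => ?_⟩
    · simp
    · simp
  | succ n ih =>
    obtain ⟨f, h1, h2⟩ := ih
    refine ⟨model_cons Q (Q.pow n) (LinearMap.proj (0 : Fin (n + 1)))
      (f ∘ₗ LinearMap.funLeft ℝ Q.E Fin.succ), fun x y => ?_, fun x => ?_⟩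
    · refine (model_cons_L _ _ _ _ x y).trans ?_
      rw [LinearMap.comp_apply, LinearMap.comp_apply, h1, h2,
        Fin.sum_univ_succ (fun i => Q.L (x i) (y i)), Fin.sum_univ_succ (fun i => ∑ j, _)]
      simp only [Fin.sum_univ_succ (f := fun j => if _ < j then _ else (0 : ℝ)), lt_irrefl,
        Fin.succ_lt_succ_iff, Fin.succ_pos, Fin.not_lt_zero, if_true, if_false, zero_add, map_sum,
        LinearMap.funLeft_apply, LinearMap.proj_apply]
      ring
    · refine (model_cons_p _ _ _ _ x).trans ?_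
      rw [LinearMap.comp_apply, h2, Fin.sum_univ_succ]
      rfl

/-- PROOF. Induction on `n`, `obj_append`. -/
theorem obj_replicate (w : List V) (n : ℕ) :
    Iso (obj (ω := ω) (List.replicate n w).flatten) ((obj w).pow n) := by
  induction n with
  | zero => exact Iso.refl _
  | succ n ih =>
    rw [List.replicate_succ, List.flatten_cons]
    exact (obj_append w _).trans (Iso.mul (Iso.refl _) ih)

private theorem finrank_std_word (w : List V) : finrank ℝ (obj (ω := ω) w).E = w.length := by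
  induction w with
  | nil =>
    change finrank ℝ PUnit = 0
    exact finrank_zero_of_subsingleton
  | cons v w ih =>
    have h := finrank_mul (ltr (ω := ω) v) (obj w)
    have h1 : finrank ℝ (ltr (ω := ω) v).E = 1 := Module.finrank_self ℝ
    rw [h1, ih] at h
    rw [List.length_cons, add_comm]
    exact h

end model

private theorem model_std_sum (m : ℕ) (a : Fin m → ℝ) :
    ∑ i : Fin m, a i • vb ℝ m i.val = a := by
  funext k
  rw [Finset.sum_apply, Finset.sum_eq_single k]
  · simp [vb]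
  · intro i _ hik
    have : ¬ k.val = i.val := fun h => hik (Fin.ext h.symm)
    simp [vb, this]
  · intro h
    exact absurd (Finset.mem_univ k) h

private theorem model_std_swap {n : ℕ} (G : Fin n → Fin n → ℝ) :
    ∑ j, ∑ j', eps j j' * G j j' =
      ∑ j, G j j + ∑ j, ∑ j', if j < j' then G j j' - G j' j else 0 := by
  have h1 : ∀ j j' : Fin n, eps j j' * G j j' = (if j = j' then G j j' else 0) +
      ((if j < j' then G j j' else 0) - (if j' < j then G j j' else 0)) := by
    intro j j'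
    unfold eps
    rcases lt_trichotomy j j' with h | h | h
    · rw [if_pos h.le, if_neg h.ne, if_pos h, if_neg (lt_asymm h)]
      ring
    · subst h
      rw [if_pos le_rfl, if_pos rfl, if_neg (lt_irrefl _)]
      ring
    · rw [if_neg (not_le.2 h), if_neg h.ne', if_neg (lt_asymm h), if_pos h]
      ring
  have h2 : ∑ j, ∑ j', (if j' < j then G j j' else 0) =
      ∑ j, ∑ j', if j < j' then G j' j else 0 := Finset.sum_comm
  simp only [h1, Finset.sum_add_distrib, Finset.sum_sub_distrib]
  rw [h2]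
  have h3 : ∀ j : Fin n, ∑ j', (if j = j' then G j j' else 0) = G j j := by
    intro j
    rw [Finset.sum_ite_eq]
    simp
  simp only [h3]
  rw [← Finset.sum_sub_distrib]
  congr 1
  refine Finset.sum_congr rfl fun j _ => ?_
  rw [← Finset.sum_sub_distrib]
  refine Finset.sum_congr rfl fun j' _ => ?_
  split_ifs
  · rfl
  · ring

/-- PROOF. `obj_replicate`, `model_pow` for `Q = obj (v_0, ..., v_{m-1})` and `n = m + 1`, and
`model_word` (`(List.finRange m).map g = List.ofFn g`). For one block `Q.p (f a) = a` and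
`Q.L (f a) (f b) = ∑ a i b i - ∑ a i b (i+1)` (`om_vb`). So the value is
`∑_j (∑_i x_{ji}² - ∑_i x_{ji} x_{j,i+1}) - ∑_{j<j'} ω (x_j, x_j')`; expand `ω` (`om_apply`) and
rename `j, j'` in the second half: it is `qf`. -/
theorem model_std (m : ℕ) :
    ∃ f : (Fin (m + 1) → Fin m → ℝ) →ₗ[ℝ] (obj (ω := om ℝ m) (stdW m)).E,
      ∀ x, (obj (ω := om ℝ m) (stdW m)).L (f x) (f x) = qf m x := by
  obtain ⟨f1, h1L, h1p⟩ := model_word (ω := om ℝ m) m (fun i : Fin m => vb ℝ m i.val)
  obtain ⟨f2, h2L, -⟩ := model_pow (obj (ω := om ℝ m) (List.ofFn fun i : Fin m => vb ℝ m i.val))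
    (m + 1)
  obtain ⟨e, he, -, -⟩ := (obj_replicate (ω := om ℝ m)
    (List.ofFn fun i : Fin m => vb ℝ m i.val) (m + 1)).symm
  have hstd : stdW m = (List.replicate (m + 1) (List.ofFn fun i : Fin m => vb ℝ m i.val)).flatten := by
    have h : ∀ l : List (Fin m), List.map (fun i => vb ℝ m i) (do
        let a ← l
        pure (a : ℕ)) = l.map (fun i : Fin m => vb ℝ m i.val) := by
      intro l
      induction l with
      | nil => rfl
      | cons a l ih =>
        rw [List.map_cons, ← ih]
        rfl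
    unfold stdW
    rw [List.ofFn_eq_map, h]
  rw [hstd]
  refine ⟨e.toLinearMap ∘ₗ f2 ∘ₗ (f1.compLeft (Fin (m + 1))), fun x => ?_⟩
  have h0 : (e.toLinearMap ∘ₗ f2 ∘ₗ (f1.compLeft (Fin (m + 1)))) x =
      e (f2 (fun j => f1 (x j))) := rfl
  rw [h0, he, h2L]
  simp only [h1L, h1p, model_std_sum]
  unfold qf itr
  let G : Fin (m + 1) → Fin (m + 1) → ℝ := fun j j' =>
    ∑ i : Fin m, ∑ i' : Fin m, if i.val + 1 = i'.val then x j i * x j' i' else 0
  have hitr : ∑ j, ∑ j', ∑ i : Fin m, ∑ i' : Fin m,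
      (if i.val + 1 = i'.val then eps j j' * x j i * x j' i' else 0) =
      ∑ j, ∑ j', eps j j' * G j j' := by
    refine Finset.sum_congr rfl fun j _ => Finset.sum_congr rfl fun j' _ => ?_
    simp only [G, Finset.mul_sum]
    refine Finset.sum_congr rfl fun i _ => Finset.sum_congr rfl fun i' _ => ?_
    split_ifs
    · ring
    · ring
  rw [hitr, model_std_swap]
  have hA : ∀ j, (∑ i : Fin m, x j i * x j i - ∑ i : Fin m, ∑ i' : Fin m,
      if i < i' then om ℝ m (vb ℝ m i.val) (vb ℝ m i'.val) * x j i * x j i' else 0) =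
      ∑ i, x j i ^ 2 - G j j := by
    intro j
    simp only [G]
    congr 1
    · exact Finset.sum_congr rfl fun i _ => by ring
    · refine Finset.sum_congr rfl fun i _ => Finset.sum_congr rfl fun i' _ => ?_
      rw [om_vb i.2 i'.2]
      by_cases h : i.val + 1 = i'.val
      · have h' : i < i' := Fin.lt_def.2 (by omega)
        rw [if_pos h', if_pos h, if_pos h]
        ring
      · rw [if_neg h, if_neg h]
        by_cases h' : i < i'
        · have h'' : ¬ i'.val + 1 = i.val := by
            have := Fin.lt_def.1 h'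
            omega
          rw [if_pos h', if_neg h'']
          ring
        · rw [if_neg h']
  have hB : ∀ j j' : Fin (m + 1), om ℝ m (x j) (x j') = G j j' - G j' j := by
    intro j j'
    rw [om_apply]
    simp only [G, ← Finset.sum_sub_distrib]
    refine Finset.sum_congr rfl fun i _ => Finset.sum_congr rfl fun i' _ => ?_
    split_ifs
    · ring
    · ring
  simp only [hA, hB, Finset.sum_sub_distrib]
  ring

/-- PROOF. `obj` of a word of length `n` has dimension `n` (induction); `(stdW m).length`. -/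
theorem finrank_std (m : ℕ) :
    finrank ℝ (obj (ω := om ℝ m) (stdW m)).E = (m + 1) * m := by
  rw [finrank_std_word]
  simp [stdW]

/-! ### Eigenvectors. `m + 1 = 2 e`. -/

/-- `cos` or `sin`. -/
noncomputable def tr (s : Bool) (t : ℝ) : ℝ := if s then cos t else sin t

/-- The frequency `π (2b + 1) / d`. -/
noncomputable def th (m b : ℕ) : ℝ := π * (2 * b + 1) / (m + 1)

/-- The phase `(π - th) / 2`. -/
noncomputable def ph (m b : ℕ) : ℝ := (π - th m b) / 2

/-- The eigenvectors; `a` stands for the number `a + 1` in `1, ..., m`. -/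
noncomputable def evec (m b : ℕ) (s : Bool) (a : ℕ) : Fin (m + 1) → Fin m → ℝ := fun j i =>
  sin (π * (a + 1) * (i.val + 1) / (m + 1)) * tr s (th m b * j.val - (i.val + 1) * ph m b)

/-- The eigenvalues. -/
noncomputable def lam (m b a : ℕ) : ℝ := 1 - cos (π * (a + 1) / (m + 1)) / cos (ph m b)

private theorem st3_cos_pos {m : ℕ} (b : ℕ) (hb : 2 * b < m + 1) : 0 < cos (ph m b) := by
  have hpi := Real.pi_pos
  have hm : (0 : ℝ) < (m : ℝ) + 1 := by positivity
  have hb' : (2 : ℝ) * b + 1 ≤ (m : ℝ) + 1 := by exact_mod_cast hb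
  have h0 : 0 < th m b := by
    unfold th
    positivity
  have h1 : th m b ≤ π := by
    unfold th
    rw [div_le_iff₀ hm]
    nlinarith
  apply Real.cos_pos_of_mem_Ioo
  unfold ph
  constructor <;> linarith

private theorem st3_tr_pi (s : Bool) (x : ℝ) (b : ℕ) : tr s (x + π * (2 * b + 1)) = - tr s x := by
  have h : x + π * (2 * b + 1) = (x + π) + (b : ℤ) * (2 * π) := by
    push_cast
    ring
  unfold tr
  rw [h]
  cases s
  · simp [Real.sin_add_pi]
  · simp [Real.cos_add_pi]

private theorem st3_tel (s : Bool) (m b : ℕ) (x : ℝ) :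
    2 * cos (ph m b) * tr s x = tr s (x + ph m b) - tr s (x + th m b + ph m b) := by
  have h : x + th m b + ph m b = x - ph m b + π := by
    unfold ph
    ring
  rw [h]
  unfold tr
  cases s
  · simp only [Bool.false_eq_true, if_false]
    rw [Real.sin_add_pi, Real.sin_add, Real.sin_sub]
    ring
  · simp only [if_true]
    rw [Real.cos_add_pi, Real.cos_add, Real.cos_sub]
    ring

private theorem st3_sum (g : ℕ → ℝ) (j n : ℕ) :
    ∑ k ∈ Finset.range n, (if j ≤ k then (1 : ℝ) else -1) * (g k - g (k + 1)) =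
      if n ≤ j then g n - g 0 else 2 * g j - g 0 - g n := by
  induction n with
  | zero => simp
  | succ n ih =>
    rw [Finset.sum_range_succ, ih]
    rcases lt_trichotomy n j with h | h | h
    · rw [if_pos h.le, if_neg (not_le.2 h), if_pos (Nat.succ_le_of_lt h)]
      ring
    · subst h
      rw [if_pos le_rfl, if_pos le_rfl, if_neg (by omega)]
      ring
    · rw [if_neg (not_le.2 h), if_pos h.le, if_neg (by omega)]
      ring

private theorem st3_sum' (g : ℕ → ℝ) (j n : ℕ) :
    ∑ k ∈ Finset.range n, (if k ≤ j then (1 : ℝ) else -1) * (g k - g (k + 1)) =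
      if n ≤ j + 1 then g 0 - g n else g 0 - 2 * g (j + 1) + g n := by
  induction n with
  | zero => simp
  | succ n ih =>
    rw [Finset.sum_range_succ, ih]
    rcases lt_trichotomy n (j + 1) with h | h | h
    · rw [if_pos h.le, if_pos (by omega), if_pos (by omega)]
      ring
    · subst h
      rw [if_pos le_rfl, if_neg (by omega), if_neg (by omega)]
      ring
    · rw [if_neg (not_le.2 h), if_neg (by omega), if_neg (by omega)]
      ring

private theorem st3_g (m b : ℕ) (s : Bool) (c : ℝ) (k : ℕ) :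
    2 * cos (ph m b) * tr s (th m b * k + c) =
      tr s (th m b * k + c + ph m b) - tr s (th m b * ((k + 1 : ℕ) : ℝ) + c + ph m b) := by
  rw [st3_tel]
  congr 2
  push_cast
  ring

private theorem st3_end (m b : ℕ) (s : Bool) (c : ℝ) :
    tr s (th m b * ((m + 1 : ℕ) : ℝ) + c + ph m b) = - tr s (th m b * ((0 : ℕ) : ℝ) + c + ph m b) := by
  have hm : (m : ℝ) + 1 ≠ 0 := by positivity
  have h : th m b * ((m + 1 : ℕ) : ℝ) + c + ph m b =
      (th m b * ((0 : ℕ) : ℝ) + c + ph m b) + π * (2 * b + 1) := by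
    unfold th
    push_cast
    field_simp
    ring
  rw [h, st3_tr_pi]

/-- The sum over `j'` of `eps`. With `θ = th m b`, `d = m + 1`, `d θ = π (2b + 1)`:
`∑_{j'} eps (j, j') e^{i θ j'} = (2 / (1 - e^{i θ})) e^{i θ j} = e^{i (θ j + ph)} / cos ph`.
PROOF. Telescoping: multiply by `2 cos ph = 2 sin (θ / 2)`:
`2 sin (θ/2) tr s (θ j' + c)` is a difference; in complex form
`∑_{j' ≥ j} z^{j'} - ∑_{j' < j} z^{j'} = z^j ∑_{k<d} z^k` as `z^d = -1`. Real version: let
`F (j) = ∑_{j'} eps (j, j') tr s (θ j' + c)`. Or prove it for `c` real and both `s` at the same time by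
complex numbers (`exp (I * (θ j' + c))`, `Finset.range` geometric sums), then take real and
imaginary parts. -/
theorem eps_sum {m : ℕ} (b : ℕ) (hb : 2 * b < m + 1) (s : Bool) (c : ℝ) (j : Fin (m + 1)) :
    ∑ j', eps j j' * tr s (th m b * j'.val + c) =
      tr s (th m b * j.val + c + ph m b) / cos (ph m b) := by
  have hc := st3_cos_pos b hb
  rw [eq_div_iff hc.ne']
  have h1 : ∑ j', eps j j' * tr s (th m b * j'.val + c) =
      ∑ k ∈ Finset.range (m + 1), (if j.val ≤ k then (1 : ℝ) else -1) *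
        tr s (th m b * k + c) := by
    rw [← Fin.sum_univ_eq_sum_range
      (fun k => (if j.val ≤ k then (1 : ℝ) else -1) * tr s (th m b * k + c)) (m + 1)]
    rfl
  have h2 := st3_sum (fun k => tr s (th m b * k + c + ph m b)) j.val (m + 1)
  rw [if_neg (not_le.2 j.isLt)] at h2
  have h3 : 2 * cos (ph m b) * ∑ j', eps j j' * tr s (th m b * j'.val + c) =
      2 * tr s (th m b * j.val + c + ph m b) := by
    rw [h1, Finset.mul_sum]
    have h4 : ∀ k ∈ Finset.range (m + 1), 2 * cos (ph m b) *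
        ((if j.val ≤ k then (1 : ℝ) else -1) * tr s (th m b * k + c)) =
        (if j.val ≤ k then (1 : ℝ) else -1) * (tr s (th m b * k + c + ph m b) -
          tr s (th m b * ((k + 1 : ℕ) : ℝ) + c + ph m b)) := by
      intro k _
      rw [← st3_g]
      ring
    rw [Finset.sum_congr rfl h4, h2]
    have h5 := st3_end m b s c
    linarith
  linarith

/-- The same for the transposed matrix: `∑_{j'} eps (j', j) e^{i θ j'} = e^{i (θ j - ph)} / cos ph`.
PROOF. As `eps_sum` with the conjugate: `∑_{j' ≤ j} z^{j'} - ∑_{j' > j} z^{j'} = z^j ∑_{k<d} z^{-k}`. -/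
theorem eps_sum' {m : ℕ} (b : ℕ) (hb : 2 * b < m + 1) (s : Bool) (c : ℝ) (j : Fin (m + 1)) :
    ∑ j', eps j' j * tr s (th m b * j'.val + c) =
      tr s (th m b * j.val + c - ph m b) / cos (ph m b) := by
  have hc := st3_cos_pos b hb
  rw [eq_div_iff hc.ne']
  have h1 : ∑ j', eps j' j * tr s (th m b * j'.val + c) =
      ∑ k ∈ Finset.range (m + 1), (if k ≤ j.val then (1 : ℝ) else -1) *
        tr s (th m b * k + c) := by
    rw [← Fin.sum_univ_eq_sum_range
      (fun k => (if k ≤ j.val then (1 : ℝ) else -1) * tr s (th m b * k + c)) (m + 1)]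
    rfl
  have h2 := st3_sum' (fun k => tr s (th m b * k + c + ph m b)) j.val (m + 1)
  have h6 : tr s (th m b * ((j.val + 1 : ℕ) : ℝ) + c + ph m b) =
      - tr s (th m b * j.val + c - ph m b) := by
    have h7 : th m b * ((j.val + 1 : ℕ) : ℝ) + c + ph m b =
        (th m b * j.val + c - ph m b) + π * (2 * ((0 : ℕ) : ℝ) + 1) := by
      unfold ph
      push_cast
      ring
    rw [h7, st3_tr_pi]
  have h3 : 2 * cos (ph m b) * ∑ j', eps j' j * tr s (th m b * j'.val + c) =
      2 * tr s (th m b * j.val + c - ph m b) := by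
    rw [h1, Finset.mul_sum]
    have h4 : ∀ k ∈ Finset.range (m + 1), 2 * cos (ph m b) *
        ((if k ≤ j.val then (1 : ℝ) else -1) * tr s (th m b * k + c)) =
        (if k ≤ j.val then (1 : ℝ) else -1) * (tr s (th m b * k + c + ph m b) -
          tr s (th m b * ((k + 1 : ℕ) : ℝ) + c + ph m b)) := by
      intro k _
      rw [← st3_g]
      ring
    rw [Finset.sum_congr rfl h4, h2]
    have h5 := st3_end m b s c
    split_ifs with h
    · have h8 : m + 1 = j.val + 1 := by
        have := j.isLt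
        omega
      have h9 : tr s (th m b * ((m + 1 : ℕ) : ℝ) + c + ph m b) =
        - tr s (th m b * j.val + c - ph m b) := by
        have h10 : ((m + 1 : ℕ) : ℝ) = ((j.val + 1 : ℕ) : ℝ) := by exact_mod_cast h8
        rw [h10]
        exact h6
      linarith
    · linarith
  linarith

/-- PROOF. `ph = π (d - 2b - 1) / (2d)` is in `[0, π/2)`. -/
theorem cos_ph_pos {m : ℕ} (b : ℕ) (hb : 2 * b < m + 1) : 0 < cos (ph m b) :=
  st3_cos_pos b hb

private lemma itr_evec_right {m : ℕ} (b : ℕ) (hb : 2 * b < m + 1) (s : Bool) (a : ℕ)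
    (x : Fin (m + 1) → Fin m → ℝ) :
    itr m x (evec m b s a) = ∑ j, ∑ i : Fin m, x j i *
      (sin (π * (a + 1) * (i.val + 2) / (m + 1)) *
        (tr s (th m b * j.val - (i.val + 1) * ph m b) / cos (ph m b))) := by
  unfold itr
  refine Finset.sum_congr rfl fun j _ => ?_
  rw [Finset.sum_comm]
  refine Finset.sum_congr rfl fun i _ => ?_
  by_cases h : i.val + 1 < m
  · have h1 : ∀ j' : Fin (m + 1), (∑ i' : Fin m, if i.val + 1 = i'.val then
        eps j j' * x j i * evec m b s a j' i' else 0) =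
        eps j j' * x j i * evec m b s a j' ⟨i.val + 1, h⟩ := by
      intro j'
      rw [Finset.sum_eq_single (⟨i.val + 1, h⟩ : Fin m)]
      · simp
      · intro i' _ hne
        rw [if_neg]
        intro e
        exact hne (Fin.ext e.symm)
      · intro hn
        exact absurd (Finset.mem_univ _) hn
    rw [Finset.sum_congr rfl fun j' _ => h1 j']
    have h2 := eps_sum b hb s (-((i.val + 2 : ℝ) * ph m b)) j
    have e1 : th m b * j.val + -((i.val + 2 : ℝ) * ph m b) + ph m b =
        th m b * j.val - (i.val + 1) * ph m b := by ring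
    rw [e1] at h2
    rw [← h2, Finset.mul_sum, Finset.mul_sum]
    refine Finset.sum_congr rfl fun j' _ => ?_
    simp only [evec]
    have e2 : ((i.val + 1 : ℕ) : ℝ) + 1 = (i.val : ℝ) + 2 := by push_cast; ring
    rw [e2]
    have e3 : th m b * j'.val - ((i.val : ℝ) + 2) * ph m b =
        th m b * j'.val + -((i.val + 2 : ℝ) * ph m b) := by ring
    rw [e3]
    ring
  · have h1 : ∀ j' : Fin (m + 1), (∑ i' : Fin m, if i.val + 1 = i'.val then
        eps j j' * x j i * evec m b s a j' i' else 0) = 0 := by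
      intro j'
      refine Finset.sum_eq_zero fun i' _ => ?_
      rw [if_neg]
      intro e
      have := i'.isLt
      omega
    rw [Finset.sum_congr rfl fun j' _ => h1 j']
    have h2 : i.val + 1 = m := by have := i.isLt; omega
    have h3 : ((i.val : ℝ) + 2) = (m : ℝ) + 1 := by
      have h5 : ((i.val + 1 : ℕ) : ℝ) = (m : ℝ) := congrArg Nat.cast h2
      push_cast at h5
      linarith
    have h4 : π * (a + 1) * ((i.val : ℝ) + 2) / (m + 1) = ((a + 1 : ℕ) : ℝ) * π := by
      rw [h3]
      have : ((m : ℝ) + 1) ≠ 0 := by positivity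
      field_simp
      push_cast
      ring
    rw [h4, sin_nat_mul_pi]
    simp

private lemma itr_evec_left {m : ℕ} (b : ℕ) (hb : 2 * b < m + 1) (s : Bool) (a : ℕ)
    (x : Fin (m + 1) → Fin m → ℝ) :
    itr m (evec m b s a) x = ∑ j, ∑ i : Fin m, x j i *
      (sin (π * (a + 1) * i.val / (m + 1)) *
        (tr s (th m b * j.val - (i.val + 1) * ph m b) / cos (ph m b))) := by
  unfold itr
  rw [Finset.sum_comm]
  refine Finset.sum_congr rfl fun j _ => ?_
  have hsw : ∀ j' : Fin (m + 1), (∑ i' : Fin m, ∑ i : Fin m, if i'.val + 1 = i.val then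
      eps j' j * evec m b s a j' i' * x j i else 0) = ∑ i : Fin m, ∑ i' : Fin m,
      if i'.val + 1 = i.val then eps j' j * evec m b s a j' i' * x j i else 0 :=
    fun j' => Finset.sum_comm
  rw [Finset.sum_congr rfl fun j' _ => hsw j', Finset.sum_comm]
  refine Finset.sum_congr rfl fun i _ => ?_
  rcases Nat.eq_zero_or_pos i.val with h | h
  · have h1 : ∀ j' : Fin (m + 1), (∑ i' : Fin m, if i'.val + 1 = i.val then
        eps j' j * evec m b s a j' i' * x j i else 0) = 0 := by
      intro j'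
      refine Finset.sum_eq_zero fun i' _ => ?_
      rw [if_neg (by omega)]
    rw [Finset.sum_congr rfl fun j' _ => h1 j', h]
    simp
  · have hlt : i.val - 1 < m := by have := i.isLt; omega
    have h1 : ∀ j' : Fin (m + 1), (∑ i' : Fin m, if i'.val + 1 = i.val then
        eps j' j * evec m b s a j' i' * x j i else 0) =
        eps j' j * evec m b s a j' ⟨i.val - 1, hlt⟩ * x j i := by
      intro j'
      rw [Finset.sum_eq_single (⟨i.val - 1, hlt⟩ : Fin m)]
      · rw [if_pos]
        show i.val - 1 + 1 = i.val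
        omega
      · intro i' _ hne
        rw [if_neg]
        intro e
        apply hne
        apply Fin.ext
        show i'.val = i.val - 1
        omega
      · intro hn
        exact absurd (Finset.mem_univ _) hn
    rw [Finset.sum_congr rfl fun j' _ => h1 j']
    have h2 := eps_sum' b hb s (-((i.val : ℝ) * ph m b)) j
    have e1 : th m b * j.val + -((i.val : ℝ) * ph m b) - ph m b =
        th m b * j.val - (i.val + 1) * ph m b := by ring
    rw [e1] at h2
    rw [← h2, Finset.mul_sum, Finset.mul_sum]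
    refine Finset.sum_congr rfl fun j' _ => ?_
    simp only [evec]
    have e2 : ((i.val - 1 : ℕ) : ℝ) + 1 = (i.val : ℝ) := by
      rw [Nat.cast_sub h]; push_cast; ring
    rw [e2]
    have e3 : th m b * j'.val - (i.val : ℝ) * ph m b =
        th m b * j'.val + -((i.val : ℝ) * ph m b) := by ring
    rw [e3]
    ring

/-- The eigenvector equation. PROOF. `itr x (evec)`: for fixed `j, i` the coefficient of `x j i` is
`∑_{j'} eps (j, j') evec j' (i+1)` (zero for `i + 1 = m`, and the formula for `evec` at `i + 1 = m`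
gives `sin (π (a+1)) = 0` as well), by `eps_sum` with `c = - (i+2) ph` it is
`sin (π (a+1)(i+2)/d) tr s (θ j - (i+1) ph) / cos ph`. For `itr (evec) x`: the coefficient of
`x j' i'` is `∑_j eps (j, j') evec j (i'-1)`, by `eps_sum'` it is
`sin (π (a+1) i'/d) tr s (θ j' - (i'+1) ph) / cos ph` (for `i' = 0` it is `0 = sin 0`). The sum of the
two sines is `2 sin (π (a+1)(i+1)/d) cos (π (a+1)/d)`. -/
theorem itr_evec {m : ℕ} (b : ℕ) (hb : 2 * b < m + 1) (s : Bool) (a : ℕ)
    (x : Fin (m + 1) → Fin m → ℝ) :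
    ∑ j, ∑ i, x j i * evec m b s a j i - (itr m x (evec m b s a) + itr m (evec m b s a) x) / 2 =
      lam m b a * ∑ j, ∑ i, x j i * evec m b s a j i := by
  rw [itr_evec_right b hb, itr_evec_left b hb, ← Finset.sum_add_distrib, Finset.sum_div,
    ← Finset.sum_sub_distrib, Finset.mul_sum]
  refine Finset.sum_congr rfl fun j _ => ?_
  rw [← Finset.sum_add_distrib, Finset.sum_div, ← Finset.sum_sub_distrib, Finset.mul_sum]
  refine Finset.sum_congr rfl fun i _ => ?_
  have h1 : sin (π * (a + 1) * (i.val + 2) / (m + 1)) + sin (π * (a + 1) * i.val / (m + 1)) =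
      2 * sin (π * (a + 1) * (i.val + 1) / (m + 1)) * cos (π * (a + 1) / (m + 1)) := by
    have e1 : π * (a + 1) * ((i.val : ℝ) + 2) / (m + 1) =
        π * (a + 1) * ((i.val : ℝ) + 1) / (m + 1) + π * (a + 1) / (m + 1) := by ring
    have e2 : π * (a + 1) * (i.val : ℝ) / (m + 1) =
        π * (a + 1) * ((i.val : ℝ) + 1) / (m + 1) - π * (a + 1) / (m + 1) := by ring
    rw [e1, e2, sin_add, sin_sub]
    ring
  have h2 : x j i * (sin (π * (a + 1) * (i.val + 2) / (m + 1)) *
        (tr s (th m b * j.val - (i.val + 1) * ph m b) / cos (ph m b))) +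
      x j i * (sin (π * (a + 1) * i.val / (m + 1)) *
        (tr s (th m b * j.val - (i.val + 1) * ph m b) / cos (ph m b))) =
      x j i * ((sin (π * (a + 1) * (i.val + 2) / (m + 1)) +
        sin (π * (a + 1) * i.val / (m + 1))) *
        (tr s (th m b * j.val - (i.val + 1) * ph m b) / cos (ph m b))) := by ring
  rw [h2, h1]
  simp only [evec, lam]
  ring

private theorem ST5_tel (t c : ℝ) (n : ℕ) :
    2 * sin (t / 2) * ∑ i ∈ Finset.range n, cos (t * i + c) =
      sin (t * (n - 1 / 2) + c) - sin (c - t / 2) := by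
  induction n with
  | zero =>
    have e : t * (((0 : ℕ) : ℝ) - 1 / 2) + c = c - t / 2 := by push_cast; ring
    rw [Finset.sum_range_zero, mul_zero, e, sub_self]
  | succ n ih =>
    rw [Finset.sum_range_succ, mul_add, ih]
    have e1 : t * (((n + 1 : ℕ) : ℝ) - 1 / 2) + c = (t * n + c) + t / 2 := by push_cast; ring
    have e2 : t * ((n : ℝ) - 1 / 2) + c = (t * n + c) - t / 2 := by ring
    rw [e1, e2, sin_add, sin_sub]
    ring

private theorem ST5_cos {d : ℕ} {t : ℝ} (k : ℤ) (hd : t * d = 2 * π * k) (hs : sin (t / 2) ≠ 0)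
    (c : ℝ) : ∑ j : Fin d, cos (t * j.val + c) = 0 := by
  rw [Fin.sum_univ_eq_sum_range (fun j => cos (t * j + c)) d]
  have h := ST5_tel t c d
  have h2 : sin (t * (d - 1 / 2) + c) = sin (c - t / 2) := by
    have e : t * ((d : ℝ) - 1 / 2) + c = (c - t / 2) + k * (2 * π) := by
      linear_combination hd
    rw [e, Real.sin_add_int_mul_two_pi]
  rw [h2, sub_self] at h
  rcases mul_eq_zero.1 h with h3 | h3
  · exact absurd h3 (mul_ne_zero two_ne_zero hs)
  · exact h3

private theorem ST5_sin {d : ℕ} {t : ℝ} (k : ℤ) (hd : t * d = 2 * π * k) (hs : sin (t / 2) ≠ 0)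
    (c : ℝ) : ∑ j : Fin d, sin (t * j.val + c) = 0 := by
  rw [← ST5_cos k hd hs (c - π / 2)]
  refine Finset.sum_congr rfl fun j _ => ?_
  rw [← Real.cos_sub_pi_div_two]
  congr 1
  ring

private theorem ST5_half {d : ℕ} {t : ℝ} (k : ℤ) (hd : t * d = π * k) (hs : sin (t / 2) ≠ 0) :
    ∑ i ∈ Finset.range d, cos (t * i) = (1 - cos (π * k)) / 2 := by
  have h := ST5_tel t 0 d
  have e1 : t * ((d : ℝ) - 1 / 2) + 0 = π * k - t / 2 := by linear_combination hd
  have e2 : sin (π * k) = 0 := by rw [mul_comm]; exact Real.sin_int_mul_pi k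
  rw [e1, sin_sub, e2, zero_mul, zero_sub, zero_sub, sin_neg] at h
  simp only [add_zero] at h
  have h2 : sin (t / 2) * (∑ i ∈ Finset.range d, cos (t * i) - (1 - cos (π * k)) / 2) = 0 := by
    linear_combination h / 2
  rcases mul_eq_zero.1 h2 with h3 | h3
  · exact absurd h3 hs
  · linarith

private theorem ST5_ne {m : ℕ} (x : ℝ) (h0 : x ≠ 0) (h1 : |x| < (m : ℝ) + 1) :
    sin (π * x / (m + 1)) ≠ 0 := by
  have hm : (0 : ℝ) < (m : ℝ) + 1 := by positivity
  have hpi := Real.pi_pos
  rw [abs_lt] at h1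
  have h2 : -π < π * x / (m + 1) := by
    rw [lt_div_iff₀ hm]
    nlinarith [h1.1]
  have h3 : π * x / (m + 1) < π := by
    rw [div_lt_iff₀ hm]
    nlinarith [h1.2]
  rw [Ne, Real.sin_eq_zero_iff_of_lt_of_lt h2 h3]
  intro h
  rw [div_eq_zero_iff] at h
  rcases h with h | h
  · rcases mul_eq_zero.1 h with h | h
    · exact hpi.ne' h
    · exact h0 h
  · exact hm.ne' h

/-- PROOF. `2 sin x sin y = cos (x - y) - cos (x + y)` and
`∑_{i < m} cos (2 π k (i+1) / (2d))`... : for `0 < |k| < 2d`
`∑_{i=0}^{d-1} cos (π k i / d)` is `0` for `k` even and `1` for `k` odd; `k = a - a'` and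
`k = a + a' + 2` have the same parity. -/
theorem sin_orth {m : ℕ} (a a' : ℕ) (ha : a < m) (ha' : a' < m) :
    ∑ i : Fin m, sin (π * (a + 1) * (i.val + 1) / (m + 1)) *
      sin (π * (a' + 1) * (i.val + 1) / (m + 1)) = if a = a' then ((m : ℝ) + 1) / 2 else 0 := by
  have hm : (0 : ℝ) < (m : ℝ) + 1 := by positivity
  have hm' := hm.ne'
  obtain ⟨f, hf⟩ : ∃ f : ℕ → ℝ, ∀ i, f i = (cos (π * ((a : ℝ) - a') / (m + 1) * i) -
      cos (π * ((a : ℝ) + a' + 2) / (m + 1) * i)) / 2 := ⟨_, fun _ => rfl⟩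
  have h1 : ∑ i : Fin m, sin (π * (a + 1) * (i.val + 1) / (m + 1)) *
      sin (π * (a' + 1) * (i.val + 1) / (m + 1)) = ∑ i ∈ Finset.range (m + 1), f i := by
    rw [Finset.sum_range_succ']
    have h0 : f 0 = 0 := by
      rw [hf]
      simp
    rw [h0, add_zero, ← Fin.sum_univ_eq_sum_range (fun i => f (i + 1)) m]
    refine Finset.sum_congr rfl fun i _ => ?_
    rw [hf]
    have e1 : π * ((a : ℝ) - a') / (m + 1) * ((i.val + 1 : ℕ) : ℝ) =
        π * (a + 1) * (i.val + 1) / (m + 1) - π * (a' + 1) * (i.val + 1) / (m + 1) := by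
      push_cast
      ring
    have e2 : π * ((a : ℝ) + a' + 2) / (m + 1) * ((i.val + 1 : ℕ) : ℝ) =
        π * (a + 1) * (i.val + 1) / (m + 1) + π * (a' + 1) * (i.val + 1) / (m + 1) := by
      push_cast
      ring
    rw [e1, e2, cos_sub, cos_add]
    ring
  have h2 : ∑ i ∈ Finset.range (m + 1), f i =
      (∑ i ∈ Finset.range (m + 1), cos (π * ((a : ℝ) - a') / (m + 1) * i) -
        ∑ i ∈ Finset.range (m + 1), cos (π * ((a : ℝ) + a' + 2) / (m + 1) * i)) / 2 := by
    rw [← Finset.sum_sub_distrib, Finset.sum_div]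
    exact Finset.sum_congr rfl fun i _ => hf i
  have ha1 : (a : ℝ) + 1 ≤ m := by exact_mod_cast ha
  have ha2 : (a' : ℝ) + 1 ≤ m := by exact_mod_cast ha'
  have ha0 : (0 : ℝ) ≤ a := by positivity
  have ha0' : (0 : ℝ) ≤ a' := by positivity
  have h3 := ST5_half (d := m + 1) (t := π * ((a : ℝ) + a' + 2) / (m + 1)) ((a : ℤ) + a' + 2)
    (by push_cast; field_simp) (by
      have e : π * ((a : ℝ) + a' + 2) / (m + 1) / 2 = π * (((a : ℝ) + a' + 2) / 2) / (m + 1) := by
        ring
      rw [e]
      refine ST5_ne _ (by positivity) ?_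
      rw [abs_of_pos (by positivity)]
      linarith)
  rw [h1, h2, h3]
  by_cases haa : a = a'
  · subst haa
    rw [if_pos rfl, sub_self, mul_zero, zero_div]
    simp only [zero_mul, cos_zero, Finset.sum_const, Finset.card_range, nsmul_eq_mul, mul_one]
    have e : π * (((a : ℤ) + a + 2 : ℤ) : ℝ) = ((a + 1 : ℕ) : ℝ) * (2 * π) := by
      push_cast
      ring
    rw [e, Real.cos_nat_mul_two_pi]
    push_cast
    ring
  · rw [if_neg haa]
    have hne : (a : ℝ) - a' ≠ 0 := by
      rw [sub_ne_zero]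
      exact_mod_cast haa
    have h4 := ST5_half (d := m + 1) (t := π * ((a : ℝ) - a') / (m + 1)) ((a : ℤ) - a')
      (by push_cast; field_simp) (by
        have e : π * ((a : ℝ) - a') / (m + 1) / 2 = π * (((a : ℝ) - a') / 2) / (m + 1) := by
          ring
        rw [e]
        refine ST5_ne _ (div_ne_zero hne two_ne_zero) ?_
        rw [abs_lt]
        constructor <;> linarith)
    rw [h4]
    have e : π * (((a : ℤ) + a' + 2 : ℤ) : ℝ) =
        π * (((a : ℤ) - a' : ℤ) : ℝ) + ((a' + 1 : ℕ) : ℝ) * (2 * π) := by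
      push_cast
      ring
    rw [e, Real.cos_add_nat_mul_two_pi, sub_self, zero_div]

/-- PROOF. Product formulas: terms `cos` or `sin` of `(th m b - th m b') j + const` and
`(th m b + th m b') j + const`, with `th m b - th m b' = 2 π (b - b') / d`,
`th m b + th m b' = 2 π (b + b' + 1) / d`, and `∑_{j < d} exp (2 π I k j / d) = 0` for `k` not
divisible by `d`. Here `0 < b + b' + 1 < d`. -/
theorem tr_orth {m : ℕ} (b b' : ℕ) (hb : 2 * b + 1 < m + 1) (hb' : 2 * b' + 1 < m + 1)
    (s s' : Bool) (c c' : ℝ) (hc : b = b' → c = c') :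
    ∑ j : Fin (m + 1), tr s (th m b * j.val + c) * tr s' (th m b' * j.val + c') =
      if b = b' ∧ s = s' then ((m : ℝ) + 1) / 2 else 0 := by
  have hm : (0 : ℝ) < (m : ℝ) + 1 := by positivity
  have hm' := hm.ne'
  have hb1 : 2 * (b : ℝ) + 1 < m + 1 := by exact_mod_cast hb
  have hb2 : 2 * (b' : ℝ) + 1 < m + 1 := by exact_mod_cast hb'
  have hb0 : (0 : ℝ) ≤ b := by positivity
  have hb0' : (0 : ℝ) ≤ b' := by positivity
  have hp1 : (th m b + th m b') * ((m + 1 : ℕ) : ℝ) = 2 * π * (((b : ℤ) + b' + 1 : ℤ) : ℝ) := by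
    unfold th
    push_cast
    field_simp
    ring
  have hp2 : sin ((th m b + th m b') / 2) ≠ 0 := by
    have e : (th m b + th m b') / 2 = π * ((b : ℝ) + b' + 1) / (m + 1) := by
      unfold th
      ring
    rw [e]
    refine ST5_ne _ (by positivity) ?_
    rw [abs_of_pos (by positivity)]
    linarith
  have hcp : ∑ j : Fin (m + 1), cos ((th m b + th m b') * j.val + (c + c')) = 0 :=
    ST5_cos _ hp1 hp2 _
  have hsp : ∑ j : Fin (m + 1), sin ((th m b + th m b') * j.val + (c + c')) = 0 :=
    ST5_sin _ hp1 hp2 _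
  have hmm : ∑ j : Fin (m + 1), cos ((th m b - th m b') * j.val + (c - c')) =
        (if b = b' then (m : ℝ) + 1 else 0) ∧
      ∑ j : Fin (m + 1), sin ((th m b - th m b') * j.val + (c - c')) = 0 := by
    by_cases hbb : b = b'
    · have hcc := hc hbb
      subst hbb
      subst hcc
      constructor
      · rw [if_pos rfl]
        simp
      · simp
    · have hne : (b : ℝ) - b' ≠ 0 := by
        rw [sub_ne_zero]
        exact_mod_cast hbb
      have hq1 : (th m b - th m b') * ((m + 1 : ℕ) : ℝ) = 2 * π * (((b : ℤ) - b' : ℤ) : ℝ) := by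
        unfold th
        push_cast
        field_simp
        ring
      have hq2 : sin ((th m b - th m b') / 2) ≠ 0 := by
        have e : (th m b - th m b') / 2 = π * ((b : ℝ) - b') / (m + 1) := by
          unfold th
          ring
        rw [e]
        refine ST5_ne _ hne ?_
        rw [abs_lt]
        constructor <;> linarith
      rw [if_neg hbb]
      exact ⟨ST5_cos _ hq1 hq2 _, ST5_sin _ hq1 hq2 _⟩
  obtain ⟨hcm, hsm⟩ := hmm
  have key : ∀ j : Fin (m + 1), tr s (th m b * j.val + c) * tr s' (th m b' * j.val + c') =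
      (if s = s' then cos ((th m b - th m b') * j.val + (c - c')) / 2 +
        (if s then cos ((th m b + th m b') * j.val + (c + c')) / 2 else
          -(cos ((th m b + th m b') * j.val + (c + c')) / 2)) else
        sin ((th m b + th m b') * j.val + (c + c')) / 2 +
        (if s then -(sin ((th m b - th m b') * j.val + (c - c')) / 2) else
          sin ((th m b - th m b') * j.val + (c - c')) / 2)) := by
    intro j
    have e1 : (th m b - th m b') * j.val + (c - c') =
        (th m b * j.val + c) - (th m b' * j.val + c') := by ring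
    have e2 : (th m b + th m b') * j.val + (c + c') =
        (th m b * j.val + c) + (th m b' * j.val + c') := by ring
    rw [e1, e2]
    generalize th m b * j.val + c = A
    generalize th m b' * j.val + c' = B
    rw [cos_sub, cos_add, sin_add, sin_sub]
    unfold tr
    cases s <;> cases s' <;>
      simp only [Bool.false_eq_true, if_false, if_true, reduceCtorEq] <;> ring
  rw [Finset.sum_congr rfl fun j _ => key j]
  by_cases hss : s = s'
  · simp only [if_pos hss]
    rw [Finset.sum_add_distrib, ← Finset.sum_div, hcm]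
    have h0 : ∑ j : Fin (m + 1), (if s = true then
        cos ((th m b + th m b') * j.val + (c + c')) / 2 else
          -(cos ((th m b + th m b') * j.val + (c + c')) / 2)) = 0 := by
      cases s
      · simp only [Bool.false_eq_true, if_false]
        rw [Finset.sum_neg_distrib, ← Finset.sum_div, hcp, zero_div, neg_zero]
      · simp only [if_true]
        rw [← Finset.sum_div, hcp, zero_div]
    rw [h0, add_zero]
    by_cases hbb : b = b'
    · rw [if_pos hbb, if_pos ⟨hbb, hss⟩]
    · rw [if_neg hbb, if_neg fun h => hbb h.1, zero_div]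
  · simp only [if_neg hss]
    rw [if_neg fun h => hss h.2, Finset.sum_add_distrib, ← Finset.sum_div, hsp, zero_div, zero_add]
    cases s
    · simp only [Bool.false_eq_true, if_false]
      rw [← Finset.sum_div, hsm, zero_div]
    · simp only [if_true]
      rw [Finset.sum_neg_distrib, ← Finset.sum_div, hsm, zero_div, neg_zero]

/-- PROOF. Exchange the sums; `tr_orth` for fixed `i` (`c = - (i+1) ph m b`), then `sin_orth`. -/
theorem evec_orth {m : ℕ} (b b' : ℕ) (hb : 2 * b + 1 < m + 1) (hb' : 2 * b' + 1 < m + 1)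
    (s s' : Bool) (a a' : ℕ) (ha : a < m) (ha' : a' < m) :
    ∑ j, ∑ i, evec m b s a j i * evec m b' s' a' j i =
      if b = b' ∧ s = s' ∧ a = a' then (((m : ℝ) + 1) / 2) ^ 2 else 0 := by
  rw [Finset.sum_comm]
  have h1 : ∀ i : Fin m, ∑ j : Fin (m + 1), evec m b s a j i * evec m b' s' a' j i =
      (sin (π * (a + 1) * (i.val + 1) / (m + 1)) * sin (π * (a' + 1) * (i.val + 1) / (m + 1))) *
        (if b = b' ∧ s = s' then ((m : ℝ) + 1) / 2 else 0) := by
    intro i
    have h2 := tr_orth b b' hb hb' s s' (-((i.val + 1) * ph m b)) (-((i.val + 1) * ph m b'))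
      (fun h => by rw [h])
    rw [← h2, Finset.mul_sum]
    refine Finset.sum_congr rfl fun j _ => ?_
    simp only [evec, sub_eq_add_neg]
    ring
  rw [Finset.sum_congr rfl fun i _ => h1 i, ← Finset.sum_mul, sin_orth a a' ha ha']
  by_cases h3 : a = a'
  · by_cases h4 : b = b' ∧ s = s'
    · rw [if_pos h3, if_pos h4, if_pos ⟨h4.1, h4.2, h3⟩]
      ring
    · rw [if_neg h4, mul_zero, if_neg fun h => h4 ⟨h.1, h.2.1⟩]
  · rw [if_neg h3, zero_mul, if_neg fun h => h3 h.2.2]

private theorem st6_ph {m e : ℕ} (hm : m + 1 = 2 * e) (b : ℕ) (hb : b < e) :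
    ph m b = π * (2 * e - 2 * b - 1) / (4 * e) ∧ 0 ≤ ph m b ∧ ph m b ≤ π := by
  have he : (0 : ℝ) < (e : ℝ) := by
    have : 0 < e := by omega
    exact_mod_cast this
  have hm' : (m : ℝ) + 1 = 2 * e := by exact_mod_cast hm
  have hb' : (b : ℝ) + 1 ≤ e := by exact_mod_cast hb
  have hb0 : (0 : ℝ) ≤ (b : ℝ) := Nat.cast_nonneg _
  have hpi := Real.pi_pos
  have h : ph m b = π * (2 * e - 2 * b - 1) / (4 * e) := by
    unfold ph th
    rw [hm']
    field_simp
    ring
  refine ⟨h, ?_, ?_⟩
  · rw [h]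
    apply div_nonneg _ (by linarith)
    apply mul_nonneg hpi.le
    linarith
  · rw [h, div_le_iff₀ (by linarith)]
    nlinarith

/-- PROOF. `cos (π (a+1)/d) < cos (ph)` iff `ph < π (a+1)/d` iff `d - 2b - 1 < 2 (a+1)`, where
`d = 2 e`, `ph = π (d - 2b - 1)/(2d)`. -/
theorem lam_pos {m e : ℕ} (hm : m + 1 = 2 * e) (b a : ℕ) (hb : b < e) (ha : a < m)
    (h : e ≤ a + 1 + b) : 0 < lam m b a := by
  obtain ⟨h1, h2, h3⟩ := st6_ph hm b hb
  have hc : 0 < cos (ph m b) := cos_ph_pos b (by omega)
  have he : (0 : ℝ) < (e : ℝ) := by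
    have : 0 < e := by omega
    exact_mod_cast this
  have hm' : (m : ℝ) + 1 = 2 * e := by exact_mod_cast hm
  have hpi := Real.pi_pos
  have ha' : (a : ℝ) + 1 ≤ m := by exact_mod_cast ha
  have h' : (e : ℝ) ≤ a + 1 + b := by exact_mod_cast h
  have hx : π * (a + 1) / (m + 1) ≤ π := by
    rw [hm', div_le_iff₀ (by linarith)]
    nlinarith
  have hlt : ph m b < π * (a + 1) / (m + 1) := by
    rw [h1, hm', div_lt_div_iff₀ (by linarith) (by linarith)]
    have h4 : (2 * (e : ℝ) - 2 * b - 1) < 2 * (a + 1) := by linarith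
    have h5 : π * (2 * (e : ℝ) - 2 * b - 1) * (2 * e) < π * (2 * (a + 1)) * (2 * e) := by
      apply mul_lt_mul_of_pos_right _ (by linarith)
      exact mul_lt_mul_of_pos_left h4 hpi
    linarith
  have hcos := Real.cos_lt_cos_of_nonneg_of_le_pi h2 hx hlt
  unfold lam
  rw [sub_pos, div_lt_one hc]
  exact hcos

theorem lam_neg {m e : ℕ} (hm : m + 1 = 2 * e) (b a : ℕ) (hb : b < e)
    (h : a + 1 + b < e) : lam m b a < 0 := by
  obtain ⟨h1, h2, h3⟩ := st6_ph hm b hb
  have hc : 0 < cos (ph m b) := cos_ph_pos b (by omega)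
  have he : (0 : ℝ) < (e : ℝ) := by
    have : 0 < e := by omega
    exact_mod_cast this
  have hm' : (m : ℝ) + 1 = 2 * e := by exact_mod_cast hm
  have hpi := Real.pi_pos
  have h' : (a : ℝ) + 1 + b + 1 ≤ e := by exact_mod_cast h
  have hx : 0 ≤ π * (a + 1) / (m + 1) := by positivity
  have hlt : π * (a + 1) / (m + 1) < ph m b := by
    rw [h1, hm', div_lt_div_iff₀ (by linarith) (by linarith)]
    have h4 : 2 * ((a : ℝ) + 1) < (2 * (e : ℝ) - 2 * b - 1) := by linarith
    have h5 : π * (2 * ((a : ℝ) + 1)) * (2 * e) < π * (2 * (e : ℝ) - 2 * b - 1) * (2 * e) := by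
      apply mul_lt_mul_of_pos_right _ (by linarith)
      exact mul_lt_mul_of_pos_left h4 hpi
    linarith
  have hcos := Real.cos_lt_cos_of_nonneg_of_le_pi hx h3 hlt
  unfold lam
  rw [sub_neg, one_lt_div hc]
  exact hcos

/-- Linear combinations of the eigenvectors in a set `K` of indices. -/
noncomputable def comb {m e : ℕ} (K : Finset (Fin e × Bool × Fin m)) :
    (K → ℝ) →ₗ[ℝ] (Fin (m + 1) → Fin m → ℝ) :=
  Fintype.linearCombination ℝ fun k : K => evec m k.1.1 k.1.2.1 k.1.2.2

/-- The interactions are linear in the second argument. -/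
private def st6_r (m : ℕ) (x : Fin (m + 1) → Fin m → ℝ) :
    (Fin (m + 1) → Fin m → ℝ) →ₗ[ℝ] ℝ where
  toFun y := itr m x y
  map_add' y z := by
    unfold itr
    simp only [← Finset.sum_add_distrib]
    refine Finset.sum_congr rfl fun j _ => Finset.sum_congr rfl fun j' _ =>
      Finset.sum_congr rfl fun i _ => Finset.sum_congr rfl fun i' _ => ?_
    split_ifs
    · simp only [Pi.add_apply]
      ring
    · ring
  map_smul' c y := by
    unfold itr
    simp only [RingHom.id_apply, smul_eq_mul, Finset.mul_sum]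
    refine Finset.sum_congr rfl fun j _ => Finset.sum_congr rfl fun j' _ =>
      Finset.sum_congr rfl fun i _ => Finset.sum_congr rfl fun i' _ => ?_
    split_ifs
    · simp only [Pi.smul_apply, smul_eq_mul]
      ring
    · ring

/-- The interactions are linear in the first argument. -/
private def st6_l (m : ℕ) (y : Fin (m + 1) → Fin m → ℝ) :
    (Fin (m + 1) → Fin m → ℝ) →ₗ[ℝ] ℝ where
  toFun x := itr m x y
  map_add' x z := by
    unfold itr
    simp only [← Finset.sum_add_distrib]
    refine Finset.sum_congr rfl fun j _ => Finset.sum_congr rfl fun j' _ =>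
      Finset.sum_congr rfl fun i _ => Finset.sum_congr rfl fun i' _ => ?_
    split_ifs
    · simp only [Pi.add_apply]
      ring
    · ring
  map_smul' c x := by
    unfold itr
    simp only [RingHom.id_apply, smul_eq_mul, Finset.mul_sum]
    refine Finset.sum_congr rfl fun j _ => Finset.sum_congr rfl fun j' _ =>
      Finset.sum_congr rfl fun i _ => Finset.sum_congr rfl fun i' _ => ?_
    split_ifs
    · simp only [Pi.smul_apply, smul_eq_mul]
      ring
    · ring

/-- The scalar product. -/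
private def st6_d (m : ℕ) (x : Fin (m + 1) → Fin m → ℝ) :
    (Fin (m + 1) → Fin m → ℝ) →ₗ[ℝ] ℝ where
  toFun y := ∑ j, ∑ i, x j i * y j i
  map_add' y z := by
    simp only [← Finset.sum_add_distrib, Pi.add_apply]
    exact Finset.sum_congr rfl fun j _ => Finset.sum_congr rfl fun i _ => by ring
  map_smul' c y := by
    simp only [RingHom.id_apply, smul_eq_mul, Finset.mul_sum, Pi.smul_apply]
    exact Finset.sum_congr rfl fun j _ => Finset.sum_congr rfl fun i _ => by ring

private theorem st6_comb {m e : ℕ} (K : Finset (Fin e × Bool × Fin m)) (c : K → ℝ) :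
    comb K c = ∑ k : K, c k • evec m k.1.1 k.1.2.1 k.1.2.2 := rfl

/-- PROOF. Bilinearity, `itr_evec`, `evec_orth`. -/
theorem qf_comb {m e : ℕ} (hm : m + 1 = 2 * e) (K : Finset (Fin e × Bool × Fin m)) (c : K → ℝ) :
    qf m (comb K c) = ((m + 1 : ℝ) / 2) ^ 2 * ∑ k : K, lam m k.1.1 k.1.2.2 * c k ^ 2 := by
  classical
  set y := comb K c with hy
  have hy' : y = ∑ k : K, c k • evec m k.1.1 k.1.2.1 k.1.2.2 := st6_comb K c
  -- scalar products with the eigenvectors
  have hdot : ∀ k : K, ∑ j, ∑ i, y j i * evec m k.1.1 k.1.2.1 k.1.2.2 j i =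
      c k * ((m + 1 : ℝ) / 2) ^ 2 := by
    intro k
    have h1 : ∑ j, ∑ i, y j i * evec m k.1.1 k.1.2.1 k.1.2.2 j i =
        st6_d m (evec m k.1.1 k.1.2.1 k.1.2.2) y := by
      change _ = ∑ j, ∑ i, evec m k.1.1 k.1.2.1 k.1.2.2 j i * y j i
      exact Finset.sum_congr rfl fun j _ => Finset.sum_congr rfl fun i _ => mul_comm _ _
    rw [h1, hy', map_sum, Finset.sum_eq_single k]
    · rw [map_smul, smul_eq_mul]
      change c k * ∑ j, ∑ i, evec m k.1.1 k.1.2.1 k.1.2.2 j i * evec m k.1.1 k.1.2.1 k.1.2.2 j i = _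
      have hk1 := k.1.1.isLt
      rw [evec_orth (m := m) _ _ (by omega) (by omega) _ _ _ _ k.1.2.2.isLt k.1.2.2.isLt,
        if_pos ⟨rfl, rfl, rfl⟩]
    · intro l _ hl
      rw [map_smul, smul_eq_mul]
      change c l * ∑ j, ∑ i, evec m k.1.1 k.1.2.1 k.1.2.2 j i * evec m l.1.1 l.1.2.1 l.1.2.2 j i = _
      have hk1 := k.1.1.isLt
      have hl1 := l.1.1.isLt
      rw [evec_orth (m := m) _ _ (by omega) (by omega) _ _ _ _ k.1.2.2.isLt l.1.2.2.isLt,
        if_neg, mul_zero]
      rintro ⟨h2, h3, h4⟩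
      apply hl
      apply Subtype.ext
      apply Prod.ext
      · exact Fin.ext h2.symm
      · apply Prod.ext
        · exact h3.symm
        · exact Fin.ext h4.symm
    · intro hn
      exact absurd (Finset.mem_univ k) hn
  -- the form
  have hq : qf m y = st6_d m y y - (st6_r m y y + st6_l m y y) / 2 := by
    change qf m y = ∑ j, ∑ i, y j i * y j i - (itr m y y + itr m y y) / 2
    unfold qf
    have : ∑ j, ∑ i, y j i ^ 2 = ∑ j, ∑ i, y j i * y j i :=
      Finset.sum_congr rfl fun j _ => Finset.sum_congr rfl fun i _ => by ring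
    rw [this]
    ring
  have hsum : ∀ f : (Fin (m + 1) → Fin m → ℝ) →ₗ[ℝ] ℝ,
      f y = ∑ k : K, c k * f (evec m k.1.1 k.1.2.1 k.1.2.2) := by
    intro f
    conv_lhs => rw [hy']
    rw [map_sum]
    exact Finset.sum_congr rfl fun k _ => by rw [map_smul, smul_eq_mul]
  rw [hq, hsum (st6_d m y), hsum (st6_r m y), hsum (st6_l m y), ← Finset.sum_add_distrib,
    Finset.sum_div, ← Finset.sum_sub_distrib, Finset.mul_sum]
  refine Finset.sum_congr rfl fun k _ => ?_
  have hk1 := k.1.1.isLt
  have h1 := itr_evec (m := m) k.1.1.val (by omega) k.1.2.1 k.1.2.2.val y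
  have h2 : c k * st6_d m y (evec m k.1.1 k.1.2.1 k.1.2.2) -
      (c k * st6_r m y (evec m k.1.1 k.1.2.1 k.1.2.2) +
        c k * st6_l m y (evec m k.1.1 k.1.2.1 k.1.2.2)) / 2 =
      c k * (∑ j, ∑ i, y j i * evec m k.1.1 k.1.2.1 k.1.2.2 j i -
        (itr m y (evec m k.1.1 k.1.2.1 k.1.2.2) +
          itr m (evec m k.1.1 k.1.2.1 k.1.2.2) y) / 2) := by
    change c k * (∑ j, ∑ i, y j i * evec m k.1.1 k.1.2.1 k.1.2.2 j i) -
      (c k * itr m y (evec m k.1.1 k.1.2.1 k.1.2.2) +
        c k * itr m (evec m k.1.1 k.1.2.1 k.1.2.2) y) / 2 = _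
    ring
  rw [h2, h1, hdot k]
  ring

private theorem st6_card {m e : ℕ} (hm : m + 1 = 2 * e) :
    ((Finset.univ : Finset (Fin e × Bool × Fin m)).filter
      (fun k => k.2.2.val + 1 + k.1.val < e)).card = e * e - e := by
  rw [Finset.card_filter, Fintype.sum_prod_type]
  have h1 : ∀ b : Fin e, ∑ y : Bool × Fin m, (if y.2.val + 1 + b.val < e then 1 else 0) =
      2 * (e - 1 - b.val) := by
    intro b
    rw [Fintype.sum_prod_type]
    have h2 : ∀ s : Bool, ∑ a : Fin m, (if (s, a).2.val + 1 + b.val < e then 1 else 0) =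
        e - 1 - b.val := by
      intro s
      have h3 := Fin.sum_univ_eq_sum_range (fun a => if a + 1 + b.val < e then 1 else 0) m
      change ∑ a : Fin m, (if a.val + 1 + b.val < e then 1 else 0) = _
      rw [h3, ← Finset.card_filter]
      have h4 : (Finset.range m).filter (fun a => a + 1 + b.val < e) =
          Finset.range (e - 1 - b.val) := by
        ext a
        have := b.isLt
        simp only [Finset.mem_filter, Finset.mem_range]
        omega
      rw [h4, Finset.card_range]
    rw [Finset.sum_congr rfl fun s _ => h2 s, Finset.sum_const, Finset.card_univ, Fintype.card_bool,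
      smul_eq_mul]
  rw [Finset.sum_congr rfl fun b _ => h1 b, ← Finset.mul_sum,
    Fin.sum_univ_eq_sum_range (fun b => e - 1 - b) e,
    Finset.sum_range_reflect (fun b => b) e]
  have h5 := Finset.sum_range_id_mul_two e
  rw [mul_comm, h5, Nat.mul_sub, mul_one]

private theorem st6_card' {m e : ℕ} (hm : m + 1 = 2 * e) :
    ((Finset.univ : Finset (Fin e × Bool × Fin m)).filter
      (fun k => ¬ k.2.2.val + 1 + k.1.val < e)).card = 3 * e * e - e := by
  have h := Finset.card_filter_add_card_filter_not (s := (Finset.univ : Finset (Fin e × Bool × Fin m)))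
    (fun k => k.2.2.val + 1 + k.1.val < e)
  rw [st6_card hm, Finset.card_univ, Fintype.card_prod, Fintype.card_prod, Fintype.card_fin,
    Fintype.card_bool, Fintype.card_fin] at h
  rcases Nat.eq_zero_or_pos e with h0 | h0
  · subst h0
    simp
  · obtain ⟨f, rfl⟩ : ∃ f, e = f + 1 := ⟨e - 1, by omega⟩
    obtain rfl : m = 2 * f + 1 := by omega
    have e1 : (f + 1) * (f + 1) - (f + 1) = f * (f + 1) := by
      rw [Nat.sub_eq_iff_eq_add (by nlinarith)]
      ring
    have e2 : 3 * (f + 1) * (f + 1) - (f + 1) = (3 * f + 2) * (f + 1) := by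
      rw [Nat.sub_eq_iff_eq_add (by nlinarith)]
      ring
    rw [e1] at h
    rw [e2]
    nlinarith

private theorem st6_qf_zero (m : ℕ) : qf m 0 = 0 := by
  unfold qf itr
  simp

/-- From the values on the nonzero combinations to a subspace. -/
private theorem st6_range {m e : ℕ} (K : Finset (Fin e × Bool × Fin m)) (P : ℝ → Prop)
    (hP : ¬ P 0) (h : ∀ c : K → ℝ, c ≠ 0 → P (qf m (comb K c))) :
    ∃ W : Submodule ℝ (Fin (m + 1) → Fin m → ℝ), K.card = finrank ℝ W ∧
      ∀ x ∈ W, x ≠ 0 → P (qf m x) := by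
  refine ⟨LinearMap.range (comb K), ?_, ?_⟩
  · have hinj : Function.Injective (comb K) := by
      rw [injective_iff_map_eq_zero]
      intro c hc
      by_contra hne
      have h1 := h c hne
      rw [hc, st6_qf_zero] at h1
      exact hP h1
    rw [LinearMap.finrank_range_of_inj hinj, Module.finrank_fintype_fun_eq_card,
      Fintype.card_coe]
  · rintro _ ⟨c, rfl⟩ hne
    apply h
    rintro rfl
    exact hne (map_zero _)

/-- PROOF. `K = {(b, s, a) : e ≤ a + 1 + b}`; its number of elements is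
`2 ∑_{b < e} (e + b) = 3 e ^ 2 - e`. By `qf_comb` and `lam_pos` `qf > 0` on the nonzero
combinations, so `comb K` is injective; `W = range (comb K)`. -/
theorem qf_pos {m e : ℕ} (hm : m + 1 = 2 * e) :
    ∃ W : Submodule ℝ (Fin (m + 1) → Fin m → ℝ), 3 * e * e - e ≤ finrank ℝ W ∧
      ∀ x ∈ W, x ≠ 0 → 0 < qf m x := by
  obtain ⟨W, h1, h2⟩ := st6_range ((Finset.univ : Finset (Fin e × Bool × Fin m)).filter
      (fun k => ¬ k.2.2.val + 1 + k.1.val < e)) (fun t => 0 < t) (lt_irrefl _) (by
    intro c hc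
    rw [qf_comb hm]
    have hm0 : (0 : ℝ) < ((m + 1 : ℝ) / 2) ^ 2 := by positivity
    apply mul_pos hm0
    obtain ⟨k0, hk0⟩ := Function.ne_iff.1 hc
    apply Finset.sum_pos'
    · intro k _
      have hk := (Finset.mem_filter.1 k.2).2
      exact mul_nonneg (lam_pos hm _ _ k.1.1.isLt k.1.2.2.isLt (not_lt.1 hk)).le (sq_nonneg _)
    · refine ⟨k0, Finset.mem_univ _, ?_⟩
      have hk := (Finset.mem_filter.1 k0.2).2
      apply mul_pos (lam_pos hm _ _ k0.1.1.isLt k0.1.2.2.isLt (not_lt.1 hk))
      exact sq_pos_of_ne_zero hk0)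
  exact ⟨W, by rw [← h1, st6_card' hm], h2⟩

/-- PROOF. `K = {(b, s, a) : a + 1 + b < e}` has `2 ∑_{b < e} (e - 1 - b) = e ^ 2 - e` elements. -/
theorem qf_neg {m e : ℕ} (hm : m + 1 = 2 * e) :
    ∃ W : Submodule ℝ (Fin (m + 1) → Fin m → ℝ), e * e - e ≤ finrank ℝ W ∧
      ∀ x ∈ W, x ≠ 0 → qf m x < 0 := by
  obtain ⟨W, h1, h2⟩ := st6_range ((Finset.univ : Finset (Fin e × Bool × Fin m)).filter
      (fun k => k.2.2.val + 1 + k.1.val < e)) (fun t => t < 0) (lt_irrefl _) (by
    intro c hc
    rw [qf_comb hm]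
    have hm0 : (0 : ℝ) < ((m + 1 : ℝ) / 2) ^ 2 := by positivity
    apply mul_neg_of_pos_of_neg hm0
    obtain ⟨k0, hk0⟩ := Function.ne_iff.1 hc
    rw [← neg_pos, ← Finset.sum_neg_distrib]
    apply Finset.sum_pos'
    · intro k _
      have hk := (Finset.mem_filter.1 k.2).2
      have h5 := lam_neg hm _ _ k.1.1.isLt hk
      have h6 := sq_nonneg (c k)
      nlinarith
    · refine ⟨k0, Finset.mem_univ _, ?_⟩
      have hk := (Finset.mem_filter.1 k0.2).2
      have h5 := lam_neg hm _ _ k0.1.1.isLt hk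
      have h6 : 0 < c k0 ^ 2 := sq_pos_of_ne_zero hk0
      nlinarith)
  exact ⟨W, by rw [← h1, st6_card hm], h2⟩

/-- PROOF. Image of `W` under `f` of `model_std`; `f` is injective on `W` as `qf ≠ 0` there. -/
theorem std_psd {m e : ℕ} (hm : m + 1 = 2 * e) :
    (obj (ω := om ℝ m) (stdW m)).Psd (3 * e * e - e) := by
  obtain ⟨f, hf⟩ := model_std m
  obtain ⟨W, h1, h2⟩ := qf_pos hm
  refine ⟨LinearMap.range (f ∘ₗ W.subtype), ?_, ?_⟩
  · rw [LinearMap.finrank_range_of_inj]
    · exact h1
    · rw [injective_iff_map_eq_zero]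
      intro x hx
      have hx' : f x.1 = 0 := hx
      by_contra hne
      have hne' : x.1 ≠ 0 := fun h0 => hne (Subtype.ext h0)
      have h3 := h2 x.1 x.2 hne'
      rw [← hf, hx', map_zero] at h3
      exact lt_irrefl _ h3
  · rintro _ ⟨x, rfl⟩
    change 0 ≤ (obj (ω := om ℝ m) (stdW m)).L (f x.1) (f x.1)
    rw [hf]
    by_cases h0 : x.1 = 0
    · rw [h0, st6_qf_zero]
    · exact (h2 x.1 x.2 h0).le

theorem std_neg {m e : ℕ} (hm : m + 1 = 2 * e) :
    (obj (ω := om ℝ m) (stdW m)).Neg (e * e - e) := by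
  obtain ⟨f, hf⟩ := model_std m
  obtain ⟨W, h1, h2⟩ := qf_neg hm
  refine ⟨LinearMap.range (f ∘ₗ W.subtype), ?_, ?_⟩
  · rw [LinearMap.finrank_range_of_inj]
    · exact h1
    · rw [injective_iff_map_eq_zero]
      intro x hx
      have hx' : f x.1 = 0 := hx
      by_contra hne
      have hne' : x.1 ≠ 0 := fun h0 => hne (Subtype.ext h0)
      have h3 := h2 x.1 x.2 hne'
      rw [← hf, hx', map_zero] at h3
      exact lt_irrefl _ h3
  · rintro _ ⟨x, rfl⟩ hne
    change (obj (ω := om ℝ m) (stdW m)).L (f x.1) (f x.1) < 0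
    rw [hf]
    apply h2 x.1 x.2
    intro h0
    apply hne
    change f x.1 = 0
    rw [h0, map_zero]

end Pool.Agent.Helper81.SBA
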