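import Pool.Agent.Helper81.SBA.QM
import Pool.Agent.Helper81.SBA.Hur
import Pool.Agent.Helper81.SBA.Std

/-!
# The index of every word with product the full twist
-/

set_option autoImplicit false

open Module

namespace Pool.Agent.Helper81.SBA

section ind

variable {m : ℕ}

/-- The letter of a pair: the braid `g σ_i g⁻¹`. -/
def bl (p : BraidGroup m × Fin m) : BraidGroup m := p.1 * sigma p.2 * p.1⁻¹

/-- The vector of a pair. -/
noncomputable def vl (p : BraidGroup m × Fin m) : Fin m → ℝ := rep ℝ m p.1 (vb ℝ m p.2)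

open Classical in
/-- The class of a letter. -/
noncomputable def eL (x : BraidGroup m) : QM (om ℝ m) :=
  if h : ∃ p, x = bl p then cl (ltr (vl h.choose)) else 1

/-- PROOF. `vec_unique`, `cl_neg`. -/
theorem eL_bl (hm : 2 ≤ m) (p : BraidGroup m × Fin m) : eL (bl p) = cl (ltr (vl p)) := by
  classical
  have h : ∃ p', bl p = bl p' := ⟨p, rfl⟩
  have h1 : eL (bl p) = cl (ltr (vl h.choose)) := by
    unfold eL
    rw [dif_pos h]
  rw [h1]
  rcases vec_unique hm h.choose_spec with h2 | h2
  · have h3 : vl h.choose = vl p := h2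
    rw [h3]
  · have h3 : vl h.choose = - vl p := h2
    rw [h3, cl_neg]

/-- PROOF. `x = bl (g, i)`, `y = bl (h, j)`; `x y x⁻¹ = bl (x * h, j)` with vector
`rep x (vl (h, j)) = T_v u = u + om v u • v` (`rep_conj`), `v = vl (g, i)`, `u = vl (h, j)`;
`cl_swap`. -/
theorem eL_swap (hm : 2 ≤ m) (x y : BraidGroup m) (hx : Lt x) (hy : Lt y) :
    eL x * eL y = eL (x * y * x⁻¹) * eL x := by
  obtain ⟨g, i, hx'⟩ := hx
  obtain ⟨h, j, hy'⟩ := hy
  have h1 : x = bl (g, i) := hx'
  have h2 : y = bl (h, j) := hy'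
  have h3 : x * y * x⁻¹ = bl (x * h, j) := by
    rw [h2]
    unfold bl
    group
  have h4 : vl (x * h, j) = vl (h, j) + om ℝ m (vl (g, i)) (vl (h, j)) • vl (g, i) := by
    have h5 : vl (x * h, j) = rep ℝ m x (vl (h, j)) := by
      unfold vl
      rw [map_mul]
      rfl
    rw [h5, hx', rep_conj]
    rfl
  rw [h3, h2, h1, eL_bl hm, eL_bl hm, ← h1, eL_bl hm, h4]
  exact cl_swap (vl (g, i)) (vl (h, j))

/-- PROOF. `cl_obj`, `eL_bl`, `List.map_map`. -/
theorem im_eL (hm : 2 ≤ m) (w : List (BraidGroup m × Fin m)) :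
    im eL (w.map bl) = cl (obj (ω := om ℝ m) (w.map vl)) := by
  unfold im
  rw [cl_obj, List.map_map, List.map_map]
  congr 1
  refine List.map_congr_left fun p _ => ?_
  exact eL_bl hm p

/-- The standard word as a list of pairs. -/
private def INw (m : ℕ) : List (BraidGroup m × Fin m) :=
  (List.replicate (m + 1) ((List.finRange m).map fun i => ((1 : BraidGroup m), i))).flatten

private theorem IN_bl : (INw m).map bl = stdL m := by
  unfold INw stdL
  rw [List.map_flatten, List.map_replicate, List.map_map]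
  have h1 : (bl ∘ fun i => ((1 : BraidGroup m), i)) = (sigma : Fin m → BraidGroup m) := by
    funext i
    change 1 * sigma i * 1⁻¹ = sigma i
    rw [one_mul, inv_one, mul_one]
  rw [h1]

private theorem IN_vl : (INw m).map vl = stdW m := by
  unfold INw stdW
  rw [List.map_flatten, List.map_replicate, List.map_map]
  have h1 : (do let a ← List.finRange m
                pure (a : ℕ)) = (List.finRange m).map (fun a : Fin m => (a : ℕ)) := by
    change List.flatMap (fun a => [((a : Fin m) : ℕ)]) (List.finRange m) = _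
    exact List.flatMap_pure_eq_map _ _
  have h2 : (vl ∘ fun i => ((1 : BraidGroup m), i)) =
      ((fun i => vb ℝ m i) ∘ fun a : Fin m => (a : ℕ)) := by
    funext i
    change rep ℝ m 1 (vb ℝ m i) = vb ℝ m i
    rw [map_one]
    rfl
  rw [h1, List.map_map, h2]

/-- PROOF. `im_eL` for the list of the pairs `(1, i)` (`List.map_flatten`, `List.map_replicate`),
or `cl_obj` directly. -/
theorem im_std (hm : 2 ≤ m) :
    im eL (stdL m) = cl (obj (ω := om ℝ m) (stdW m)) := by
  rw [← IN_bl, im_eL hm, IN_vl]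

/-- The monodromy of a word is the product of the transvections.
PROOF. Induction on `w`, `QO.mul_A`, `ltr_A`, `rep_conj`. -/
theorem obj_A (w : List (BraidGroup m × Fin m)) (b : Fin m → ℝ) :
    (obj (ω := om ℝ m) (w.map vl)).A b = rep ℝ m (w.map bl).prod b := by
  induction w with
  | nil =>
    rw [List.map_nil, List.map_nil, List.prod_nil, map_one]
    exact QO.one_A b
  | cons p w ih =>
    rw [List.map_cons, List.map_cons, List.prod_cons, map_mul]
    have h1 : (obj (ω := om ℝ m) (vl p :: w.map vl)).A b =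
        (ltr (ω := om ℝ m) (vl p)).A ((obj (ω := om ℝ m) (w.map vl)).A b) :=
      QO.mul_A _ _ b
    have h2 : rep ℝ m (bl p) = trv (vl p) := rep_conj p.1 p.2
    rw [h1, ih, h2]
    rfl

/-- PROOF. `A b = b` (`obj_A`, `rep_twist`) and `A b = b + p (X b)`. -/
theorem obj_pX (hm : Odd m) (w : List (BraidGroup m × Fin m))
    (h : (w.map bl).prod = twist m 0 (m + 1)) (b : Fin m → ℝ) :
    (obj (ω := om ℝ m) (w.map vl)).p ((obj (ω := om ℝ m) (w.map vl)).X b) = 0 := by
  have h1 := obj_A w b
  rw [h, rep_twist hm, QO.A_apply] at h1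
  have h2 : b + (obj (ω := om ℝ m) (w.map vl)).p ((obj (ω := om ℝ m) (w.map vl)).X b) = b := h1
  exact left_eq_add.1 h2.symm

/-- **The index.** PROOF. `hurwitz` for `eL`, `im_eL`, `im_std`, `cl_pow`, `cl_mul`, `cl_eq` give the
isomorphism in `index_le`, with `Z = obj (stdW m)`, `P = 3 e e - e`, `N = e e - e`
(`finrank_std`, `std_psd`, `std_neg`, `obj_pX` for the standard word). -/
theorem index_word {e : ℕ} (hm : m + 1 = 2 * e) (he : 2 ≤ e)
    (w : List (BraidGroup m × Fin m)) (h : (w.map bl).prod = twist m 0 (m + 1)) {n : ℕ}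
    (hn : (obj (ω := om ℝ m) (w.map vl)).Psd n) : n ≤ 3 * e * e - e := by
  have hm2 : 2 ≤ m := by omega
  have hodd : Odd m := ⟨e - 1, by omega⟩
  have hl : ∀ x ∈ w.map bl, Lt x := by
    intro x hx
    obtain ⟨p, -, rfl⟩ := List.mem_map.1 hx
    exact ⟨p.1, p.2, rfl⟩
  obtain ⟨k, hk⟩ := hurwitz (eL (m := m)) (fun x y hx hy => eL_swap hm2 x y hx hy) (w.map bl) hl h
  rw [im_eL hm2, im_std hm2, ← cl_pow, ← cl_mul, ← cl_mul, cl_eq] at hk
  have hZ : ∀ b, (obj (ω := om ℝ m) (stdW m)).p ((obj (ω := om ℝ m) (stdW m)).X b) = 0 := by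
    intro b
    have h1 := obj_pX hodd (INw m) (by rw [IN_bl, stdL_prod]) b
    rwa [IN_vl] at h1
  have hd : finrank ℝ (obj (ω := om ℝ m) (stdW m)).E = (3 * e * e - e) + (e * e - e) := by
    rw [finrank_std]
    obtain ⟨f, rfl⟩ : ∃ f, e = f + 1 := ⟨e - 1, by omega⟩
    have h1 : m = 2 * f + 1 := by omega
    have h2 : 3 * (f + 1) * (f + 1) - (f + 1) = 3 * f * f + 5 * f + 2 := by
      have : 3 * (f + 1) * (f + 1) = 3 * f * f + 5 * f + 2 + (f + 1) := by ring
      omega
    have h3 : (f + 1) * (f + 1) - (f + 1) = f * f + f := by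
      have : (f + 1) * (f + 1) = f * f + f + (f + 1) := by ring
      omega
    rw [h1, h2, h3]
    ring
  exact index_le hZ hd (std_psd hm) (std_neg hm) hk hn

end ind

end Pool.Agent.Helper81.SBA
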