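import Pool.Agent.Helper81.SBA.QO

/-!
# Isomorphisms of quadratic objects
-/

set_option autoImplicit false

namespace Pool.Agent.Helper81.SBA

section iso

variable {V : Type} [AddCommGroup V] [Module ℝ V] {ω : V →ₗ[ℝ] V →ₗ[ℝ] ℝ} [Alt ω]

/-- PROOF. The product of the two linear equivalences (`LinearEquiv.prodCongr`), `mul_L`, `mul_p`,
`mul_X`, `Iso.A_eq`. -/
theorem Iso.mul {Q Q' R R' : QO ω} (h : Iso Q Q') (h' : Iso R R') :
    Iso (Q.mul R) (Q'.mul R') := by
  obtain ⟨f, h1, h2, h3⟩ := h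
  have hA := Iso.A_eq h'
  obtain ⟨g, k1, k2, k3⟩ := h'
  refine ⟨LinearEquiv.prodCongr f g, fun x y => ?_, fun x => ?_, fun b => ?_⟩
  · change Q'.L (f x.1) (f y.1) + R'.L (g x.2) (g y.2) - ω (Q'.p (f x.1)) (R'.p (g y.2)) =
      Q.L x.1 y.1 + R.L x.2 y.2 - ω (Q.p x.1) (R.p y.2)
    rw [h1, k1, h2, k2]
  · change Q'.p (f x.1) + R'.p (g x.2) = Q.p x.1 + R.p x.2
    rw [h2, k2]
  · change (f (Q.X (R.A b)), g (R.X b)) = (Q'.X (R'.A b), R'.X b)
    rw [h3, k3, hA]

/-- PROOF. `LinearEquiv.prodAssoc`; `mul_A` for the third condition. -/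
theorem mul_assoc_iso (Q R S : QO ω) : Iso ((Q.mul R).mul S) (Q.mul (R.mul S)) := by
  refine ⟨LinearEquiv.prodAssoc ℝ Q.E R.E S.E, fun x y => ?_, fun x => ?_, fun b => ?_⟩
  · obtain ⟨⟨x1, x2⟩, x3⟩ := x
    obtain ⟨⟨y1, y2⟩, y3⟩ := y
    change Q.L x1 y1 + (R.L x2 y2 + S.L x3 y3 - ω (R.p x2) (S.p y3))
      - ω (Q.p x1) (R.p y2 + S.p y3) =
      (Q.L x1 y1 + R.L x2 y2 - ω (Q.p x1) (R.p y2)) + S.L x3 y3 - ω (Q.p x1 + R.p x2) (S.p y3)
    rw [map_add, map_add, LinearMap.add_apply]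
    ring
  · obtain ⟨⟨x1, x2⟩, x3⟩ := x
    change Q.p x1 + (R.p x2 + S.p x3) = (Q.p x1 + R.p x2) + S.p x3
    abel
  · change (Q.X (R.A (S.A b)), (R.X (S.A b), S.X b)) = (Q.X ((R.mul S).A b), (R.X (S.A b), S.X b))
    rw [QO.mul_A]

/-- PROOF. `x ↦ x.2`. -/
theorem one_mul_iso (Q : QO ω) : Iso ((QO.one ω).mul Q) Q := by
  refine ⟨{ toFun := fun x => x.2
            invFun := fun x => (PUnit.unit, x)
            map_add' := fun _ _ => rfl
            map_smul' := fun _ _ => rfl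
            left_inv := fun _ => rfl
            right_inv := fun _ => rfl }, fun x y => ?_, fun x => ?_, fun b => ?_⟩
  · change Q.L x.2 y.2 = 0 + Q.L x.2 y.2 - ω 0 (Q.p y.2)
    rw [map_zero, LinearMap.zero_apply]
    ring
  · change Q.p x.2 = 0 + Q.p x.2
    rw [zero_add]
  · rfl

/-- PROOF. `x ↦ x.1`. `(QO.one ω).A = id`. -/
theorem mul_one_iso (Q : QO ω) : Iso (Q.mul (QO.one ω)) Q := by
  refine ⟨{ toFun := fun x => x.1
            invFun := fun x => (x, PUnit.unit)
            map_add' := fun _ _ => rfl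
            map_smul' := fun _ _ => rfl
            left_inv := fun _ => rfl
            right_inv := fun _ => rfl }, fun x y => ?_, fun x => ?_, fun b => ?_⟩
  · change Q.L x.1 y.1 = Q.L x.1 y.1 + 0 - ω (Q.p x.1) 0
    rw [map_zero]
    ring
  · change Q.p x.1 = Q.p x.1 + 0
    rw [add_zero]
  · change Q.X ((QO.one ω).A b) = Q.X b
    rw [QO.one_A]

/-- The linear bijection of the Hurwitz move. -/
def isoSwapEquiv (a : ℝ) : (ℝ × ℝ) ≃ₗ[ℝ] (ℝ × ℝ) where
  toFun := fun x => (x.2, x.1 - x.2 * a)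
  invFun := fun x => (x.2 + x.1 * a, x.1)
  map_add' := fun x y => by
    refine Prod.ext rfl ?_
    change x.1 + y.1 - (x.2 + y.2) * a = (x.1 - x.2 * a) + (y.1 - y.2 * a)
    ring
  map_smul' := fun c x => by
    refine Prod.ext rfl ?_
    change c * x.1 - (c * x.2) * a = c * (x.1 - x.2 * a)
    ring
  left_inv := fun x => by
    refine Prod.ext ?_ rfl
    change x.1 - x.2 * a + x.2 * a = x.1
    ring
  right_inv := fun x => by
    refine Prod.ext rfl ?_
    change x.2 + x.1 * a - x.1 * a = x.2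
    ring

/-- The Hurwitz move for two letters.
PROOF. `E = ℝ × ℝ` on both sides. `f (x, t) = (t, x - t * ω v u)`. With `a = ω v u`:
`L`: right `t t' + (x - t a)(x' - t' a) - ω (t (u + a v)) ((x' - t' a) v)`, and
`ω (u + a v) v = ω u v = -a`, so it is `t t' + (x - t a)(x' - t' a) + t a (x' - t' a)
= t t' + x x' - x t' a`, which is the left side `x x' + t t' - ω (x v) (t' u)`.
`p`: `t (u + a v) + (x - t a) v = x v + t u`. `X b`: left `(ω v (b + ω u b • u), ω u b)`, mapped to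
`(ω u b, ω v b + ω u b a - ω u b a) = (ω u b, ω v b)`; right
`(ω (u + a v) (b + ω v b • v), ω v b)` and `ω u b + ω v b * ω u v + a ω v b = ω u b`. -/
theorem letter_swap (v u : V) :
    Iso ((ltr (ω := ω) v).mul (ltr u)) ((ltr (u + ω v u • v)).mul (ltr v)) := by
  refine ⟨isoSwapEquiv (ω v u), fun (x y : ℝ × ℝ) => ?_, fun (x : ℝ × ℝ) => ?_, fun b => ?_⟩
  · obtain ⟨x, t⟩ := x
    obtain ⟨x', t'⟩ := y
    change t * t' + (x - t * ω v u) * (x' - t' * ω v u)
      - ω (t • (u + ω v u • v)) ((x' - t' * ω v u) • v) = x * x' + t * t' - ω (x • v) (t' • u)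
    simp only [map_smul, map_add, LinearMap.smul_apply, LinearMap.add_apply, smul_eq_mul,
      Alt.alt]
    rw [sk (ω := ω) u v]
    ring
  · obtain ⟨x, t⟩ := x
    change t • (u + ω v u • v) + (x - t * ω v u) • v = x • v + t • u
    rw [smul_add, smul_smul, sub_smul]
    abel
  · refine Prod.ext ?_ ?_
    · change ω u b = ω (u + ω v u • v) (b + ω v b • v)
      simp only [map_smul, map_add, LinearMap.smul_apply, LinearMap.add_apply, smul_eq_mul,
        Alt.alt]
      rw [sk (ω := ω) u v]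
      ring
    · change ω v (b + ω u b • u) - ω u b * ω v u = ω v b
      rw [map_add, map_smul, smul_eq_mul]
      ring

/-- PROOF. `t ↦ -t` (`LinearEquiv.neg ℝ`). -/
theorem ltr_neg (v : V) : Iso (ltr (ω := ω) (-v)) (ltr v) := by
  refine ⟨LinearEquiv.neg ℝ, fun (x y : ℝ) => ?_, fun (x : ℝ) => ?_, fun b => ?_⟩
  · change (-x) * (-y) = x * y
    ring
  · change (-x) • v = x • (-v)
    rw [neg_smul, smul_neg]
  · change -(ω (-v) b) = ω v b
    rw [map_neg, LinearMap.neg_apply, neg_neg]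

/-- PROOF. Induction on `w` with `mul_assoc_iso`, `one_mul_iso`, `Iso.mul`. -/
theorem obj_append (w w' : List V) : Iso (obj (ω := ω) (w ++ w')) ((obj w).mul (obj w')) := by
  induction w with
  | nil => exact (one_mul_iso _).symm
  | cons v w ih =>
    exact (Iso.mul (Iso.refl (ltr v)) ih).trans (mul_assoc_iso (ltr v) (obj w) (obj w')).symm

/-- The product of a list of objects. -/
def prodQ : List (QO ω) → QO ω
  | [] => QO.one ω
  | Q :: l => Q.mul (prodQ l)

/-- PROOF. Induction on `l`, `obj_append`. -/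
theorem obj_flatten (l : List (List V)) :
    Iso (obj (ω := ω) l.flatten) (prodQ (l.map obj)) := by
  induction l with
  | nil => exact Iso.refl _
  | cons w l ih => exact (obj_append w l.flatten).trans (Iso.mul (Iso.refl (obj w)) ih)

/-- Powers. -/
def QO.pow (Q : QO ω) : ℕ → QO ω
  | 0 => QO.one ω
  | n + 1 => Q.mul (Q.pow n)

end iso

end Pool.Agent.Helper81.SBA
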