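import Pool.Agent.Helper81.SBA.Sig

/-!
# Local words: points of multiplicity 2, 3, 4
-/

set_option autoImplicit false

open Module

namespace Pool.Agent.Helper81.SBA

section loc

variable {V : Type} [AddCommGroup V] [Module ℝ V] {ω : V →ₗ[ℝ] V →ₗ[ℝ] ℝ} [Alt ω]

private def LO_cons {A : Type} [AddCommGroup A] [Module ℝ A] (Q R : QO ω)
    (f : A →ₗ[ℝ] Q.E) (g : A →ₗ[ℝ] R.E) : A →ₗ[ℝ] (Q.mul R).E := f.prod g

private def LO_f {A : Type} [AddCommGroup A] [Module ℝ A] (v : V) (f : A →ₗ[ℝ] ℝ) :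
    A →ₗ[ℝ] (ltr (ω := ω) v).E := f

/-- A map to the space of a word. -/
private def LO_map {A : Type} [AddCommGroup A] [Module ℝ A] :
    (w : List V) → List (A →ₗ[ℝ] ℝ) → A →ₗ[ℝ] (obj (ω := ω) w).E
  | [], _ => 0
  | _ :: _, [] => 0
  | v :: w, f :: c => LO_cons (ltr v) (obj w) (LO_f v f) (LO_map w c)

section

variable {A : Type} [AddCommGroup A] [Module ℝ A]

private theorem LO_p (v : V) (w : List V) (f : A →ₗ[ℝ] ℝ) (c : List (A →ₗ[ℝ] ℝ)) (x : A) :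
    (obj (ω := ω) (v :: w)).p (LO_map (ω := ω) (v :: w) (f :: c) x) =
      f x • v + (obj (ω := ω) w).p (LO_map (ω := ω) w c x) := rfl

private theorem LO_p0 (x : A) :
    (obj (ω := ω) []).p (LO_map (ω := ω) ([] : List V) [] x) = 0 := rfl

private theorem LO_L (v : V) (w : List V) (f : A →ₗ[ℝ] ℝ) (c : List (A →ₗ[ℝ] ℝ)) (x : A) :
    (obj (ω := ω) (v :: w)).L (LO_map (ω := ω) (v :: w) (f :: c) x)
      (LO_map (ω := ω) (v :: w) (f :: c) x) =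
      f x * f x + (obj (ω := ω) w).L (LO_map (ω := ω) w c x) (LO_map (ω := ω) w c x) -
        ω (f x • v) ((obj (ω := ω) w).p (LO_map (ω := ω) w c x)) := rfl

private theorem LO_L0 (x : A) :
    (obj (ω := ω) []).L (LO_map (ω := ω) ([] : List V) [] x) (LO_map (ω := ω) [] [] x) = 0 := rfl

private theorem LO_inj_cons (v : V) (w : List V) (f : A →ₗ[ℝ] ℝ) (c : List (A →ₗ[ℝ] ℝ)) (x : A)
    (h : LO_map (ω := ω) (v :: w) (f :: c) x = 0) :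
    f x = 0 ∧ LO_map (ω := ω) w c x = 0 := by
  have h' : ((f x, LO_map (ω := ω) w c x) : ℝ × (obj (ω := ω) w).E) = 0 := h
  exact Prod.mk_eq_zero.1 h'

end

private theorem LO_loc (n : ℕ) (w : List V) (c : List ((Fin n → ℝ) →ₗ[ℝ] ℝ))
    (hi : ∀ x, LO_map (ω := ω) w c x = 0 → x = 0)
    (hp : ∀ x, (obj (ω := ω) w).p (LO_map (ω := ω) w c x) = 0)
    (hL : ∀ x, 0 ≤ (obj (ω := ω) w).L (LO_map (ω := ω) w c x) (LO_map (ω := ω) w c x)) :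
    (obj (ω := ω) w).Loc n := by
  refine ⟨LinearMap.range (LO_map (ω := ω) w c), ?_, ?_⟩
  · rw [LinearMap.finrank_range_of_inj ((injective_iff_map_eq_zero _).2 hi), Module.finrank_fin_fun]
  · rintro _ ⟨x, rfl⟩
    exact ⟨hp x, hL x⟩

/-- PROOF. `E = ℝ × (ℝ × PUnit)`, `F = {(t, -t)}`: `p = 0`, `L = 2 t²`. -/
theorem loc2 (u : V) : (obj (ω := ω) [u, u]).Loc 1 := by
  refine LO_loc 1 _ [LinearMap.proj (0 : Fin 1), -LinearMap.proj (0 : Fin 1)] ?_ ?_ ?_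
  · intro x hx
    obtain ⟨h1, -⟩ := LO_inj_cons _ _ _ _ _ hx
    funext i
    fin_cases i
    exact h1
  · intro x
    rw [LO_p, LO_p, LO_p0]
    simp
  · intro x
    rw [LO_L, LO_L, LO_L0, LO_p, LO_p0]
    simp only [LinearMap.proj_apply, LinearMap.neg_apply, map_add, map_smul, map_neg, neg_smul,
      LinearMap.smul_apply, smul_eq_mul, Alt.alt, map_zero]
    nlinarith [mul_self_nonneg (x 0)]

/-- PROOF. `F` = kernel of `(x1 + x3 + x5, x2 + x4 + x6)`, dimension at least 4. With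
`x5 = -x1-x3`, `x6 = -x2-x4` and `ω (u1, u2) = 1`:
`L x x = ∑ x_i² - x1 x2 - x1 x4 - x1 x6 + x2 x3 + x2 x5 - x3 x4 - x3 x6 + x4 x5 - x5 x6`
is `2 (x1 - x2/2 + x3/2 - x4/2)² + 3/2 (x2 + x3/3 + x4/3)² + 4/3 (x3 - x4/2)² + x4²`. -/
theorem loc3 {u1 u2 : V} (h12 : ω u1 u2 = 1) :
    (obj (ω := ω) [u1, u2, u1, u2, u1, u2]).Loc 4 := by
  have h21 : ω u2 u1 = -1 := by rw [sk, h12]
  have h11 : ω u1 u1 = 0 := Alt.alt _
  have h22 : ω u2 u2 = 0 := Alt.alt _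
  let q : Fin 4 → ((Fin 4 → ℝ) →ₗ[ℝ] ℝ) := fun i => LinearMap.proj i
  have hq : ∀ i x, q i x = x i := fun _ _ => rfl
  refine LO_loc 4 _ [q 0, q 1, q 2, q 3, -q 0 - q 2, -q 1 - q 3] ?_ ?_ ?_
  · intro x hx
    obtain ⟨h0, hx⟩ := LO_inj_cons _ _ _ _ _ hx
    obtain ⟨h1, hx⟩ := LO_inj_cons _ _ _ _ _ hx
    obtain ⟨h2, hx⟩ := LO_inj_cons _ _ _ _ _ hx
    obtain ⟨h3, -⟩ := LO_inj_cons _ _ _ _ _ hx
    funext i
    fin_cases i
    exacts [h0, h1, h2, h3]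
  · intro x
    simp only [LO_p, LO_p0, hq, LinearMap.neg_apply, LinearMap.sub_apply]
    module
  · intro x
    simp only [LO_L, LO_L0, LO_p, LO_p0, hq, LinearMap.neg_apply,
      LinearMap.sub_apply, map_add, map_smul, LinearMap.smul_apply, smul_eq_mul, h12, h21, h11,
      h22, map_zero]
    have key : 0 ≤ 2 * (x 0 - x 1 / 2 + x 2 / 2 - x 3 / 2) ^ 2 +
        3 / 2 * (x 1 + x 2 / 3 + x 3 / 3) ^ 2 + 4 / 3 * (x 2 - x 3 / 2) ^ 2 + x 3 ^ 2 := by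
      positivity
    refine key.trans (le_of_eq ?_)
    ring

/-- PROOF. `F` = kernel of the three sums (`x1+x4+x7+x10`, `x2+x5+x8+x11`, `x3+x6+x9+x12`), dimension
at least 9. With `x10 = -x1-x4-x7`, `x11 = -x2-x5-x8`, `x12 = -x3-x6-x9` the form `L x x` is
`2 (x1 - x2/2 + x4/2 - x5/2 + x7/2 - x8/2)²
+ 3/2 (x2 - 2/3 x3 + x4/3 + x5/3 - 2/3 x6 + x7/3 + x8/3 - 2/3 x9)²
+ 4/3 (x3 + (x4 + x5 + x6 + x7 + x8 + x9)/4)²
+ 5/4 (x4 - 3/5 x5 + x6/5 + x7/5 - 3/5 x8 + x9/5)²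
+ 4/5 (x5 - 3/4 x6 + x7/2 - x8/4 - 3/4 x9)²
+ 3/4 (x6 + 2/3 x7 + x8/3 - x9/3)² + 2/3 (x7 - x8 + x9)²`
(identity by `ring`, then `positivity`). Suggestion for the dimension: `F` is the range of an
injective linear map `(Fin 9 → ℝ) → E`, or the kernel of a map `E → ℝ³` (rank-nullity). -/
theorem loc4 {u1 u2 u3 : V} (h12 : ω u1 u2 = 1) (h23 : ω u2 u3 = 1) (h13 : ω u1 u3 = 0) :
    (obj (ω := ω) [u1, u2, u3, u1, u2, u3, u1, u2, u3, u1, u2, u3]).Loc 9 := by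
  have h21 : ω u2 u1 = -1 := by rw [sk, h12]
  have h32 : ω u3 u2 = -1 := by rw [sk, h23]
  have h31 : ω u3 u1 = 0 := by rw [sk, h13, neg_zero]
  have h11 : ω u1 u1 = 0 := Alt.alt _
  have h22 : ω u2 u2 = 0 := Alt.alt _
  have h33 : ω u3 u3 = 0 := Alt.alt _
  let q : Fin 9 → ((Fin 9 → ℝ) →ₗ[ℝ] ℝ) := fun i => LinearMap.proj i
  have hq : ∀ i x, q i x = x i := fun _ _ => rfl
  refine LO_loc 9 _ [q 0, q 1, q 2, q 3, q 4, q 5, q 6, q 7, q 8, -q 0 - q 3 - q 6,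
    -q 1 - q 4 - q 7, -q 2 - q 5 - q 8] ?_ ?_ ?_
  · intro x hx
    obtain ⟨h0, hx⟩ := LO_inj_cons _ _ _ _ _ hx
    obtain ⟨h1, hx⟩ := LO_inj_cons _ _ _ _ _ hx
    obtain ⟨h2, hx⟩ := LO_inj_cons _ _ _ _ _ hx
    obtain ⟨h3, hx⟩ := LO_inj_cons _ _ _ _ _ hx
    obtain ⟨h4, hx⟩ := LO_inj_cons _ _ _ _ _ hx
    obtain ⟨h5, hx⟩ := LO_inj_cons _ _ _ _ _ hx
    obtain ⟨h6, hx⟩ := LO_inj_cons _ _ _ _ _ hx
    obtain ⟨h7, hx⟩ := LO_inj_cons _ _ _ _ _ hx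
    obtain ⟨h8, -⟩ := LO_inj_cons _ _ _ _ _ hx
    funext i
    fin_cases i
    exacts [h0, h1, h2, h3, h4, h5, h6, h7, h8]
  · intro x
    simp only [LO_p, LO_p0, hq, LinearMap.neg_apply, LinearMap.sub_apply]
    module
  · intro x
    simp only [LO_L, LO_L0, LO_p, LO_p0, hq, LinearMap.neg_apply,
      LinearMap.sub_apply, map_add, map_smul, LinearMap.smul_apply, smul_eq_mul, h12, h21, h11,
      h22, h13, h31, h23, h32, h33, map_zero]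
    have key : 0 ≤ 2 * (x 0 - x 1 / 2 + x 3 / 2 - x 4 / 2 + x 6 / 2 - x 7 / 2) ^ 2
        + 3 / 2 * (x 1 - 2 / 3 * x 2 + x 3 / 3 + x 4 / 3 - 2 / 3 * x 5 + x 6 / 3 + x 7 / 3
          - 2 / 3 * x 8) ^ 2
        + 4 / 3 * (x 2 + (x 3 + x 4 + x 5 + x 6 + x 7 + x 8) / 4) ^ 2
        + 5 / 4 * (x 3 - 3 / 5 * x 4 + x 5 / 5 + x 6 / 5 - 3 / 5 * x 7 + x 8 / 5) ^ 2
        + 4 / 5 * (x 4 - 3 / 4 * x 5 + x 6 / 2 - x 7 / 4 - 3 / 4 * x 8) ^ 2
        + 3 / 4 * (x 5 + 2 / 3 * x 6 + x 7 / 3 - x 8 / 3) ^ 2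
        + 2 / 3 * (x 6 - x 7 + x 8) ^ 2 := by
      positivity
    refine key.trans (le_of_eq ?_)
    ring

private theorem LO_A_cons (v : V) (w : List V) (b : V) :
    (obj (ω := ω) (v :: w)).A b = (obj (ω := ω) w).A b + ω v ((obj (ω := ω) w).A b) • v := by
  change ((ltr v).mul (obj w)).A b = _
  rw [QO.mul_A, ltr_A]

private theorem LO_A_nil (b : V) : (obj (ω := ω) ([] : List V)).A b = b := QO.one_A b

/-- PROOF. `A b = T_u (T_u b) = b + 2 ω (u, b) u`; `A b = b + p (X b)`. -/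
theorem pX2 (u b : V) :
    (obj (ω := ω) [u, u]).p ((obj (ω := ω) [u, u]).X b) = (2 * ω u b) • u := by
  have h := (obj (ω := ω) [u, u]).A_apply b
  rw [LO_A_cons, LO_A_cons, LO_A_nil, map_add, map_smul, Alt.alt, smul_zero, add_zero] at h
  have h2 : (obj (ω := ω) [u, u]).p ((obj (ω := ω) [u, u]).X b) =
      b + ω u b • u + ω u b • u - b := by rw [h]; abel
  rw [h2]
  module

/-- PROOF. `(T_1 T_2) b = b + (ω u1 b + ω u2 b) u1 + ω u2 b u2`...; compute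
`(T_1 T_2)³ b - b` in terms of `ξ = ω u1 b`, `η = ω u2 b`. -/
theorem pX3 {u1 u2 : V} (h12 : ω u1 u2 = 1) (b : V) :
    (obj (ω := ω) [u1, u2, u1, u2, u1, u2]).p ((obj (ω := ω) [u1, u2, u1, u2, u1, u2]).X b) =
      (2 * ω u2 b) • u1 - (2 * ω u1 b) • u2 := by
  have h21 : ω u2 u1 = -1 := by rw [sk, h12]
  have h11 : ω u1 u1 = 0 := Alt.alt _
  have h22 : ω u2 u2 = 0 := Alt.alt _
  have h := (obj (ω := ω) [u1, u2, u1, u2, u1, u2]).A_apply b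
  simp only [LO_A_cons, LO_A_nil, map_add, map_smul, smul_eq_mul, h12, h21, h11, h22] at h
  have h2 := eq_sub_of_add_eq' h.symm
  rw [h2]
  module

/-- PROOF. Compute `(T_1 T_2 T_3)⁴ b - b` in terms of `ω u_i b`. -/
theorem pX4 {u1 u2 u3 : V} (h12 : ω u1 u2 = 1) (h23 : ω u2 u3 = 1) (h13 : ω u1 u3 = 0) (b : V) :
    (obj (ω := ω) [u1, u2, u3, u1, u2, u3, u1, u2, u3, u1, u2, u3]).p
      ((obj (ω := ω) [u1, u2, u3, u1, u2, u3, u1, u2, u3, u1, u2, u3]).X b) =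
      (2 * (ω u1 b + ω u3 b)) • (u1 + u3) := by
  have h21 : ω u2 u1 = -1 := by rw [sk, h12]
  have h32 : ω u3 u2 = -1 := by rw [sk, h23]
  have h31 : ω u3 u1 = 0 := by rw [sk, h13, neg_zero]
  have h11 : ω u1 u1 = 0 := Alt.alt _
  have h22 : ω u2 u2 = 0 := Alt.alt _
  have h33 : ω u3 u3 = 0 := Alt.alt _
  have s1 : ∀ p q r : ℝ, b + p • u1 + q • u2 + r • u3 + ω u1 (b + p • u1 + q • u2 + r • u3) • u1 =
      b + (p + ω u1 b + q) • u1 + q • u2 + r • u3 := by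
    intro p q r
    simp only [map_add, map_smul, smul_eq_mul, h12, h11, h13]
    module
  have s2 : ∀ p q r : ℝ, b + p • u1 + q • u2 + r • u3 + ω u2 (b + p • u1 + q • u2 + r • u3) • u2 =
      b + p • u1 + (q + ω u2 b - p + r) • u2 + r • u3 := by
    intro p q r
    simp only [map_add, map_smul, smul_eq_mul, h21, h22, h23]
    module
  have s3 : ∀ p q r : ℝ, b + p • u1 + q • u2 + r • u3 + ω u3 (b + p • u1 + q • u2 + r • u3) • u3 =
      b + p • u1 + q • u2 + (r + ω u3 b - q) • u3 := by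
    intro p q r
    simp only [map_add, map_smul, smul_eq_mul, h31, h32, h33]
    module
  have h := (obj (ω := ω) [u1, u2, u3, u1, u2, u3, u1, u2, u3, u1, u2, u3]).A_apply b
  have h0 : (obj (ω := ω) ([] : List V)).A b = b + (0 : ℝ) • u1 + (0 : ℝ) • u2 + (0 : ℝ) • u3 := by
    rw [LO_A_nil]
    simp
  simp only [LO_A_cons, h0, s1, s2, s3] at h
  have h2 := eq_sub_of_add_eq' h.symm
  rw [h2]
  module

end loc

end Pool.Agent.Helper81.SBA
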