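import Pool.Agent.Helper81.SBA.Ind
import Pool.Agent.Helper81.SBA.Loc

/-!
# Reduction mod 2 of the invariants
-/

set_option autoImplicit false

open Module

namespace Pool.Agent.Helper81.SBA

/-! ### Integral functionals -/

private theorem md1_int {n : ℕ} (F : Set (Fin n → ℤ))
    (h : ∀ b : Fin n → ZMod 2, (∀ f ∈ F, ∑ i, (f i : ZMod 2) * b i = 0) → b = 0) :
    ∀ N : ℕ, ∀ z : Fin n → ℤ, (∀ f ∈ F, ∑ i, f i * z i = 0) → ∑ i, (z i).natAbs = N → z = 0 := by
  intro N
  induction N using Nat.strong_induction_on with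
  | _ N ih =>
    intro z hz hN
    have h0 : (fun i => (z i : ZMod 2)) = 0 := by
      apply h
      intro f hf
      have h1 := congrArg (Int.cast : ℤ → ZMod 2) (hz f hf)
      push_cast at h1
      exact h1
    have h1 : ∀ i, ∃ w : ℤ, z i = 2 * w := by
      intro i
      have h2 : ((z i : ℤ) : ZMod 2) = 0 := congrFun h0 i
      exact (ZMod.intCast_zmod_eq_zero_iff_dvd (z i) 2).1 h2
    choose w hw using h1
    by_contra hne
    have h3 : ∃ i, z i ≠ 0 := by
      by_contra hh
      push Not at hh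
      exact hne (funext hh)
    obtain ⟨i0, hi0⟩ := h3
    have hpos : 0 < ∑ i, (z i).natAbs :=
      Finset.sum_pos' (fun _ _ => Nat.zero_le _) ⟨i0, Finset.mem_univ _, Int.natAbs_pos.2 hi0⟩
    have h4 : ∑ i, (z i).natAbs = 2 * ∑ i, (w i).natAbs := by
      rw [Finset.mul_sum]
      refine Finset.sum_congr rfl fun i _ => ?_
      rw [hw i, Int.natAbs_mul]
      rfl
    have h5 : w = 0 := by
      refine ih (∑ i, (w i).natAbs) (by omega) w ?_ rfl
      intro f hf
      have h6 := hz f hf
      have h7 : ∑ i, f i * z i = 2 * ∑ i, f i * w i := by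
        rw [Finset.mul_sum]
        refine Finset.sum_congr rfl fun i _ => ?_
        rw [hw i]
        ring
      omega
    apply hi0
    rw [hw i0, h5]
    simp

/-- PROOF. Let `b ≠ 0` be a real solution, `b i ≠ 0`. There is a `ℚ`-linear map `ψ : ℝ → ℚ` with
`ψ (b i) ≠ 0` (for example `exists_dual_forall_apply_eq_zero_iff`, `Module.exists_dual_...`, or a
`ℚ`-basis of `ℝ`); `ψ ∘ b` is a nonzero rational solution. Multiply by a common denominator: a nonzero
integral solution `c`; divide by the gcd of the entries (or take `c` with `∑ |c i|` minimal: if all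
`c i` are even then `c / 2` is smaller): some entry is odd. Its reduction is a nonzero solution
mod 2. -/
theorem ker_zero {n : ℕ} (F : Set (Fin n → ℤ))
    (h : ∀ b : Fin n → ZMod 2, (∀ f ∈ F, ∑ i, (f i : ZMod 2) * b i = 0) → b = 0)
    (b : Fin n → ℝ) (hb : ∀ f ∈ F, ∑ i, (f i : ℝ) * b i = 0) : b = 0 := by
  funext i0
  refine (Module.forall_dual_apply_eq_zero_iff ℚ (b i0)).1 fun psi => ?_
  have hc : ∀ f ∈ F, ∑ i, (f i : ℚ) * psi (b i) = 0 := by
    intro f hf
    have h1 := congrArg psi (hb f hf)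
    rw [map_sum, map_zero] at h1
    rw [← h1]
    refine Finset.sum_congr rfl fun i _ => ?_
    have h2 : (f i : ℝ) * b i = (f i : ℚ) • b i := by
      rw [Rat.smul_def]
      push_cast
      rfl
    rw [h2, map_smul, smul_eq_mul]
  have hD : ∀ i, (psi (b i)).den ∣ ∏ j, (psi (b j)).den :=
    fun i => Finset.dvd_prod_of_mem (fun j => (psi (b j)).den) (Finset.mem_univ i)
  choose q hq using hD
  have hD0 : (∏ j, (psi (b j)).den) ≠ 0 :=
    Finset.prod_ne_zero_iff.2 fun j _ => (psi (b j)).den_nz
  have hz : ∀ i, ((((psi (b i)).num * (q i : ℤ) : ℤ)) : ℚ) =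
      ((∏ j, (psi (b j)).den : ℕ) : ℚ) * psi (b i) := by
    intro i
    rw [hq i]
    push_cast
    have h1 : ((psi (b i)).num : ℚ) = psi (b i) * ((psi (b i)).den : ℚ) :=
      (Rat.mul_den_eq_num (psi (b i))).symm
    rw [h1]
    ring
  have h2 : (fun i => (psi (b i)).num * (q i : ℤ)) = 0 := by
    refine md1_int F h _ _ ?_ rfl
    intro f hf
    have h3 : ((∑ i, f i * ((psi (b i)).num * (q i : ℤ)) : ℤ) : ℚ) = 0 := by
      rw [Int.cast_sum]
      have h4 : ∀ i, ((f i * ((psi (b i)).num * (q i : ℤ)) : ℤ) : ℚ) =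
          ((∏ j, (psi (b j)).den : ℕ) : ℚ) * ((f i : ℚ) * psi (b i)) := by
        intro i
        rw [Int.cast_mul, hz i]
        ring
      simp only [h4]
      rw [← Finset.mul_sum, hc f hf, mul_zero]
    exact_mod_cast h3
  have h5 := hz i0
  have h6 : (psi (b i0)).num * (q i0 : ℤ) = 0 := congrFun h2 i0
  rw [h6, Int.cast_zero] at h5
  rcases mul_eq_zero.1 h5.symm with h7 | h7
  · exact absurd (by exact_mod_cast h7) hD0
  · exact h7

/-- The common kernel over a ring. -/
def kerF (R : Type) [CommRing R] {n : ℕ} (F : Set (Fin n → ℤ)) : Submodule R (Fin n → R) where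
  carrier := {b | ∀ f ∈ F, ∑ i, (f i : R) * b i = 0}
  add_mem' := by
    intro x y hx hy f hf
    simp only [Pi.add_apply, mul_add, Finset.sum_add_distrib, hx f hf, hy f hf, add_zero]
  zero_mem' := by
    intro f _
    simp
  smul_mem' := by
    intro c x hx f hf
    simp only [Pi.smul_apply, smul_eq_mul]
    have h1 : ∀ i, (f i : R) * (c * x i) = c * ((f i : R) * x i) := fun i => by ring
    simp only [h1, ← Finset.mul_sum, hx f hf, mul_zero]

/-- PROOF. Let `K₂ = kerF (ZMod 2) F`, `s` its dimension. An isomorphism `K₂ ≃ (Fin s → ZMod 2)`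
extends to a linear map `P` on the whole space (`LinearMap.exists_extend`); lift its `s` coordinate
functionals to integral ones, `P₁, ..., P_s` (`ZMod.val`). The system `F ∪ {P_j}` has no nonzero
solution mod 2, so by `ker_zero` none over `ℝ`; so `b ↦ (P_j b)_j` is injective on `kerF ℝ F`. -/
theorem finrank_ker_le {n : ℕ} (F : Set (Fin n → ℤ)) :
    finrank ℝ (kerF ℝ F) ≤ finrank (ZMod 2) (kerF (ZMod 2) F) := by
  obtain ⟨P, hP⟩ := LinearMap.exists_extend
    (Module.finBasis (ZMod 2) (kerF (ZMod 2) F)).equivFun.toLinearMap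
  have hval : ∀ (j : Fin (finrank (ZMod 2) (kerF (ZMod 2) F))) (x : Fin n → ZMod 2),
      ∑ i, ((((P (Pi.single i 1)) j).val : ℤ) : ZMod 2) * x i = P x j := by
    intro j x
    have h1 : x = ∑ i, x i • (Pi.single i (1 : ZMod 2) : Fin n → ZMod 2) := by
      funext t
      rw [Finset.sum_apply]
      simp [Pi.single_apply]
    conv_rhs => rw [h1]
    rw [map_sum, Finset.sum_apply]
    refine Finset.sum_congr rfl fun i _ => ?_
    rw [map_smul, Pi.smul_apply, smul_eq_mul, Int.cast_natCast, ZMod.natCast_zmod_val, mul_comm]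
  have hker : ∀ b : Fin n → ℝ,
      (∀ f ∈ F ∪ Set.range (fun j : Fin (finrank (ZMod 2) (kerF (ZMod 2) F)) =>
        fun i : Fin n => (((P (Pi.single i 1)) j).val : ℤ)), ∑ i, (f i : ℝ) * b i = 0) → b = 0 := by
    intro b hb
    refine ker_zero _ ?_ b hb
    intro x hx
    have hxK : x ∈ kerF (ZMod 2) F := fun f hf => hx f (Or.inl hf)
    have h1 : P x = 0 := by
      funext j
      rw [← hval j x]
      exact hx _ (Or.inr ⟨j, rfl⟩)
    have h2 : (Module.finBasis (ZMod 2) (kerF (ZMod 2) F)).equivFun ⟨x, hxK⟩ = 0 := by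
      have h3 := LinearMap.congr_fun hP ⟨x, hxK⟩
      change P x = _ at h3
      rw [h1] at h3
      exact h3.symm
    have h4 : (⟨x, hxK⟩ : kerF (ZMod 2) F) = 0 :=
      (LinearEquiv.map_eq_zero_iff _).1 h2
    exact congrArg Subtype.val h4
  let L : kerF ℝ F →ₗ[ℝ] (Fin (finrank (ZMod 2) (kerF (ZMod 2) F)) → ℝ) :=
    { toFun := fun b j => ∑ i, ((((P (Pi.single i 1)) j).val : ℤ) : ℝ) * b.1 i
      map_add' := by
        intro x y
        funext j
        simp only [Submodule.coe_add, Pi.add_apply, mul_add, Finset.sum_add_distrib]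
      map_smul' := by
        intro c x
        funext j
        simp only [Submodule.coe_smul, Pi.smul_apply, smul_eq_mul, RingHom.id_apply,
          Finset.mul_sum]
        refine Finset.sum_congr rfl fun i _ => ?_
        ring }
  have hL : Function.Injective L := by
    rw [← LinearMap.ker_eq_bot, LinearMap.ker_eq_bot']
    intro b hb
    apply Subtype.ext
    refine hker b.1 ?_
    rintro f (hf | ⟨j, rfl⟩)
    · exact b.2 f hf
    · exact congrFun hb j
  have h5 := LinearMap.finrank_le_finrank_of_injective hL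
  rw [Module.finrank_fin_fun] at h5
  exact h5

/-! ### Permutations of the strands and subsets -/

section perm

variable {m : ℕ}

private theorem perm_rel1 (i j : Fin m) (h : i.val + 1 = j.val) :
    Equiv.swap i.castSucc i.succ * Equiv.swap j.castSucc j.succ * Equiv.swap i.castSucc i.succ =
      Equiv.swap j.castSucc j.succ * Equiv.swap i.castSucc i.succ *
        Equiv.swap j.castSucc j.succ := by
  have e : j.castSucc = i.succ := Fin.ext (by simp [h])
  have h1 : i.castSucc ≠ i.succ := by
    intro h2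
    have := congrArg Fin.val h2
    rw [Fin.val_castSucc, Fin.val_succ] at this
    omega
  have h2 : i.castSucc ≠ j.succ := by
    intro h2
    have := congrArg Fin.val h2
    rw [Fin.val_castSucc, Fin.val_succ] at this
    omega
  have h3 : j.succ ≠ i.succ := by
    intro h2
    have := congrArg Fin.val h2
    rw [Fin.val_succ, Fin.val_succ] at this
    omega
  rw [e, Equiv.swap_mul_swap_mul_swap h1 h2, Equiv.swap_comm i.castSucc i.succ,
    Equiv.swap_comm i.succ j.succ, Equiv.swap_mul_swap_mul_swap h3 h2.symm, Equiv.swap_comm]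

private theorem perm_rel2 (i j : Fin m) (h : i.val + 2 ≤ j.val) :
    Equiv.swap i.castSucc i.succ * Equiv.swap j.castSucc j.succ =
      Equiv.swap j.castSucc j.succ * Equiv.swap i.castSucc i.succ := by
  refine (Equiv.Perm.disjoint_swap_swap ?_).commute.eq
  simp only [List.nodup_cons, List.mem_cons, List.not_mem_nil, or_false, not_or, Fin.ext_iff,
    Fin.val_castSucc, Fin.val_succ, not_false_eq_true, List.nodup_nil, and_true]
  omega

/-- The permutation of the strands. PROOF of the relations: `Equiv.ext`, `Equiv.swap_apply_def`. -/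
def perm (m : ℕ) : BraidGroup m →* Equiv.Perm (Fin (m + 1)) :=
  braidLift (fun i : Fin m => Equiv.swap i.castSucc i.succ)
    (by
      exact perm_rel1)
    (by
      exact perm_rel2)

theorem perm_sigma (i : Fin m) : perm m (sigma i) = Equiv.swap i.castSucc i.succ :=
  braidLift_sigma _ _ _ i

private theorem perm_twist_run (a n : ℕ) (h : a + n ≤ m) (t : Fin (m + 1)) :
    (perm m (run m a n) t).val =
      if t.val = a + n then a else if a ≤ t.val ∧ t.val < a + n then t.val + 1 else t.val := by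
  induction n generalizing t with
  | zero =>
    change (perm m 1 t).val = _
    rw [map_one]
    change t.val = _
    split_ifs <;> omega
  | succ n ih =>
    change (perm m (run m a n * sg m (a + n)) t).val = _
    have h1 : a + n < m := by omega
    have h2 : sg m (a + n) = sigma ⟨a + n, h1⟩ := by
      unfold sg
      rw [dif_pos h1]
    rw [map_mul, Equiv.Perm.mul_apply, ih (by omega), h2, perm_sigma]
    simp only [Equiv.swap_apply_def, Fin.ext_iff, Fin.val_castSucc, Fin.val_succ]
    split_ifs <;> simp_all <;> omega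

/-- PROOF. `run m a n` maps `a + n ↦ a`, `a + q ↦ a + q + 1` for `q < n`, so its power `n + 1` is the
identity: this is `twist m a (n + 1)`. (`k = 0`: `twist m a 0 = 1`.) -/
theorem perm_twist {a k : ℕ} (h : a + k ≤ m + 1) : perm m (twist m a k) = 1 := by
  rcases Nat.eq_zero_or_pos k with h0 | h0
  · unfold twist
    rw [h0, pow_zero, map_one]
  obtain ⟨n, rfl⟩ : ∃ n, k = n + 1 := ⟨k - 1, by omega⟩
  unfold twist
  rw [Nat.add_sub_cancel, map_pow]
  have key : ∀ (j : ℕ) (t : Fin (m + 1)), a ≤ t.val → t.val ≤ a + n →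
      ((perm m (run m a n) ^ j) t).val = a + ((t.val - a) + j) % (n + 1) := by
    intro j
    induction j with
    | zero =>
      intro t h1 h2
      rw [pow_zero, add_zero, Nat.mod_eq_of_lt (by omega)]
      change t.val = _
      omega
    | succ j ih =>
      intro t h1 h2
      have h3 := ih t h1 h2
      have h4 := Nat.mod_lt ((t.val - a) + j) (show n + 1 > 0 by omega)
      have h5 : ((t.val - a) + (j + 1)) % (n + 1) =
          if ((t.val - a) + j) % (n + 1) = n then 0 else ((t.val - a) + j) % (n + 1) + 1 := by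
        rw [← add_assoc, Nat.add_mod]
        rcases Nat.eq_zero_or_pos n with h6 | h6
        · subst h6
          simp [Nat.mod_one]
        · rw [Nat.mod_eq_of_lt (show 1 < n + 1 by omega)]
          split_ifs with h7
          · rw [h7, Nat.mod_self]
          · rw [Nat.mod_eq_of_lt (by omega)]
      rw [pow_succ', Equiv.Perm.mul_apply, perm_twist_run a n (by omega), h3, h5]
      split_ifs <;> omega
  have key2 : ∀ (j : ℕ) (t : Fin (m + 1)), ¬ (a ≤ t.val ∧ t.val ≤ a + n) →
      ((perm m (run m a n) ^ j) t).val = t.val := by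
    intro j
    induction j with
    | zero =>
      intro t _
      rfl
    | succ j ih =>
      intro t h1
      rw [pow_succ', Equiv.Perm.mul_apply, perm_twist_run a n (by omega), ih t h1]
      split_ifs <;> omega
  refine Equiv.ext fun t => Fin.ext ?_
  change ((perm m (run m a n) ^ (n + 1)) t).val = t.val
  by_cases h1 : a ≤ t.val ∧ t.val ≤ a + n
  · rw [key (n + 1) t h1.1 h1.2, Nat.add_mod_right, Nat.mod_eq_of_lt (by omega)]
    omega
  · exact key2 (n + 1) t h1

/-- The lines through a point. -/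
def blk (P : Pt m) : Finset (Fin (m + 1)) :=
  (Finset.univ.filter fun t : Fin (m + 1) => P.a ≤ t.val ∧ t.val < P.a + P.k).map
    (perm m P.g).toEmbedding

/-- PROOF. `Finset.card_map`, count. -/
theorem card_blk (P : Pt m) (h : P.a + P.k ≤ m + 1) : (blk P).card = P.k := by
  unfold blk
  rw [Finset.card_map]
  have h1 : (Finset.univ.filter fun t : Fin (m + 1) => P.a ≤ t.val ∧ t.val < P.a + P.k).map
      Fin.valEmbedding = Finset.Ico P.a (P.a + P.k) := by
    ext q
    rw [Finset.mem_map, Finset.mem_Ico]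
    constructor
    · rintro ⟨t, ht, rfl⟩
      exact (Finset.mem_filter.1 ht).2
    · intro h2
      exact ⟨⟨q, by omega⟩, Finset.mem_filter.2 ⟨Finset.mem_univ _, h2⟩, rfl⟩
  rw [← Finset.card_map Fin.valEmbedding, h1, Nat.card_Ico, Nat.add_sub_cancel_left]

/-- `ι (b)_t = b_t + b_{t-1}`, the sum of the `b_i (e_i + e_{i+1})`. -/
def iota (m : ℕ) : (Fin m → ZMod 2) →ₗ[ZMod 2] (Fin (m + 1) → ZMod 2) where
  toFun b := fun t => ∑ i : Fin m, b i * ((if i.castSucc = t then 1 else 0) +
    (if i.succ = t then 1 else 0))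
  map_add' x y := by
    ext t
    simp only [Pi.add_apply, add_mul, Finset.sum_add_distrib]
  map_smul' c x := by
    ext t
    simp only [Pi.smul_apply, smul_eq_mul, RingHom.id_apply, Finset.mul_sum, mul_assoc]

private theorem iota_apply (b : Fin m → ZMod 2) (t : Fin (m + 1)) :
    iota m b t = ∑ i : Fin m, b i * ((if i.castSucc = t then 1 else 0) +
      (if i.succ = t then 1 else 0)) := rfl

theorem iota_vb {i : ℕ} (hi : i < m) (t : Fin (m + 1)) :
    iota m (vb (ZMod 2) m i) t = (if t.val = i then 1 else 0) + (if t.val = i + 1 then 1 else 0) := by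
  rw [iota_apply, Finset.sum_eq_single (⟨i, hi⟩ : Fin m)]
  · simp only [vb, if_true, one_mul, Fin.ext_iff, Fin.val_castSucc, Fin.val_succ]
    congr 1
    · simp only [eq_comm]
    · simp only [eq_comm]
  · intro j _ hj
    have hj' : ¬ j.val = i := fun h => hj (Fin.ext h)
    simp [vb, hj']
  · intro h
    exact absurd (Finset.mem_univ _) h

/-- PROOF. `ι b = 0`: `b_0 = 0`, then `b_1 = 0`, ... -/
theorem iota_inj : Function.Injective (iota m) := by
  rw [injective_iff_map_eq_zero]
  intro b hb
  have key : ∀ (n : ℕ) (i : Fin m), i.val = n → b i = 0 := by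
    intro n
    induction n using Nat.strong_induction_on with
    | _ n ih =>
      intro i hi
      have h1 := congrFun hb i.castSucc
      rw [iota_apply, Finset.sum_eq_single i] at h1
      · simpa [Fin.ext_iff] using h1
      · intro j _ hj
        by_cases h2 : j.val < n
        · rw [ih j.val h2 j rfl, zero_mul]
        · have h3 : ¬ j.castSucc = i.castSucc := fun h => hj (Fin.castSucc_injective _ h)
          have h4 : ¬ j.succ = i.castSucc := fun h => by
            have := congrArg Fin.val h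
            rw [Fin.val_castSucc, Fin.val_succ] at this
            omega
          rw [if_neg h3, if_neg h4, add_zero, mul_zero]
      · intro h
        exact absurd (Finset.mem_univ _) h
  funext i
  exact key i.val i rfl

/-- PROOF. Both sides are bilinear; check on the basis (`om_vb`, `iota_vb`):
`∑_t` counts `{i, i+1} ∩ {j, j+1}` mod 2. Or expand directly. -/
theorem om_iota (x y : Fin m → ZMod 2) :
    om (ZMod 2) m x y = ∑ t, iota m x t * iota m y t := by
  have hc : ∀ i j : Fin m, ∑ t : Fin (m + 1),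
      ((if i.castSucc = t then (1 : ZMod 2) else 0) + (if i.succ = t then 1 else 0)) *
        ((if j.castSucc = t then 1 else 0) + (if j.succ = t then 1 else 0)) =
      (if i.val + 1 = j.val then 1 else 0) + (if j.val + 1 = i.val then 1 else 0) := by
    intro i j
    simp only [add_mul, mul_add, Finset.sum_add_distrib, ite_mul, one_mul, zero_mul,
      Finset.sum_ite_eq, Finset.mem_univ, if_true]
    simp only [Fin.ext_iff, Fin.val_castSucc, Fin.val_succ]
    have h2 : (1 : ZMod 2) + 1 = 0 := rfl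
    split_ifs <;> first | omega | simp [h2]
  have hr : ∑ t, iota m x t * iota m y t = ∑ i : Fin m, ∑ j : Fin m, x i * y j *
      ((if i.val + 1 = j.val then 1 else 0) + (if j.val + 1 = i.val then 1 else 0)) := by
    simp only [iota_apply, Finset.sum_mul_sum]
    rw [Finset.sum_comm]
    refine Finset.sum_congr rfl fun i _ => ?_
    rw [Finset.sum_comm]
    refine Finset.sum_congr rfl fun j _ => ?_
    rw [← hc, Finset.mul_sum]
    refine Finset.sum_congr rfl fun t _ => ?_
    ring
  have hl : om (ZMod 2) m x y = ∑ i : Fin m, ∑ j : Fin m, x i * y j *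
      (if i.val + 1 = j.val then 1 else 0) + ∑ i : Fin m, ∑ j : Fin m, x j * y i *
      (if i.val + 1 = j.val then 1 else 0) := by
    rw [om_apply, ← Finset.sum_add_distrib]
    refine Finset.sum_congr rfl fun i _ => ?_
    rw [← Finset.sum_add_distrib]
    refine Finset.sum_congr rfl fun j _ => ?_
    split_ifs
    · rw [mul_one, mul_one, sub_eq_add_neg, ZMod.neg_eq_self_mod_two]
    · rw [mul_zero, mul_zero, add_zero]
  rw [hr, hl, Finset.sum_comm (f := fun i j : Fin m => x j * y i *
      (if i.val + 1 = j.val then (1 : ZMod 2) else 0)), ← Finset.sum_add_distrib]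
  refine Finset.sum_congr rfl fun i _ => ?_
  rw [← Finset.sum_add_distrib]
  refine Finset.sum_congr rfl fun j _ => ?_
  ring

private theorem iota_rep_trv (i : Fin m) (x : Fin m → ZMod 2) (t : Fin (m + 1)) :
    iota m (trv (vb (ZMod 2) m i) x) (Equiv.swap i.castSucc i.succ t) = iota m x t := by
  have h1 : om (ZMod 2) m (vb (ZMod 2) m i) x = iota m x i.castSucc + iota m x i.succ := by
    rw [om_iota]
    have h2 : ∀ s : Fin (m + 1), iota m (vb (ZMod 2) m i) s * iota m x s =
        (if s = i.castSucc then iota m x s else 0) + (if s = i.succ then iota m x s else 0) := by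
      intro s
      rw [iota_vb i.2, add_mul, ite_mul, ite_mul, one_mul, zero_mul]
      simp only [Fin.ext_iff, Fin.val_castSucc, Fin.val_succ]
    simp only [h2, Finset.sum_add_distrib, Finset.sum_ite_eq', Finset.mem_univ, if_true]
  have h2 : ∀ z : ZMod 2, z + z = 0 := fun z => CharTwo.add_self_eq_zero z
  have h3 : i.succ.val ≠ i.val := by
    rw [Fin.val_succ]
    omega
  rw [trv_apply, map_add, map_smul, h1]
  change iota m x _ + (iota m x i.castSucc + iota m x i.succ) * iota m (vb (ZMod 2) m i) _ = _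
  rw [iota_vb i.2]
  by_cases ha : t = i.castSucc
  · rw [ha, Equiv.swap_apply_left, if_neg h3, if_pos (Fin.val_succ i), zero_add, mul_one]
    linear_combination h2 (iota m x i.succ)
  · by_cases hb : t = i.succ
    · rw [hb, Equiv.swap_apply_right, if_pos (Fin.val_castSucc i),
        if_neg (by rw [Fin.val_castSucc]; omega), add_zero, mul_one]
      linear_combination h2 (iota m x i.castSucc)
    · rw [Equiv.swap_apply_of_ne_of_ne ha hb,
        if_neg (fun h => ha (Fin.ext (by rw [h, Fin.val_castSucc]))),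
        if_neg (fun h => hb (Fin.ext (by rw [h, Fin.val_succ]))), add_zero, mul_zero, add_zero]

/-- PROOF. `braid_induction`; for `sigma i` (and its inverse, which is the same mod 2):
`ι (x + om v x • v) = ι x + (∑_t ι v_t ι x_t) ι v` and `ι v = e_i + e_{i+1}`: the values at `i`
and `i + 1` are exchanged. -/
theorem iota_rep (g : BraidGroup m) (x : Fin m → ZMod 2) (t : Fin (m + 1)) :
    iota m (rep (ZMod 2) m g x) (perm m g t) = iota m x t := by
  induction g using braid_induction generalizing x t with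
  | h1 =>
    rw [map_one, map_one]
    rfl
  | hm g i ih =>
    rw [map_mul, map_mul, rep_sigma, perm_sigma]
    change iota m (rep (ZMod 2) m g (trv _ x)) (perm m g (Equiv.swap _ _ t)) = _
    rw [ih, iota_rep_trv]
  | hi g i ih =>
    rw [map_mul, map_mul, map_inv, map_inv, rep_sigma, perm_sigma]
    change iota m (rep (ZMod 2) m g ((trv _)⁻¹ x)) (perm m g ((Equiv.swap _ _)⁻¹ t)) = _
    rw [ih, ← iota_rep_trv i]
    have h1 : ∀ z, trv (vb (ZMod 2) m i) ((trv (vb (ZMod 2) m i))⁻¹ z) = z :=
      fun z => (trv (vb (ZMod 2) m i)).apply_symm_apply z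
    have h2 : Equiv.swap i.castSucc i.succ ((Equiv.swap i.castSucc i.succ)⁻¹ t) = t :=
      (Equiv.swap i.castSucc i.succ).apply_symm_apply t
    rw [h1, h2]

/-- The code of an arrangement. -/
def code (l : List (Pt m)) : Submodule (ZMod 2) (Fin (m + 1) → ZMod 2) where
  carrier := {x | ∀ P ∈ l, (P.k ≠ 3 → ∑ t ∈ blk P, x t = 0) ∧
    (P.k = 3 → ∀ s ∈ blk P, ∀ t ∈ blk P, x s = x t)}
  add_mem' := by
    intro x y hx hy P hP
    refine ⟨fun h => ?_, fun h s hs t ht => ?_⟩
    · simp only [Pi.add_apply, Finset.sum_add_distrib, (hx P hP).1 h, (hy P hP).1 h, add_zero]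
    · rw [Pi.add_apply, Pi.add_apply, (hx P hP).2 h s hs t ht, (hy P hP).2 h s hs t ht]
  zero_mem' := by
    intro P _
    exact ⟨fun _ => by simp, fun _ _ _ _ _ => rfl⟩
  smul_mem' := by
    intro c x hx P hP
    refine ⟨fun h => ?_, fun h s hs t ht => ?_⟩
    · simp only [Pi.smul_apply, smul_eq_mul, ← Finset.mul_sum, (hx P hP).1 h, mul_zero]
    · rw [Pi.smul_apply, Pi.smul_apply, (hx P hP).2 h s hs t ht]

/-- The integral vectors of a point: `u` for `k = 2`, `u1, u2` for `k = 3`, `u1 + u3` for `k = 4`. -/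
def wP (P : Pt m) : Set (Fin m → ℤ) :=
  {w | (P.k = 2 ∧ w = rep ℤ m P.g (vb ℤ m P.a)) ∨
    (P.k = 3 ∧ (w = rep ℤ m P.g (vb ℤ m P.a) ∨ w = rep ℤ m P.g (vb ℤ m (P.a + 1)))) ∨
    (P.k = 4 ∧ w = rep ℤ m P.g (vb ℤ m P.a + vb ℤ m (P.a + 2)))}

/-- The functionals `om w` of these vectors. -/
def fP (l : List (Pt m)) : Set (Fin m → ℤ) :=
  {f | ∃ P ∈ l, ∃ w ∈ wP P, f = fun i : Fin m => om ℤ m w (vb ℤ m i)}

private theorem md3_vb (a : ℕ) :
    (fun i => ((vb ℤ m a i : ℤ) : ZMod 2)) = vb (ZMod 2) m a := by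
  funext i
  unfold vb
  split_ifs <;> simp

private theorem md3_blk (P : Pt m) (x : Fin (m + 1) → ZMod 2) :
    ∑ t ∈ blk P, x t =
      ∑ t ∈ Finset.univ.filter (fun t : Fin (m + 1) => P.a ≤ t.val ∧ t.val < P.a + P.k),
        x (perm m P.g t) := by
  unfold blk
  rw [Finset.sum_map]
  rfl

private theorem md3_key (l : List (Pt m)) (b : Fin m → ZMod 2) (hb : b ∈ kerF (ZMod 2) (fP l))
    (P : Pt m) (hP : P ∈ l) (v : Fin m → ℤ) (hv : rep ℤ m P.g v ∈ wP P) :
    ∑ t, iota m (fun i => ((v i : ℤ) : ZMod 2)) t * iota m b (perm m P.g t) = 0 := by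
  have h1 := hb _ ⟨P, hP, _, hv, rfl⟩
  have h2 : ∀ i : Fin m, ((om ℤ m (rep ℤ m P.g v) (vb ℤ m i) : ℤ) : ZMod 2) =
      om (ZMod 2) m (rep (ZMod 2) m P.g (fun i => ((v i : ℤ) : ZMod 2))) (vb (ZMod 2) m i) := by
    intro i
    have h3 := om_map (m := m) (Int.castRingHom (ZMod 2)) (rep ℤ m P.g v) (vb ℤ m i)
    have h4 := rep_map (m := m) (Int.castRingHom (ZMod 2)) P.g v
    simp only [Int.coe_castRingHom] at h3 h4
    rw [h3, h4, md3_vb]
  simp only [h2] at h1
  have h5 : b = ∑ i : Fin m, b i • vb (ZMod 2) m i := by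
    funext t
    rw [Finset.sum_apply, Finset.sum_eq_single t]
    · simp [vb]
    · intro c _ hc
      have hc' : t.val ≠ c.val := fun e => hc (Fin.ext e.symm)
      simp [vb, hc']
    · intro hh
      exact absurd (Finset.mem_univ _) hh
  have h6 : om (ZMod 2) m (rep (ZMod 2) m P.g (fun i => ((v i : ℤ) : ZMod 2))) b = 0 := by
    rw [← h1]
    conv_lhs => rw [h5]
    rw [map_sum]
    refine Finset.sum_congr rfl fun i _ => ?_
    rw [map_smul, smul_eq_mul, mul_comm]
  rw [om_iota, ← Equiv.sum_comp (perm m P.g)] at h6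
  rw [← h6]
  refine Finset.sum_congr rfl fun t _ => ?_
  rw [iota_rep]

/-- PROOF. `om w b = ∑ i, f i * b i` for `f i = om w v_i`. With `om_map`, `rep_map` for
`ℤ → ZMod 2`: for `b` in the kernel `om (ZMod 2) m (rep g v) b = 0`, by `om_iota` and `iota_rep`
`∑_t ι(v)_t ι(b)_{π t} = 0`. For `k = 2`, `v = v_a`: `ι(b)_{π a} + ι(b)_{π (a+1)} = 0`, the sum over
`blk P`. `k = 3`: the values at the three lines are equal. `k = 4`: `ι (v_a + v_{a+2})` is
`1` exactly on `a, ..., a + 3`. So `ι` maps the kernel into `code l`, injectively. -/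
theorem finrank_kerF_code (l : List (Pt m)) (h : ∀ P ∈ l, 2 ≤ P.k ∧ P.a + P.k ≤ m + 1)
    (h4 : ∀ P ∈ l, P.k ≤ 4) :
    finrank (ZMod 2) (kerF (ZMod 2) (fP l)) ≤ finrank (ZMod 2) (code l) := by
  have hmem : ∀ b ∈ kerF (ZMod 2) (fP l), iota m b ∈ code l := by
    intro b hb P hP
    obtain ⟨hk2, hak⟩ := h P hP
    have hk4 := h4 P hP
    have key : ∀ v : Fin m → ℤ, rep ℤ m P.g v ∈ wP P →
        ∑ t, iota m (fun i => ((v i : ℤ) : ZMod 2)) t * iota m b (perm m P.g t) = 0 :=
      fun v hv => md3_key l b hb P hP v hv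
    refine ⟨fun h3 => ?_, fun h3 s hs t ht => ?_⟩
    · rw [md3_blk]
      by_cases hk : P.k = 2
      · rw [← key (vb ℤ m P.a) (Or.inl ⟨hk, rfl⟩), Finset.sum_filter]
        refine Finset.sum_congr rfl fun t _ => ?_
        rw [md3_vb, iota_vb (by omega)]
        by_cases h5 : t.val = P.a
        · rw [if_pos (by omega), if_pos h5, if_neg (by omega), add_zero, one_mul]
        · by_cases h6 : t.val = P.a + 1
          · rw [if_pos (by omega), if_neg h5, if_pos h6, zero_add, one_mul]
          · rw [if_neg (by omega), if_neg h5, if_neg h6, zero_add, zero_mul]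
      · have hk' : P.k = 4 := by omega
        rw [← key (vb ℤ m P.a + vb ℤ m (P.a + 2))
          (Or.inr (Or.inr ⟨hk', rfl⟩)), Finset.sum_filter]
        refine Finset.sum_congr rfl fun t _ => ?_
        have h7 : (fun i => (((vb ℤ m P.a + vb ℤ m (P.a + 2)) i : ℤ) : ZMod 2)) =
            vb (ZMod 2) m P.a + vb (ZMod 2) m (P.a + 2) := by
          rw [← md3_vb P.a, ← md3_vb (P.a + 2)]
          funext i
          simp
        rw [h7, map_add, Pi.add_apply, iota_vb (by omega), iota_vb (by omega)]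
        by_cases h5 : t.val = P.a
        · rw [if_pos (by omega), if_pos h5, if_neg (by omega), if_neg (by omega),
            if_neg (by omega)]
          ring
        · by_cases h6 : t.val = P.a + 1
          · rw [if_pos (by omega), if_neg h5, if_pos h6, if_neg (by omega), if_neg (by omega)]
            ring
          · by_cases h8 : t.val = P.a + 2
            · rw [if_pos (by omega), if_neg h5, if_neg h6, if_pos h8, if_neg (by omega)]
              ring
            · by_cases h9 : t.val = P.a + 3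
              · rw [if_pos (by omega), if_neg h5, if_neg h6, if_neg h8, if_pos (by omega)]
                ring
              · rw [if_neg (by omega), if_neg h5, if_neg h6, if_neg h8, if_neg (by omega)]
                ring
    · have two : ∀ a' : ℕ, rep ℤ m P.g (vb ℤ m a') ∈ wP P → a' < m →
          ∀ s t : Fin (m + 1), s.val = a' → t.val = a' + 1 →
            iota m b (perm m P.g s) = iota m b (perm m P.g t) := by
        intro a' ha' hm s t hs ht
        have h5 := key (vb ℤ m a') ha'
        rw [md3_vb, Finset.sum_eq_add s t (by intro e; rw [e] at hs; omega)] at h5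
        · rw [iota_vb hm, iota_vb hm, if_pos hs, if_neg (by omega), if_neg (by omega), if_pos ht,
            add_zero, zero_add, one_mul, one_mul] at h5
          exact CharTwo.add_eq_zero.1 h5
        · intro c _ hc
          have hcs : c.val ≠ a' := fun e => hc.1 (Fin.ext (e.trans hs.symm))
          have hct : c.val ≠ a' + 1 := fun e => hc.2 (Fin.ext (e.trans ht.symm))
          rw [iota_vb hm, if_neg hcs, if_neg hct, add_zero, zero_mul]
        · intro hh
          exact absurd (Finset.mem_univ _) hh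
        · intro hh
          exact absurd (Finset.mem_univ _) hh
      have hw1 : rep ℤ m P.g (vb ℤ m P.a) ∈ wP P := Or.inr (Or.inl ⟨h3, Or.inl rfl⟩)
      have hw2 : rep ℤ m P.g (vb ℤ m (P.a + 1)) ∈ wP P := Or.inr (Or.inl ⟨h3, Or.inr rfl⟩)
      have all : ∀ s : Fin (m + 1), P.a ≤ s.val → s.val < P.a + P.k →
          iota m b (perm m P.g s) = iota m b (perm m P.g ⟨P.a, by omega⟩) := by
        intro s h5 h6
        have e1 := two P.a hw1 (by omega) ⟨P.a, by omega⟩ ⟨P.a + 1, by omega⟩ rfl rfl
        have e2 := two (P.a + 1) hw2 (by omega) ⟨P.a + 1, by omega⟩ ⟨P.a + 2, by omega⟩ rfl rfl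
        rcases (by omega : s.val = P.a ∨ s.val = P.a + 1 ∨ s.val = P.a + 2) with h7 | h7 | h7
        · have : s = ⟨P.a, by omega⟩ := Fin.ext h7
          rw [this]
        · have : s = ⟨P.a + 1, by omega⟩ := Fin.ext h7
          rw [this, e1]
        · have : s = ⟨P.a + 2, by omega⟩ := Fin.ext h7
          rw [this, ← e2, e1]
      unfold blk at hs ht
      rw [Finset.mem_map] at hs ht
      obtain ⟨s', hs', rfl⟩ := hs
      obtain ⟨t', ht', rfl⟩ := ht
      rw [Finset.mem_filter] at hs' ht'
      exact (all s' hs'.2.1 hs'.2.2).trans (all t' ht'.2.1 ht'.2.2).symm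
  have h5 := LinearMap.finrank_le_finrank_of_injective (f := (iota m).restrict hmem) (by
    intro x y hxy
    apply Subtype.ext
    apply iota_inj
    exact congrArg Subtype.val hxy)
  exact h5

/-! ### The objects of the points -/

/-- The word (list of letters) of a point. -/
def wd (P : Pt m) : List (BraidGroup m × Fin m) :=
  (List.replicate P.k ((List.range (P.k - 1)).filterMap fun q =>
    if h : P.a + q < m then some (P.g, (⟨P.a + q, h⟩ : Fin m)) else none)).flatten

/-- PROOF. The product of one block is `g * run m a (k - 1) * g⁻¹`. -/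
theorem wd_prod (P : Pt m) (h : P.a + P.k ≤ m + 1) : ((wd P).map bl).prod = P.braid := by
  have key : ∀ n : ℕ, P.a + n ≤ m → ((((List.range n).filterMap fun q =>
      if h : P.a + q < m then some (P.g, (⟨P.a + q, h⟩ : Fin m)) else none)).map bl).prod =
        P.g * run m P.a n * P.g⁻¹ := by
    intro n
    induction n with
    | zero =>
      intro _
      change (1 : BraidGroup m) = P.g * 1 * P.g⁻¹
      rw [mul_one, mul_inv_cancel]
    | succ n ih =>
      intro hn
      have h1 : P.a + n < m := by omega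
      have h2 : sg m (P.a + n) = sigma ⟨P.a + n, h1⟩ := by
        unfold sg
        rw [dif_pos h1]
      have h3 : ([n].filterMap fun q =>
          if h : P.a + q < m then some (P.g, (⟨P.a + q, h⟩ : Fin m)) else none) =
            [(P.g, (⟨P.a + n, h1⟩ : Fin m))] := by
        simp [h1]
      rw [List.range_succ, List.filterMap_append, List.map_append, List.prod_append,
        ih (by omega), h3, List.map_singleton, List.prod_singleton]
      change P.g * run m P.a n * P.g⁻¹ * (P.g * sigma ⟨P.a + n, h1⟩ * P.g⁻¹) =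
        P.g * (run m P.a n * sg m (P.a + n)) * P.g⁻¹
      rw [h2]
      group
  unfold wd
  rw [List.map_flatten, List.map_replicate, List.prod_flatten, List.map_replicate,
    List.prod_replicate]
  rcases Nat.eq_zero_or_pos P.k with h0 | h0
  · rw [h0, pow_zero]
    unfold Pt.braid twist
    rw [h0, pow_zero, mul_one, mul_inv_cancel]
  · rw [key (P.k - 1) (by omega), conj_pow]
    rfl

private theorem md4_wd2 (P : Pt m) (h : P.k = 2) (ha : P.a + 2 ≤ m + 1) :
    (wd P).map vl = [rep ℝ m P.g (vb ℝ m P.a), rep ℝ m P.g (vb ℝ m P.a)] := by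
  have h0 : P.a + 0 < m := by omega
  unfold wd
  rw [h]
  simp only [Nat.add_one_sub_one, List.range_succ, List.range_zero, List.nil_append,
    List.filterMap_cons, List.filterMap_nil, dif_pos h0, List.replicate_succ, List.replicate_zero,
    List.flatten_cons, List.flatten_nil, List.append_nil, List.cons_append,
    List.map_cons, List.map_nil]
  rfl

private theorem md4_wd3 (P : Pt m) (h : P.k = 3) (ha : P.a + 3 ≤ m + 1) :
    (wd P).map vl = [rep ℝ m P.g (vb ℝ m P.a), rep ℝ m P.g (vb ℝ m (P.a + 1)),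
      rep ℝ m P.g (vb ℝ m P.a), rep ℝ m P.g (vb ℝ m (P.a + 1)),
      rep ℝ m P.g (vb ℝ m P.a), rep ℝ m P.g (vb ℝ m (P.a + 1))] := by
  have h0 : P.a + 0 < m := by omega
  have h1 : P.a + 1 < m := by omega
  unfold wd
  rw [h]
  simp only [Nat.add_one_sub_one, List.range_succ, List.range_zero, List.nil_append,
    List.filterMap_cons, List.filterMap_nil, dif_pos h0, dif_pos h1, List.replicate_succ,
    List.replicate_zero, zero_add,
    List.flatten_cons, List.flatten_nil, List.append_nil, List.cons_append,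
    List.map_cons, List.map_nil]
  rfl

private theorem md4_wd4 (P : Pt m) (h : P.k = 4) (ha : P.a + 4 ≤ m + 1) :
    (wd P).map vl = [rep ℝ m P.g (vb ℝ m P.a), rep ℝ m P.g (vb ℝ m (P.a + 1)),
      rep ℝ m P.g (vb ℝ m (P.a + 2)), rep ℝ m P.g (vb ℝ m P.a), rep ℝ m P.g (vb ℝ m (P.a + 1)),
      rep ℝ m P.g (vb ℝ m (P.a + 2)), rep ℝ m P.g (vb ℝ m P.a), rep ℝ m P.g (vb ℝ m (P.a + 1)),
      rep ℝ m P.g (vb ℝ m (P.a + 2)), rep ℝ m P.g (vb ℝ m P.a), rep ℝ m P.g (vb ℝ m (P.a + 1)),
      rep ℝ m P.g (vb ℝ m (P.a + 2))] := by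
  have h0 : P.a + 0 < m := by omega
  have h1 : P.a + 1 < m := by omega
  have h2 : P.a + 2 < m := by omega
  unfold wd
  rw [h]
  simp only [Nat.add_one_sub_one, List.range_succ, List.range_zero, List.nil_append,
    List.filterMap_cons, List.filterMap_nil, dif_pos h0, dif_pos h1, dif_pos h2,
    List.replicate_succ, List.replicate_zero, zero_add, Nat.reduceAdd,
    List.flatten_cons, List.flatten_nil, List.append_nil, List.cons_append,
    List.map_cons, List.map_nil]
  rfl

/-- The object of a point. -/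
noncomputable def oP (P : Pt m) : QO (om ℝ m) := obj ((wd P).map vl)

/-- PROOF. `k = 2, 3, 4`: the list `(wd P).map vl` is `[u1, u1]`, `[u1, u2, u1, u2, u1, u2]`, ...
with `u_i = rep g v_{a+i-1}`, and `om` of these is known by `rep_om`, `om_vb`. `loc2`, `loc3`,
`loc4`. -/
theorem oP_loc (P : Pt m) (h : 2 ≤ P.k ∧ P.a + P.k ≤ m + 1) (h4 : P.k ≤ 4) :
    (oP P).Loc ((P.k - 1) ^ 2) := by
  have h12 : P.a + 1 < m → om ℝ m (rep ℝ m P.g (vb ℝ m P.a)) (rep ℝ m P.g (vb ℝ m (P.a + 1))) = 1 :=
    fun h1 => by rw [rep_om, om_vb (by omega) h1, if_pos rfl]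
  unfold oP
  obtain hk | hk | hk : P.k = 2 ∨ P.k = 3 ∨ P.k = 4 := by omega
  · rw [md4_wd2 P hk (by omega), hk]
    exact loc2 _
  · rw [md4_wd3 P hk (by omega), hk]
    exact loc3 (h12 (by omega))
  · rw [md4_wd4 P hk (by omega), hk]
    refine loc4 (h12 (by omega)) ?_ ?_
    · rw [rep_om, om_vb (by omega) (by omega), if_pos rfl]
    · rw [rep_om, om_vb (by omega) (by omega), if_neg (by omega), if_neg (by omega)]

/-- PROOF. `pX2`, `pX3`, `pX4`: `p (X b) = 0` implies `om w b = 0` for the vectors `w` of `wP P`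
(over `ℝ`, `rep_map`), because `u1 ≠ 0`, `u1, u2` independent, `u1 + u3 ≠ 0`; and
`om w b = ∑ f i * b i`. -/
theorem oP_ker (P : Pt m) (h : 2 ≤ P.k ∧ P.a + P.k ≤ m + 1) (h4 : P.k ≤ 4) (b : Fin m → ℝ)
    (hb : (oP P).p ((oP P).X b) = 0) (f : Fin m → ℤ)
    (hf : ∃ w ∈ wP P, f = fun i : Fin m => om ℤ m w (vb ℤ m i)) : ∑ i, (f i : ℝ) * b i = 0 := by
  obtain ⟨w, hw, rfl⟩ := hf
  -- the functional is `om ℝ w`
  have hb1 : b = ∑ i : Fin m, b i • vb ℝ m i := by
    funext j
    rw [Finset.sum_apply, Finset.sum_eq_single j]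
    · simp [vb]
    · intro i _ hij
      have : ¬ j.val = i.val := fun h => hij (Fin.ext h.symm)
      simp [vb, this]
    · intro h
      exact absurd (Finset.mem_univ j) h
  have hvb : ∀ i : ℕ, (fun j => ((vb ℤ m i j : ℤ) : ℝ)) = vb ℝ m i := by
    intro i
    funext j
    unfold vb
    split_ifs <;> simp
  have hvb' : ∀ i : ℕ, (fun j => (Int.castRingHom ℝ) (vb ℤ m i j)) = vb ℝ m i := hvb
  have hsum : ∑ i : Fin m, ((om ℤ m w (vb ℤ m i) : ℤ) : ℝ) * b i =
      om ℝ m (fun j => (w j : ℝ)) b := by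
    conv_rhs => rw [hb1]
    rw [map_sum]
    refine Finset.sum_congr rfl fun i _ => ?_
    have h1 := om_map (m := m) (Int.castRingHom ℝ) w (vb ℤ m i)
    rw [hvb'] at h1
    change ((om ℤ m w (vb ℤ m i) : ℤ) : ℝ) = om ℝ m (fun j => (w j : ℝ)) (vb ℝ m i) at h1
    rw [h1, map_smul, smul_eq_mul, mul_comm]
  rw [hsum]
  have hrep : ∀ i : ℕ, (fun j => ((rep ℤ m P.g (vb ℤ m i) j : ℤ) : ℝ)) =
      rep ℝ m P.g (vb ℝ m i) := by
    intro i
    have h1 := rep_map (m := m) (Int.castRingHom ℝ) P.g (vb ℤ m i)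
    rw [hvb'] at h1
    exact h1
  have hrep2 : ∀ i k : ℕ, (fun j => ((rep ℤ m P.g (vb ℤ m i + vb ℤ m k) j : ℤ) : ℝ)) =
      rep ℝ m P.g (vb ℝ m i) + rep ℝ m P.g (vb ℝ m k) := by
    intro i k
    rw [← hrep i, ← hrep k, map_add]
    funext j
    simp
  have h12 : P.a + 1 < m → om ℝ m (rep ℝ m P.g (vb ℝ m P.a)) (rep ℝ m P.g (vb ℝ m (P.a + 1))) = 1 :=
    fun h1 => by rw [rep_om, om_vb (by omega) h1, if_pos rfl]
  have hne : ∀ v : Fin m → ℝ, v ≠ 0 → rep ℝ m P.g v ≠ 0 := fun v hv h0 =>
    hv ((LinearEquiv.map_eq_zero_iff _).1 h0)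
  unfold oP at hb
  obtain hk | hk | hk : P.k = 2 ∨ P.k = 3 ∨ P.k = 4 := by omega
  · obtain ⟨-, rfl⟩ | ⟨h3, -⟩ | ⟨h4', -⟩ := hw
    · rw [md4_wd2 P hk (by omega), pX2] at hb
      have h1 : rep ℝ m P.g (vb ℝ m P.a) ≠ 0 := by
        apply hne
        intro h0
        have h2 := congrFun h0 (⟨P.a, by omega⟩ : Fin m)
        simp [vb] at h2
      rw [hrep]
      have h2 := (smul_eq_zero.1 hb).resolve_right h1
      linarith
    · omega
    · omega
  · have e12 := h12 (by omega)
    have e21 := om_skew (rep ℝ m P.g (vb ℝ m (P.a + 1))) (rep ℝ m P.g (vb ℝ m P.a))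
    rw [e12] at e21
    rw [md4_wd3 P hk (by omega), pX3 e12] at hb
    obtain ⟨h3, -⟩ | ⟨-, h3⟩ | ⟨h4', -⟩ := hw
    · omega
    · rcases h3 with rfl | rfl
      · rw [hrep]
        have h5 := congrArg (om ℝ m (rep ℝ m P.g (vb ℝ m P.a))) hb
        rw [map_sub, map_smul, map_smul, om_self, e12, map_zero, smul_eq_mul, smul_eq_mul] at h5
        linarith
      · rw [hrep]
        have h5 := congrArg (om ℝ m (rep ℝ m P.g (vb ℝ m (P.a + 1)))) hb
        rw [map_sub, map_smul, map_smul, om_self, e21, map_zero, smul_eq_mul, smul_eq_mul] at h5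
        linarith
    · omega
  · have e12 := h12 (by omega)
    have e23 : om ℝ m (rep ℝ m P.g (vb ℝ m (P.a + 1))) (rep ℝ m P.g (vb ℝ m (P.a + 2))) = 1 := by
      rw [rep_om, om_vb (by omega) (by omega), if_pos rfl]
    have e13 : om ℝ m (rep ℝ m P.g (vb ℝ m P.a)) (rep ℝ m P.g (vb ℝ m (P.a + 2))) = 0 := by
      rw [rep_om, om_vb (by omega) (by omega), if_neg (by omega), if_neg (by omega)]
    rw [md4_wd4 P hk (by omega), pX4 e12 e23 e13] at hb
    obtain ⟨h3, -⟩ | ⟨h3, -⟩ | ⟨-, rfl⟩ := hw
    · omega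
    · omega
    · rw [hrep2]
      have h1 : rep ℝ m P.g (vb ℝ m P.a) + rep ℝ m P.g (vb ℝ m (P.a + 2)) ≠ 0 := by
        rw [← map_add]
        apply hne
        intro h0
        have h2 := congrFun h0 (⟨P.a, by omega⟩ : Fin m)
        simp [vb] at h2
      have h2 := (smul_eq_zero.1 hb).resolve_right h1
      rw [map_add, LinearMap.add_apply]
      linarith

/-- PROOF. `inv ≤ kerF ℝ (fP l)` by `oP_ker`, then `finrank_ker_le`, `finrank_kerF_code`. -/
theorem finrank_inv_le (l : List (Pt m)) (h : ∀ P ∈ l, 2 ≤ P.k ∧ P.a + P.k ≤ m + 1)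
    (h4 : ∀ P ∈ l, P.k ≤ 4) :
    finrank ℝ (inv (l.map oP)) ≤ finrank (ZMod 2) (code l) := by
  have h1 : inv (l.map oP) ≤ kerF ℝ (fP l) := by
    intro b hb f hf
    obtain ⟨P, hP, hw⟩ := hf
    unfold inv at hb
    rw [Submodule.mem_iInf] at hb
    have h2 := hb (oP P)
    rw [Submodule.mem_iInf] at h2
    have h3 := h2 (List.mem_map_of_mem hP)
    rw [LinearMap.mem_ker, LinearMap.comp_apply] at h3
    exact oP_ker P (h P hP) (h4 P hP) b h3 f hw
  exact (Submodule.finrank_mono h1).trans ((finrank_ker_le _).trans (finrank_kerF_code l h h4))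

end perm

end Pool.Agent.Helper81.SBA
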