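import Pool.Agent.Helper81.SBA.Md

/-!
# Pairs of lines and the weights of the code
-/

set_option autoImplicit false

open Module

namespace Pool.Agent.Helper81.SBA

section pr

variable {m : ℕ}

/-! ### Each pair of lines lies in exactly one point -/

/-- The number `1` if `{s, t} = {i, i + 1}`, else `0`. -/
def adj (i : ℕ) (s t : Fin (m + 1)) : ℤ :=
  if (s.val = i ∧ t.val = i + 1) ∨ (t.val = i ∧ s.val = i + 1) then 1 else 0

/-- Swap on natural numbers. -/
private def pr1_sw (i x : ℕ) : ℕ := if x = i then i + 1 else if x = i + 1 then i else x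

private theorem pr1_swap (i : Fin m) (s : Fin (m + 1)) :
    (Equiv.swap i.castSucc i.succ s).val = pr1_sw i.val s.val := by
  unfold pr1_sw
  rw [Equiv.swap_apply_def]
  have e1 : s = i.castSucc ↔ s.val = i.val := Fin.ext_iff
  have e2 : s = i.succ ↔ s.val = i.val + 1 := Fin.ext_iff
  by_cases h1 : s = i.castSucc
  · rw [if_pos h1, if_pos (e1.mp h1)]
    rfl
  · rw [if_neg h1, if_neg (fun h => h1 (e1.mpr h))]
    by_cases h2 : s = i.succ
    · rw [if_pos h2, if_pos (e2.mp h2)]
      rfl
    · rw [if_neg h2, if_neg (fun h => h2 (e2.mpr h))]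

private theorem pr1_adj (i : Fin m) (s t : Fin (m + 1)) :
    adj i.val (Equiv.swap i.castSucc i.succ s) (Equiv.swap i.castSucc i.succ t) =
      adj i.val s t := by
  unfold adj
  rw [pr1_swap, pr1_swap]
  unfold pr1_sw
  split_ifs <;> first | rfl | (exfalso; omega)

/-- The generators act on functions of two strands: `f ↦ s_i f + adj i`. -/
def pAct (i : Fin m) : Equiv.Perm (Fin (m + 1) → Fin (m + 1) → ℤ) where
  toFun f := fun s t => f (Equiv.swap i.castSucc i.succ s) (Equiv.swap i.castSucc i.succ t) +
    adj i.val s t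
  invFun f := fun s t => f (Equiv.swap i.castSucc i.succ s) (Equiv.swap i.castSucc i.succ t) -
    adj i.val s t
  left_inv f := by
    funext s t
    simp only [Equiv.swap_apply_self, pr1_adj]
    ring
  right_inv f := by
    funext s t
    simp only [Equiv.swap_apply_self, pr1_adj]
    ring

private theorem pr1_pAct (i : Fin m) (f : Fin (m + 1) → Fin (m + 1) → ℤ) (s t : Fin (m + 1)) :
    pAct i f s t = f (Equiv.swap i.castSucc i.succ s) (Equiv.swap i.castSucc i.succ t) +
      adj i.val s t := rfl

private theorem pr1_pAct_symm (i : Fin m) (f : Fin (m + 1) → Fin (m + 1) → ℤ)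
    (s t : Fin (m + 1)) :
    (pAct i)⁻¹ f s t = f (Equiv.swap i.castSucc i.succ s) (Equiv.swap i.castSucc i.succ t) -
      adj i.val s t := rfl

private theorem pr1_braid (i j : Fin m) (h : i.val + 1 = j.val) :
    pAct i * pAct j * pAct i = pAct j * pAct i * pAct j := by
  ext f s t
  simp only [Equiv.Perm.mul_apply, pr1_pAct]
  have hs : ∀ s : Fin (m + 1), Equiv.swap i.castSucc i.succ (Equiv.swap j.castSucc j.succ
      (Equiv.swap i.castSucc i.succ s)) = Equiv.swap j.castSucc j.succ
      (Equiv.swap i.castSucc i.succ (Equiv.swap j.castSucc j.succ s)) := by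
    intro s
    apply Fin.ext
    simp only [pr1_swap]
    unfold pr1_sw
    rw [← h]
    split_ifs <;> omega
  rw [hs s, hs t]
  have ha : adj i.val (Equiv.swap j.castSucc j.succ (Equiv.swap i.castSucc i.succ s))
      (Equiv.swap j.castSucc j.succ (Equiv.swap i.castSucc i.succ t)) = adj j.val s t := by
    unfold adj
    simp only [pr1_swap]
    unfold pr1_sw
    rw [← h]
    generalize s.val = x
    generalize t.val = y
    generalize i.val = z
    split_ifs <;> first | rfl | (exfalso; omega)
  have hb : adj j.val (Equiv.swap i.castSucc i.succ (Equiv.swap j.castSucc j.succ s))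
      (Equiv.swap i.castSucc i.succ (Equiv.swap j.castSucc j.succ t)) = adj i.val s t := by
    unfold adj
    simp only [pr1_swap]
    unfold pr1_sw
    rw [← h]
    generalize s.val = x
    generalize t.val = y
    generalize i.val = z
    split_ifs <;> first | rfl | (exfalso; omega)
  have hc : adj j.val (Equiv.swap i.castSucc i.succ s) (Equiv.swap i.castSucc i.succ t) =
      adj i.val (Equiv.swap j.castSucc j.succ s) (Equiv.swap j.castSucc j.succ t) := by
    unfold adj
    simp only [pr1_swap]
    unfold pr1_sw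
    rw [← h]
    generalize s.val = x
    generalize t.val = y
    generalize i.val = z
    split_ifs <;> first | rfl | (exfalso; omega)
  rw [ha, hb, hc]
  ring

private theorem pr1_comm (i j : Fin m) (h : i.val + 2 ≤ j.val) :
    pAct i * pAct j = pAct j * pAct i := by
  ext f s t
  simp only [Equiv.Perm.mul_apply, pr1_pAct]
  have hs : ∀ s : Fin (m + 1), Equiv.swap j.castSucc j.succ (Equiv.swap i.castSucc i.succ s) =
      Equiv.swap i.castSucc i.succ (Equiv.swap j.castSucc j.succ s) := by
    intro s
    apply Fin.ext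
    simp only [pr1_swap]
    unfold pr1_sw
    split_ifs <;> omega
  rw [hs s, hs t]
  have ha : adj j.val (Equiv.swap i.castSucc i.succ s) (Equiv.swap i.castSucc i.succ t) =
      adj j.val s t := by
    unfold adj
    simp only [pr1_swap]
    unfold pr1_sw
    split_ifs <;> first | rfl | (exfalso; omega)
  have hb : adj i.val (Equiv.swap j.castSucc j.succ s) (Equiv.swap j.castSucc j.succ t) =
      adj i.val s t := by
    unfold adj
    simp only [pr1_swap]
    unfold pr1_sw
    split_ifs <;> first | rfl | (exfalso; omega)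
  rw [ha, hb]
  ring

/-- PROOF of the relations: both sides are `f` of the permuted arguments plus the sum of three (two)
values `adj`; with `s_i s_{i+1} s_i = s_{i+1} s_i s_{i+1}` on `Fin (m + 1)`, and the sum of the
values is the number of pairs among `{i, i+1, i+2}` equal to `{s, t}`. Case distinction. -/
def pHom (m : ℕ) : BraidGroup m →* Equiv.Perm (Fin (m + 1) → Fin (m + 1) → ℤ) :=
  braidLift pAct pr1_braid pr1_comm

private theorem pr1_sigma (i : Fin m) : pHom m (sigma i) = pAct i := braidLift_sigma _ _ _ i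

/-- The cocycle. PROOF. `braid_induction`: `pHom g f s t = f (π⁻¹ s) (π⁻¹ t) + pHom g 0 s t`. -/
theorem pHom_apply (g : BraidGroup m) (f : Fin (m + 1) → Fin (m + 1) → ℤ) (s t : Fin (m + 1)) :
    pHom m g f s t = f ((perm m g)⁻¹ s) ((perm m g)⁻¹ t) + pHom m g 0 s t := by
  induction g using braid_induction generalizing f with
  | h1 => simp
  | hm g i ih =>
    rw [map_mul, map_mul, pr1_sigma, perm_sigma, mul_inv_rev, Equiv.swap_inv]
    simp only [Equiv.Perm.mul_apply]
    rw [ih (pAct i f), ih (pAct i 0), pr1_pAct, pr1_pAct]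
    simp only [Pi.zero_apply]
    ring
  | hi g i ih =>
    rw [map_mul, map_mul, map_inv, map_inv, pr1_sigma, perm_sigma, mul_inv_rev, inv_inv]
    simp only [Equiv.Perm.mul_apply]
    rw [ih ((pAct i)⁻¹ f), ih ((pAct i)⁻¹ 0), pr1_pAct_symm, pr1_pAct_symm]
    simp only [Pi.zero_apply]
    ring

/-- The inverse of the cycle of a run. -/
private def pr1_cy (a n x : ℕ) : ℕ := if x = a then a + n else if a < x ∧ x ≤ a + n then x - 1 else x

private theorem pr1_perm_run {a n : ℕ} (h : a + n ≤ m) (s : Fin (m + 1)) :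
    ((perm m (run m a n))⁻¹ s).val = pr1_cy a n s.val := by
  induction n with
  | zero =>
    unfold pr1_cy
    simp only [run, map_one, inv_one, Equiv.Perm.one_apply]
    split_ifs <;> omega
  | succ n ih =>
    have hn : a + n < m := by omega
    rw [run, sg, dif_pos hn, map_mul, perm_sigma, mul_inv_rev, Equiv.swap_inv,
      Equiv.Perm.mul_apply, pr1_swap, ih (by omega)]
    unfold pr1_sw pr1_cy
    simp only
    split_ifs <;> omega

private theorem pr1_run {a n : ℕ} (h : a + n ≤ m) (s t : Fin (m + 1)) :
    pHom m (run m a n) 0 s t = if (s.val = a ∧ a < t.val ∧ t.val ≤ a + n) ∨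
      (t.val = a ∧ a < s.val ∧ s.val ≤ a + n) then 1 else 0 := by
  induction n with
  | zero =>
    simp only [run, map_one, Equiv.Perm.one_apply, Pi.zero_apply]
    rw [if_neg (by omega)]
  | succ n ih =>
    have hn : a + n < m := by omega
    rw [run, sg, dif_pos hn, map_mul, Equiv.Perm.mul_apply, pHom_apply, ih (by omega), pr1_sigma,
      pr1_pAct]
    unfold adj
    rw [pr1_perm_run (by omega), pr1_perm_run (by omega)]
    unfold pr1_cy
    simp only [Pi.zero_apply]
    generalize s.val = x
    generalize t.val = y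
    split_ifs <;> first | rfl | (exfalso; omega)

private theorem pr1_pow {a n : ℕ} (h : a + n ≤ m) (s t : Fin (m + 1)) (hst : s ≠ t) (j : ℕ)
    (hj : j ≤ n + 1) :
    pHom m (run m a n ^ j) 0 s t =
      if a ≤ s.val ∧ s.val ≤ a + n ∧ a ≤ t.val ∧ t.val ≤ a + n then
        (if s.val < a + j then 1 else 0) + (if t.val < a + j then 1 else 0) else 0 := by
  induction j generalizing s t with
  | zero =>
    simp only [pow_zero, map_one, Equiv.Perm.one_apply, Pi.zero_apply]
    split_ifs <;> first | rfl | (exfalso; omega)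
  | succ j ih =>
    rw [pow_succ', map_mul, Equiv.Perm.mul_apply, pHom_apply, pr1_run h,
      ih _ _ (fun he => hst ((perm m (run m a n))⁻¹.injective he)) (by omega),
      pr1_perm_run h, pr1_perm_run h]
    have hst' : s.val ≠ t.val := fun he => hst (Fin.ext he)
    unfold pr1_cy
    generalize s.val = x at *
    generalize t.val = y at *
    split_ifs <;> first | rfl | (exfalso; omega)

/-- PROOF. `run m a (k-1)` moves the strands cyclically; `pHom (run m a n) 0 s t` is `1` for
`{s, t} = {a, q}`, `a < q ≤ a + n`, else `0` (induction on `n`); its `k`-th power, `k = n + 1`, is the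
sum over the `k` cyclic shifts: every pair in `[a, a + k)` is counted twice. Suggestion: induction for
the powers is possible with the formula: for `j ≤ k`, `pHom (run^j) 0 s t` =
number of `i < j` with `{c^{-i} s, c^{-i} t} ∋ a`, `c` the cycle. -/
theorem pHom_twist {a k : ℕ} (h : a + k ≤ m + 1) (s t : Fin (m + 1)) (hst : s ≠ t) :
    pHom m (twist m a k) 0 s t =
      if a ≤ s.val ∧ s.val < a + k ∧ a ≤ t.val ∧ t.val < a + k then 2 else 0 := by
  rcases k with _ | n
  · simp only [twist, pow_zero, map_one, Equiv.Perm.one_apply, Pi.zero_apply]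
    rw [if_neg (by omega)]
  · rw [twist, Nat.add_sub_cancel, pr1_pow (by omega) s t hst (n + 1) le_rfl]
    by_cases hc : a ≤ s.val ∧ s.val ≤ a + n ∧ a ≤ t.val ∧ t.val ≤ a + n
    · rw [if_pos hc, if_pos (by omega), if_pos (by omega), if_pos (by omega)]
      norm_num
    · rw [if_neg hc, if_neg (by omega)]

/-- PROOF. `P.braid = g T g⁻¹` has trivial permutation (`perm_twist`), so by `pHom_apply` its value
at `0` is that of the twist at `(π⁻¹ s, π⁻¹ t)`, i.e. `2` iff `s, t ∈ blk P`. -/
theorem pHom_braid (P : Pt m) (h : P.a + P.k ≤ m + 1) (s t : Fin (m + 1)) (hst : s ≠ t) :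
    pHom m P.braid 0 s t = if s ∈ blk P ∧ t ∈ blk P then 2 else 0 := by
  have hinj : (perm m P.g)⁻¹ s ≠ (perm m P.g)⁻¹ t := fun h' =>
    hst ((perm m P.g)⁻¹.injective h')
  have e1 : pHom m P.braid 0 s t =
      pHom m P.g (pHom m (twist m P.a P.k) (pHom m P.g⁻¹ 0)) s t := by
    unfold Pt.braid
    rw [map_mul, map_mul]
    rfl
  have e2 : pHom m P.g (pHom m P.g⁻¹ 0) s t = 0 := by
    have h1 : pHom m P.g (pHom m P.g⁻¹ 0) = 0 := by
      have h2 : (pHom m P.g * pHom m P.g⁻¹) 0 = 0 := by
        rw [← map_mul, mul_inv_cancel, map_one]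
        rfl
      exact h2
    rw [h1]
    rfl
  rw [pHom_apply] at e2
  rw [e1, pHom_apply, pHom_apply (twist m P.a P.k), perm_twist h, inv_one,
    pHom_twist h _ _ hinj]
  have hb : ∀ u : Fin (m + 1), u ∈ blk P ↔
      P.a ≤ ((perm m P.g)⁻¹ u).val ∧ ((perm m P.g)⁻¹ u).val < P.a + P.k := by
    intro u
    unfold blk
    rw [Finset.mem_map]
    constructor
    · rintro ⟨v, hv, rfl⟩
      rw [Finset.mem_filter] at hv
      have h3 : (perm m P.g)⁻¹ ((perm m P.g).toEmbedding v) = v :=
        (perm m P.g).symm_apply_apply v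
      rw [h3]
      exact hv.2
    · intro hu
      exact ⟨(perm m P.g)⁻¹ u, Finset.mem_filter.mpr ⟨Finset.mem_univ _, hu⟩,
        (perm m P.g).apply_symm_apply u⟩
  simp only [hb, Equiv.Perm.coe_one, id_eq]
  split_ifs with h4 h5 h5
  · linarith
  · exact absurd ⟨⟨h4.1, h4.2.1⟩, h4.2.2⟩ h5
  · exact absurd ⟨h5.1.1, h5.1.2, h5.2⟩ h4
  · linarith

private theorem pr2_countP_sum {α : Type*} (p : α → Prop) [DecidablePred p] (l : List α) :
    l.countP (fun P => decide (p P)) = (l.map fun P => if p P then 1 else 0).sum := by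
  induction l with
  | nil => rfl
  | cons a l ih =>
    rw [List.countP_cons, ih, List.map_cons, List.sum_cons]
    by_cases h : p a
    · simp only [h, decide_true, if_true]
      omega
    · simp only [h, decide_false, Bool.false_eq_true, if_false]
      omega

private theorem pr2_sum_swap {α β : Type*} (S : Finset β) (f : α → β → ℕ) (l : List α) :
    ∑ x ∈ S, (l.map fun P => f P x).sum = (l.map fun P => ∑ x ∈ S, f P x).sum := by
  induction l with
  | nil => simp
  | cons a l ih =>
    simp only [List.map_cons, List.sum_cons, Finset.sum_add_distrib, ih]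

private theorem pr2_prod_pHom (L : List (BraidGroup m)) (hL : ∀ g ∈ L, perm m g = 1)
    (s t : Fin (m + 1)) :
    perm m L.prod = 1 ∧ pHom m L.prod 0 s t = (L.map fun g => pHom m g 0 s t).sum := by
  induction L with
  | nil =>
    refine ⟨by rw [List.prod_nil, map_one], ?_⟩
    rw [List.prod_nil, map_one]
    rfl
  | cons g L ih =>
    obtain ⟨ih1, ih2⟩ := ih fun x hx => hL x (List.mem_cons_of_mem _ hx)
    have hg : perm m g = 1 := hL g List.mem_cons_self
    refine ⟨by rw [List.prod_cons, map_mul, hg, ih1, mul_one], ?_⟩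
    have e1 : pHom m (g :: L).prod 0 s t = pHom m g (pHom m L.prod 0) s t := by
      rw [List.prod_cons, map_mul]
      rfl
    rw [e1, pHom_apply, hg, inv_one, List.map_cons, List.sum_cons]
    simp only [Equiv.Perm.coe_one, id_eq]
    rw [ih2]
    ring

/-- **Two lines meet in exactly one point.** PROOF. The product of the `P.braid` is the full twist;
on pure braids `g ↦ pHom g 0 s t` is additive (`pHom_apply`). So `2 * countP = 2`. -/
theorem pair_count {l : List (Pt m)} (hl : IsArr m l) (s t : Fin (m + 1)) (hst : s ≠ t) :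
    l.countP (fun P => decide (s ∈ blk P ∧ t ∈ blk P)) = 1 := by
  obtain ⟨h1, h2⟩ := hl
  have hpure : ∀ g ∈ l.map Pt.braid, perm m g = 1 := by
    intro g hg
    obtain ⟨P, hP, rfl⟩ := List.mem_map.mp hg
    unfold Pt.braid
    rw [map_mul, map_mul, perm_twist (h1 P hP).2, mul_one, map_inv, mul_inv_cancel]
  have h3 := (pr2_prod_pHom (l.map Pt.braid) hpure s t).2
  rw [h2, pHom_twist (le_of_eq (Nat.zero_add _)) s t hst, if_pos ⟨Nat.zero_le _, by
    have := s.isLt; omega, Nat.zero_le _, by have := t.isLt; omega⟩, List.map_map] at h3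
  have h4 : (l.map ((fun g => pHom m g 0 s t) ∘ Pt.braid)).sum =
      ((2 * l.countP (fun P => decide (s ∈ blk P ∧ t ∈ blk P)) : ℕ) : ℤ) := by
    clear h3 h2 hpure
    induction l with
    | nil => rfl
    | cons P l ih =>
      rw [List.map_cons, List.sum_cons, ih fun Q hQ => h1 Q (List.mem_cons_of_mem _ hQ),
        List.countP_cons]
      have h5 := pHom_braid P (h1 P List.mem_cons_self).2 s t hst
      rw [Function.comp_apply, h5]
      by_cases h6 : s ∈ blk P ∧ t ∈ blk P
      · simp only [h6, and_self, if_true, decide_true]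
        push_cast
        ring
      · simp only [h6, if_false, decide_false, Bool.false_eq_true]
        push_cast
        ring
  rw [h4] at h3
  have h7 : 2 = 2 * l.countP (fun P => decide (s ∈ blk P ∧ t ∈ blk P)) := by exact_mod_cast h3
  omega

private theorem pr2_unique {α : Type*} (p : α → Prop) [DecidablePred p] (l : List α)
    (h : l.countP (fun P => decide (p P)) = 1) : ∃! j : Fin l.length, p (l.get j) := by
  induction l with
  | nil => simp at h
  | cons a l ih =>
    rw [List.countP_cons] at h
    by_cases ha : p a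
    · simp only [ha, decide_true, if_true] at h
      have h0 : l.countP (fun P => decide (p P)) = 0 := by omega
      rw [List.countP_eq_zero] at h0
      refine ⟨⟨0, by simp⟩, ha, ?_⟩
      rintro ⟨j, hj⟩ hpj
      cases j with
      | zero => rfl
      | succ j =>
        exfalso
        have h1 : p (l.get ⟨j, by simpa using hj⟩) := hpj
        exact h0 _ (List.get_mem l _) (decide_eq_true h1)
    · simp only [ha, decide_false, Bool.false_eq_true, if_false, Nat.add_zero] at h
      obtain ⟨j, hj, hu⟩ := ih h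
      refine ⟨j.succ, hj, ?_⟩
      rintro ⟨i, hi⟩ hpi
      cases i with
      | zero => exact absurd hpi ha
      | succ i =>
        have h1 : p (l.get ⟨i, by simpa using hi⟩) := hpi
        have h2 := hu ⟨i, by simpa using hi⟩ h1
        apply Fin.ext
        show i + 1 = j.val + 1
        rw [← h2]

/-- PROOF. From `pair_count`. -/
theorem pair_unique {l : List (Pt m)} (hl : IsArr m l) (s t : Fin (m + 1)) (hst : s ≠ t) :
    ∃! j : Fin l.length, s ∈ blk (l.get j) ∧ t ∈ blk (l.get j) :=
  pr2_unique (fun P => s ∈ blk P ∧ t ∈ blk P) l (pair_count hl s t hst)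

/-- The pairs are counted: `∑ k (k - 1) = (m + 1) m`.
PROOF. The homomorphism `BraidGroup m → ℤ`, `sigma i ↦ 1` (`braidLift` to `Multiplicative ℤ`), maps
`run m a n` to `n` (if `a + n ≤ m`) and the twist to `k (k - 1)`. Or sum `pair_count`. -/
theorem pairs_sum {l : List (Pt m)} (hl : IsArr m l) :
    (l.map fun P => P.k * (P.k - 1)).sum = (m + 1) * m := by
  classical
  have h1 : ∑ x ∈ (Finset.univ : Finset (Fin (m + 1))).offDiag,
      (l.map fun P => if x.1 ∈ blk P ∧ x.2 ∈ blk P then 1 else 0).sum = (m + 1) * m := by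
    have h2 : ∀ x ∈ (Finset.univ : Finset (Fin (m + 1))).offDiag,
        (l.map fun P => if x.1 ∈ blk P ∧ x.2 ∈ blk P then 1 else 0).sum = 1 := by
      intro x hx
      rw [← pr2_countP_sum]
      exact pair_count hl x.1 x.2 (Finset.mem_offDiag.mp hx).2.2
    rw [Finset.sum_congr rfl h2, Finset.sum_const, Finset.offDiag_card, Finset.card_univ,
      Fintype.card_fin, smul_eq_mul, mul_one]
    have : (m + 1) * (m + 1) = (m + 1) * m + (m + 1) := by ring
    omega
  rw [pr2_sum_swap] at h1
  rw [← h1]
  congr 1
  apply List.map_congr_left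
  intro P hP
  rw [← Finset.sum_filter, Finset.sum_const, smul_eq_mul, mul_one]
  have h3 : (Finset.univ : Finset (Fin (m + 1))).offDiag.filter
      (fun x => x.1 ∈ blk P ∧ x.2 ∈ blk P) = (blk P).offDiag := by
    ext x
    rw [Finset.mem_filter, Finset.mem_offDiag, Finset.mem_offDiag]
    constructor
    · rintro ⟨⟨-, -, h4⟩, h5, h6⟩
      exact ⟨h5, h6, h4⟩
    · rintro ⟨h5, h6, h4⟩
      exact ⟨⟨Finset.mem_univ _, Finset.mem_univ _, h4⟩, h5, h6⟩
  rw [h3, Finset.offDiag_card, card_blk P (hl.1 P hP).2, Nat.mul_sub, Nat.mul_one]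

/-- On each line: `∑_{P ∋ s} (k_P - 1) = m`. PROOF. Sum `pair_count` over `t ≠ s`. -/
theorem line_sum {l : List (Pt m)} (hl : IsArr m l) (s : Fin (m + 1)) :
    ((l.filter fun P => decide (s ∈ blk P)).map fun P => P.k - 1).sum = m := by
  classical
  have h1 : ∑ t ∈ (Finset.univ : Finset (Fin (m + 1))).erase s,
      (l.map fun P => if s ∈ blk P ∧ t ∈ blk P then 1 else 0).sum = m := by
    have h2 : ∀ t ∈ (Finset.univ : Finset (Fin (m + 1))).erase s,
        (l.map fun P => if s ∈ blk P ∧ t ∈ blk P then 1 else 0).sum = 1 := by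
      intro t ht
      rw [← pr2_countP_sum]
      exact pair_count hl s t (Finset.ne_of_mem_erase ht).symm
    rw [Finset.sum_congr rfl h2, Finset.sum_const, Finset.card_erase_of_mem (Finset.mem_univ _),
      Finset.card_univ, Fintype.card_fin, smul_eq_mul, mul_one, Nat.add_sub_cancel]
  rw [pr2_sum_swap] at h1
  have h3 : ∀ L : List (Pt m), (∀ P ∈ L, P ∈ l) →
      ((L.filter fun P => decide (s ∈ blk P)).map fun P => P.k - 1).sum =
      (L.map fun P => ∑ t ∈ (Finset.univ : Finset (Fin (m + 1))).erase s,
        if s ∈ blk P ∧ t ∈ blk P then 1 else 0).sum := by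
    intro L
    induction L with
    | nil => intro _; rfl
    | cons P L ih =>
      intro hL
      rw [List.map_cons, List.sum_cons, ← ih fun Q hQ => hL Q (List.mem_cons_of_mem _ hQ)]
      by_cases hs : s ∈ blk P
      · rw [List.filter_cons_of_pos (p := fun P : Pt m => decide (s ∈ blk P))
          (by simpa using hs), List.map_cons, List.sum_cons]
        congr 1
        rw [← Finset.sum_filter, Finset.sum_const, smul_eq_mul, mul_one]
        have h4 : ((Finset.univ : Finset (Fin (m + 1))).erase s).filter
            (fun t => s ∈ blk P ∧ t ∈ blk P) = (blk P).erase s := by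
          ext t
          rw [Finset.mem_filter, Finset.mem_erase, Finset.mem_erase]
          constructor
          · rintro ⟨⟨h5, -⟩, -, h6⟩
            exact ⟨h5, h6⟩
          · rintro ⟨h5, h6⟩
            exact ⟨⟨h5, Finset.mem_univ _⟩, hs, h6⟩
        rw [h4, Finset.card_erase_of_mem hs,
          card_blk P (hl.1 P (hL P List.mem_cons_self)).2]
      · rw [List.filter_cons_of_neg (p := fun P : Pt m => decide (s ∈ blk P))
          (by simpa using hs)]
        have h4 : ∑ t ∈ (Finset.univ : Finset (Fin (m + 1))).erase s,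
            (if s ∈ blk P ∧ t ∈ blk P then 1 else 0) = 0 := by
          refine Finset.sum_eq_zero fun t _ => ?_
          rw [if_neg fun h => hs h.1]
        rw [h4, Nat.zero_add]
  rw [h3 l fun P hP => hP, h1]

/-! ### Weights -/

/-- The support. -/
def supp {n : ℕ} (x : Fin n → ZMod 2) : Finset (Fin n) := Finset.univ.filter fun t => x t ≠ 0

/-- PROOF. Let `i ∈ supp x`. For `t ∉ supp x` let `P` be the point of `i` and `t`
(`pair_unique`). `P.k = 3` is impossible (`x` constant on the block), so `∑_{blk P} x = 0`: the block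
contains an even number of elements of `supp x`, among them `i`, and `t` is not in `supp x`, so
`P.k = 4` and the block has exactly two elements `i, i'` in `supp x` and two outside. The map
`t ↦ i'` from the complement of `supp x` to `supp x \ {i}` has fibres with at most 2 elements
(`P` is determined by `i, i'`). So `(m + 1) - |supp x| ≤ 2 (|supp x| - 1)`. -/
theorem code_weight {l : List (Pt m)} (hl : IsArr m l) (h4 : ∀ P ∈ l, P.k ≤ 4)
    (x : Fin (m + 1) → ZMod 2) (hx : x ∈ code l) (h0 : x ≠ 0) : m + 3 ≤ 3 * (supp x).card := by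
  classical
  have hms : ∀ t, t ∈ supp x ↔ x t ≠ 0 := fun t => by simp [supp]
  obtain ⟨i, hi⟩ : ∃ i, i ∈ supp x := by
    by_contra h
    push Not at h
    apply h0
    funext t
    by_contra ht
    exact h t ((hms t).2 ht)
  -- the local structure at the point of `i` and `t`
  have hloc : ∀ t ∉ supp x, ∀ P ∈ l, i ∈ blk P → t ∈ blk P →
      ((blk P).filter fun s => s ∈ supp x).card = 2 ∧
      ((blk P).filter fun s => s ∉ supp x).card ≤ 2 := by
    intro t ht P hP hiP htP
    have hk := hl.1 P hP
    have h4P := h4 P hP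
    have hc := card_blk P hk.2
    have hxP := hx P hP
    have hk3 : P.k ≠ 3 := by
      intro h3
      have h5 := hxP.2 h3 i hiP t htP
      have h6 : x t = 0 := by
        by_contra h7
        exact ht ((hms t).2 h7)
      exact (hms i).1 hi (h5.trans h6)
    have hsum := hxP.1 hk3
    have hval : ∀ s : Fin (m + 1), x s = if s ∈ supp x then 1 else 0 := by
      intro s
      have h2 : ∀ c : ZMod 2, c ≠ 0 → c = 1 := by decide
      by_cases h : s ∈ supp x
      · rw [if_pos h]
        exact h2 _ ((hms s).1 h)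
      · rw [if_neg h]
        by_contra h7
        exact h ((hms s).2 h7)
    rw [Finset.sum_congr rfl fun s _ => hval s, Finset.sum_boole] at hsum
    have hev : 2 ∣ ((blk P).filter fun s => s ∈ supp x).card :=
      (ZMod.natCast_eq_zero_iff _ 2).1 hsum
    have hadd := Finset.card_filter_add_card_filter_not (s := blk P) (fun s => s ∈ supp x)
    have hpos : 0 < ((blk P).filter fun s => s ∈ supp x).card :=
      Finset.card_pos.2 ⟨i, Finset.mem_filter.2 ⟨hiP, hi⟩⟩
    have hpos' : 0 < ((blk P).filter fun s => ¬ s ∈ supp x).card :=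
      Finset.card_pos.2 ⟨t, Finset.mem_filter.2 ⟨htP, ht⟩⟩
    have hk4 : P.k = 2 ∨ P.k = 4 := by omega
    constructor <;> omega
  have hne : ∀ t, t ∉ supp x → i ≠ t := fun t ht h => ht (h ▸ hi)
  have hex : ∀ t, t ∉ supp x → ∃ i', i' ∈ (supp x).erase i ∧
      ∃ j : Fin l.length, i ∈ blk (l.get j) ∧ t ∈ blk (l.get j) ∧ i' ∈ blk (l.get j) := by
    intro t ht
    obtain ⟨j, ⟨h1, h2⟩, -⟩ := pair_unique hl i t (hne t ht)
    obtain ⟨h3, -⟩ := hloc t ht (l.get j) (List.get_mem l j) h1 h2
    obtain ⟨i', hi', hii⟩ : ∃ i' ∈ (blk (l.get j)).filter fun s => s ∈ supp x, i' ≠ i :=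
      Finset.exists_mem_ne (by omega) i
    rw [Finset.mem_filter] at hi'
    exact ⟨i', Finset.mem_erase.2 ⟨hii, hi'.2⟩, j, h1, h2, hi'.1⟩
  choose! f hf1 hf2 using hex
  have hcard : (supp x)ᶜ.card ≤ 2 * ((supp x).erase i).card := by
    refine Finset.card_le_mul_card_image_of_maps_to (f := f)
      (fun t ht => hf1 t (Finset.mem_compl.1 ht)) 2 ?_
    intro i' hi'
    by_cases hemp : ((supp x)ᶜ.filter fun t => f t = i') = ∅
    · rw [hemp]
      simp
    · obtain ⟨t0, ht0⟩ := Finset.nonempty_iff_ne_empty.2 hemp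
      rw [Finset.mem_filter, Finset.mem_compl] at ht0
      obtain ⟨j, hj1, hj2, hj3⟩ := hf2 t0 ht0.1
      rw [ht0.2] at hj3
      obtain ⟨-, hb⟩ := hloc t0 ht0.1 (l.get j) (List.get_mem l j) hj1 hj2
      refine (Finset.card_le_card fun t ht => ?_).trans hb
      rw [Finset.mem_filter, Finset.mem_compl] at ht
      obtain ⟨j', hj1', hj2', hj3'⟩ := hf2 t ht.1
      rw [ht.2] at hj3'
      have hii : i ≠ i' := (Finset.mem_erase.1 hi').1.symm
      obtain ⟨j'', -, hu⟩ := pair_unique hl i i' hii
      have hjj : j' = j := (hu j' ⟨hj1', hj3'⟩).trans (hu j ⟨hj1, hj3⟩).symm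
      rw [hjj] at hj2'
      exact Finset.mem_filter.2 ⟨hj2', ht.1⟩
  rw [Finset.card_compl, Fintype.card_fin, Finset.card_erase_of_mem hi] at hcard
  have hpos : 0 < (supp x).card := Finset.card_pos.2 ⟨i, hi⟩
  omega

end pr

end Pool.Agent.Helper81.SBA
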