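import Pool.Agent.Helper81.SBA.Sig

/-!
# The monoid of isomorphism classes of objects
-/

set_option autoImplicit false

namespace Pool.Agent.Helper81.SBA

section qm

variable {V : Type} [AddCommGroup V] [Module ℝ V] (ω : V →ₗ[ℝ] V →ₗ[ℝ] ℝ) [Alt ω]

instance qoSetoid : Setoid (QO ω) := ⟨Iso, Iso.refl, Iso.symm, Iso.trans⟩

/-- Isomorphism classes. -/
def QM : Type 1 := Quotient (qoSetoid ω)

variable {ω}

/-- The class of an object. -/
def cl (Q : QO ω) : QM ω := Quotient.mk (qoSetoid ω) Q

omit [Alt ω] in
theorem cl_eq {Q R : QO ω} : cl Q = cl R ↔ Iso Q R := Quotient.eq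

instance : Monoid (QM ω) where
  mul := Quotient.map₂ QO.mul fun _ _ h _ _ h' => Iso.mul h h'
  one := cl (QO.one ω)
  mul_assoc a b c := by
    induction a using Quotient.inductionOn with | _ Q
    induction b using Quotient.inductionOn with | _ R
    induction c using Quotient.inductionOn with | _ S
    exact Quotient.sound (mul_assoc_iso Q R S)
  one_mul a := by
    induction a using Quotient.inductionOn with | _ Q
    exact Quotient.sound (one_mul_iso Q)
  mul_one a := by
    induction a using Quotient.inductionOn with | _ Q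
    exact Quotient.sound (mul_one_iso Q)

theorem cl_mul (Q R : QO ω) : cl (Q.mul R) = cl Q * cl R := rfl

theorem cl_one : cl (QO.one ω) = 1 := rfl

/-- PROOF. Induction on the list, `cl_mul`. -/
theorem cl_obj (w : List V) : cl (obj (ω := ω) w) = (w.map fun v => cl (ltr v)).prod := by
  induction w with
  | nil => rfl
  | cons v w ih =>
    rw [List.map_cons, List.prod_cons, ← ih]
    rfl

theorem cl_pow (Q : QO ω) (k : ℕ) : cl (Q.pow k) = cl Q ^ k := by
  induction k with
  | zero => rfl
  | succ k ih =>
    rw [pow_succ', ← ih]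
    rfl

theorem cl_swap (v u : V) :
    cl (ltr (ω := ω) v) * cl (ltr u) = cl (ltr (u + ω v u • v)) * cl (ltr v) :=
  cl_eq.2 (letter_swap v u)

theorem cl_neg (v : V) : cl (ltr (ω := ω) (-v)) = cl (ltr v) := cl_eq.2 (ltr_neg v)

end qm

end Pool.Agent.Helper81.SBA
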