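import Mathlib

/-!
# Quadratic objects over a symplectic space

An object: a finite dimensional real space `E` with a bilinear form `L`, a map `p : E → V` and a
map `X : V → E` with `L x y - L y x = - ω (p x) (p y)` and `L y (X b) = ω (p y) b`.
Words of vectors of `V` give objects: the product of the letters `[v]`.
-/

set_option autoImplicit false

namespace Pool.Agent.Helper81.SBA

/-- `ω` is alternating. -/
class Alt {V : Type} [AddCommGroup V] [Module ℝ V] (ω : V →ₗ[ℝ] V →ₗ[ℝ] ℝ) : Prop where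
  alt : ∀ x, ω x x = 0

section qo

variable {V : Type} [AddCommGroup V] [Module ℝ V] {ω : V →ₗ[ℝ] V →ₗ[ℝ] ℝ}

theorem sk [Alt ω] (x y : V) : ω x y = - ω y x := by
  have h := Alt.alt (ω := ω) (x + y)
  simp only [map_add, LinearMap.add_apply, Alt.alt, zero_add, add_zero] at h
  linarith

structure QO (ω : V →ₗ[ℝ] V →ₗ[ℝ] ℝ) where
  E : Type
  [ac : AddCommGroup E]
  [md : Module ℝ E]
  [fd : Module.Finite ℝ E]
  L : E →ₗ[ℝ] E →ₗ[ℝ] ℝ
  p : E →ₗ[ℝ] V
  X : V →ₗ[ℝ] E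
  rel : ∀ x y, L x y - L y x = - ω (p x) (p y)
  hX : ∀ y b, L y (X b) = ω (p y) b

attribute [instance] QO.ac QO.md QO.fd

/-- The monodromy `A = 1 + p X`. -/
def QO.A (Q : QO ω) : V →ₗ[ℝ] V := LinearMap.id + Q.p ∘ₗ Q.X

theorem QO.A_apply (Q : QO ω) (b : V) : Q.A b = b + Q.p (Q.X b) := rfl

/-- Isomorphism of objects. -/
def Iso (Q R : QO ω) : Prop :=
  ∃ f : Q.E ≃ₗ[ℝ] R.E, (∀ x y, R.L (f x) (f y) = Q.L x y) ∧ (∀ x, R.p (f x) = Q.p x) ∧
    ∀ b, f (Q.X b) = R.X b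

theorem Iso.refl (Q : QO ω) : Iso Q Q :=
  ⟨LinearEquiv.refl ℝ Q.E, fun _ _ => rfl, fun _ => rfl, fun _ => rfl⟩

theorem Iso.symm {Q R : QO ω} (h : Iso Q R) : Iso R Q := by
  obtain ⟨f, h1, h2, h3⟩ := h
  refine ⟨f.symm, fun x y => ?_, fun x => ?_, fun b => ?_⟩
  · rw [← h1, f.apply_symm_apply, f.apply_symm_apply]
  · rw [← h2, f.apply_symm_apply]
  · rw [← h3, f.symm_apply_apply]

theorem Iso.trans {Q R S : QO ω} (h : Iso Q R) (h' : Iso R S) : Iso Q S := by
  obtain ⟨f, h1, h2, h3⟩ := h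
  obtain ⟨g, k1, k2, k3⟩ := h'
  refine ⟨f.trans g, fun x y => ?_, fun x => ?_, fun b => ?_⟩
  · rw [LinearEquiv.trans_apply, LinearEquiv.trans_apply, k1, h1]
  · rw [LinearEquiv.trans_apply, k2, h2]
  · rw [LinearEquiv.trans_apply, h3, k3]

theorem Iso.A_eq {Q R : QO ω} (h : Iso Q R) : Q.A = R.A := by
  obtain ⟨f, -, h2, h3⟩ := h
  ext b
  rw [QO.A_apply, QO.A_apply, ← h3, h2]

/-- The empty word. -/
def QO.one (ω : V →ₗ[ℝ] V →ₗ[ℝ] ℝ) : QO ω where
  E := PUnit
  L := 0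
  p := 0
  X := 0
  rel := fun x y => by simp
  hX := fun y b => by simp

/-- The product. -/
def QO.mul [Alt ω] (Q R : QO ω) : QO ω where
  E := Q.E × R.E
  L := LinearMap.mk₂ ℝ
    (fun a b => Q.L a.1 b.1 + R.L a.2 b.2 - ω (Q.p a.1) (R.p b.2))
    (fun a a' b => by
      simp only [Prod.fst_add, Prod.snd_add, map_add, LinearMap.add_apply]
      ring)
    (fun c a b => by
      simp only [Prod.smul_fst, Prod.smul_snd, map_smul, LinearMap.smul_apply, smul_eq_mul]
      ring)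
    (fun a b b' => by
      simp only [Prod.fst_add, Prod.snd_add, map_add]
      ring)
    (fun c a b => by
      simp only [Prod.smul_fst, Prod.smul_snd, map_smul, smul_eq_mul]
      ring)
  p := Q.p.coprod R.p
  X := (Q.X ∘ₗ R.A).prod R.X
  rel := by
    intro x y
    simp only [LinearMap.mk₂_apply, LinearMap.coprod_apply, map_add, LinearMap.add_apply]
    have h1 := Q.rel x.1 y.1
    have h2 := R.rel x.2 y.2
    have h3 := sk (ω := ω) (R.p x.2) (Q.p y.1)
    linarith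
  hX := by
    intro y b
    change Q.L y.1 (Q.X (R.A b)) + R.L y.2 (R.X b) - ω (Q.p y.1) (R.p (R.X b)) =
      ω (Q.p y.1 + R.p y.2) b
    rw [Q.hX, R.hX, QO.A_apply, map_add, map_add, LinearMap.add_apply]
    ring

theorem QO.mul_L [Alt ω] (Q R : QO ω) (a b : Q.E × R.E) :
    (Q.mul R).L a b = Q.L a.1 b.1 + R.L a.2 b.2 - ω (Q.p a.1) (R.p b.2) := rfl

theorem QO.mul_p [Alt ω] (Q R : QO ω) (a : Q.E × R.E) :
    (Q.mul R).p a = Q.p a.1 + R.p a.2 := rfl

theorem QO.mul_X [Alt ω] (Q R : QO ω) (b : V) : (Q.mul R).X b = (Q.X (R.A b), R.X b) := rfl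

theorem QO.mul_A [Alt ω] (Q R : QO ω) (b : V) : (Q.mul R).A b = Q.A (R.A b) := by
  rw [QO.A_apply, QO.mul_X, QO.mul_p, QO.A_apply Q, QO.A_apply R]
  abel

theorem QO.one_A (b : V) : (QO.one ω).A b = b := by
  exact add_zero b

/-- The letter `[v]`. -/
def ltr [Alt ω] (v : V) : QO ω where
  E := ℝ
  L := LinearMap.mul ℝ ℝ
  p := LinearMap.toSpanSingleton ℝ V v
  X := ω v
  rel := by
    intro x y
    simp [Alt.alt, mul_comm]
  hX := by
    intro y b
    simp

theorem ltr_L [Alt ω] (v : V) (s t : ℝ) : (ltr (ω := ω) v).L s t = s * t := rfl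

theorem ltr_p [Alt ω] (v : V) (t : ℝ) : (ltr (ω := ω) v).p t = t • v := rfl

theorem ltr_X [Alt ω] (v b : V) : (ltr (ω := ω) v).X b = ω v b := rfl

theorem ltr_A [Alt ω] (v b : V) : (ltr (ω := ω) v).A b = b + ω v b • v := rfl

/-- The object of a word. -/
def obj [Alt ω] : List V → QO ω
  | [] => QO.one ω
  | v :: w => (ltr v).mul (obj w)

/-- Twist by a symplectic automorphism. -/
def tw (s : V ≃ₗ[ℝ] V) (hs : ∀ x y, ω (s x) (s y) = ω x y) (Q : QO ω) : QO ω where
  E := Q.E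
  L := Q.L
  p := s.toLinearMap ∘ₗ Q.p
  X := Q.X ∘ₗ s.symm.toLinearMap
  rel := by
    intro x y
    simp only [LinearMap.comp_apply, LinearEquiv.coe_coe, hs]
    exact Q.rel x y
  hX := by
    intro y b
    simp only [LinearMap.comp_apply, LinearEquiv.coe_coe, Q.hX]
    rw [← hs, s.apply_symm_apply]

/-- The transvection. -/
def tv [Alt ω] (v : V) : V ≃ₗ[ℝ] V where
  toFun x := x + ω v x • v
  invFun x := x - ω v x • v
  map_add' x y := by
    rw [map_add, add_smul]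
    abel
  map_smul' c x := by
    rw [map_smul, smul_eq_mul, RingHom.id_apply, smul_add, mul_smul]
  left_inv x := by
    simp [Alt.alt]
  right_inv x := by
    simp [Alt.alt]

theorem tv_apply [Alt ω] (v x : V) : tv (ω := ω) v x = x + ω v x • v := rfl

theorem tv_om [Alt ω] (v x y : V) : ω (tv (ω := ω) v x) (tv (ω := ω) v y) = ω x y := by
  rw [tv_apply, tv_apply]
  simp only [map_add, map_smul, LinearMap.add_apply, LinearMap.smul_apply, smul_eq_mul, Alt.alt]
  rw [sk (ω := ω) x v]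
  ring

end qo

end Pool.Agent.Helper81.SBA
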