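import Pool.Agent.Helper81.SBA.Iso

/-!
# The index of a quadratic object
-/

set_option autoImplicit false

namespace Pool.Agent.Helper81.SBA

open Module

section sig

variable {V : Type} [AddCommGroup V] [Module ℝ V] {ω : V →ₗ[ℝ] V →ₗ[ℝ] ℝ} [Alt ω]

/-- There is a subspace of dimension at least `n` on which `L x x ≥ 0`. -/
def QO.Psd (Q : QO ω) (n : ℕ) : Prop :=
  ∃ W : Submodule ℝ Q.E, n ≤ finrank ℝ W ∧ ∀ x ∈ W, 0 ≤ Q.L x x

/-- There is a subspace of dimension at least `n` on which `L x x < 0` for `x ≠ 0`. -/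
def QO.Neg (Q : QO ω) (n : ℕ) : Prop :=
  ∃ W : Submodule ℝ Q.E, n ≤ finrank ℝ W ∧ ∀ x ∈ W, x ≠ 0 → Q.L x x < 0

private theorem SG1_finrank_prod {E F : Type} [AddCommGroup E] [Module ℝ E] [Module.Finite ℝ E]
    [AddCommGroup F] [Module ℝ F] [Module.Finite ℝ F] (W : Submodule ℝ E) (W' : Submodule ℝ F) :
    finrank ℝ (W.prod W') = finrank ℝ W + finrank ℝ W' := by
  rw [← Module.finrank_prod]
  exact LinearEquiv.finrank_eq
    { toFun := fun z => (⟨z.1.1, z.2.1⟩, ⟨z.1.2, z.2.2⟩)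
      invFun := fun z => ⟨(z.1.1, z.2.1), ⟨z.1.2, z.2.2⟩⟩
      map_add' := fun _ _ => rfl
      map_smul' := fun _ _ => rfl
      left_inv := fun _ => rfl
      right_inv := fun _ => rfl }

/-- PROOF. `W.map f`, `LinearEquiv.finrank_map_eq`. -/
theorem psd_iso {Q R : QO ω} (h : Iso Q R) {n : ℕ} (hQ : Q.Psd n) : R.Psd n := by
  obtain ⟨f, h1, -, -⟩ := h
  obtain ⟨W, hW, h2⟩ := hQ
  refine ⟨W.map f.toLinearMap, ?_, ?_⟩
  · rw [LinearEquiv.finrank_map_eq]
    exact hW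
  · rintro _ ⟨x, hx, rfl⟩
    rw [LinearEquiv.coe_coe, h1]
    exact h2 x hx

theorem neg_iso {Q R : QO ω} (h : Iso Q R) {n : ℕ} (hQ : Q.Neg n) : R.Neg n := by
  obtain ⟨f, h1, -, -⟩ := h
  obtain ⟨W, hW, h2⟩ := hQ
  refine ⟨W.map f.toLinearMap, ?_, ?_⟩
  · rw [LinearEquiv.finrank_map_eq]
    exact hW
  · rintro _ ⟨x, hx, rfl⟩ hne
    rw [LinearEquiv.coe_coe, h1]
    refine h2 x hx fun h0 => hne ?_
    rw [h0, map_zero]

/-- PROOF. The two subspaces meet in `0`:
`Submodule.finrank_sup_add_finrank_inf_eq`, `Submodule.finrank_le`. -/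
theorem psd_neg {Q : QO ω} {a b : ℕ} (h : Q.Psd a) (h' : Q.Neg b) : a + b ≤ finrank ℝ Q.E := by
  obtain ⟨W, hW, h1⟩ := h
  obtain ⟨W', hW', h2⟩ := h'
  have h3 : W ⊓ W' = ⊥ := by
    rw [eq_bot_iff]
    rintro x ⟨hx, hx'⟩
    rw [Submodule.mem_bot]
    by_contra hne
    have h4 := h1 x hx
    have h5 := h2 x hx' hne
    linarith
  have h4 := Submodule.finrank_sup_add_finrank_inf_eq W W'
  rw [h3, finrank_bot, add_zero] at h4
  have h5 := Submodule.finrank_le (W ⊔ W')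
  omega

/-- PROOF. `Q.E × R.E`, `Module.finrank_prod`. -/
theorem finrank_mul (Q R : QO ω) :
    finrank ℝ (Q.mul R).E = finrank ℝ Q.E + finrank ℝ R.E :=
  Module.finrank_prod (R := ℝ) (M := Q.E) (M' := R.E)

/-- The isometry. PROOF. `f (x, y) = (x + (1/2) X (p y), y)`. With `X = Q.X (R.p y)`, `b = R.p y`:
`Q.L x X = ω (p x) b`, `Q.L X x = Q.L x X - ω (p X) (p x)` (`rel`) `= ω (p x) b` as
`Q.p (Q.X b) = 0`, and `Q.L X X = ω (p X) b = 0`. So
`L (f (x, y)) (f (x, y)) = Q.L x x + ω (p x) b + R.L y y - ω (p x + 0) b`. -/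
theorem split (Q R : QO ω) (hQ : ∀ b, Q.p (Q.X b) = 0) :
    ∃ f : (Q.E × R.E) ≃ₗ[ℝ] (Q.mul R).E,
      ∀ x y, (Q.mul R).L (f (x, y)) (f (x, y)) = Q.L x x + R.L y y := by
  let g : (Q.E × R.E) ≃ₗ[ℝ] (Q.E × R.E) :=
    { toFun := fun z => (z.1 + (1 / 2 : ℝ) • Q.X (R.p z.2), z.2)
      invFun := fun z => (z.1 - (1 / 2 : ℝ) • Q.X (R.p z.2), z.2)
      map_add' := fun z w => by
        refine Prod.ext ?_ rfl
        simp only [Prod.fst_add, Prod.snd_add, map_add, smul_add]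
        abel
      map_smul' := fun c z => by
        refine Prod.ext ?_ rfl
        simp only [Prod.smul_fst, Prod.smul_snd, map_smul, RingHom.id_apply, smul_add]
        rw [smul_comm]
      left_inv := fun z => Prod.ext (add_sub_cancel_right _ _) rfl
      right_inv := fun z => Prod.ext (sub_add_cancel _ _) rfl }
  refine ⟨g, fun x y => ?_⟩
  have h1 := Q.hX x (R.p y)
  have h2 := Q.rel (Q.X (R.p y)) x
  have h3 := Q.hX (Q.X (R.p y)) (R.p y)
  rw [hQ, map_zero, LinearMap.zero_apply, neg_zero] at h2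
  rw [hQ, map_zero, LinearMap.zero_apply] at h3
  change Q.L (x + (1 / 2 : ℝ) • Q.X (R.p y)) (x + (1 / 2 : ℝ) • Q.X (R.p y)) + R.L y y -
    ω (Q.p (x + (1 / 2 : ℝ) • Q.X (R.p y))) (R.p y) = _
  simp only [map_add, map_smul, LinearMap.add_apply, LinearMap.smul_apply, smul_eq_mul, hQ,
    smul_zero, LinearMap.zero_apply, map_zero]
  linear_combination (1 / 2 : ℝ) * h1 + (1 / 2 : ℝ) * h2 + (1 / 2 : ℝ) * h1 + (1 / 4 : ℝ) * h3

/-- PROOF. The image under `f` of `split` of the product `W.prod W'` of the two subspaces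
(`Submodule.prod`, its dimension is the sum: `Submodule.prodEquivOfIsCompl`... or
`LinearEquiv` with `W × W'`, `Submodule.prodEquiv`...). -/
theorem psd_mul {Q R : QO ω} (hQ : ∀ b, Q.p (Q.X b) = 0) {a b : ℕ} (h : Q.Psd a)
    (h' : R.Psd b) : (Q.mul R).Psd (a + b) := by
  obtain ⟨W, hW, h1⟩ := h
  obtain ⟨W', hW', h2⟩ := h'
  obtain ⟨f, hf⟩ := split Q R hQ
  refine ⟨(W.prod W').map f.toLinearMap, ?_, ?_⟩
  · rw [LinearEquiv.finrank_map_eq, SG1_finrank_prod]
    omega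
  · rintro _ ⟨⟨x, y⟩, ⟨hx, hy⟩, rfl⟩
    rw [LinearEquiv.coe_coe, hf]
    exact add_nonneg (h1 x hx) (h2 y hy)

theorem neg_mul' {Q R : QO ω} (hQ : ∀ b, Q.p (Q.X b) = 0) {a b : ℕ} (h : Q.Neg a)
    (h' : R.Neg b) : (Q.mul R).Neg (a + b) := by
  obtain ⟨W, hW, h1⟩ := h
  obtain ⟨W', hW', h2⟩ := h'
  obtain ⟨f, hf⟩ := split Q R hQ
  refine ⟨(W.prod W').map f.toLinearMap, ?_, ?_⟩
  · rw [LinearEquiv.finrank_map_eq, SG1_finrank_prod]
    omega
  · rintro _ ⟨⟨x, y⟩, ⟨hx, hy⟩, rfl⟩ hne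
    rw [LinearEquiv.coe_coe, hf]
    by_cases hx0 : x = 0
    · have hy0 : y ≠ 0 := by
        rintro rfl
        apply hne
        rw [hx0, LinearEquiv.coe_coe]
        exact map_zero f
      rw [hx0, map_zero, zero_add]
      exact h2 y hy hy0
    · by_cases hy0 : y = 0
      · rw [hy0, map_zero, add_zero]
        exact h1 x hx hx0
      · exact add_neg (h1 x hx hx0) (h2 y hy hy0)

private theorem index_le_psd {Z : QO ω} {P : ℕ} (hZ : ∀ b, Z.p (Z.X b) = 0) (hP : Z.Psd P)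
    {R : QO ω} {n : ℕ} (hR : R.Psd n) (k : ℕ) : ((Z.pow k).mul R).Psd (k * P + n) := by
  induction k with
  | zero =>
    rw [Nat.zero_mul, Nat.zero_add]
    exact psd_iso (one_mul_iso R).symm hR
  | succ k ih =>
    have h1 := psd_mul hZ hP ih
    have h2 := psd_iso (mul_assoc_iso Z (Z.pow k) R).symm h1
    have h3 : P + (k * P + n) = (k + 1) * P + n := by ring
    rw [h3] at h2
    exact h2

private theorem index_le_neg {Z : QO ω} {N : ℕ} (hZ : ∀ b, Z.p (Z.X b) = 0) (hN : Z.Neg N)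
    {R : QO ω} {n : ℕ} (hR : R.Neg n) (k : ℕ) : ((Z.pow k).mul R).Neg (k * N + n) := by
  induction k with
  | zero =>
    rw [Nat.zero_mul, Nat.zero_add]
    exact neg_iso (one_mul_iso R).symm hR
  | succ k ih =>
    have h1 := neg_mul' hZ hN ih
    have h2 := neg_iso (mul_assoc_iso Z (Z.pow k) R).symm h1
    have h3 : N + (k * N + n) = (k + 1) * N + n := by ring
    rw [h3] at h2
    exact h2

private theorem index_le_dim (Z : QO ω) (k : ℕ) :
    finrank ℝ (Z.pow k).E = k * finrank ℝ Z.E := by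
  induction k with
  | zero =>
    rw [Nat.zero_mul]
    exact Module.finrank_zero_of_subsingleton (R := ℝ) (M := PUnit)
  | succ k ih =>
    have h1 : finrank ℝ (Z.pow (k + 1)).E = finrank ℝ Z.E + finrank ℝ (Z.pow k).E :=
      finrank_mul Z (Z.pow k)
    rw [h1, ih]
    ring

/-- **The index theorem.** PROOF. Induction on `k`: `(Z.pow k).mul Q` has `Psd (k * P + n)` and
`(Z.pow k).mul Z` has `Neg ((k + 1) * N)` (by `mul_assoc_iso`, `psd_iso`, `psd_mul`; note that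
`Z.pow (k + 1) = Z.mul (Z.pow k)` and `((Z.mul (Z.pow k)).mul Q)` is isomorphic to
`Z.mul ((Z.pow k).mul Q)`). Its dimension is `(k + 1) * (P + N)`. By `psd_neg` and `h`
`k * P + n + (k + 1) * N ≤ (k + 1) * (P + N)`. -/
theorem index_le {Z Q : QO ω} {P N k n : ℕ} (hZ : ∀ b, Z.p (Z.X b) = 0)
    (hd : finrank ℝ Z.E = P + N) (hP : Z.Psd P) (hN : Z.Neg N)
    (h : Iso ((Z.pow k).mul Q) ((Z.pow k).mul Z)) (hQ : Q.Psd n) : n ≤ P := by
  have h1 := psd_iso h (index_le_psd hZ hP hQ k)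
  have h2 := index_le_neg hZ hN hN k
  have h3 := psd_neg h1 h2
  rw [finrank_mul, index_le_dim, hd] at h3
  have h4 : k * (P + N) = k * P + k * N := by ring
  rw [h4] at h3
  omega

/-! ### Lower bounds -/

/-- There is a subspace of `ker p` of dimension at least `n` on which `L x x ≥ 0`. -/
def QO.Loc (Q : QO ω) (n : ℕ) : Prop :=
  ∃ F : Submodule ℝ Q.E, n ≤ finrank ℝ F ∧ ∀ x ∈ F, Q.p x = 0 ∧ 0 ≤ Q.L x x

/-- PROOF. Induction on `l`. For `q :: l`: `F = F₁.prod F'` (`L (x, y) (x, y)` is the sum, as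
`Q.p x = 0`). If `X b = (X₁ (A' b), X' b) ∈ F` then `X' b ∈ F'`, so all `p_q (X_q b) = 0` for
`q ∈ l` by induction, and `p' (X' b) = 0`, so `A' b = b` and `X₁ b ∈ F₁`, `p₁ (X₁ b) = 0`. -/
theorem loc_prod (l : List (QO ω × ℕ)) (h : ∀ q ∈ l, q.1.Loc q.2) :
    ∃ F : Submodule ℝ (prodQ (l.map Prod.fst)).E, (l.map Prod.snd).sum ≤ finrank ℝ F ∧
      (∀ x ∈ F, (prodQ (l.map Prod.fst)).p x = 0 ∧ 0 ≤ (prodQ (l.map Prod.fst)).L x x) ∧
      ∀ b, (prodQ (l.map Prod.fst)).X b ∈ F → ∀ q ∈ l, q.1.p (q.1.X b) = 0 := by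
  induction l with
  | nil =>
    refine ⟨⊥, Nat.zero_le _, ?_, ?_⟩
    · intro x hx
      rw [Submodule.mem_bot] at hx
      rw [hx]
      simp
    · intro b _ q hq
      simp at hq
  | cons q l ih =>
    obtain ⟨F', hF', h1, h2⟩ := ih fun r hr => h r (List.mem_cons_of_mem _ hr)
    obtain ⟨F₁, hF₁, h3⟩ := h q List.mem_cons_self
    refine ⟨(F₁.prod F' : Submodule ℝ (q.1.E × (prodQ (l.map Prod.fst)).E)), ?_, ?_, ?_⟩
    · have h4 := SG1_finrank_prod F₁ F'
      have h5 : ((q :: l).map Prod.snd).sum = q.2 + (l.map Prod.snd).sum := by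
        rw [List.map_cons, List.sum_cons]
      rw [h5]
      refine le_trans ?_ (le_of_eq h4.symm)
      omega
    · rintro ⟨x, y⟩ ⟨hx, hy⟩
      obtain ⟨p1, l1⟩ := h3 x hx
      obtain ⟨p2, l2⟩ := h1 y hy
      constructor
      · change q.1.p x + (prodQ (l.map Prod.fst)).p y = 0
        rw [p1, p2, add_zero]
      · change 0 ≤ q.1.L x x + (prodQ (l.map Prod.fst)).L y y -
          ω (q.1.p x) ((prodQ (l.map Prod.fst)).p y)
        rw [p1, map_zero, LinearMap.zero_apply, sub_zero]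
        exact add_nonneg l1 l2
    · intro b hb
      have hb1 : q.1.X ((prodQ (l.map Prod.fst)).A b) ∈ F₁ := hb.1
      have hb2 : (prodQ (l.map Prod.fst)).X b ∈ F' := hb.2
      intro r hr
      rcases List.mem_cons.1 hr with rfl | hr
      · have hA : (prodQ (l.map Prod.fst)).A b = b := by
          rw [QO.A_apply, (h1 _ hb2).1, add_zero]
        rw [hA] at hb1
        exact (h3 _ hb1).1
      · exact h2 b hb2 r hr

/-- The invariants of a list of objects. -/
def inv (l : List (QO ω)) : Submodule ℝ V :=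
  ⨅ Q ∈ l, LinearMap.ker (Q.p ∘ₗ Q.X)

/-- PROOF. `Q = prodQ (l.map Prod.fst)`, `F` of `loc_prod`, `W = F ⊔ range Q.X`. For `x ∈ F`:
`L (x + X b) (x + X b) = L x x + L x (X b) + L (X b) x + L (X b) (X b)`, `L x (X b) = ω (p x) b = 0`,
`L (X b) x = L x (X b) - ω (p (X b)) (p x) = 0`, `L (X b) (X b) = ω (p (X b)) b = 0`.
Dimension: `W` is the range of `F × V → E`, `(x, b) ↦ x + X b`; the kernel of this map is
mapped injectively by `(x, b) ↦ b` into `inv`. -/
theorem psd_prod [FiniteDimensional ℝ V] (l : List (QO ω × ℕ)) (h : ∀ q ∈ l, q.1.Loc q.2)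
    (hA : ∀ b, (prodQ (l.map Prod.fst)).p ((prodQ (l.map Prod.fst)).X b) = 0) {n : ℕ}
    (hn : n + finrank ℝ (inv (l.map Prod.fst)) ≤ (l.map Prod.snd).sum + finrank ℝ V) :
    (prodQ (l.map Prod.fst)).Psd n := by
  obtain ⟨F, hF, h1, h2⟩ := loc_prod l h
  generalize prodQ (l.map Prod.fst) = Q at *
  let φ : (F × V) →ₗ[ℝ] Q.E := F.subtype.coprod Q.X
  have hφ : ∀ z : F × V, φ z = z.1 + Q.X z.2 := fun z => rfl
  refine ⟨LinearMap.range φ, ?_, ?_⟩
  · have h3 := LinearMap.finrank_range_add_finrank_ker φ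
    rw [Module.finrank_prod] at h3
    have h4 : finrank ℝ (LinearMap.ker φ) ≤ finrank ℝ (inv (l.map Prod.fst)) := by
      have hm : ∀ z : LinearMap.ker φ, (z : F × V).2 ∈ inv (l.map Prod.fst) := by
        rintro ⟨⟨x, b⟩, hz⟩
        have h5 : (x : Q.E) + Q.X b = 0 := hz
        have h6 : Q.X b ∈ F := by
          have h7 : Q.X b = -(x : Q.E) := by
            rw [add_comm] at h5
            exact eq_neg_of_add_eq_zero_left h5
          rw [h7]
          exact F.neg_mem x.2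
        have h8 := h2 b h6
        change b ∈ inv (l.map Prod.fst)
        unfold inv
        simp only [Submodule.mem_iInf, LinearMap.mem_ker, LinearMap.comp_apply]
        intro R hR
        obtain ⟨q, hq, rfl⟩ := List.mem_map.1 hR
        exact h8 q hq
      let ψ : LinearMap.ker φ →ₗ[ℝ] inv (l.map Prod.fst) :=
        ((LinearMap.snd ℝ F V).comp (LinearMap.ker φ).subtype).codRestrict _ hm
      refine LinearMap.finrank_le_finrank_of_injective (f := ψ) ?_
      rw [← LinearMap.ker_eq_bot, eq_bot_iff]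
      rintro ⟨⟨x, b⟩, hz⟩ hk
      have hb : b = 0 := congrArg Subtype.val (LinearMap.mem_ker.1 hk)
      have h5 : (x : Q.E) + Q.X b = 0 := hz
      rw [hb, map_zero, add_zero] at h5
      have hx : x = 0 := Subtype.ext h5
      rw [Submodule.mem_bot]
      apply Subtype.ext
      exact Prod.ext hx hb
    omega
  · rintro _ ⟨⟨x, b⟩, rfl⟩
    rw [hφ]
    obtain ⟨p1, l1⟩ := h1 x x.2
    have e1 := Q.hX x b
    have e2 := Q.rel (Q.X b) x
    have e3 := Q.hX (Q.X b) b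
    rw [p1, map_zero, LinearMap.zero_apply] at e1
    rw [hA, map_zero, LinearMap.zero_apply, neg_zero] at e2
    rw [hA, map_zero, LinearMap.zero_apply] at e3
    simp only [map_add, LinearMap.add_apply]
    linarith

end sig

end Pool.Agent.Helper81.SBA
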