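import Pool.Agent.Helper81.SBA.Def
import Pool.Agent.Helper81.SBA.Sig

/-!
# The representation at `t = -1`
-/

set_option autoImplicit false

namespace Pool.Agent.Helper81.SBA

section rp

variable (R : Type) [CommRing R] (m : ℕ)

/-- The alternating form on `R ^ m`: `ω (v_i, v_{i+1}) = 1`. -/
def om : (Fin m → R) →ₗ[R] (Fin m → R) →ₗ[R] R :=
  LinearMap.mk₂ R
    (fun x y => ∑ i, ∑ j, if i.val + 1 = j.val then x i * y j - x j * y i else 0)
    (fun x x' y => by
      simp only [← Finset.sum_add_distrib]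
      refine Finset.sum_congr rfl fun i _ => Finset.sum_congr rfl fun j _ => ?_
      split_ifs <;> simp [add_mul]; ring)
    (fun c x y => by
      simp only [smul_eq_mul, Finset.mul_sum]
      refine Finset.sum_congr rfl fun i _ => Finset.sum_congr rfl fun j _ => ?_
      split_ifs <;> simp; ring)
    (fun x y y' => by
      simp only [← Finset.sum_add_distrib]
      refine Finset.sum_congr rfl fun i _ => Finset.sum_congr rfl fun j _ => ?_
      split_ifs <;> simp [mul_add]; ring)
    (fun c x y => by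
      simp only [smul_eq_mul, Finset.mul_sum]
      refine Finset.sum_congr rfl fun i _ => Finset.sum_congr rfl fun j _ => ?_
      split_ifs <;> simp; ring)

theorem om_apply (x y : Fin m → R) :
    om R m x y = ∑ i, ∑ j, if i.val + 1 = j.val then x i * y j - x j * y i else 0 := rfl

/-- The basis vector number `i` (zero if `m ≤ i`). -/
def vb (i : ℕ) : Fin m → R := fun j => if j.val = i then 1 else 0

variable {R m}

theorem om_self (x : Fin m → R) : om R m x x = 0 := by
  rw [om_apply]
  refine Finset.sum_eq_zero fun i _ => Finset.sum_eq_zero fun j _ => ?_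
  split_ifs
  · ring
  · rfl

theorem om_skew (x y : Fin m → R) : om R m x y = - om R m y x := by
  rw [om_apply, om_apply, ← Finset.sum_neg_distrib]
  refine Finset.sum_congr rfl fun i _ => ?_
  rw [← Finset.sum_neg_distrib]
  refine Finset.sum_congr rfl fun j _ => ?_
  split_ifs
  · ring
  · simp

/-- PROOF. Only the terms with `{i, j} = {i', j'}` survive: `Finset.sum_eq_single`. -/
theorem om_vb {i j : ℕ} (hi : i < m) (hj : j < m) :
    om R m (vb R m i) (vb R m j) = if i + 1 = j then 1 else if j + 1 = i then -1 else 0 := by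
  have key : ∀ (a b : ℕ) (ha : a < m) (hb : b < m),
      (∑ x : Fin m, ∑ y : Fin m, if x.val + 1 = y.val then vb R m a x * vb R m b y else 0) =
        if a + 1 = b then (1 : R) else 0 := by
    intro a b ha hb
    rw [Finset.sum_eq_single (⟨a, ha⟩ : Fin m), Finset.sum_eq_single (⟨b, hb⟩ : Fin m)]
    · simp [vb]
    · intro y _ hy
      have hy' : y.val ≠ b := fun h => hy (Fin.ext h)
      simp [vb, hy']
    · intro h
      exact absurd (Finset.mem_univ _) h
    · intro x _ hx
      have hx' : x.val ≠ a := fun h => hx (Fin.ext h)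
      refine Finset.sum_eq_zero fun y _ => ?_
      simp [vb, hx']
    · intro h
      exact absurd (Finset.mem_univ _) h
  have e1 : om R m (vb R m i) (vb R m j) =
      (∑ x : Fin m, ∑ y : Fin m, if x.val + 1 = y.val then vb R m i x * vb R m j y else 0) -
      ∑ x : Fin m, ∑ y : Fin m, if x.val + 1 = y.val then vb R m j x * vb R m i y else 0 := by
    rw [om_apply, ← Finset.sum_sub_distrib]
    refine Finset.sum_congr rfl fun x _ => ?_
    rw [← Finset.sum_sub_distrib]
    refine Finset.sum_congr rfl fun y _ => ?_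
    split_ifs
    · ring
    · rw [sub_zero]
  rw [e1, key i j hi hj, key j i hj hi]
  split_ifs with h1 h2
  · omega
  · rw [sub_zero]
  · rw [zero_sub]
  · rw [sub_zero]

/-- The transvection `x ↦ x + ω (v, x) v`. -/
def trv (v : Fin m → R) : (Fin m → R) ≃ₗ[R] (Fin m → R) where
  toFun x := x + om R m v x • v
  invFun x := x - om R m v x • v
  map_add' x y := by
    rw [map_add, add_smul]
    abel
  map_smul' c x := by
    rw [map_smul, smul_eq_mul, RingHom.id_apply, smul_add, mul_smul]
  left_inv x := by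
    simp [om_self]
  right_inv x := by
    simp [om_self]

theorem trv_apply (v x : Fin m → R) : trv v x = x + om R m v x • v := rfl

theorem trv_om (v x y : Fin m → R) : om R m (trv v x) (trv v y) = om R m x y := by
  rw [trv_apply, trv_apply]
  simp only [map_add, map_smul, LinearMap.add_apply, LinearMap.smul_apply, smul_eq_mul, om_self]
  rw [om_skew x v]
  ring

/-- PROOF. `LinearEquiv.ext`; `s (x + ω(v, s⁻¹ x) v)`. -/
theorem trv_conj (s : (Fin m → R) ≃ₗ[R] (Fin m → R))
    (hs : ∀ x y, om R m (s x) (s y) = om R m x y) (v : Fin m → R) :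
    s * trv v * s⁻¹ = trv (s v) := by
  refine LinearEquiv.ext fun x => ?_
  have h1 : s (s⁻¹ x) = x := s.apply_symm_apply x
  change s (trv v (s⁻¹ x)) = trv (s v) x
  rw [trv_apply, trv_apply, map_add, map_smul, h1, ← hs v, h1]

theorem trv_neg (v : Fin m → R) : trv (-v) = trv v := by
  ext1 x
  rw [trv_apply, trv_apply, map_neg, LinearMap.neg_apply, smul_neg, neg_smul, neg_neg]

/-- PROOF. `ω v u = 1`: `T_v T_u v = -u`, so `T_v T_u T_v (T_v T_u)⁻¹ = T_{-u} = T_u` by `trv_conj`
and `trv_neg`. `ω v u = -1`: `T_v T_u v = u`. -/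
theorem trv_braid {v u : Fin m → R} (h : om R m v u = 1 ∨ om R m v u = -1) :
    trv v * trv u * trv v = trv u * trv v * trv u := by
  refine LinearEquiv.ext fun x => ?_
  change trv v (trv u (trv v x)) = trv u (trv v (trv u x))
  have h2 : om R m u v = - om R m v u := om_skew u v
  simp only [trv_apply, map_add, map_smul, om_self, h2]
  rcases h with h | h
  · rw [h]
    module
  · rw [h]
    module

theorem trv_comm {v u : Fin m → R} (h : om R m v u = 0) : trv v * trv u = trv u * trv v := by
  refine LinearEquiv.ext fun x => ?_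
  change trv v (trv u x) = trv u (trv v x)
  have h2 : om R m u v = 0 := by rw [om_skew, h, neg_zero]
  simp only [trv_apply, map_add, map_smul, h, h2]
  module

variable (R m)

/-- The representation of the braid group. -/
def rep : BraidGroup m →* ((Fin m → R) ≃ₗ[R] (Fin m → R)) :=
  braidLift (fun i => trv (vb R m i))
    (fun i j h => trv_braid (Or.inl (by rw [om_vb i.2 j.2, if_pos h])))
    (fun i j h => trv_comm (by
      rw [om_vb i.2 j.2, if_neg (by omega), if_neg (by omega)]))

variable {R m}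

theorem rep_sigma (i : Fin m) : rep R m (sigma i) = trv (vb R m i) := braidLift_sigma _ _ _ i

/-- PROOF. `braid_induction`, `trv_om` (for the inverse: substitute). -/
theorem rep_om (g : BraidGroup m) (x y : Fin m → R) :
    om R m (rep R m g x) (rep R m g y) = om R m x y := by
  induction g using braid_induction generalizing x y with
  | h1 =>
    rw [map_one]
    rfl
  | hm g i ih =>
    rw [map_mul, rep_sigma]
    change om R m (rep R m g (trv _ x)) (rep R m g (trv _ y)) = _
    rw [ih, trv_om]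
  | hi g i ih =>
    rw [map_mul, map_inv, rep_sigma]
    change om R m (rep R m g ((trv _)⁻¹ x)) (rep R m g ((trv _)⁻¹ y)) = _
    rw [ih, ← trv_om (vb R m i)]
    have h1 : ∀ z, trv (vb R m i) ((trv (vb R m i))⁻¹ z) = z :=
      fun z => (trv (vb R m i)).apply_symm_apply z
    rw [h1, h1]

/-- PROOF. `trv_conj`, `rep_om`. -/
theorem rep_conj (g : BraidGroup m) (i : Fin m) :
    rep R m (g * sigma i * g⁻¹) = trv (rep R m g (vb R m i)) := by
  rw [map_mul, map_mul, map_inv, rep_sigma]
  exact trv_conj _ (rep_om g) _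

private theorem rp1_om {S : Type} [CommRing S] (f : R →+* S) (x y : Fin m → R) :
    f (om R m x y) = om S m (fun i => f (x i)) (fun i => f (y i)) := by
  rw [om_apply, om_apply, map_sum]
  refine Finset.sum_congr rfl fun i _ => ?_
  rw [map_sum]
  refine Finset.sum_congr rfl fun j _ => ?_
  split_ifs
  · rw [map_sub, map_mul, map_mul]
  · rw [map_zero]

private theorem rp1_vb {S : Type} [CommRing S] (f : R →+* S) (i : ℕ) :
    (fun j => f (vb R m i j)) = vb S m i := by
  funext j
  unfold vb
  split_ifs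
  · rw [map_one]
  · rw [map_zero]

/-- Change of rings. PROOF. `braid_induction`. For `sigma i`: `f (om R m v x) = om S m (f v) (f x)`;
for the inverse: `rep (sigma i)⁻¹ x = x - om v x • v`. -/
theorem rep_map {S : Type} [CommRing S] (f : R →+* S) (g : BraidGroup m) (x : Fin m → R) :
    (fun i => f (rep R m g x i)) = rep S m g (fun i => f (x i)) := by
  induction g using braid_induction generalizing x with
  | h1 =>
    rw [map_one, map_one]
    rfl
  | hm g i ih =>
    rw [map_mul, map_mul, rep_sigma, rep_sigma]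
    change (fun j => f (rep R m g (trv _ x) j)) = rep S m g (trv _ _)
    rw [ih]
    congr 1
    rw [trv_apply, trv_apply, ← rp1_vb f i, ← rp1_om]
    funext j
    simp
  | hi g i ih =>
    rw [map_mul, map_mul, map_inv, map_inv, rep_sigma, rep_sigma]
    change (fun j => f (rep R m g ((trv _)⁻¹ x) j)) = rep S m g ((trv _)⁻¹ _)
    rw [ih]
    congr 1
    change (fun j => f ((x - om R m (vb R m i) x • vb R m i) j)) =
      (fun j => f (x j)) - om S m (vb S m i) (fun j => f (x j)) • vb S m i
    rw [← rp1_vb f i, ← rp1_om]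
    funext j
    simp

theorem om_map {S : Type} [CommRing S] (f : R →+* S) (x y : Fin m → R) :
    f (om R m x y) = om S m (fun i => f (x i)) (fun i => f (y i)) :=
  rp1_om f x y

instance : Alt (om ℝ m) := ⟨om_self⟩

/-- PROOF. With `y`, `om v y = 1`: `v = T_v y - y = T_u y - y = c • u`, `c = om u y`;
`om v y = c * om u y = c ^ 2 = 1`, so `c = 1` or `c = -1`. -/
theorem trv_inj {v u : Fin m → ℝ} (h : trv v = trv u) (hv : ∃ y, om ℝ m v y = 1) :
    u = v ∨ u = -v := by
  obtain ⟨y, hy⟩ := hv
  have h1 : trv v y = trv u y := by rw [h]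
  rw [trv_apply, trv_apply, hy, one_smul] at h1
  have h2 : v = om ℝ m u y • u := add_left_cancel h1
  have h3 : om ℝ m u y * om ℝ m u y = 1 := by
    have h4 : om ℝ m (om ℝ m u y • u) y = 1 := by rw [← h2, hy]
    rw [map_smul, LinearMap.smul_apply, smul_eq_mul] at h4
    exact h4
  rcases mul_self_eq_one_iff.1 h3 with h4 | h4
  · left
    rw [h4, one_smul] at h2
    exact h2.symm
  · right
    rw [h4, neg_smul, one_smul] at h2
    rw [h2, neg_neg]

/-- PROOF. `om v_i v_{i+1} = 1` or `om v_i v_{i-1} = -1`; `rep_om`. -/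
theorem vb_unimod (hm : 2 ≤ m) (g : BraidGroup m) (i : Fin m) :
    ∃ y, om ℝ m (rep ℝ m g (vb ℝ m i)) y = 1 := by
  have hi := i.2
  by_cases h : i.val + 1 < m
  · refine ⟨rep ℝ m g (vb ℝ m (i.val + 1)), ?_⟩
    rw [rep_om, om_vb hi h, if_pos rfl]
  · refine ⟨rep ℝ m g (-vb ℝ m (i.val - 1)), ?_⟩
    rw [rep_om, map_neg, om_vb hi (by omega), if_neg (by omega), if_pos (by omega), neg_neg]

/-- Letters give vectors up to sign. PROOF. `rep_conj`, `trv_inj`, `vb_unimod`. -/
theorem vec_unique (hm : 2 ≤ m) {g h : BraidGroup m} {i j : Fin m}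
    (e : g * sigma i * g⁻¹ = h * sigma j * h⁻¹) :
    rep ℝ m h (vb ℝ m j) = rep ℝ m g (vb ℝ m i) ∨
      rep ℝ m h (vb ℝ m j) = - rep ℝ m g (vb ℝ m i) := by
  have h1 : trv (rep ℝ m g (vb ℝ m i)) = trv (rep ℝ m h (vb ℝ m j)) := by
    rw [← rep_conj, ← rep_conj, e]
  exact trv_inj h1 (vb_unimod hm g i)

/-! ### The full twist acts trivially for an even number of strands -/

private theorem cox_sg (j : ℕ) : rep ℝ m (sg m j) = trv (vb ℝ m j) := by
  unfold sg
  split_ifs with h
  · rw [rep_sigma]
  · rw [map_one]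
    have h1 : vb ℝ m j = 0 := by
      funext i
      have := i.2
      simp only [vb, Pi.zero_apply]
      rw [if_neg (by omega)]
    apply LinearEquiv.ext
    intro x
    rw [trv_apply, h1, smul_zero, add_zero]
    rfl

private theorem cox_run_succ (n : ℕ) (x : Fin m → ℝ) :
    rep ℝ m (run m 0 (n + 1)) x = rep ℝ m (run m 0 n) (trv (vb ℝ m n) x) := by
  change rep ℝ m (run m 0 n * sg m (0 + n)) x = _
  rw [map_mul, LinearEquiv.mul_apply, zero_add, cox_sg]

private theorem cox_fix {n i : ℕ} (hi : n < i) (him : i < m) :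
    rep ℝ m (run m 0 n) (vb ℝ m i) = vb ℝ m i := by
  induction n with
  | zero =>
    change rep ℝ m 1 (vb ℝ m i) = vb ℝ m i
    rw [map_one]
    rfl
  | succ n ih =>
    rw [cox_run_succ, trv_apply, om_vb (by omega) him, if_neg (by omega), if_neg (by omega),
      zero_smul, add_zero]
    exact ih (by omega)

/-- `c = T_0 T_1 ⋯ T_{n-1}` sends `v_i` to `-v_{i+1}` for `i + 1 < n`.
PROOF. `T_j` fixes `v_i` for `j ≥ i + 2`; `T_{i+1} v_i = v_i - v_{i+1}`,
`T_i (v_i - v_{i+1}) = -v_{i+1}`, and `T_j` fixes `v_{i+1}` for `j < i`. Suggestion: induction on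
`n`, `run m 0 (n + 1) = run m 0 n * sg m n`, for `i + 1 = n` the explicit computation. -/
theorem cox_shift {n i : ℕ} (hi : i + 1 < n) (hn : n ≤ m) :
    rep ℝ m (run m 0 n) (vb ℝ m i) = - vb ℝ m (i + 1) := by
  induction n with
  | zero => omega
  | succ n ih =>
    rw [cox_run_succ]
    by_cases h : i + 1 < n
    · rw [trv_apply, om_vb (by omega) (by omega), if_neg (by omega), if_neg (by omega), zero_smul,
        add_zero]
      exact ih h (by omega)
    · obtain rfl : n = i + 1 := by omega
      rw [trv_apply, om_vb (by omega) (by omega), if_neg (by omega), if_pos rfl, neg_smul,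
        one_smul, cox_run_succ]
      have h1 : trv (vb ℝ m i) (vb ℝ m i + -vb ℝ m (i + 1)) = -vb ℝ m (i + 1) := by
        rw [trv_apply, map_add, om_self, map_neg, om_vb (by omega) (by omega), if_pos rfl,
          zero_add, neg_smul, one_smul]
        abel
      rw [h1, map_neg, cox_fix (by omega) (by omega)]

/-- PROOF. Induction on `n`: `T_n v_n = v_n`, and `T_{n-1} v_n = v_n + v_{n-1}`,
`run m 0 n v_n = ∑_{i ≤ n} v_i`: again by induction on `n`:
`run m 0 (n+1) v_{n+1} = run m 0 n (T_n v_{n+1}) = run m 0 n (v_{n+1} + v_n)`, and `run m 0 n`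
fixes `v_{n+1}`. -/
theorem cox_last {n : ℕ} (hn : n + 1 ≤ m) :
    rep ℝ m (run m 0 (n + 1)) (vb ℝ m n) = ∑ i ∈ Finset.range (n + 1), vb ℝ m i := by
  induction n with
  | zero =>
    rw [cox_run_succ, trv_apply, om_self, zero_smul, add_zero, Finset.sum_range_one]
    change rep ℝ m 1 (vb ℝ m 0) = vb ℝ m 0
    rw [map_one]
    rfl
  | succ n ih =>
    have h1 := ih (by omega)
    rw [cox_run_succ, trv_apply, om_self, zero_smul, add_zero] at h1
    rw [cox_run_succ, trv_apply, om_self, zero_smul, add_zero, cox_run_succ, trv_apply,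
      om_vb (by omega) (by omega), if_pos rfl, one_smul, map_add, cox_fix (by omega) (by omega), h1,
      Finset.sum_range_succ (n := n + 1), add_comm]

/-- PROOF. Let `c = rep (run m 0 m)`, `v_m := (-1)^m • c v_{m-1} = (-1)^(m) ∑ v_i`, so that
`c v_i = - v_{i+1}`... With `u_i = (-1)^i v_i` (`i < m`): `c u_i = u_{i+1}` for `i + 1 < m`,
`c u_{m-1} = (-1)^(m-1) ∑ v_i =: u`, `c u = (-1)^(m+1) u_0` (`m = n + 1`; from
`c ∑ v_i = - ∑_{1 ≤ i < m} v_i + ∑_{i < m} v_i = v_0`!). Indeed `c (∑ v_i) = v_0`. So
`c^(m+1) u_0 = c (c u_{m-1}) = (-1)^(m-1) c (∑ v_i) = (-1)^(m-1) v_0 = u_0` for `m` odd, and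
`c^(m+1) u_i = c^(m+1) c^i u_0 = c^i c^(m+1) u_0 = u_i`. The `u_i` span. -/
theorem rep_twist (hm : Odd m) : rep ℝ m (twist m 0 (m + 1)) = 1 := by
  have hm1 : 1 ≤ m := hm.pos
  obtain ⟨c, hc⟩ : ∃ c, c = rep ℝ m (run m 0 m) := ⟨_, rfl⟩
  have e0 : rep ℝ m (twist m 0 (m + 1)) = c ^ (m + 1) := by
    unfold twist
    rw [map_pow, hc, Nat.add_sub_cancel]
  rw [e0]
  have hshift : ∀ i, i + 1 < m → c (vb ℝ m i) = -vb ℝ m (i + 1) := by
    intro i hi
    rw [hc]
    exact cox_shift hi le_rfl
  have hlast : c (vb ℝ m (m - 1)) = ∑ i ∈ Finset.range m, vb ℝ m i := by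
    have h1 := cox_last (m := m) (n := m - 1) (by omega)
    rw [Nat.sub_add_cancel hm1] at h1
    rw [hc]
    exact h1
  have hsum : c (∑ i ∈ Finset.range m, vb ℝ m i) = vb ℝ m 0 := by
    have h1 : ∑ i ∈ Finset.range m, vb ℝ m i =
        (∑ i ∈ Finset.range (m - 1), vb ℝ m i) + vb ℝ m (m - 1) := by
      rw [← Finset.sum_range_succ, Nat.sub_add_cancel hm1]
    have h2 : ∑ i ∈ Finset.range m, vb ℝ m i =
        (∑ i ∈ Finset.range (m - 1), vb ℝ m (i + 1)) + vb ℝ m 0 := by
      rw [← Finset.sum_range_succ', Nat.sub_add_cancel hm1]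
    have h3 : c (∑ i ∈ Finset.range (m - 1), vb ℝ m i) =
        -∑ i ∈ Finset.range (m - 1), vb ℝ m (i + 1) := by
      rw [map_sum, ← Finset.sum_neg_distrib]
      refine Finset.sum_congr rfl fun i hi => hshift i ?_
      have := Finset.mem_range.1 hi
      omega
    rw [h1, map_add, h3, hlast, h2]
    abel
  have hpow : ∀ k, k < m → (c ^ k) (vb ℝ m 0) = (-1 : ℝ) ^ k • vb ℝ m k := by
    intro k
    induction k with
    | zero =>
      intro _
      rw [pow_zero, pow_zero, one_smul]
      rfl
    | succ k ih =>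
      intro hk
      rw [pow_succ', LinearEquiv.mul_apply, ih (by omega), map_smul, hshift k hk, pow_succ,
        smul_neg, mul_neg, mul_one, neg_smul]
  have hm0 : (c ^ (m + 1)) (vb ℝ m 0) = vb ℝ m 0 := by
    obtain ⟨k, hk⟩ := hm
    have h1 : c ^ (m + 1) = c * (c * c ^ (m - 1)) := by
      rw [← pow_succ', ← pow_succ']
      congr 1
      omega
    have h2 : (-1 : ℝ) ^ (m - 1) = 1 := by
      rw [hk, Nat.add_sub_cancel, pow_mul]
      norm_num
    rw [h1, LinearEquiv.mul_apply, LinearEquiv.mul_apply, hpow (m - 1) (by omega), h2, one_smul,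
      hlast, hsum]
  have hall : ∀ k, k < m → (c ^ (m + 1)) (vb ℝ m k) = vb ℝ m k := by
    intro k hk
    have h1 : (c ^ (m + 1)) ((c ^ k) (vb ℝ m 0)) = (c ^ k) (vb ℝ m 0) := by
      rw [← LinearEquiv.mul_apply, ← pow_add, add_comm, pow_add, LinearEquiv.mul_apply, hm0]
    rw [hpow k hk, map_smul] at h1
    exact smul_right_injective _ (pow_ne_zero k (by norm_num : (-1 : ℝ) ≠ 0)) h1
  apply LinearEquiv.ext
  intro x
  have hx : x = ∑ i : Fin m, x i • vb ℝ m i := by
    funext j
    rw [Finset.sum_apply, Finset.sum_eq_single j]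
    · simp [vb]
    · intro i _ hij
      have : ¬ j.val = i.val := fun h => hij (Fin.ext h.symm)
      simp [vb, this]
    · intro h
      exact absurd (Finset.mem_univ j) h
  change (c ^ (m + 1)) x = x
  conv_lhs => rw [hx]
  rw [map_sum]
  conv_rhs => rw [hx]
  refine Finset.sum_congr rfl fun i _ => ?_
  rw [map_smul, hall i i.2]

end rp

end Pool.Agent.Helper81.SBA
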